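import Mathlib

/-!
# RM module Cn: the numbers `C(n) = ∫_0^π (2 sin t)^p cos (2 n t) dt`

Paper section 5, `δ = 2 - p`, `P = p / 2`.
-/

open MeasureTheory intervalIntegral Real

namespace Pool.Agent.H65.RM

/-- the numbers `C(n)` -/
noncomputable def Cn (p : ℝ) (n : ℤ) : ℝ :=
  ∫ t in (0 : ℝ)..π, (2 * sin t) ^ p * cos (2 * n * t)

/-- their values at `p = 2` -/
noncomputable def C0 (n : ℤ) : ℝ := if n = 0 then 2 * π else if n = 1 ∨ n = -1 then -π else 0

variable {p : ℝ}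

lemma Cn_neg (p : ℝ) (n : ℤ) : Cn p (-n) = Cn p n := by
  unfold Cn
  congr 1
  funext t
  rw [show (2 * ((-n : ℤ) : ℝ) * t) = -(2 * n * t) by push_cast; ring, cos_neg]

lemma cn_cont_pow (hp : 0 ≤ p) : Continuous fun t : ℝ => (2 * sin t) ^ p :=
  (Real.continuous_rpow_const hp).comp (by fun_prop)

lemma cn_cont (hp : 0 ≤ p) (n : ℤ) : Continuous fun t : ℝ => (2 * sin t) ^ p * cos (2 * n * t) :=
  (cn_cont_pow hp).mul (by fun_prop)

lemma Cn_rec (hp : 0 < p) (n : ℤ) :
    ((n : ℝ) + p / 2) * Cn p n = ((n : ℝ) - 1 - p / 2) * Cn p (n - 1) := by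
  have hderiv : ∀ t : ℝ, t ∈ Set.uIcc (0 : ℝ) π →
      HasDerivAt (fun t : ℝ => (2 * sin t) ^ (p + 1) * cos ((2 * n - 1) * t))
        ((p + 2 * n) * ((2 * sin t) ^ p * cos (2 * n * t)) +
          (p + 2 - 2 * n) * ((2 * sin t) ^ p * cos (2 * ((n - 1 : ℤ) : ℝ) * t))) t := by
    intro t ht
    rw [Set.uIcc_of_le pi_pos.le] at ht
    have hs : 0 ≤ 2 * sin t := mul_nonneg (by norm_num) (sin_nonneg_of_mem_Icc ht)
    have h1 : HasDerivAt (fun t : ℝ => 2 * sin t) (2 * cos t) t := (hasDerivAt_sin t).const_mul 2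
    have h2 := h1.rpow_const (p := p + 1) (Or.inr (by linarith))
    have h3 : HasDerivAt (fun t : ℝ => cos ((2 * n - 1) * t))
        (-sin ((2 * n - 1) * t) * (2 * n - 1)) t := by
      have := ((hasDerivAt_id t).const_mul (2 * (n : ℝ) - 1)).cos
      simpa using this
    have h4 := h2.mul h3
    refine h4.congr_deriv ?_
    have e1 : (2 * sin t) ^ (p + 1) = (2 * sin t) ^ p * (2 * sin t) := by
      rw [rpow_add_one' hs (by linarith)]
    have e2 : p + 1 - 1 = p := by ring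
    rw [e2, e1]
    have e3 : (2 * (n : ℝ) * t) = (2 * n - 1) * t + t := by ring
    have e4 : (2 * ((n - 1 : ℤ) : ℝ) * t) = (2 * n - 1) * t - t := by push_cast; ring
    rw [e3, e4, cos_add, cos_sub]
    ring
  have hint : IntervalIntegrable (fun t : ℝ => (p + 2 * n) * ((2 * sin t) ^ p * cos (2 * n * t)) +
      (p + 2 - 2 * n) * ((2 * sin t) ^ p * cos (2 * ((n - 1 : ℤ) : ℝ) * t))) volume 0 π := by
    apply Continuous.intervalIntegrable
    exact (continuous_const.mul (cn_cont hp.le n)).add (continuous_const.mul (cn_cont hp.le (n - 1)))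
  have h := integral_eq_sub_of_hasDerivAt hderiv hint
  have z1 : (0 : ℝ) ^ (p + 1) = 0 := zero_rpow (by linarith)
  rw [intervalIntegral.integral_add, intervalIntegral.integral_const_mul,
    intervalIntegral.integral_const_mul] at h
  · simp only [sin_pi, sin_zero, mul_zero, z1, zero_mul, sub_zero] at h
    unfold Cn
    linarith
  · exact (continuous_const.mul (cn_cont hp.le n)).intervalIntegrable _ _
  · exact (continuous_const.mul (cn_cont hp.le (n - 1))).intervalIntegrable _ _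

lemma cn_abs_pow_sub {x : ℝ} (hx0 : 0 ≤ x) (hx : x ≤ 2) (hp1 : 1.9 < p) (hp2 : p < 2) :
    |x ^ p - x ^ 2| ≤ 3 * (2 - p) := by
  rcases hx0.eq_or_lt with rfl | hx0
  · rw [zero_rpow (by linarith)]
    norm_num
    linarith
  have h1 : x ^ p = x ^ 2 * x ^ (p - 2) := by
    rw [← rpow_natCast x 2, ← rpow_add hx0]
    norm_num
  rcases le_total 1 x with h | h
  · -- x ≥ 1
    have hl : x ^ (p - 2) ≤ 1 := rpow_le_one_of_one_le_of_nonpos h (by linarith)
    have hl2 : 1 + (p - 2) * log x ≤ x ^ (p - 2) := by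
      rw [rpow_def_of_pos hx0]
      have := add_one_le_exp (log x * (p - 2))
      linarith
    have hlog : log x ≤ 0.6932 := by
      have := log_le_log hx0 hx
      linarith [log_two_lt_d9]
    have hlog0 : 0 ≤ log x := log_nonneg h
    rw [h1, abs_le]
    constructor
    · nlinarith [mul_nonneg (sub_nonneg.2 hp2.le) hlog0, sq_nonneg x, mul_le_mul_of_nonneg_left hlog (sub_nonneg.2 hp2.le), pow_le_pow_left₀ hx0.le hx 2]
    · nlinarith [sq_nonneg x]
  · -- x ≤ 1
    have hl : 1 ≤ x ^ (p - 2) := one_le_rpow_of_pos_of_le_one_of_nonpos hx0 h (by linarith)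
    have hu : x ^ p - x ^ 2 ≤ 3 * (2 - p) := by
      -- convexity: x^2 ≥ x^p (1 + (2-p) log x), so x^p - x^2 ≤ (2-p) x^p |log x| ≤ (2-p)
      have h2 : x ^ 2 = x ^ p * x ^ (2 - p) := by
        rw [← rpow_natCast x 2, ← rpow_add hx0]
        norm_num
      have h3 : 1 + (2 - p) * log x ≤ x ^ (2 - p) := by
        rw [rpow_def_of_pos hx0]
        have := add_one_le_exp (log x * (2 - p))
        linarith
      have h4 : 0 ≤ x ^ p := rpow_nonneg hx0.le _
      have h5 : x ^ p ≤ x := by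
        have := rpow_le_rpow_of_exponent_ge hx0 h (show (1 : ℝ) ≤ p by linarith)
        rwa [rpow_one] at this
      have h6 : -log x ≤ 1 / x := by
        have := one_sub_inv_le_log_of_pos hx0
        rw [one_div]
        linarith
      have h7 : x ^ p * (-log x) ≤ 1 := by
        calc x ^ p * (-log x) ≤ x * (1 / x) := by
              apply mul_le_mul h5 h6 (by linarith [log_nonpos hx0.le h]) hx0.le
          _ = 1 := by field_simp
      rw [h2]
      nlinarith [mul_le_mul_of_nonneg_left h3 h4]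
    rw [abs_le]
    constructor
    · have : 0 ≤ x ^ p - x ^ 2 := by
        rw [h1]
        nlinarith [sq_nonneg x]
      linarith
    · exact hu

lemma Cn_two_aux (n : ℤ) : ∫ t in (0 : ℝ)..π, (2 * sin t) ^ 2 * cos (2 * n * t) = C0 n := by
  have hcos : ∀ k : ℤ, ∫ t in (0 : ℝ)..π, cos (2 * k * t) = if k = 0 then π else 0 := by
    intro k
    split_ifs with hk
    · subst hk
      simp
    · have hk' : (2 * (k : ℝ)) ≠ 0 := by
        have : (k : ℝ) ≠ 0 := by exact_mod_cast hk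
        positivity
      rw [intervalIntegral.integral_comp_mul_left (fun x => cos x) hk', integral_cos]
      have h1 : sin (2 * (k : ℝ) * π) = 0 := by
        have := Real.sin_int_mul_pi (2 * k)
        push_cast at this
        exact this
      rw [h1, mul_zero, sin_zero]
      simp
  have hfun : ∀ t : ℝ, (2 * sin t) ^ 2 * cos (2 * n * t) =
      2 * cos (2 * n * t) - cos (2 * ((n + 1 : ℤ) : ℝ) * t) - cos (2 * ((n - 1 : ℤ) : ℝ) * t) := by
    intro t
    have e1 : (2 * ((n + 1 : ℤ) : ℝ) * t) = 2 * n * t + 2 * t := by push_cast; ring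
    have e2 : (2 * ((n - 1 : ℤ) : ℝ) * t) = 2 * n * t - 2 * t := by push_cast; ring
    rw [e1, e2, cos_add, cos_sub, cos_two_mul t]
    have := sin_sq_add_cos_sq t
    have h2 : sin t ^ 2 = 1 - cos t ^ 2 := by linarith
    rw [mul_pow, h2]
    ring
  simp_rw [hfun]
  rw [intervalIntegral.integral_sub, intervalIntegral.integral_sub,
    intervalIntegral.integral_const_mul, hcos, hcos, hcos]
  · unfold C0
    by_cases h0 : n = 0
    · subst h0
      simp
    · by_cases h1 : n = 1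
      · subst h1
        simp
      · by_cases h2 : n = -1
        · subst h2
          simp
        · have h3 : n + 1 ≠ 0 := by omega
          have h4 : n - 1 ≠ 0 := by omega
          simp [h0, h1, h2, h3, h4]
  · exact (by fun_prop : Continuous _).intervalIntegrable _ _
  · exact (by fun_prop : Continuous _).intervalIntegrable _ _
  · exact (by fun_prop : Continuous _).intervalIntegrable _ _
  · exact (by fun_prop : Continuous _).intervalIntegrable _ _

/-- closeness to the values at `p = 2` -/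
theorem Cn_close (hp1 : 1.9 < p) (hp2 : p < 2) (n : ℤ) : |Cn p n - C0 n| ≤ 10 * (2 - p) := by
  rw [← Cn_two_aux, Cn, ← intervalIntegral.integral_sub]
  · have h := intervalIntegral.norm_integral_le_of_norm_le_const (a := 0) (b := π)
      (C := 3 * (2 - p)) (f := fun t => (2 * sin t) ^ p * cos (2 * n * t) -
        (2 * sin t) ^ 2 * cos (2 * n * t)) (by
        intro t ht
        rw [Set.uIoc_of_le pi_pos.le] at ht
        have hs : 0 ≤ sin t := sin_nonneg_of_mem_Icc ⟨ht.1.le, ht.2⟩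
        have hs1 := sin_le_one t
        have h1 := cn_abs_pow_sub (x := 2 * sin t) (by linarith) (by linarith) hp1 hp2
        rw [← sub_mul, norm_mul, Real.norm_eq_abs, Real.norm_eq_abs]
        calc _ ≤ 3 * (2 - p) * 1 :=
              mul_le_mul h1 (abs_cos_le_one _) (abs_nonneg _) (by linarith)
          _ = _ := mul_one _)
    rw [Real.norm_eq_abs, sub_zero, abs_of_pos pi_pos] at h
    refine h.trans ?_
    nlinarith [pi_lt_d2]
  · exact (cn_cont (by linarith) n).intervalIntegrable _ _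
  · exact (by fun_prop : Continuous fun t : ℝ => (2 * sin t) ^ 2 * cos (2 * n * t)).intervalIntegrable
      _ _

lemma Cn_one_le (hp1 : 1.9 < p) (hp2 : p < 2) : Cn p 1 ≤ -2 := by
  have h := Cn_close hp1 hp2 1
  have h0 : C0 1 = -π := by simp [C0]
  rw [h0, abs_le] at h
  linarith [h.2, pi_gt_d2]

theorem Cn_one_abs (hp1 : 1.9 < p) (hp2 : p < 2) : 2 ≤ |Cn p 1| := by
  have := Cn_one_le hp1 hp2
  rw [abs_of_nonpos (by linarith)]
  linarith

lemma C0_abs_le (n : ℤ) : |C0 n| ≤ 2 * π := by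
  unfold C0
  split_ifs
  · rw [abs_of_pos (by positivity)]
  · rw [abs_neg, abs_of_pos pi_pos]
    linarith [pi_pos]
  · simp [pi_pos.le]

theorem Cn_abs_le (hp1 : 1.9 < p) (hp2 : p < 2) (n : ℤ) : |Cn p n| ≤ 10 := by
  have h := Cn_close hp1 hp2 n
  have h0 := C0_abs_le n
  have h1 : |Cn p n| ≤ |Cn p n - C0 n| + |C0 n| := by
    have := abs_add_le (Cn p n - C0 n) (C0 n)
    simpa using this
  linarith [pi_lt_d2]

/-- absolute values, for `n ≥ 2` -/
lemma Cn_abs_rec (hp1 : 1.9 < p) (hp2 : p < 2) {n : ℤ} (hn : 2 ≤ n) :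
    ((n : ℝ) + p / 2) * |Cn p n| = ((n : ℝ) - 1 - p / 2) * |Cn p (n - 1)| := by
  have h := Cn_rec (p := p) (by linarith) n
  have hn' : (2 : ℝ) ≤ n := by exact_mod_cast hn
  have h1 := congrArg abs h
  rw [abs_mul, abs_mul, abs_of_pos (show 0 < (n : ℝ) + p / 2 by linarith),
    abs_of_nonneg (show 0 ≤ (n : ℝ) - 1 - p / 2 by linarith)] at h1
  exact h1

lemma Cn_pos (hp1 : 1.9 < p) (hp2 : p < 2) (n : ℕ) : 0 < |Cn p ((n : ℤ) + 1)| := by
  induction n with
  | zero =>
    have := Cn_one_abs hp1 hp2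
    simp only [Nat.cast_zero, zero_add]
    linarith
  | succ n ih =>
    have h := Cn_abs_rec hp1 hp2 (n := ((n + 1 : ℕ) : ℤ) + 1) (by push_cast; omega)
    have e : ((n + 1 : ℕ) : ℤ) + 1 - 1 = (n : ℤ) + 1 := by push_cast; ring
    rw [e] at h
    have h1 : 0 < ((((n + 1 : ℕ) : ℤ) + 1 : ℤ) : ℝ) - 1 - p / 2 := by
      push_cast
      have : (0 : ℝ) ≤ n := n.cast_nonneg
      linarith
    have h2 : 0 < ((((n + 1 : ℕ) : ℤ) + 1 : ℤ) : ℝ) + p / 2 := by
      push_cast
      have : (0 : ℝ) ≤ n := n.cast_nonneg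
      linarith
    by_contra hcon
    have h3 : |Cn p (((n + 1 : ℕ) : ℤ) + 1)| = 0 := le_antisymm (not_lt.1 hcon) (abs_nonneg _)
    rw [h3, mul_zero] at h
    have := mul_pos h1 ih
    linarith

lemma Cn_ne_zero (hp1 : 1.9 < p) (hp2 : p < 2) {K : ℤ} (hK : 1 ≤ K) : Cn p K ≠ 0 := by
  have := Cn_pos hp1 hp2 (K - 1).toNat
  have e : (((K - 1).toNat : ℕ) : ℤ) + 1 = K := by omega
  rw [e] at this
  exact abs_pos.1 this

/-- `|C|` decreases -/
lemma Cn_anti (hp1 : 1.9 < p) (hp2 : p < 2) {m : ℤ} (hm : 1 ≤ m) (k : ℕ) :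
    |Cn p (m + k)| ≤ |Cn p m| := by
  induction k with
  | zero => simp
  | succ k ih =>
    refine le_trans ?_ ih
    have h := Cn_abs_rec hp1 hp2 (n := m + ((k + 1 : ℕ) : ℤ)) (by push_cast; omega)
    have e : m + ((k + 1 : ℕ) : ℤ) - 1 = m + k := by push_cast; ring
    rw [e] at h
    have hm' : (1 : ℝ) ≤ m := by exact_mod_cast hm
    have hk : (0 : ℝ) ≤ k := k.cast_nonneg
    push_cast at h ⊢
    have h1 : 0 < (m : ℝ) + (k + 1) + p / 2 := by linarith
    have h2 : ((m : ℝ) + (k + 1) + p / 2) * |Cn p (m + (k + 1))| ≤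
        ((m : ℝ) + (k + 1) + p / 2) * |Cn p (m + k)| := by
      rw [h]
      apply mul_le_mul_of_nonneg_right _ (abs_nonneg _)
      linarith
    exact le_of_mul_le_mul_left h2 h1

/-- `|C(n)| (n-1) n (n+1)` increases -/
lemma Cn_mono3 (hp1 : 1.9 < p) (hp2 : p < 2) {m : ℤ} (hm : 2 ≤ m) (k : ℕ) :
    |Cn p m| * (((m : ℝ) - 1) * m * (m + 1)) ≤
      |Cn p (m + k)| * (((m : ℝ) + k - 1) * (m + k) * (m + k + 1)) := by
  induction k with
  | zero => simp
  | succ k ih =>
    refine le_trans ih ?_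
    have h := Cn_abs_rec hp1 hp2 (n := m + ((k + 1 : ℕ) : ℤ)) (by push_cast; omega)
    have e : m + ((k + 1 : ℕ) : ℤ) - 1 = m + k := by push_cast; ring
    rw [e] at h
    have hm' : (2 : ℝ) ≤ m := by exact_mod_cast hm
    have hk : (0 : ℝ) ≤ k := k.cast_nonneg
    push_cast at h ⊢
    set A := |Cn p (m + k)| with hA
    set B := |Cn p (m + (k + 1))| with hB
    have hA0 : 0 ≤ A := abs_nonneg _
    have hB0 : 0 ≤ B := abs_nonneg _
    set x : ℝ := m + k with hx
    have hx2 : 2 ≤ x := by rw [hx]; linarith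
    have h' : (x + 1 + p / 2) * B = (x - p / 2) * A := by
      have e1 : (m : ℝ) + (k + 1) + p / 2 = x + 1 + p / 2 := by rw [hx]; ring
      have e2 : (m : ℝ) + (k + 1) - 1 - p / 2 = x - p / 2 := by rw [hx]; ring
      rw [e1, e2] at h
      exact h
    have e3 : (m : ℝ) + k - 1 = x - 1 := by rw [hx]
    have e4 : (m : ℝ) + (k + 1) - 1 = x := by rw [hx]; ring
    have e5 : (m : ℝ) + (k + 1) = x + 1 := by rw [hx]; ring
    rw [e4, e5]
    have key : A * (x - 1) ≤ B * (x + 2) := by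
      have h1 : 0 < x + 1 + p / 2 := by linarith
      have h2 : (x + 1 + p / 2) * (A * (x - 1)) ≤ (x + 1 + p / 2) * (B * (x + 2)) := by
        have : (x + 1 + p / 2) * (B * (x + 2)) = (x - p / 2) * A * (x + 2) := by
          rw [← h']; ring
        rw [this]
        have h3 : (x + 1 + p / 2) * (x - 1) ≤ (x - p / 2) * (x + 2) := by nlinarith
        nlinarith [mul_le_mul_of_nonneg_right h3 hA0]
      exact le_of_mul_le_mul_left h2 h1
    have h4 : 0 ≤ x * (x + 1) := by positivity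
    calc A * ((x - 1) * x * (x + 1)) = (A * (x - 1)) * (x * (x + 1)) := by ring
      _ ≤ (B * (x + 2)) * (x * (x + 1)) := mul_le_mul_of_nonneg_right key h4
      _ = _ := by ring

/-- (5a) -/
theorem Cn_5a (hp1 : 1.9 < p) (hp2 : p < 2) {n K : ℤ} (hn : 2 ≤ n) (hK : 2 ≤ K) :
    |Cn p n| ≤ |Cn p K| * (1 + |(K : ℝ) - n|) ^ 3 := by
  rcases le_total K n with h | h
  · have h1 := Cn_anti hp1 hp2 (m := K) (by omega) (n - K).toNat
    have e : K + (((n - K).toNat : ℕ) : ℤ) = n := by omega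
    rw [e] at h1
    refine h1.trans ?_
    have h2 : (1 : ℝ) ≤ (1 + |(K : ℝ) - n|) ^ 3 := one_le_pow₀ (by linarith [abs_nonneg ((K : ℝ) - n)])
    nlinarith [abs_nonneg (Cn p K)]
  · have h1 := Cn_mono3 hp1 hp2 (m := n) hn (K - n).toNat
    have e : n + (((K - n).toNat : ℕ) : ℤ) = K := by omega
    have e' : (n : ℝ) + (((K - n).toNat : ℕ) : ℝ) = K := by exact_mod_cast e
    rw [e, e'] at h1
    have hn' : (2 : ℝ) ≤ n := by exact_mod_cast hn
    have hK' : (n : ℝ) ≤ K := by exact_mod_cast h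
    rw [abs_of_nonneg (show 0 ≤ (K : ℝ) - n by linarith)]
    set D : ℝ := 1 + (K - n) with hD
    have hD1 : 1 ≤ D := by rw [hD]; linarith
    have a1 : (K : ℝ) - 1 ≤ (n - 1) * D := by rw [hD]; nlinarith
    have a2 : (K : ℝ) ≤ n * D := by rw [hD]; nlinarith
    have a3 : (K : ℝ) + 1 ≤ (n + 1) * D := by rw [hD]; nlinarith
    have a4 : ((K : ℝ) - 1) * K * (K + 1) ≤ ((n - 1) * D) * (n * D) * ((n + 1) * D) := by
      apply mul_le_mul
      · exact mul_le_mul a1 a2 (by linarith) (by nlinarith)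
      · exact a3
      · linarith
      · have : 0 ≤ ((n : ℝ) - 1) * D := mul_nonneg (by linarith) (by linarith)
        positivity
    have hpos : 0 < ((n : ℝ) - 1) * n * (n + 1) := by
      have : 0 < (n : ℝ) - 1 := by linarith
      positivity
    have h2 : |Cn p n| * (((n : ℝ) - 1) * n * (n + 1)) ≤
        (|Cn p K| * D ^ 3) * (((n : ℝ) - 1) * n * (n + 1)) := by
      refine h1.trans ?_
      calc |Cn p K| * (((K : ℝ) - 1) * K * (K + 1)) ≤
            |Cn p K| * (((n - 1) * D) * (n * D) * ((n + 1) * D)) :=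
            mul_le_mul_of_nonneg_left a4 (abs_nonneg _)
        _ = _ := by ring
    exact le_of_mul_le_mul_right h2 hpos

/-- lower bound -/
theorem Cn_low (hp1 : 1.9 < p) (hp2 : p < 2) {K : ℤ} (hK : 1 ≤ K) :
    2 * (2 - p) ≤ |Cn p K| * (K : ℝ) ^ 3 := by
  rcases hK.eq_or_lt with rfl | hK
  · have := Cn_one_abs hp1 hp2
    norm_num
    linarith
  have hK : 2 ≤ K := hK
  have h1 := Cn_mono3 hp1 hp2 (m := 2) le_rfl (K - 2).toNat
  have e : 2 + (((K - 2).toNat : ℕ) : ℤ) = K := by omega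
  have e' : ((2 : ℤ) : ℝ) + (((K - 2).toNat : ℕ) : ℝ) = K := by exact_mod_cast e
  rw [e, e'] at h1
  have h2 := Cn_abs_rec hp1 hp2 (n := 2) le_rfl
  rw [show (2 : ℤ) - 1 = 1 by norm_num] at h2
  push_cast at h1 h2
  have h3 := Cn_one_abs hp1 hp2
  have h4 : 2 - p ≤ 3 * |Cn p 2| := by nlinarith [abs_nonneg (Cn p 2)]
  have hK' : (2 : ℝ) ≤ K := by exact_mod_cast hK
  have h5 : ((K : ℝ) - 1) * K * (K + 1) ≤ (K : ℝ) ^ 3 := by nlinarith
  have h6 : |Cn p K| * (((K : ℝ) - 1) * K * (K + 1)) ≤ |Cn p K| * (K : ℝ) ^ 3 :=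
    mul_le_mul_of_nonneg_left h5 (abs_nonneg _)
  linarith

/-- (5b), the constant is 5 -/
theorem Cn_5b (hp1 : 1.9 < p) (hp2 : p < 2) {n K : ℤ} (hK : 1 ≤ K) :
    |Cn p n| ≤ 5 / (2 - p) * |Cn p K| * (1 + |(K : ℝ) - n|) ^ 3 := by
  have hd : 0 < 2 - p := by linarith
  have hK' : (1 : ℝ) ≤ K := by exact_mod_cast hK
  have hlow := Cn_low hp1 hp2 hK
  have hCK : 0 ≤ |Cn p K| := abs_nonneg _
  by_cases hn : |n| ≤ 1
  · have hn' : |(n : ℝ)| ≤ 1 := by exact_mod_cast hn
    have h1 : (K : ℝ) ≤ 1 + |(K : ℝ) - n| := by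
      have := le_abs_self ((K : ℝ) - n)
      have := (abs_le.1 hn').2
      linarith
    have h2 : (K : ℝ) ^ 3 ≤ (1 + |(K : ℝ) - n|) ^ 3 := pow_le_pow_left₀ (by linarith) h1 3
    calc |Cn p n| ≤ 10 := Cn_abs_le hp1 hp2 n
      _ = 5 / (2 - p) * (2 * (2 - p)) := by field_simp; norm_num
      _ ≤ 5 / (2 - p) * (|Cn p K| * (K : ℝ) ^ 3) := by
          apply mul_le_mul_of_nonneg_left hlow (by positivity)
      _ ≤ 5 / (2 - p) * (|Cn p K| * (1 + |(K : ℝ) - n|) ^ 3) := by
          apply mul_le_mul_of_nonneg_left _ (by positivity)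
          exact mul_le_mul_of_nonneg_left h2 hCK
      _ = _ := by ring
  · push Not at hn
    have hn2 : 2 ≤ |n| := hn
    have habs : |Cn p n| = |Cn p (abs n)| := by
      rcases abs_choice n with h | h <;> rw [h]
      rw [Cn_neg]
    have h1 : (1 : ℝ) ≤ 5 / (2 - p) := by
      rw [le_div_iff₀ hd]
      linarith
    have hdist : |(K : ℝ) - abs (n : ℝ)| ≤ |(K : ℝ) - n| := by
      have := abs_abs_sub_abs_le (K : ℝ) n
      rwa [abs_of_pos (by linarith : (0 : ℝ) < K)] at this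
    have hmono : (1 + |(K : ℝ) - abs (n : ℝ)|) ^ 3 ≤ (1 + |(K : ℝ) - n|) ^ 3 :=
      pow_le_pow_left₀ (by positivity) (by linarith) 3
    rw [habs]
    rcases hK.eq_or_lt with rfl | hK2
    · have h2 : |Cn p (abs n)| ≤ |Cn p 1| := by
        have := Cn_anti hp1 hp2 (m := 1) le_rfl (|n| - 1).toNat
        have e : 1 + (((|n| - 1).toNat : ℕ) : ℤ) = |n| := by omega
        rwa [e] at this
      refine h2.trans ?_
      have h3 : (1 : ℝ) ≤ (1 + |((1 : ℤ) : ℝ) - n|) ^ 3 :=
        one_le_pow₀ (by linarith [abs_nonneg (((1 : ℤ) : ℝ) - n)])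
      calc |Cn p 1| = 1 * |Cn p 1| * 1 := by ring
        _ ≤ 5 / (2 - p) * |Cn p 1| * (1 + |((1 : ℤ) : ℝ) - n|) ^ 3 := by
            apply mul_le_mul _ h3 (by norm_num) (by positivity)
            exact mul_le_mul_of_nonneg_right h1 (abs_nonneg _)
    · have h2 := Cn_5a hp1 hp2 (n := |n|) (K := K) hn2 hK2
      push_cast at h2
      refine h2.trans ?_
      calc |Cn p K| * (1 + |(K : ℝ) - abs (n : ℝ)|) ^ 3 ≤ |Cn p K| * (1 + |(K : ℝ) - n|) ^ 3 :=
            mul_le_mul_of_nonneg_left hmono hCK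
        _ = 1 * |Cn p K| * (1 + |(K : ℝ) - n|) ^ 3 := by ring
        _ ≤ _ := by
            apply mul_le_mul_of_nonneg_right _ (by positivity)
            exact mul_le_mul_of_nonneg_right h1 hCK

/-- (5c), the constant is 5 -/
theorem Cn_5c (hp1 : 1.9 < p) (hp2 : p < 2) {n K : ℤ} (hK : 2 ≤ K) :
    |Cn p n - C0 n| ≤ 5 * |Cn p K| * (1 + |(K : ℝ) - n|) ^ 3 := by
  have hd : 0 < 2 - p := by linarith
  have hK' : (2 : ℝ) ≤ K := by exact_mod_cast hK
  have hlow := Cn_low hp1 hp2 (K := K) (by omega)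
  have hCK : 0 ≤ |Cn p K| := abs_nonneg _
  by_cases hn : |n| ≤ 1
  · have hn' : |(n : ℝ)| ≤ 1 := by exact_mod_cast hn
    have h1 : (K : ℝ) ≤ 1 + |(K : ℝ) - n| := by
      have := le_abs_self ((K : ℝ) - n)
      have := (abs_le.1 hn').2
      linarith
    have h2 : (K : ℝ) ^ 3 ≤ (1 + |(K : ℝ) - n|) ^ 3 := pow_le_pow_left₀ (by linarith) h1 3
    calc |Cn p n - C0 n| ≤ 10 * (2 - p) := Cn_close hp1 hp2 n
      _ = 5 * (2 * (2 - p)) := by ring
      _ ≤ 5 * (|Cn p K| * (K : ℝ) ^ 3) := by linarith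
      _ ≤ 5 * (|Cn p K| * (1 + |(K : ℝ) - n|) ^ 3) := by
          have := mul_le_mul_of_nonneg_left h2 hCK
          linarith
      _ = _ := by ring
  · push Not at hn
    have hn2 : 2 ≤ |n| := hn
    have h0 : C0 n = 0 := by
      unfold C0
      rw [if_neg, if_neg]
      · rintro (h | h) <;> subst h <;> norm_num at hn2
      · rintro h
        subst h
        norm_num at hn2
    rw [h0, sub_zero]
    have habs : |Cn p n| = |Cn p (abs n)| := by
      rcases abs_choice n with h | h <;> rw [h]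
      rw [Cn_neg]
    have hdist : |(K : ℝ) - abs (n : ℝ)| ≤ |(K : ℝ) - n| := by
      have := abs_abs_sub_abs_le (K : ℝ) n
      rwa [abs_of_pos (by linarith : (0 : ℝ) < K)] at this
    have hmono : (1 + |(K : ℝ) - abs (n : ℝ)|) ^ 3 ≤ (1 + |(K : ℝ) - n|) ^ 3 :=
      pow_le_pow_left₀ (by positivity) (by linarith) 3
    rw [habs]
    have h2 := Cn_5a hp1 hp2 (n := |n|) (K := K) hn2 hK
    push_cast at h2
    refine h2.trans ?_
    calc |Cn p K| * (1 + |(K : ℝ) - abs (n : ℝ)|) ^ 3 ≤ |Cn p K| * (1 + |(K : ℝ) - n|) ^ 3 :=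
          mul_le_mul_of_nonneg_left hmono hCK
      _ ≤ 5 * |Cn p K| * (1 + |(K : ℝ) - n|) ^ 3 := by
          apply mul_le_mul_of_nonneg_right _ (by positivity)
          linarith

/-- (5d) -/
theorem Cn_5d (hp1 : 1.9 < p) (hp2 : p < 2) :
    |Cn p 3 + π * (2 - p) / 24| ≤ (2 - p) ^ 2 := by
  set δ : ℝ := 2 - p with hδ
  have hp : p = 2 - δ := by rw [hδ]; ring
  have hδ0 : 0 < δ := by rw [hδ]; linarith
  have hδ1 : δ < 0.1 := by rw [hδ]; linarith
  have h2 := Cn_rec (p := p) (by linarith) 2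
  have h3 := Cn_rec (p := p) (by linarith) 3
  rw [show (2 : ℤ) - 1 = 1 by norm_num] at h2
  rw [show (3 : ℤ) - 1 = 2 by norm_num] at h3
  have hc := Cn_close hp1 hp2 1
  have h0 : C0 1 = -π := by simp [C0]
  rw [h0, ← hδ] at hc
  set a := Cn p 1 with ha
  set b := Cn p 2 with hb
  set c := Cn p 3 with hc'
  rw [hp] at h2 h3
  push_cast at h2 h3
  have h4 : (3 - δ / 2) * b = δ / 2 * a := by linarith
  have h5 : (4 - δ / 2) * c = (1 + δ / 2) * b := by linarith
  have h6 : (4 - δ / 2) * (3 - δ / 2) * c = (1 + δ / 2) * (δ / 2) * a := by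
    calc (4 - δ / 2) * (3 - δ / 2) * c = (3 - δ / 2) * ((4 - δ / 2) * c) := by ring
      _ = (1 + δ / 2) * ((3 - δ / 2) * b) := by rw [h5]; ring
      _ = _ := by rw [h4]; ring
  have hD : 11 ≤ (4 - δ / 2) * (3 - δ / 2) := by nlinarith
  have hDpos : 0 < (4 - δ / 2) * (3 - δ / 2) := by linarith
  obtain ⟨hc1, hc2⟩ := abs_le.1 hc
  have hpi1 := pi_gt_d2
  have hpi2 := pi_lt_d2
  have key : (4 - δ / 2) * (3 - δ / 2) * (c + π * δ / 24) =
      (1 + δ / 2) * (δ / 2) * (a + π) + δ ^ 2 * π * (-(19 / 48) + δ / 96) := by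
    rw [mul_add, h6]
    ring
  have hk : |(4 - δ / 2) * (3 - δ / 2) * (c + π * δ / 24)| ≤ 11 * δ ^ 2 := by
    rw [key]
    have e1 : |(1 + δ / 2) * (δ / 2) * (a + π)| ≤ 6 * δ ^ 2 := by
      rw [abs_mul, abs_of_pos (show 0 < (1 + δ / 2) * (δ / 2) by positivity)]
      have : |a + π| ≤ 10 * δ := by
        rw [show a + π = a - -π by ring]
        exact hc
      calc (1 + δ / 2) * (δ / 2) * |a + π| ≤ (1 + δ / 2) * (δ / 2) * (10 * δ) :=
            mul_le_mul_of_nonneg_left this (by positivity)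
        _ ≤ _ := by nlinarith [sq_nonneg δ]
    have e2 : |δ ^ 2 * π * (-(19 / 48) + δ / 96)| ≤ 2 * δ ^ 2 := by
      rw [abs_mul, abs_of_pos (show 0 < δ ^ 2 * π by positivity)]
      have : |(-(19 / 48) + δ / 96 : ℝ)| ≤ 1 / 2 := by
        rw [abs_le]
        constructor <;> linarith
      calc δ ^ 2 * π * |(-(19 / 48) + δ / 96 : ℝ)| ≤ δ ^ 2 * π * (1 / 2) :=
            mul_le_mul_of_nonneg_left this (by positivity)
        _ ≤ _ := by nlinarith [sq_nonneg δ]
    calc _ ≤ _ := abs_add_le _ _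
      _ ≤ 6 * δ ^ 2 + 2 * δ ^ 2 := add_le_add e1 e2
      _ ≤ _ := by nlinarith [sq_nonneg δ]
  rw [abs_mul, abs_of_pos hDpos] at hk
  have hfin : 11 * |c + π * δ / 24| ≤ 11 * δ ^ 2 :=
    (mul_le_mul_of_nonneg_right hD (abs_nonneg _)).trans hk
  linarith

end Pool.Agent.H65.RM
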