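import Pool.Agent.H65.RM.Pol
import Pool.Agent.H65.RM.Cn

/-!
# RM module Four: the derivative in terms of the Fourier coefficients of `M` (paper, (4d))
-/

open Filter Topology MeasureTheory intervalIntegral Finset

namespace Pool.Agent.H65.RM

/-- `D_{K,n} = sum_j (M_{K-n,j} + M_{K+n,j}) C(K-j)` -/
noncomputable def DD (p : ℝ) (N : ℕ) (r : ℕ → ℝ) (K n : ℤ) : ℂ :=
  ∑' j : ℤ, (fc (MM p N r) (K - n) j + fc (MM p N r) (K + n) j) * (Cn p (K - j) : ℂ)

section

variable {N : ℕ} {r : ℕ → ℝ} {R : ℝ} {p : ℝ}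

/-- decay of the Fourier coefficients of `M` -/
theorem Sm.fcMM_le (h : Sm N r R) {κ : ℝ} (hκ : 0 ≤ κ) (hκR : Real.exp κ < R) (hp1 : 1.9 < p)
    (hp2 : p < 2) (m j : ℤ) :
    ‖fc (MM p N r) m j‖ ≤ 2 * Real.exp (-(κ / 2) * (|(m : ℝ)| + |(j : ℝ)|)) := by
  set Ω : Set ℂ := {z | ‖z‖ < R ∧ 1 < R * ‖z‖} with hΩ
  have hΩo : IsOpen Ω := by
    have h1 : IsOpen {z : ℂ | ‖z‖ < R} := isOpen_lt (by fun_prop) continuous_const
    have h2 : IsOpen {z : ℂ | 1 < R * ‖z‖} := isOpen_lt continuous_const (by fun_prop)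
    exact h1.inter h2
  have hΩA : ∀ z ∈ Ω, z ∈ An R := fun z hz => ⟨hz.1.le, hz.2.le⟩
  have hAΩ : An (Real.exp κ) ⊆ Ω := by
    rintro z ⟨h1, h2⟩
    have hz : 0 < ‖z‖ := norm_pos_iff.2 (An_ne ⟨h1, h2⟩)
    exact ⟨h1.trans_lt hκR, h2.trans_lt (mul_lt_mul_of_pos_right hκR hz)⟩
  have hb : ∀ {U w : ℂ}, U ∈ An R → w ∈ An R → ‖MM p N r U w‖ ≤ 2 := by
    intro U w hU hw
    have h1 := h.MM_sub_one hp1 hp2 hU hw
    have h2 := h.wt_le
    have h3 : ‖MM p N r U w‖ ≤ ‖MM p N r U w - 1‖ + ‖(1 : ℂ)‖ := by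
      have := norm_add_le (MM p N r U w - 1) 1
      rwa [sub_add_cancel] at this
    rw [norm_one] at h3
    linarith
  refine fc_le' (G := MM p N r) (κ := κ) (B := 2) hκ (h.MM_cont p)
    (fun b => ⟨Ω, hΩo, hAΩ, ?_, ?_⟩) (fun a => ⟨Ω, hΩo, hAΩ, ?_, ?_⟩) m j
  · exact h.MM_diff hΩo differentiableOn_id (differentiableOn_const _) hΩA
      (fun z _ => ex_mem h.one_le b)
  · intro z hz
    exact hb (hΩA z (hAΩ hz)) (ex_mem h.one_le b)
  · exact h.MM_diff hΩo (differentiableOn_const _) differentiableOn_id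
      (fun z _ => ex_mem h.one_le a) hΩA
  · intro z hz
    exact hb (ex_mem h.one_le a) (hΩA z (hAΩ hz))

/-- summability of `e^{-c|j|}` over the integers -/
lemma summable_exp_abs {c : ℝ} (hc : 0 < c) : Summable fun j : ℤ => Real.exp (-c * |(j : ℝ)|) := by
  have h1 : Summable fun n : ℕ => Real.exp (-c) ^ n :=
    summable_geometric_of_lt_one (Real.exp_pos _).le (by rw [Real.exp_lt_one_iff]; linarith)
  have h2 : ∀ n : ℕ, Real.exp (-c * |((n : ℤ) : ℝ)|) = Real.exp (-c) ^ n := by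
    intro n
    rw [← Real.exp_nat_mul]
    congr 1
    simp
    ring
  have h3 : ∀ n : ℕ, Real.exp (-c * |((-(n : ℤ) : ℤ) : ℝ)|) = Real.exp (-c) ^ n := by
    intro n
    rw [← Real.exp_nat_mul]
    congr 1
    simp
    ring
  apply Summable.of_nat_of_neg
  · simpa only [h2] using h1
  · simpa only [h3] using h1

/-- Fourier inversion on the line -/
lemma inv_four {g : ℝ → ℂ} (hc : Continuous g) (hper : Function.Periodic g (2 * Real.pi))
    {co : ℤ → ℂ} (hco : ∀ j, co j = (1 / (2 * Real.pi) : ℝ) *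
      ∫ b in (0 : ℝ)..2 * Real.pi, g b * ex (-(j * b))) (hs : Summable co) (x : ℝ) :
    HasSum (fun j : ℤ => co j * ex (j * x)) (g x) := by
  have : Fact (0 < 2 * Real.pi) := ⟨Real.two_pi_pos⟩
  set f : C(AddCircle (2 * Real.pi), ℂ) :=
    ⟨hper.lift, continuous_coinduced_dom.mpr hc⟩ with hf
  have hfx : ∀ x : ℝ, f (x : AddCircle (2 * Real.pi)) = g x := fun x => rfl
  have hfo : ∀ (j : ℤ) (x : ℝ), fourier j (x : AddCircle (2 * Real.pi)) = ex (j * x) := by
    intro j x
    rw [fourier_coe_apply]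
    unfold ex
    congr 1
    push_cast
    have : (Real.pi : ℂ) ≠ 0 := by exact_mod_cast Real.pi_ne_zero
    field_simp
  have hcoef : ∀ j : ℤ, fourierCoeff f j = co j := by
    intro j
    rw [fourierCoeff_eq_intervalIntegral _ _ 0, hco, zero_add, Complex.real_smul]
    congr 1
    congr 1
    funext b
    rw [hfo, hfx, smul_eq_mul, mul_comm]
    congr 2
    push_cast
    ring
  have hs' : Summable (fourierCoeff f) := by
    have : fourierCoeff f = co := funext hcoef
    rw [this]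
    exact hs
  have h1 := has_pointwise_sum_fourier_series_of_summable hs' (x : AddCircle (2 * Real.pi))
  simp only [hcoef, hfo, hfx, smul_eq_mul] at h1
  exact h1

/-- partial Fourier coefficient -/
noncomputable def pf (G : ℂ → ℂ → ℂ) (m : ℤ) (b : ℝ) : ℂ :=
  (1 / (2 * Real.pi) : ℝ) * ∫ a in (0 : ℝ)..2 * Real.pi, G (ex a) (ex b) * ex (-(m * a))

lemma pf_cont {G : ℂ → ℂ → ℂ} (hG : Continuous fun x : ℝ × ℝ => G (ex x.1) (ex x.2)) (m : ℤ) :
    Continuous (pf G m) := by
  unfold pf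
  apply continuous_const.mul
  apply intervalIntegral.continuous_parametric_intervalIntegral_of_continuous'
  have h1 : Continuous fun y : ℝ × ℝ => G (ex y.2) (ex y.1) :=
    hG.comp (show Continuous fun y : ℝ × ℝ => (y.2, y.1) by fun_prop)
  exact h1.mul (continuous_ex_comp (show Continuous fun y : ℝ × ℝ => -((m : ℝ) * y.2) by fun_prop))

lemma pf_inv {G : ℂ → ℂ → ℂ} (hG : Continuous fun x : ℝ × ℝ => G (ex x.1) (ex x.2)) (m : ℤ)
    (hs : Summable fun j : ℤ => fc G m j) (x : ℝ) :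
    HasSum (fun j : ℤ => fc G m j * ex (j * x)) (pf G m x) := by
  apply inv_four (pf_cont hG m) _ _ hs
  · intro b
    unfold pf
    rw [ex_periodic]
  · intro j
    unfold fc pf
    have hcont : Continuous (Function.uncurry fun a b : ℝ =>
        G (ex a) (ex b) * ex (-(m * a)) * ex (-(j * b))) :=
      (hG.mul (continuous_ex_comp (by fun_prop))).mul (continuous_ex_comp (by fun_prop))
    rw [swap_cont hcont]
    have e1 : ∀ b : ℝ, ((1 / (2 * Real.pi) : ℝ) : ℂ) * (∫ a in (0 : ℝ)..2 * Real.pi,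
        G (ex a) (ex b) * ex (-(m * a))) * ex (-(j * b)) =
        ((1 / (2 * Real.pi) : ℝ) : ℂ) * ∫ a in (0 : ℝ)..2 * Real.pi,
        G (ex a) (ex b) * ex (-(m * a)) * ex (-(j * b)) := by
      intro b
      rw [intervalIntegral.integral_mul_const]
      ring
    simp only [e1]
    rw [intervalIntegral.integral_const_mul, ← mul_assoc]
    congr 1
    push_cast
    have : (Real.pi : ℂ) ≠ 0 := by exact_mod_cast Real.pi_ne_zero
    field_simp

/-- doubling the angle -/
lemma int_double {g : ℝ → ℂ} (hper : Function.Periodic g (2 * Real.pi)) (hg : Continuous g) :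
    ∫ a in (0 : ℝ)..2 * Real.pi, g (2 * a) = ∫ a in (0 : ℝ)..2 * Real.pi, g a := by
  rw [intervalIntegral.integral_comp_mul_left (fun x => g x) (by norm_num : (2 : ℝ) ≠ 0)]
  have h1 : (∫ x in (2 * 0 : ℝ)..2 * (2 * Real.pi), g x) =
      (∫ x in (0 : ℝ)..2 * Real.pi, g x) + ∫ x in (0 : ℝ)..2 * Real.pi, g x := by
    rw [mul_zero, ← intervalIntegral.integral_add_adjacent_intervals (b := 2 * Real.pi)
      (hg.intervalIntegrable _ _) (hg.intervalIntegrable _ _)]
    congr 1
    have := hper.intervalIntegral_add_eq (2 * Real.pi) 0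
    rw [zero_add] at this
    rw [← this]
    congr 1
    ring
  rw [h1, Complex.real_smul]
  push_cast
  ring

/-- the beta integral with an exponential -/
lemma Cn_ex (hp : 0 ≤ p) (n : ℤ) :
    ∫ t in (0 : ℝ)..Real.pi, (((2 * Real.sin t) ^ p : ℝ) : ℂ) * ex (-(2 * n * t)) = (Cn p n : ℂ) := by
  have hc := cn_cont_pow hp
  have e1 : ∀ t : ℝ, (((2 * Real.sin t) ^ p : ℝ) : ℂ) * ex (-(2 * n * t)) =
      (((2 * Real.sin t) ^ p * Real.cos (2 * n * t) : ℝ) : ℂ) -
      Complex.I * (((2 * Real.sin t) ^ p * Real.sin (2 * n * t) : ℝ) : ℂ) := by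
    intro t
    have : ex (-(2 * n * t)) = (Real.cos (2 * n * t) : ℂ) - Complex.I * Real.sin (2 * n * t) := by
      unfold ex
      rw [mul_comm, Complex.exp_mul_I, ← Complex.ofReal_cos, ← Complex.ofReal_sin, Real.cos_neg,
        Real.sin_neg]
      push_cast
      ring
    rw [this]
    push_cast
    ring
  simp only [e1]
  have k1 : Continuous fun t : ℝ => (((2 * Real.sin t) ^ p * Real.cos (2 * n * t) : ℝ) : ℂ) :=
    Complex.continuous_ofReal.comp (hc.mul (by fun_prop))
  have k2 : Continuous fun t : ℝ => (((2 * Real.sin t) ^ p * Real.sin (2 * n * t) : ℝ) : ℂ) :=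
    Complex.continuous_ofReal.comp (hc.mul (by fun_prop))
  have k3 : Continuous fun t : ℝ => Complex.I *
      (((2 * Real.sin t) ^ p * Real.sin (2 * n * t) : ℝ) : ℂ) := continuous_const.mul k2
  rw [intervalIntegral.integral_sub (k1.intervalIntegrable _ _)
    (k3.intervalIntegrable _ _), intervalIntegral.integral_const_mul,
    intervalIntegral.integral_ofReal, intervalIntegral.integral_ofReal]
  have hodd : (∫ t in (0 : ℝ)..Real.pi, (2 * Real.sin t) ^ p * Real.sin (2 * n * t)) = 0 := by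
    have h1 := intervalIntegral.integral_comp_sub_left (a := 0) (b := Real.pi)
      (fun t => (2 * Real.sin t) ^ p * Real.sin (2 * n * t)) Real.pi
    rw [sub_self, sub_zero] at h1
    have h2 : (∫ t in (0 : ℝ)..Real.pi, (2 * Real.sin (Real.pi - t)) ^ p *
        Real.sin (2 * n * (Real.pi - t))) =
        -∫ t in (0 : ℝ)..Real.pi, (2 * Real.sin t) ^ p * Real.sin (2 * n * t) := by
      rw [← intervalIntegral.integral_neg]
      congr 1
      funext t
      rw [Real.sin_pi_sub]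
      have : 2 * (n : ℝ) * (Real.pi - t) = n * (2 * Real.pi) - 2 * n * t := by ring
      rw [this, Real.sin_int_mul_two_pi_sub]
      ring
    rw [h2] at h1
    linarith
  rw [hodd]
  unfold Cn
  simp

/-- on the torus the kernel is `m^p rho` -/
lemma Sm.MM_torus (h : Sm N r R) (α t : ℝ) :
    MM p N r (ex (2 * α)) (ex (2 * t)) = ((mr N r α t ^ p * ro N r α : ℝ) : ℂ) := by
  unfold MM
  rw [h.mr_eq, ← Complex.ofReal_cpow (by linarith [(h.mr_bounds α t).1])]
  have hrh : rh N r (ex (2 * α)) = ((ro N r α : ℝ) : ℂ) := by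
    unfold rh ro
    push_cast
    rw [Finset.mul_sum]
    congr 1
    apply Finset.sum_congr rfl
    intro i _
    have h1 : ex (2 * α) ^ i = ex (2 * i * α) := by
      rw [ex_pow]; congr 1; ring
    have h2 : (ex (2 * α))⁻¹ ^ i = ex (-(2 * i * α)) := by
      rw [← ex_neg, ex_pow]; congr 1; ring
    rw [h1, h2]
    unfold ex
    rw [Complex.cos]
    push_cast
    rw [show Complex.I * (2 * (i : ℂ) * α) = 2 * i * α * Complex.I by ring,
      show Complex.I * -(2 * (i : ℂ) * α) = -(2 * i * α) * Complex.I by ring]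
    ring
  rw [hrh]
  push_cast
  ring

lemma cont2 {F : ℂ → ℂ → ℂ} (h : Continuous fun x : ℝ × ℝ => F (ex x.1) (ex x.2))
    {X : Type*} [TopologicalSpace X] {f g : X → ℝ} (hf : Continuous f) (hg : Continuous g) :
    Continuous fun x => F (ex (f x)) (ex (g x)) := h.comp (hf.prodMk hg)

lemma cos_ex (x : ℝ) : (Real.cos x : ℂ) = (ex x + ex (-x)) / 2 := by
  unfold ex
  rw [Complex.ofReal_cos, Complex.cos]
  push_cast
  rw [show Complex.I * (x : ℂ) = x * Complex.I by ring,
    show Complex.I * -(x : ℂ) = -x * Complex.I by ring]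

/-- inner integral in `α` -/
lemma alpha_int {G : ℂ → ℂ → ℂ} (hG : Continuous fun x : ℝ × ℝ => G (ex x.1) (ex x.2))
    (K : ℕ) (n : ℤ) (w : ℝ) (c : ℂ) (t : ℝ) :
    (∫ α in (0 : ℝ)..2 * Real.pi,
      (Real.cos (2 * n * α) : ℂ) * c * G (ex (2 * α)) (ex w) * ex (-(2 * K * (α + t)))) =
      Real.pi * (c * ex (-(2 * K * t)) * (pf G (K - n) w + pf G (K + n) w)) := by
  have hpi : (Real.pi : ℂ) ≠ 0 := by exact_mod_cast Real.pi_ne_zero
  have hg : ∀ m : ℤ, (∫ α in (0 : ℝ)..2 * Real.pi, G (ex (2 * α)) (ex w) * ex (-(m * (2 * α)))) =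
      2 * Real.pi * pf G m w := by
    intro m
    have hc4 : Continuous fun a : ℝ => G (ex a) (ex w) * ex (-(m * a)) :=
      (cont2 hG continuous_id continuous_const).mul (continuous_ex_comp (by fun_prop))
    have hper : Function.Periodic (fun a : ℝ => G (ex a) (ex w) * ex (-(m * a)))
        (2 * Real.pi) := by
      intro a
      simp only
      rw [ex_periodic]
      congr 1
      have : -((m : ℝ) * (a + 2 * Real.pi)) = -(m * a) + ((-m : ℤ) : ℝ) * (2 * Real.pi) := by
        push_cast; ring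
      rw [this, ex_add, ← ex_zpow, ex_two_pi, one_zpow, mul_one]
    have h1 := int_double hper hc4
    rw [h1]
    unfold pf
    push_cast
    field_simp
  have hc5 : ∀ m : ℤ, IntervalIntegrable (fun α : ℝ => G (ex (2 * α)) (ex w) * ex (-(m * (2 * α))))
      volume 0 (2 * Real.pi) := by
    intro m
    apply Continuous.intervalIntegrable
    exact (cont2 hG (show Continuous fun α : ℝ => 2 * α by fun_prop) continuous_const).mul
      (continuous_ex_comp (by fun_prop))
  have e1 : ∀ α : ℝ, (Real.cos (2 * n * α) : ℂ) * c * G (ex (2 * α)) (ex w) *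
      ex (-(2 * K * (α + t))) = (c * ex (-(2 * K * t)) / 2) *
        (G (ex (2 * α)) (ex w) * ex (-(((K - n : ℤ) : ℝ) * (2 * α))) +
        G (ex (2 * α)) (ex w) * ex (-(((K + n : ℤ) : ℝ) * (2 * α)))) := by
    intro α
    have f1 : ex (-(2 * K * (α + t))) = ex (-(2 * K * α)) * ex (-(2 * K * t)) := by
      rw [← ex_add]; congr 1; ring
    have f2 : ex (-(((K - n : ℤ) : ℝ) * (2 * α))) = ex (-(2 * K * α)) * ex (2 * n * α) := by
      rw [← ex_add]; congr 1; push_cast; ring
    have f3 : ex (-(((K + n : ℤ) : ℝ) * (2 * α))) = ex (-(2 * K * α)) * ex (-(2 * n * α)) := by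
      rw [← ex_add]; congr 1; push_cast; ring
    rw [f1, f2, f3, cos_ex]
    ring
  simp only [e1]
  rw [intervalIntegral.integral_const_mul, intervalIntegral.integral_add (hc5 _) (hc5 _), hg, hg]
  ring

/-- general form of the expansion -/
lemma DD_gen {G : ℂ → ℂ → ℂ} (hG : Continuous fun x : ℝ × ℝ => G (ex x.1) (ex x.2)) {κ : ℝ}
    (hκ : 0 < κ) (hdec : ∀ m j : ℤ, ‖fc G m j‖ ≤ 2 * Real.exp (-κ * |(j : ℝ)|)) (hp0 : 0 ≤ p)
    (hp2 : p < 2) (K : ℕ) (n : ℤ) :
    HasSum (fun j : ℤ => (fc G (K - n) j + fc G (K + n) j) * (Cn p (K - j) : ℂ))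
      (∫ t in (0 : ℝ)..Real.pi, (((2 * Real.sin t) ^ p : ℝ) : ℂ) * ex (-(2 * K * t)) *
        (pf G (K - n) (2 * t) + pf G (K + n) (2 * t))) := by
  have hsum : ∀ m : ℤ, Summable fun j : ℤ => fc G m j := by
    intro m
    apply Summable.of_norm_bounded ((summable_exp_abs hκ).mul_left 2)
    exact hdec m
  have hS : ∀ t : ℝ, HasSum (fun j : ℤ => (fc G (K - n) j + fc G (K + n) j) *
      ((((2 * Real.sin t) ^ p : ℝ) : ℂ) * ex (-(2 * ((K - j : ℤ) : ℝ) * t))))
      ((((2 * Real.sin t) ^ p : ℝ) : ℂ) * ex (-(2 * K * t)) *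
        (pf G (K - n) (2 * t) + pf G (K + n) (2 * t))) := by
    intro t
    have h1 := (pf_inv hG (K - n) (hsum _) (2 * t)).add (pf_inv hG (K + n) (hsum _) (2 * t))
    have h2 := h1.mul_left ((((2 * Real.sin t) ^ p : ℝ) : ℂ) * ex (-(2 * K * t)))
    have e : (fun j : ℤ => (fc G (K - n) j + fc G (K + n) j) *
        ((((2 * Real.sin t) ^ p : ℝ) : ℂ) * ex (-(2 * ((K - j : ℤ) : ℝ) * t)))) =
        fun j : ℤ => (((2 * Real.sin t) ^ p : ℝ) : ℂ) * ex (-(2 * K * t)) *
          (fc G (K - n) j * ex (j * (2 * t)) + fc G (K + n) j * ex (j * (2 * t))) := by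
      funext j
      have f1 : ex (-(2 * ((K - j : ℤ) : ℝ) * t)) = ex (-(2 * K * t)) * ex (j * (2 * t)) := by
        rw [← ex_add]; congr 1; push_cast; ring
      rw [f1]
      ring
    rw [e]
    exact h2
  have hfin := intervalIntegral.hasSum_integral_of_dominated_convergence (a := 0) (b := Real.pi)
    (μ := volume)
    (F := fun (j : ℤ) (t : ℝ) => (fc G (K - n) j + fc G (K + n) j) *
      ((((2 * Real.sin t) ^ p : ℝ) : ℂ) * ex (-(2 * ((K - j : ℤ) : ℝ) * t))))
    (f := fun t => (((2 * Real.sin t) ^ p : ℝ) : ℂ) * ex (-(2 * K * t)) *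
        (pf G (K - n) (2 * t) + pf G (K + n) (2 * t)))
    (fun j _ => 4 * Real.exp (-κ * |(j : ℝ)|) * 4) ?_ ?_ ?_ ?_ ?_
  · have e : (fun j : ℤ => (fc G (K - n) j + fc G (K + n) j) * (Cn p (K - j) : ℂ)) =
        fun j : ℤ => ∫ t in (0 : ℝ)..Real.pi, (fc G (K - n) j + fc G (K + n) j) *
      ((((2 * Real.sin t) ^ p : ℝ) : ℂ) * ex (-(2 * ((K - j : ℤ) : ℝ) * t))) := by
      funext j
      rw [intervalIntegral.integral_const_mul, Cn_ex hp0]
    rw [e]
    exact hfin
  · intro j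
    apply Continuous.aestronglyMeasurable
    exact continuous_const.mul ((Complex.continuous_ofReal.comp (cn_cont_pow hp0)).mul
      (continuous_ex_comp (by fun_prop)))
  · intro j
    refine Filter.Eventually.of_forall fun t ht => ?_
    rw [Set.uIoc_of_le Real.pi_pos.le] at ht
    have hs : 0 ≤ Real.sin t := Real.sin_nonneg_of_mem_Icc ⟨ht.1.le, ht.2⟩
    have hs1 := Real.sin_le_one t
    rw [norm_mul, norm_mul, ex_norm, mul_one, Complex.norm_real, Real.norm_eq_abs,
      abs_of_nonneg (by positivity)]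
    have g1 : ‖fc G (K - n) j + fc G (K + n) j‖ ≤ 4 * Real.exp (-κ * |(j : ℝ)|) := by
      refine (norm_add_le _ _).trans ?_
      have := hdec (K - n) j
      have := hdec (K + n) j
      linarith
    have g2 : (2 * Real.sin t) ^ p ≤ 4 := by
      calc (2 * Real.sin t) ^ p ≤ (2 : ℝ) ^ p :=
            Real.rpow_le_rpow (by positivity) (by linarith) hp0
        _ ≤ (2 : ℝ) ^ (2 : ℝ) := Real.rpow_le_rpow_of_exponent_le (by norm_num) hp2.le
        _ = 4 := by norm_num
    exact mul_le_mul g1 g2 (by positivity) (by positivity)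
  · refine Filter.Eventually.of_forall fun t _ => ?_
    exact ((summable_exp_abs hκ).mul_left 4).mul_right 4
  · exact intervalIntegrable_const
  · exact Filter.Eventually.of_forall fun t _ => hS t

/-- the double integral against `cos 2nα` -/
theorem Sm.DD_eq (h : Sm N r R) (hR : 1 < R) (hp1 : 1.9 < p) (hp2 : p < 2) (K : ℕ) (n : ℤ) :
    (1 / Real.pi : ℝ) * ∫ α in (0 : ℝ)..2 * Real.pi,
        ((ro N r α * Real.cos (2 * n * α) : ℝ) : ℂ) *
        ∫ t in (0 : ℝ)..Real.pi, ex (-(2 * K * (α + t))) * ((el N r α t ^ p : ℝ) : ℂ) =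
      DD p N r K n := by
  have hp0 : 0 ≤ p := by linarith
  have hMc := h.MM_cont p
  have hpi : (Real.pi : ℂ) ≠ 0 := by exact_mod_cast Real.pi_ne_zero
  -- decay
  set κ : ℝ := Real.log R / 2 with hκ
  have hlog : 0 < Real.log R := Real.log_pos hR
  have hκ0 : 0 < κ := by positivity
  have hκR : Real.exp κ < R := by
    calc Real.exp κ < Real.exp (Real.log R) := Real.exp_lt_exp.2 (by rw [hκ]; linarith)
      _ = R := Real.exp_log (by linarith)
  have hdec : ∀ m j : ℤ, ‖fc (MM p N r) m j‖ ≤ 2 * Real.exp (-(κ / 2) * |(j : ℝ)|) := by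
    intro m j
    refine (h.fcMM_le hκ0.le hκR hp1 hp2 m j).trans ?_
    apply mul_le_mul_of_nonneg_left _ (by norm_num)
    apply Real.exp_le_exp.2
    have : 0 ≤ |(m : ℝ)| := abs_nonneg _
    nlinarith
  -- step 1: rewrite the integrand
  have step1 : (∫ α in (0 : ℝ)..2 * Real.pi, ((ro N r α * Real.cos (2 * n * α) : ℝ) : ℂ) *
        ∫ t in (0 : ℝ)..Real.pi, ex (-(2 * K * (α + t))) * ((el N r α t ^ p : ℝ) : ℂ)) =
      ∫ α in (0 : ℝ)..2 * Real.pi, ∫ t in (0 : ℝ)..Real.pi,
        (Real.cos (2 * n * α) : ℂ) * (((2 * Real.sin t) ^ p : ℝ) : ℂ) *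
          MM p N r (ex (2 * α)) (ex (2 * t)) * ex (-(2 * K * (α + t))) := by
    congr 1
    funext α
    rw [← intervalIntegral.integral_const_mul]
    apply intervalIntegral.integral_congr
    intro t ht
    rw [Set.uIcc_of_le Real.pi_pos.le] at ht
    simp only
    rw [h.MM_torus]
    have hs : 0 ≤ Real.sin t := Real.sin_nonneg_of_mem_Icc ht
    have hm := (h.mr_bounds α t).1
    have e1 : el N r α t ^ p = (2 * Real.sin t) ^ p * mr N r α t ^ p := by
      unfold el
      rw [← Real.mul_rpow (by positivity) (by linarith)]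
      congr 1
      ring
    rw [e1]
    push_cast
    ring
  rw [step1]
  clear step1
  have hfin := DD_gen (p := p) hMc (κ := κ / 2) (by linarith) hdec hp0 hp2 K n
  unfold DD
  rw [hfin.tsum_eq]
  clear hfin hdec
  generalize MM p N r = G at hMc ⊢
  have hc3 : Continuous (Function.uncurry fun α t : ℝ =>
      (Real.cos (2 * n * α) : ℂ) * (((2 * Real.sin t) ^ p : ℝ) : ℂ) *
          G (ex (2 * α)) (ex (2 * t)) * ex (-(2 * K * (α + t)))) := by
    have k1 : Continuous fun x : ℝ × ℝ => (Real.cos (2 * n * x.1) : ℂ) := by fun_prop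
    have k2 : Continuous fun x : ℝ × ℝ => (((2 * Real.sin x.2) ^ p : ℝ) : ℂ) :=
      Complex.continuous_ofReal.comp ((cn_cont_pow hp0).comp continuous_snd)
    have k3 : Continuous fun x : ℝ × ℝ => ex (-(2 * K * (x.1 + x.2))) :=
      continuous_ex_comp (by fun_prop)
    have k4 : Continuous fun x : ℝ × ℝ => G (ex (2 * x.1)) (ex (2 * x.2)) :=
      cont2 hMc (by fun_prop) (by fun_prop)
    exact ((k1.mul k2).mul k4).mul k3
  rw [swap_cont hc3]
  simp only [alpha_int hMc]
  rw [intervalIntegral.integral_const_mul, ← mul_assoc]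
  have e0 : ((1 / Real.pi : ℝ) : ℂ) * (Real.pi : ℂ) = 1 := by
    push_cast
    field_simp
  rw [e0, one_mul]

/-- (4d) -/
theorem FJ_deriv_DD (r s : ℕ → ℝ) (τ : ℝ) (K : ℕ) (h : Sm N (fun i => r i + τ * s i) R)
    (hR : 1 < R) (hK : 1 ≤ K) (hp1 : 1.9 < p) (hp2 : p < 2) :
    HasDerivAt (fun τ : ℝ => FJ p N (fun i => r i + τ * s i) K)
      (∑ n ∈ Icc 1 N, ((-2 * s n / (4 * n ^ 2 - 1) : ℝ) : ℂ) *
        DD p N (fun i => r i + τ * s i) K n) τ := by
  have hpK : p / 2 ≠ K := by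
    have : (1 : ℝ) ≤ K := by exact_mod_cast hK
    intro h0
    linarith
  refine (FJ_deriv r s τ h hR hK (by linarith) hpK).congr_deriv ?_
  set r' : ℕ → ℝ := fun i => r i + τ * s i with hr'
  have hc : Continuous fun α : ℝ => ∫ t in (0 : ℝ)..Real.pi,
      ex (-(2 * K * (α + t))) * ((el N r' α t ^ p : ℝ) : ℂ) := by
    apply intervalIntegral.continuous_parametric_intervalIntegral_of_continuous'
    have k1 : Continuous fun x : ℝ × ℝ => mm N r' (ex (2 * x.1)) (ex (2 * x.2)) :=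
      cont2 (F := mm N r') h.mm_cont (by fun_prop) (by fun_prop)
    have k2 : Continuous fun x : ℝ × ℝ => mr N r' x.1 x.2 := Complex.continuous_re.comp k1
    have k3 : Continuous fun x : ℝ × ℝ => el N r' x.1 x.2 := by
      unfold el
      exact (continuous_const.mul k2).mul (by fun_prop)
    have k4 : Continuous fun x : ℝ × ℝ => ((el N r' x.1 x.2 ^ p : ℝ) : ℂ) :=
      Complex.continuous_ofReal.comp
        ((Real.continuous_rpow_const (by linarith : 0 ≤ p)).comp k3)
    have k5 : Continuous fun x : ℝ × ℝ => ex (-(2 * K * (x.1 + x.2))) :=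
      continuous_ex_comp (by fun_prop)
    exact k5.mul k4
  have e1 : ∀ α : ℝ, ((ro N r' α * et N s α : ℝ) : ℂ) *
      (∫ t in (0 : ℝ)..Real.pi, ex (-(2 * K * (α + t))) * ((el N r' α t ^ p : ℝ) : ℂ)) =
      ∑ n ∈ Icc 1 N, ((-2 * s n / (4 * n ^ 2 - 1) : ℝ) : ℂ) *
        (((ro N r' α * Real.cos (2 * (n : ℤ) * α) : ℝ) : ℂ) *
        ∫ t in (0 : ℝ)..Real.pi, ex (-(2 * K * (α + t))) * ((el N r' α t ^ p : ℝ) : ℂ)) := by
    intro α
    unfold et
    rw [Finset.mul_sum]
    push_cast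
    rw [Finset.sum_mul]
    apply Finset.sum_congr rfl
    intro n _
    ring
  simp only [e1]
  rw [intervalIntegral.integral_finsetSum]
  · rw [Finset.mul_sum]
    apply Finset.sum_congr rfl
    intro n _
    rw [intervalIntegral.integral_const_mul, ← h.DD_eq hR hp1 hp2 K n]
    ring
  · intro n _
    apply Continuous.intervalIntegrable
    apply continuous_const.mul
    apply Continuous.mul _ hc
    apply Complex.continuous_ofReal.comp
    exact continuous_ro.mul (by fun_prop)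

end

end Pool.Agent.H65.RM
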