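import Pool.Agent.H65.RM.Base

/-!
# RM module Base2: Fourier coefficients of the kernel at the base body
-/

open Finset Filter Topology MeasureTheory intervalIntegral

namespace Pool.Agent.H65.RM

/-! ## from `p = 2` to `p < 2` -/

lemma cpow_two_sub {p : ℝ} (hp1 : 1.9 < p) (hp2 : p < 2) {a : ℂ} (ha : ‖a - 1‖ ≤ 1 / 10) :
    ‖a ^ (p : ℂ) - a ^ 2‖ ≤ 4 * (2 - p) * ‖a - 1‖ := by
  have ha0 : a ≠ 0 := by
    rintro rfl
    norm_num at ha
  have h1 : a ^ (p : ℂ) = a ^ 2 * a ^ ((p : ℂ) - 2) := by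
    have e : (p : ℂ) = 2 + ((p : ℂ) - 2) := by ring
    rw [e, Complex.cpow_add _ _ ha0]
    congr 1
    · norm_cast
    · congr 1
      ring
  have h2 : a ^ ((p : ℂ) - 2) = Complex.exp (Complex.log a * ((p : ℂ) - 2)) :=
    Complex.cpow_def_of_ne_zero ha0 _
  have hlog : ‖Complex.log a‖ ≤ 3 / 2 * ‖a - 1‖ := by
    have := Complex.norm_log_one_add_half_le_self (z := a - 1) (by linarith)
    rwa [add_sub_cancel] at this
  have hp : ‖(p : ℂ) - 2‖ = 2 - p := by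
    have : (p : ℂ) - 2 = ((p - 2 : ℝ) : ℂ) := by push_cast; ring
    rw [this, Complex.norm_real, Real.norm_eq_abs, abs_of_neg (by linarith)]
    ring
  have hu : ‖Complex.log a * ((p : ℂ) - 2)‖ ≤ 3 / 2 * ‖a - 1‖ * (2 - p) := by
    rw [norm_mul, hp]
    exact mul_le_mul_of_nonneg_right hlog (by linarith)
  have hu1 : ‖Complex.log a * ((p : ℂ) - 2)‖ ≤ 1 := by
    refine hu.trans ?_
    have := norm_nonneg (a - 1)
    nlinarith
  have h3 := Complex.norm_exp_sub_one_le hu1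
  have e : a ^ (p : ℂ) - a ^ 2 = a ^ 2 * (Complex.exp (Complex.log a * ((p : ℂ) - 2)) - 1) := by
    rw [h1, h2]
    ring
  rw [e, norm_mul, norm_pow]
  have h4 : ‖a‖ ≤ 11 / 10 := by
    have := (norm_bounds ha).2
    linarith
  have h5 : ‖a‖ ^ 2 ≤ 121 / 100 := by
    have := norm_nonneg a
    nlinarith
  have h6 : ‖Complex.exp (Complex.log a * ((p : ℂ) - 2)) - 1‖ ≤ 3 * ‖a - 1‖ * (2 - p) := by
    linarith
  have h7 : 0 ≤ 3 * ‖a - 1‖ * (2 - p) := by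
    have := norm_nonneg (a - 1)
    have : 0 ≤ 2 - p := by linarith
    positivity
  calc ‖a‖ ^ 2 * _ ≤ 121 / 100 * (3 * ‖a - 1‖ * (2 - p)) :=
        mul_le_mul h5 h6 (norm_nonneg _) (by norm_num)
    _ ≤ _ := by nlinarith

/-- (6a) -/
theorem base_MM : ∃ C : ℝ, 0 ≤ C ∧ ∀ p : ℝ, 1.9 < p → p < 2 → ∀ N : ℕ, 2 ≤ N → ∀ x : ℝ,
    |x| ≤ 1 / 2000 → ∀ U ∈ An R0, ∀ w ∈ An R0, ‖MM p N (rb x) U w - 1 - x * N1 U U⁻¹ w w⁻¹ -
      x ^ 2 * N2 U U⁻¹ w w⁻¹‖ ≤ C * (|x| ^ 3 + (2 - p) * |x|) := by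
  obtain ⟨C, hC, h⟩ := base_jet
  refine ⟨C + 400, by linarith, fun p hp1 hp2 N hN x hx U hU w hw => ?_⟩
  have hS := Sm_rb (N := N) hN hx
  have h1 := h N hN x hx U hU w hw
  have h2 := hS.mm_sub_one hU hw
  have hwt : wt N (rb x) R0 ≤ 6 * |x| := by
    rw [wt_rb hN]
    have := R0_pow
    have := abs_nonneg x
    nlinarith
  have h3 := cpow_two_sub hp1 hp2 (a := mm N (rb x) U w) (by linarith [hS.mm_ball hU hw])
  have h4 := (norm_bounds (rh_sub_one (N := N) (r := rb x) R0_one.le hU)).2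
  have h5 := hS.wt_le
  have hx0 := abs_nonneg x
  have e : MM p N (rb x) U w - 1 - x * N1 U U⁻¹ w w⁻¹ - x ^ 2 * N2 U U⁻¹ w w⁻¹ =
      (mm N (rb x) U w ^ 2 * rh N (rb x) U - 1 - x * N1 U U⁻¹ w w⁻¹ - x ^ 2 * N2 U U⁻¹ w w⁻¹) +
      (mm N (rb x) U w ^ (p : ℂ) - mm N (rb x) U w ^ 2) * rh N (rb x) U := by
    unfold MM
    ring
  rw [e]
  refine (norm_add_le _ _).trans ?_
  rw [norm_mul]
  have h6 : ‖mm N (rb x) U w ^ (p : ℂ) - mm N (rb x) U w ^ 2‖ ≤ 4 * (2 - p) * (54 * |x|) :=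
    h3.trans (mul_le_mul_of_nonneg_left (by linarith) (by linarith))
  have h7 : ‖mm N (rb x) U w ^ (p : ℂ) - mm N (rb x) U w ^ 2‖ * ‖rh N (rb x) U‖ ≤
      4 * (2 - p) * (54 * |x|) * (1 + 6 / 1000) :=
    mul_le_mul h6 (by linarith) (norm_nonneg _) (by
      have : 0 ≤ 2 - p := by linarith
      positivity)
  have h8 : 0 ≤ (2 - p) * |x| := mul_nonneg (by linarith) hx0
  have h9 : 0 ≤ |x| ^ 3 := by positivity
  nlinarith

/-! ## Laurent polynomials given by a list of monomials -/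

/-- the Laurent polynomial `sum c U^a w^b` -/
noncomputable def lpoly (L : List (ℤ × ℤ × ℤ)) (U w : ℂ) : ℂ :=
  (L.map fun t => (t.2.2 : ℂ) * (U ^ t.1 * w ^ t.2.1)).sum

/-- its coefficients -/
def lcoef (L : List (ℤ × ℤ × ℤ)) (m j : ℤ) : ℤ :=
  (L.map fun t => if t.1 = m ∧ t.2.1 = j then t.2.2 else 0).sum

lemma fc_add {G H : ℂ → ℂ → ℂ} (hG : Continuous fun x : ℝ × ℝ => G (ex x.1) (ex x.2))
    (hH : Continuous fun x : ℝ × ℝ => H (ex x.1) (ex x.2)) (m j : ℤ) :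
    fc (fun U w => G U w + H U w) m j = fc G m j + fc H m j := by
  unfold fc
  rw [← mul_add]
  congr 1
  have hcc : ∀ {G : ℂ → ℂ → ℂ} (hG : Continuous fun x : ℝ × ℝ => G (ex x.1) (ex x.2)),
      Continuous fun x : ℝ × ℝ => G (ex x.1) (ex x.2) * ex (-(m * x.1)) * ex (-(j * x.2)) :=
    fun hG => (hG.mul (continuous_ex_comp (by fun_prop))).mul (continuous_ex_comp (by fun_prop))
  have c1 := hcc hG
  have c2 := hcc hH
  rw [← intervalIntegral.integral_add]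
  · congr 1
    funext a
    rw [← intervalIntegral.integral_add]
    · congr 1
      funext b
      ring
    · exact (c1.comp (Continuous.prodMk_right a)).intervalIntegrable _ _
    · exact (c2.comp (Continuous.prodMk_right a)).intervalIntegrable _ _
  · exact (intervalIntegral.continuous_parametric_intervalIntegral_of_continuous' c1 _ _
      ).intervalIntegrable _ _
  · exact (intervalIntegral.continuous_parametric_intervalIntegral_of_continuous' c2 _ _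
      ).intervalIntegrable _ _

lemma fc_smul (c : ℂ) (G : ℂ → ℂ → ℂ) (m j : ℤ) :
    fc (fun U w => c * G U w) m j = c * fc G m j := by
  unfold fc
  have e : ∀ a b : ℝ, c * G (ex a) (ex b) * ex (-(m * a)) * ex (-(j * b)) =
      c * (G (ex a) (ex b) * ex (-(m * a)) * ex (-(j * b))) := fun a b => by ring
  simp only [e, intervalIntegral.integral_const_mul]
  ring

lemma int_ex (k : ℤ) : ∫ a in (0 : ℝ)..2 * Real.pi, ex (k * a) =
    if k = 0 then (2 * Real.pi : ℂ) else 0 := by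
  split_ifs with hk
  · subst hk
    simp [ex_zero]
  · have hk' : (k : ℝ) ≠ 0 := by exact_mod_cast hk
    have hkC : (Complex.I * (k : ℂ)) ≠ 0 :=
      mul_ne_zero Complex.I_ne_zero (by exact_mod_cast hk)
    have h1 : ∀ a : ℝ, HasDerivAt (fun a : ℝ => ex (k * a) / (Complex.I * (k : ℂ))) (ex (k * a)) a := by
      intro a
      have h2 := (hasDerivAt_ex (k * a)).scomp a ((hasDerivAt_id a).const_mul (k : ℝ))
      have h3 := h2.div_const (Complex.I * (k : ℂ))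
      refine h3.congr_deriv ?_
      simp only [mul_one, Complex.real_smul]
      push_cast
      field_simp
    rw [intervalIntegral.integral_eq_sub_of_hasDerivAt (fun a _ => h1 a)
      ((continuous_ex_comp (by fun_prop)).intervalIntegrable _ _)]
    have h4 : ex (k * (2 * Real.pi)) = 1 := by
      rw [← ex_zpow, ex_two_pi, one_zpow]
    rw [h4, mul_zero, ex_zero, sub_self]

lemma fc_mono (a b m j : ℤ) :
    fc (fun U w => U ^ a * w ^ b) m j = if a = m ∧ b = j then 1 else 0 := by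
  unfold fc
  have e : ∀ s t : ℝ, ex s ^ a * ex t ^ b * ex (-(m * s)) * ex (-(j * t)) =
      ex (((a - m : ℤ) : ℝ) * s) * ex (((b - j : ℤ) : ℝ) * t) := by
    intro s t
    rw [ex_zpow, ex_zpow]
    have e1 : ex (((a - m : ℤ) : ℝ) * s) = ex (a * s) * ex (-(m * s)) := by
      rw [← ex_add]; congr 1; push_cast; ring
    have e2 : ex (((b - j : ℤ) : ℝ) * t) = ex (b * t) * ex (-(j * t)) := by
      rw [← ex_add]; congr 1; push_cast; ring
    rw [e1, e2]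
    ring
  simp only [e, intervalIntegral.integral_const_mul, intervalIntegral.integral_mul_const, int_ex]
  have hpi : (Real.pi : ℂ) ≠ 0 := by exact_mod_cast Real.pi_ne_zero
  by_cases h1 : a = m
  · by_cases h2 : b = j
    · simp only [h1, h2, and_self, if_true, sub_self]
      push_cast
      field_simp
    · have g2 : ¬ b - j = 0 := fun h => h2 (sub_eq_zero.1 h)
      simp only [g2, h2, and_false, if_false]
      ring
  · have g1 : ¬ a - m = 0 := fun h => h1 (sub_eq_zero.1 h)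
    simp only [g1, h1, false_and, if_false]
    ring

lemma mono_cont (a b : ℤ) : Continuous fun x : ℝ × ℝ => ex x.1 ^ a * ex x.2 ^ b := by
  simp only [ex_zpow]
  exact (continuous_ex_comp (by fun_prop)).mul (continuous_ex_comp (by fun_prop))

lemma lpoly_cont (L : List (ℤ × ℤ × ℤ)) : Continuous fun x : ℝ × ℝ => lpoly L (ex x.1) (ex x.2) := by
  induction L with
  | nil => simpa [lpoly] using continuous_const
  | cons t L ih =>
    have : (fun x : ℝ × ℝ => lpoly (t :: L) (ex x.1) (ex x.2)) = fun x : ℝ × ℝ =>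
        (t.2.2 : ℂ) * (ex x.1 ^ t.1 * ex x.2 ^ t.2.1) + lpoly L (ex x.1) (ex x.2) := by
      funext x
      simp [lpoly]
    rw [this]
    exact (continuous_const.mul (mono_cont _ _)).add ih

theorem fc_lpoly (L : List (ℤ × ℤ × ℤ)) (m j : ℤ) : fc (lpoly L) m j = (lcoef L m j : ℂ) := by
  induction L with
  | nil =>
    have : lpoly [] = fun _ _ => 0 := by
      funext U w
      simp [lpoly]
    rw [this]
    simp [fc, lcoef]
  | cons t L ih =>
    have : lpoly (t :: L) = fun U w => (t.2.2 : ℂ) * (U ^ t.1 * w ^ t.2.1) + lpoly L U w := by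
      funext U w
      simp [lpoly]
    rw [this, fc_add (G := fun U w => (t.2.2 : ℂ) * (U ^ t.1 * w ^ t.2.1))
      (continuous_const.mul (mono_cont _ _)) (lpoly_cont L), fc_smul, fc_mono, ih]
    simp only [lcoef, List.map_cons, List.sum_cons]
    push_cast
    split_ifs <;> simp

/-- `15 N1` -/
def L1 : List (ℤ × ℤ × ℤ) :=
  [(2, 0, 21), (2, 1, 12), (2, 2, 8), (2, 3, 4), (-2, 0, 21), (-2, -1, 12), (-2, -2, 8), (-2, -3, 4)]

/-- `225 N2` -/
def L2 : List (ℤ × ℤ × ℤ) :=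
  [(4, 0, 99), (4, 1, 198), (4, 2, 168), (4, 3, 130), (4, 4, 80), (4, 5, 26), (4, 6, -8), (4, 7, -18),
   (-4, 0, 99), (-4, -1, 198), (-4, -2, 168), (-4, -3, 130), (-4, -4, 80), (-4, -5, 26), (-4, -6, -8),
   (-4, -7, -18), (0, 3, 108), (0, -3, 108), (0, 2, 192), (0, -2, 192), (0, 1, 260), (0, -1, 260),
   (0, 0, 230)]

lemma N1_lpoly (U w : ℂ) : N1 U U⁻¹ w w⁻¹ = 1 / 15 * lpoly L1 U w := by
  unfold N1 lpoly L1
  simp only [List.map_cons, List.map_nil, List.sum_cons, List.sum_nil]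
  rw [show (-2 : ℤ) = -((2 : ℕ) : ℤ) by norm_num, show (-1 : ℤ) = -((1 : ℕ) : ℤ) by norm_num,
    show (-3 : ℤ) = -((3 : ℕ) : ℤ) by norm_num, show (2 : ℤ) = ((2 : ℕ) : ℤ) by norm_num,
    show (3 : ℤ) = ((3 : ℕ) : ℤ) by norm_num, show (1 : ℤ) = ((1 : ℕ) : ℤ) by norm_num,
    show (0 : ℤ) = ((0 : ℕ) : ℤ) by norm_num]
  simp only [zpow_neg, zpow_natCast, ← inv_pow]
  push_cast
  ring

lemma N2_lpoly (U w : ℂ) : N2 U U⁻¹ w w⁻¹ = 1 / 225 * lpoly L2 U w := by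
  unfold N2 lpoly L2
  simp only [List.map_cons, List.map_nil, List.sum_cons, List.sum_nil]
  have z : ∀ (z : ℂ), z ^ (0 : ℤ) = 1 ∧ z ^ (1 : ℤ) = z ∧ z ^ (2 : ℤ) = z ^ 2 ∧ z ^ (3 : ℤ) = z ^ 3 ∧
      z ^ (4 : ℤ) = z ^ 4 ∧ z ^ (5 : ℤ) = z ^ 5 ∧ z ^ (6 : ℤ) = z ^ 6 ∧ z ^ (7 : ℤ) = z ^ 7 ∧
      z ^ (-1 : ℤ) = z⁻¹ ∧ z ^ (-2 : ℤ) = z⁻¹ ^ 2 ∧ z ^ (-3 : ℤ) = z⁻¹ ^ 3 ∧
      z ^ (-4 : ℤ) = z⁻¹ ^ 4 ∧ z ^ (-5 : ℤ) = z⁻¹ ^ 5 ∧ z ^ (-6 : ℤ) = z⁻¹ ^ 6 ∧
      z ^ (-7 : ℤ) = z⁻¹ ^ 7 := by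
    intro z
    refine ⟨zpow_zero z, zpow_one z, ?_, ?_, ?_, ?_, ?_, ?_, zpow_neg_one z, ?_, ?_, ?_, ?_, ?_, ?_⟩
    · exact zpow_natCast z 2
    · exact zpow_natCast z 3
    · exact zpow_natCast z 4
    · exact zpow_natCast z 5
    · exact zpow_natCast z 6
    · exact zpow_natCast z 7
    · rw [inv_pow]; exact (zpow_neg z 2).trans (by rw [show (2 : ℤ) = ((2 : ℕ) : ℤ) by norm_num, zpow_natCast])
    · rw [inv_pow]; exact (zpow_neg z 3).trans (by rw [show (3 : ℤ) = ((3 : ℕ) : ℤ) by norm_num, zpow_natCast])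
    · rw [inv_pow]; exact (zpow_neg z 4).trans (by rw [show (4 : ℤ) = ((4 : ℕ) : ℤ) by norm_num, zpow_natCast])
    · rw [inv_pow]; exact (zpow_neg z 5).trans (by rw [show (5 : ℤ) = ((5 : ℕ) : ℤ) by norm_num, zpow_natCast])
    · rw [inv_pow]; exact (zpow_neg z 6).trans (by rw [show (6 : ℤ) = ((6 : ℕ) : ℤ) by norm_num, zpow_natCast])
    · rw [inv_pow]; exact (zpow_neg z 7).trans (by rw [show (7 : ℤ) = ((7 : ℕ) : ℤ) by norm_num, zpow_natCast])
  obtain ⟨u0, u1, u2, u3, u4, u5, u6, u7, v1, v2, v3, v4, v5, v6, v7⟩ := z U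
  obtain ⟨a0, a1, a2, a3, a4, a5, a6, a7, b1, b2, b3, b4, b5, b6, b7⟩ := z w
  rw [u0, u4, v4, a0, a1, a2, a3, a4, a5, a6, a7, b1, b2, b3, b4, b5, b6, b7]
  push_cast
  ring

end Pool.Agent.H65.RM
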