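import Mathlib

/-!
# RM module Sums: elementary sums of exponentials
-/

namespace Pool.Agent.H65.RM

lemma summable_exp_abs' {y : ℝ} (hy : 0 < y) : Summable fun j : ℤ => Real.exp (-y * |(j : ℝ)|) := by
  have h1 : Summable fun n : ℕ => Real.exp (-y) ^ n :=
    summable_geometric_of_lt_one (Real.exp_pos _).le (by rw [Real.exp_lt_one_iff]; linarith)
  have h2 : ∀ n : ℕ, Real.exp (-y * |((n : ℤ) : ℝ)|) = Real.exp (-y) ^ n := by
    intro n
    rw [← Real.exp_nat_mul]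
    congr 1
    simp
    ring
  have h3 : ∀ n : ℕ, Real.exp (-y * |((-(n : ℤ) : ℤ) : ℝ)|) = Real.exp (-y) ^ n := by
    intro n
    rw [← Real.exp_nat_mul]
    congr 1
    simp
    ring
  apply Summable.of_nat_of_neg
  · simpa only [h2] using h1
  · simpa only [h3] using h1

lemma geo_bound {y : ℝ} (hy : 0 < y) : (1 - Real.exp (-y))⁻¹ ≤ 1 + 1 / y := by
  have h1 : Real.exp (-y) ≤ 1 / (1 + y) := by
    rw [Real.exp_neg, ← one_div]
    apply one_div_le_one_div_of_le (by linarith)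
    linarith [Real.add_one_le_exp y]
  have h2 : y / (1 + y) ≤ 1 - Real.exp (-y) := by
    have : y / (1 + y) = 1 - 1 / (1 + y) := by field_simp; ring
    rw [this]
    linarith
  have h3 : 0 < y / (1 + y) := by positivity
  calc (1 - Real.exp (-y))⁻¹ ≤ (y / (1 + y))⁻¹ := inv_anti₀ h3 h2
    _ = _ := by rw [inv_div, add_div, div_self hy.ne']; ring

lemma tsum_exp_le {y : ℝ} (hy : 0 < y) : ∑' j : ℤ, Real.exp (-y * |(j : ℝ)|) ≤ 2 * (1 + 1 / y) := by
  have hlt : Real.exp (-y) < 1 := by rw [Real.exp_lt_one_iff]; linarith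
  have hg : HasSum (fun n : ℕ => Real.exp (-y) ^ n) (1 - Real.exp (-y))⁻¹ :=
    hasSum_geometric_of_lt_one (Real.exp_pos _).le hlt
  have h1 : HasSum (fun n : ℕ => Real.exp (-y * |((n : ℤ) : ℝ)|)) (1 - Real.exp (-y))⁻¹ := by
    have e : (fun n : ℕ => Real.exp (-y * |((n : ℤ) : ℝ)|)) = fun n : ℕ => Real.exp (-y) ^ n := by
      funext n
      rw [← Real.exp_nat_mul]
      congr 1
      simp
      ring
    rw [e]
    exact hg
  have h2 : HasSum (fun n : ℕ => Real.exp (-y * |((-((n : ℤ) + 1) : ℤ) : ℝ)|))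
      (Real.exp (-y) * (1 - Real.exp (-y))⁻¹) := by
    have e : (fun n : ℕ => Real.exp (-y * |((-((n : ℤ) + 1) : ℤ) : ℝ)|)) =
        fun n : ℕ => Real.exp (-y) * Real.exp (-y) ^ n := by
      funext n
      rw [← pow_succ', ← Real.exp_nat_mul]
      congr 1
      push_cast
      rw [abs_neg, abs_of_pos (by positivity)]
      ring
    rw [e]
    exact hg.mul_left _
  have h3 := HasSum.of_nat_of_neg_add_one (f := fun j : ℤ => Real.exp (-y * |(j : ℝ)|)) h1 h2
  rw [h3.tsum_eq]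
  have h4 := geo_bound hy
  have h5 : 0 < (1 - Real.exp (-y))⁻¹ := inv_pos.2 (by linarith)
  nlinarith

lemma cube_exp_le {y t : ℝ} (hy : 0 < y) (hy1 : y ≤ 1) (ht : 0 ≤ t) :
    (1 + t) ^ 3 * Real.exp (-y * t) ≤ 96 / y ^ 3 * Real.exp (-(y / 2) * t) := by
  have h1 : (y / 2 * (1 + t)) ^ 3 / 6 ≤ Real.exp (y / 2 * (1 + t)) := by
    have h0 : 0 ≤ y / 2 * (1 + t) := by positivity
    have h := Real.pow_div_factorial_le_exp (y / 2 * (1 + t)) h0 3
    have : ((Nat.factorial 3 : ℕ) : ℝ) = 6 := by norm_num [Nat.factorial]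
    rwa [this] at h
  have h2 : Real.exp (y / 2 * (1 + t)) ≤ 2 * Real.exp (y / 2 * t) := by
    rw [mul_add, mul_one, Real.exp_add]
    apply mul_le_mul_of_nonneg_right _ (Real.exp_pos _).le
    have h3 : Real.exp (y / 2) ≤ Real.exp (1 / 2) := Real.exp_le_exp.2 (by linarith)
    have h4 : Real.exp (1 / 2) ^ 2 ≤ 2 ^ 2 := by
      rw [← Real.exp_nat_mul]
      norm_num
      linarith [Real.exp_one_lt_d9]
    exact h3.trans (le_of_pow_le_pow_left₀ (by norm_num) (by norm_num) h4)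
  have h5 : (1 + t) ^ 3 ≤ 96 / y ^ 3 * Real.exp (y / 2 * t) := by
    have h6 : (1 + t) ^ 3 = 48 / y ^ 3 * ((y / 2 * (1 + t)) ^ 3 / 6) := by
      field_simp
      ring
    rw [h6]
    have h7 : 0 ≤ 48 / y ^ 3 := by positivity
    calc 48 / y ^ 3 * ((y / 2 * (1 + t)) ^ 3 / 6) ≤ 48 / y ^ 3 * (2 * Real.exp (y / 2 * t)) :=
          mul_le_mul_of_nonneg_left (h1.trans h2) h7
      _ = _ := by ring
  calc (1 + t) ^ 3 * Real.exp (-y * t) ≤ 96 / y ^ 3 * Real.exp (y / 2 * t) * Real.exp (-y * t) :=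
        mul_le_mul_of_nonneg_right h5 (Real.exp_pos _).le
    _ = _ := by
        rw [mul_assoc, ← Real.exp_add]
        congr 2
        ring

lemma summable_cube {y : ℝ} (hy : 0 < y) (hy1 : y ≤ 1) :
    Summable fun j : ℤ => (1 + |(j : ℝ)|) ^ 3 * Real.exp (-y * |(j : ℝ)|) := by
  refine Summable.of_nonneg_of_le (fun j => by positivity)
    (fun j => cube_exp_le hy hy1 (abs_nonneg _)) ?_
  exact (summable_exp_abs' (by linarith)).mul_left _

lemma tsum_cube_le {y : ℝ} (hy : 0 < y) (hy1 : y ≤ 1) :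
    ∑' j : ℤ, (1 + |(j : ℝ)|) ^ 3 * Real.exp (-y * |(j : ℝ)|) ≤ 576 / y ^ 4 := by
  have h1 : ∑' j : ℤ, (1 + |(j : ℝ)|) ^ 3 * Real.exp (-y * |(j : ℝ)|) ≤
      ∑' j : ℤ, 96 / y ^ 3 * Real.exp (-(y / 2) * |(j : ℝ)|) :=
    (summable_cube hy hy1).tsum_le_tsum (fun j => cube_exp_le hy hy1 (abs_nonneg _))
      ((summable_exp_abs' (by linarith)).mul_left _)
  refine h1.trans ?_
  rw [tsum_mul_left]
  have h2 := tsum_exp_le (y := y / 2) (by linarith)
  have h3 : 2 * (1 + 1 / (y / 2)) ≤ 6 / y := by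
    rw [one_div_div, ← sub_nonneg]
    have : 6 / y - 2 * (1 + 2 / y) = 2 * (1 - y) / y := by field_simp; ring
    rw [this]
    apply div_nonneg _ hy.le
    linarith
  calc 96 / y ^ 3 * ∑' j : ℤ, Real.exp (-(y / 2) * |(j : ℝ)|) ≤ 96 / y ^ 3 * (6 / y) :=
        mul_le_mul_of_nonneg_left (h2.trans h3) (by positivity)
    _ = _ := by field_simp; ring

end Pool.Agent.H65.RM
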