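import Pool.Agent.H65.RM.Base2
import Pool.Agent.H65.RM.Sums

/-!
# RM module Base3: decay and expansion of the Fourier coefficients at the base body, and the
sums against `C0` (paper, (6a), (6b))
-/

open Finset Filter Topology MeasureTheory intervalIntegral

namespace Pool.Agent.H65.RM

/-- Kronecker symbol -/
def kr (m j : ℤ) : ℂ := if m = 0 ∧ j = 0 then 1 else 0

lemma lpoly_diff_left (L : List (ℤ × ℤ × ℤ)) {Ω : Set ℂ} (h0 : ∀ z ∈ Ω, z ≠ 0) (w : ℂ) :
    DifferentiableOn ℂ (fun z => lpoly L z w) Ω := by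
  induction L with
  | nil => simp [lpoly]
  | cons t L ih =>
    have : (fun z : ℂ => lpoly (t :: L) z w) = fun z : ℂ =>
        (t.2.2 : ℂ) * (z ^ t.1 * w ^ t.2.1) + lpoly L z w := by
      funext z
      simp [lpoly]
    rw [this]
    refine DifferentiableOn.add ?_ ih
    refine DifferentiableOn.const_mul (DifferentiableOn.mul_const ?_ _) _
    exact fun z hz => (differentiableAt_zpow.2 (Or.inl (h0 z hz))).differentiableWithinAt

lemma lpoly_diff_right (L : List (ℤ × ℤ × ℤ)) {Ω : Set ℂ} (h0 : ∀ z ∈ Ω, z ≠ 0) (U : ℂ) :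
    DifferentiableOn ℂ (fun z => lpoly L U z) Ω := by
  induction L with
  | nil => simp [lpoly]
  | cons t L ih =>
    have : (fun z : ℂ => lpoly (t :: L) U z) = fun z : ℂ =>
        (t.2.2 : ℂ) * (U ^ t.1 * z ^ t.2.1) + lpoly L U z := by
      funext z
      simp [lpoly]
    rw [this]
    refine DifferentiableOn.add ?_ ih
    refine DifferentiableOn.const_mul (DifferentiableOn.const_mul ?_ _) _
    exact fun z hz => (differentiableAt_zpow.2 (Or.inl (h0 z hz))).differentiableWithinAt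

/-- the open annulus -/
def Om : Set ℂ := {z | ‖z‖ < R0 ∧ 1 < R0 * ‖z‖}

lemma Om_open : IsOpen Om := by
  have h1 : IsOpen {z : ℂ | ‖z‖ < R0} := isOpen_lt (by fun_prop) continuous_const
  have h2 : IsOpen {z : ℂ | 1 < R0 * ‖z‖} := isOpen_lt continuous_const (by fun_prop)
  exact h1.inter h2

lemma Om_An : ∀ z ∈ Om, z ∈ An R0 := fun _ hz => ⟨hz.1.le, hz.2.le⟩

lemma An_Om : An (Real.exp (1 / 20)) ⊆ Om := by
  have hR : Real.exp (1 / 20) < R0 := Real.exp_lt_exp.2 (by norm_num)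
  rintro z ⟨h1, h2⟩
  have hz : 0 < ‖z‖ := norm_pos_iff.2 (An_ne ⟨h1, h2⟩)
  exact ⟨h1.trans_lt hR, h2.trans_lt (mul_lt_mul_of_pos_right hR hz)⟩

lemma Om_ne : ∀ z ∈ Om, z ≠ 0 := fun z hz => An_ne (Om_An z hz)

/-- the combination `M - 1 - x N1 - x^2 N2` -/
noncomputable def Gr (p : ℝ) (N : ℕ) (x : ℝ) (U w : ℂ) : ℂ :=
  MM p N (rb x) U w + (-1 * lpoly [(0, 0, 1)] U w + (((-x / 15 : ℝ) : ℂ) * lpoly L1 U w +
    ((-x ^ 2 / 225 : ℝ) : ℂ) * lpoly L2 U w))

section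

variable {p x : ℝ} {N : ℕ}

lemma fc_Gr (hN : 2 ≤ N) (hx : |x| ≤ 1 / 2000) (m j : ℤ) :
    fc (Gr p N x) m j = fc (MM p N (rb x)) m j - kr m j - ((x / 15 : ℝ) : ℂ) * lcoef L1 m j -
      ((x ^ 2 / 225 : ℝ) : ℂ) * lcoef L2 m j := by
  have hS := Sm_rb (N := N) hN hx
  have c0 := hS.MM_cont p
  have c1 := lpoly_cont [(0, 0, 1)]
  have c2 := lpoly_cont L1
  have c3 := lpoly_cont L2
  have d1 : Continuous fun y : ℝ × ℝ => -1 * lpoly [(0, 0, 1)] (ex y.1) (ex y.2) :=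
    continuous_const.mul c1
  have d2 : Continuous fun y : ℝ × ℝ => ((-x / 15 : ℝ) : ℂ) * lpoly L1 (ex y.1) (ex y.2) :=
    continuous_const.mul c2
  have d3 : Continuous fun y : ℝ × ℝ => ((-x ^ 2 / 225 : ℝ) : ℂ) * lpoly L2 (ex y.1) (ex y.2) :=
    continuous_const.mul c3
  have e1 := fc_add (G := MM p N (rb x)) (H := fun U w => -1 * lpoly [(0, 0, 1)] U w +
    (((-x / 15 : ℝ) : ℂ) * lpoly L1 U w + ((-x ^ 2 / 225 : ℝ) : ℂ) * lpoly L2 U w)) c0
    (d1.add (d2.add d3)) m j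
  have e2 := fc_add (G := fun U w => -1 * lpoly [(0, 0, 1)] U w) (H := fun U w =>
    (((-x / 15 : ℝ) : ℂ) * lpoly L1 U w + ((-x ^ 2 / 225 : ℝ) : ℂ) * lpoly L2 U w)) d1
    (d2.add d3) m j
  have e3 := fc_add (G := fun U w => ((-x / 15 : ℝ) : ℂ) * lpoly L1 U w) (H := fun U w =>
    ((-x ^ 2 / 225 : ℝ) : ℂ) * lpoly L2 U w) d2 d3 m j
  have hG : Gr p N x = fun U w => MM p N (rb x) U w + (-1 * lpoly [(0, 0, 1)] U w +
    (((-x / 15 : ℝ) : ℂ) * lpoly L1 U w + ((-x ^ 2 / 225 : ℝ) : ℂ) * lpoly L2 U w)) := rfl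
  rw [hG, e1, e2, e3, fc_smul (-1) (lpoly [(0, 0, 1)]), fc_smul _ (lpoly L1), fc_smul _ (lpoly L2),
    fc_lpoly, fc_lpoly, fc_lpoly]
  have hk : ((lcoef [(0, 0, 1)] m j : ℤ) : ℂ) = kr m j := by
    unfold lcoef kr
    simp only [List.map_cons, List.map_nil, List.sum_cons, List.sum_nil, add_zero]
    by_cases h1 : m = 0
    · by_cases h2 : j = 0
      · simp [h1, h2]
      · have h2' : ¬ (0 = j) := fun h => h2 h.symm
        simp [h1, h2, h2']
    · have h1' : ¬ (0 = m) := fun h => h1 h.symm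
      simp [h1, h1']
  rw [hk]
  push_cast
  ring

/-- first order decay -/
theorem base_fc1 (hp1 : 1.9 < p) (hp2 : p < 2) (hN : 2 ≤ N) (hx : |x| ≤ 1 / 2000) (m j : ℤ) :
    ‖fc (MM p N (rb x)) m j - kr m j‖ ≤ 200 * |x| * Real.exp (-(|(m : ℝ)| + |(j : ℝ)|) / 40) := by
  have hS := Sm_rb (N := N) hN hx
  have c0 := hS.MM_cont p
  have c1 := lpoly_cont [(0, 0, 1)]
  have d1 : Continuous fun y : ℝ × ℝ => -1 * lpoly [(0, 0, 1)] (ex y.1) (ex y.2) :=
    continuous_const.mul c1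
  have h1l : ∀ U w : ℂ, lpoly [(0, 0, 1)] U w = 1 := by
    intro U w
    simp [lpoly]
  have hbd : ∀ U ∈ An R0, ∀ w ∈ An R0, ‖MM p N (rb x) U w + -1 * lpoly [(0, 0, 1)] U w‖ ≤
      200 * |x| := by
    intro U hU w hw
    have h2 := hS.MM_sub_one hp1 hp2 hU hw
    rw [wt_rb hN] at h2
    have h3 := R0_pow
    have h4 := abs_nonneg x
    rw [h1l]
    have e : MM p N (rb x) U w + -1 * 1 = MM p N (rb x) U w - 1 := by ring
    rw [e]
    nlinarith
  have hmain := fc_le' (G := fun U w => MM p N (rb x) U w + -1 * lpoly [(0, 0, 1)] U w)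
    (κ := 1 / 20) (B := 200 * |x|) (by norm_num) (c0.add d1)
    (fun b => ⟨Om, Om_open, An_Om, ?_, ?_⟩) (fun a => ⟨Om, Om_open, An_Om, ?_, ?_⟩) m j
  · rw [fc_add (G := MM p N (rb x)) (H := fun U w => -1 * lpoly [(0, 0, 1)] U w) c0 d1,
      fc_smul (-1) (lpoly [(0, 0, 1)]), fc_lpoly] at hmain
    have hk : ((lcoef [(0, 0, 1)] m j : ℤ) : ℂ) = kr m j := by
      unfold lcoef kr
      simp only [List.map_cons, List.map_nil, List.sum_cons, List.sum_nil, add_zero]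
      by_cases h1 : m = 0
      · by_cases h2 : j = 0
        · simp [h1, h2]
        · have h2' : ¬ (0 = j) := fun h => h2 h.symm
          simp [h1, h2, h2']
      · have h1' : ¬ (0 = m) := fun h => h1 h.symm
        simp [h1, h1']
    rw [hk] at hmain
    have e1 : fc (MM p N (rb x)) m j + -1 * kr m j = fc (MM p N (rb x)) m j - kr m j := by ring
    rw [e1] at hmain
    refine hmain.trans (le_of_eq ?_)
    congr 2
    ring
  · exact (hS.MM_diff Om_open differentiableOn_id (differentiableOn_const _) Om_An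
      (fun z _ => ex_mem R0_one.le b)).add ((lpoly_diff_left _ Om_ne _).const_mul _)
  · intro z hz
    exact hbd z (Om_An z (An_Om hz)) _ (ex_mem R0_one.le b)
  · exact (hS.MM_diff Om_open (differentiableOn_const _) differentiableOn_id
      (fun z _ => ex_mem R0_one.le a) Om_An).add ((lpoly_diff_right _ Om_ne _).const_mul _)
  · intro z hz
    exact hbd _ (ex_mem R0_one.le a) z (Om_An z (An_Om hz))

end

/-- (6a), coefficients -/
theorem base_fc : ∃ C : ℝ, 0 ≤ C ∧ ∀ p : ℝ, 1.9 < p → p < 2 → ∀ N : ℕ, 2 ≤ N → ∀ x : ℝ,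
    |x| ≤ 1 / 2000 → ∀ m j : ℤ, ‖fc (MM p N (rb x)) m j - kr m j - ((x / 15 : ℝ) : ℂ) * lcoef L1 m j -
      ((x ^ 2 / 225 : ℝ) : ℂ) * lcoef L2 m j‖ ≤
      C * (|x| ^ 3 + (2 - p) * |x|) * Real.exp (-(|(m : ℝ)| + |(j : ℝ)|) / 40) := by
  obtain ⟨C, hC, hb⟩ := base_MM
  refine ⟨C, hC, fun p hp1 hp2 N hN x hx m j => ?_⟩
  have hS := Sm_rb (N := N) hN hx
  have hG : ∀ U w : ℂ, Gr p N x U w = MM p N (rb x) U w - 1 - x * N1 U U⁻¹ w w⁻¹ -
      x ^ 2 * N2 U U⁻¹ w w⁻¹ := by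
    intro U w
    rw [N1_lpoly, N2_lpoly]
    have h1l : lpoly [(0, 0, 1)] U w = 1 := by simp [lpoly]
    unfold Gr
    rw [h1l]
    push_cast
    ring
  have hbd : ∀ U ∈ An R0, ∀ w ∈ An R0, ‖Gr p N x U w‖ ≤ C * (|x| ^ 3 + (2 - p) * |x|) := by
    intro U hU w hw
    rw [hG]
    exact hb p hp1 hp2 N hN x hx U hU w hw
  have c0 := hS.MM_cont p
  have c1 := lpoly_cont [(0, 0, 1)]
  have c2 := lpoly_cont L1
  have c3 := lpoly_cont L2
  have cG : Continuous fun y : ℝ × ℝ => Gr p N x (ex y.1) (ex y.2) :=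
    c0.add ((continuous_const.mul c1).add ((continuous_const.mul c2).add (continuous_const.mul c3)))
  have hmain := fc_le' (G := Gr p N x)
    (κ := 1 / 20) (B := C * (|x| ^ 3 + (2 - p) * |x|)) (by norm_num) cG
    (fun b => ⟨Om, Om_open, An_Om, ?_, ?_⟩) (fun a => ⟨Om, Om_open, An_Om, ?_, ?_⟩) m j
  · rw [fc_Gr hN hx] at hmain
    refine hmain.trans (le_of_eq ?_)
    congr 2
    ring
  · exact (hS.MM_diff Om_open differentiableOn_id (differentiableOn_const _) Om_An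
      (fun z _ => ex_mem R0_one.le b)).add (((lpoly_diff_left _ Om_ne _).const_mul _).add
      (((lpoly_diff_left _ Om_ne _).const_mul _).add ((lpoly_diff_left _ Om_ne _).const_mul _)))
  · intro z hz
    exact hbd z (Om_An z (An_Om hz)) _ (ex_mem R0_one.le b)
  · exact (hS.MM_diff Om_open (differentiableOn_const _) differentiableOn_id
      (fun z _ => ex_mem R0_one.le a) Om_An).add (((lpoly_diff_right _ Om_ne _).const_mul _).add
      (((lpoly_diff_right _ Om_ne _).const_mul _).add ((lpoly_diff_right _ Om_ne _).const_mul _)))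
  · intro z hz
    exact hbd _ (ex_mem R0_one.le a) z (Om_An z (An_Om hz))

/-! ## the sums against `C0` -/

/-- `(1/pi) sum_j (l(K-n,j) + l(K+n,j)) C0(K-j)` -/
def zs (L : List (ℤ × ℤ × ℤ)) (K n : ℤ) : ℤ :=
  2 * (lcoef L (K - n) K + lcoef L (K + n) K) -
    (lcoef L (K - n) (K - 1) + lcoef L (K + n) (K - 1)) -
    (lcoef L (K - n) (K + 1) + lcoef L (K + n) (K + 1))

lemma lcoef1_zero {m j : ℤ} (h : 4 ≤ j ∨ m < -2 ∨ 2 < m) : lcoef L1 m j = 0 := by
  unfold lcoef L1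
  simp only [List.map_cons, List.map_nil, List.sum_cons, List.sum_nil]
  repeat' rw [if_neg (by omega)]
  rfl

lemma lcoef2_zero {m j : ℤ} (h : 8 ≤ j ∨ m < -4 ∨ 4 < m) : lcoef L2 m j = 0 := by
  unfold lcoef L2
  simp only [List.map_cons, List.map_nil, List.sum_cons, List.sum_nil]
  repeat' rw [if_neg (by omega)]
  rfl

lemma zs1 {K n : ℤ} (hK : 3 ≤ K) (hn : 1 ≤ n) (oK : K % 2 = 1) (on : n % 2 = 1) : zs L1 K n = 0 := by
  by_cases h1 : 5 ≤ K
  · unfold zs
    rw [lcoef1_zero (Or.inl (by omega)), lcoef1_zero (Or.inl (by omega)),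
      lcoef1_zero (Or.inl (by omega)), lcoef1_zero (Or.inl (by omega)),
      lcoef1_zero (Or.inl (by omega)), lcoef1_zero (Or.inl (by omega))]
    rfl
  · have hK3 : K = 3 := by omega
    subst hK3
    by_cases h2 : 6 ≤ n
    · unfold zs
      rw [lcoef1_zero (Or.inr (by omega)), lcoef1_zero (Or.inr (by omega)),
        lcoef1_zero (Or.inr (by omega)), lcoef1_zero (Or.inr (by omega)),
        lcoef1_zero (Or.inr (by omega)), lcoef1_zero (Or.inr (by omega))]
      rfl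
    · interval_cases n <;> first | omega | decide

lemma zs2 {K n : ℤ} (hK : 3 ≤ K) (hn : 1 ≤ n) (oK : K % 2 = 1) (on : n % 2 = 1)
    (h : 9 ≤ K ∨ 5 ≤ n) : zs L2 K n = 0 := by
  by_cases h1 : 9 ≤ K
  · unfold zs
    rw [lcoef2_zero (Or.inl (by omega)), lcoef2_zero (Or.inl (by omega)),
      lcoef2_zero (Or.inl (by omega)), lcoef2_zero (Or.inl (by omega)),
      lcoef2_zero (Or.inl (by omega)), lcoef2_zero (Or.inl (by omega))]
    rfl
  · by_cases h2 : K + 5 ≤ n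
    · unfold zs
      rw [lcoef2_zero (Or.inr (by omega)), lcoef2_zero (Or.inr (by omega)),
        lcoef2_zero (Or.inr (by omega)), lcoef2_zero (Or.inr (by omega)),
        lcoef2_zero (Or.inr (by omega)), lcoef2_zero (Or.inr (by omega))]
      rfl
    · have h5 : 5 ≤ n := by omega
      have hK9 : K < 9 := by omega
      have hn13 : n < 13 := by omega
      interval_cases K <;> first | omega | (interval_cases n <;> first | omega | decide)

lemma zs2_33 : zs L2 3 3 = 24 := by decide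

lemma zs2_le {K n : ℤ} (hK : 3 ≤ K) (hK9 : K < 9) (hn : 1 ≤ n) (hn5 : n < 5) :
    |zs L2 K n| ≤ 2000 := by
  interval_cases K <;> interval_cases n <;> decide

end Pool.Agent.H65.RM
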