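import Pool.Agent.H65.RM.Fou

/-!
# RM module Phi: calculus of `Φ(z) = |z|^p (conj z / z)^K` (paper, section 4)
-/

open Filter Topology MeasureTheory intervalIntegral Asymptotics

namespace Pool.Agent.H65.RM

/-- `f(z) = |z|^{p-2} (conj z / z)^K = |z|^{p-2-2K} (conj z)^{2K}` -/
noncomputable def ff (p : ℝ) (K : ℕ) (z : ℂ) : ℂ :=
  ((‖z‖ ^ (p - 2 - 2 * K) : ℝ) : ℂ) * (starRingEnd ℂ) z ^ (2 * K)

/-- `f conj z` -/
noncomputable def gA (p : ℝ) (K : ℕ) (z : ℂ) : ℂ := ff p K z * (starRingEnd ℂ) z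

/-- `f z` -/
noncomputable def gB (p : ℝ) (K : ℕ) (z : ℂ) : ℂ := ff p K z * z

/-- `Φ = f |z|^2` -/
noncomputable def Ph (p : ℝ) (K : ℕ) (z : ℂ) : ℂ := ff p K z * (z * (starRingEnd ℂ) z)

section

variable {p : ℝ} {K : ℕ}

lemma ff_zero (hK : 1 ≤ K) : ff p K 0 = 0 := by
  unfold ff
  rw [map_zero, zero_pow (by omega), mul_zero]

lemma ff_neg (z : ℂ) : ff p K (-z) = ff p K z := by
  unfold ff
  rw [norm_neg, map_neg, neg_pow, (even_two_mul K).neg_one_pow, one_mul]

lemma norm_ff {z : ℂ} (hz : z ≠ 0) : ‖ff p K z‖ = ‖z‖ ^ (p - 2) := by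
  unfold ff
  have h0 : 0 < ‖z‖ := norm_pos_iff.2 hz
  rw [norm_mul, norm_pow, Complex.norm_conj, Complex.norm_real, Real.norm_eq_abs,
    abs_of_nonneg (by positivity), ← Real.rpow_natCast ‖z‖ (2 * K), ← Real.rpow_add h0]
  congr 1
  push_cast
  ring

/-- on a ray -/
lemma ff_ray {l : ℝ} (hl : 0 < l) (θ : ℝ) :
    ff p K ((l : ℂ) * ex θ) = ((l ^ (p - 2) : ℝ) : ℂ) * ex (-(2 * K * θ)) := by
  unfold ff
  have h1 : ‖(l : ℂ) * ex θ‖ = l := by
    rw [norm_mul, ex_norm, mul_one, Complex.norm_real, Real.norm_eq_abs, abs_of_pos hl]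
  rw [h1, map_mul, Complex.conj_ofReal, ex_conj, mul_pow, ← mul_assoc, ← Complex.ofReal_pow,
    ← Complex.ofReal_mul, ← Real.rpow_natCast l (2 * K), ← Real.rpow_add hl]
  congr 2
  · congr 1
    push_cast
    ring
  · rw [← ex_neg, ex_pow]
    congr 1
    push_cast
    ring

lemma norm_ff_mul {z w : ℂ} (hK : 1 ≤ K) (hp : 1 < p) (hw : ‖w‖ ≤ ‖z‖) :
    ‖ff p K z * w‖ ≤ ‖z‖ ^ (p - 1) := by
  by_cases hz : z = 0
  · subst hz
    rw [ff_zero hK, zero_mul, norm_zero, Real.zero_rpow (by linarith)]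
  · have h0 : 0 < ‖z‖ := norm_pos_iff.2 hz
    rw [norm_mul, norm_ff hz]
    calc ‖z‖ ^ (p - 2) * ‖w‖ ≤ ‖z‖ ^ (p - 2) * ‖z‖ :=
          mul_le_mul_of_nonneg_left hw (by positivity)
      _ = ‖z‖ ^ (p - 1) := by
          nth_rewrite 2 [← Real.rpow_one ‖z‖]
          rw [← Real.rpow_add h0]
          congr 1
          ring

lemma ff_contAt {z : ℂ} (hz : z ≠ 0) : ContinuousAt (ff p K) z := by
  unfold ff
  have h1 : ContinuousAt (fun z : ℂ => ‖z‖ ^ (p - 2 - 2 * K)) z :=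
    (continuous_norm.continuousAt).rpow_const (Or.inl (norm_ne_zero_iff.2 hz))
  have h2 : ContinuousAt (fun z : ℂ => ((‖z‖ ^ (p - 2 - 2 * K) : ℝ) : ℂ)) z :=
    Complex.continuous_ofReal.continuousAt.comp h1
  have h3 : Continuous fun z : ℂ => (starRingEnd ℂ) z ^ (2 * K) := Complex.continuous_conj.pow _
  exact h2.mul h3.continuousAt

lemma cont_ff_mul {w : ℂ → ℂ} (hK : 1 ≤ K) (hp : 1 < p) (hw : Continuous w)
    (hwz : ∀ z, ‖w z‖ ≤ ‖z‖) : Continuous fun z => ff p K z * w z := by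
  rw [continuous_iff_continuousAt]
  intro z
  by_cases hz : z = 0
  · subst hz
    have h0 : (fun z => ff p K z * w z) 0 = 0 := by
      show ff p K 0 * w 0 = 0
      rw [ff_zero hK, zero_mul]
    unfold ContinuousAt
    rw [h0]
    have h1 : Tendsto (fun z : ℂ => ‖z‖ ^ (p - 1)) (𝓝 0) (𝓝 0) := by
      have hc : Continuous fun z : ℂ => ‖z‖ ^ (p - 1) :=
        continuous_norm.rpow_const (fun _ => Or.inr (by linarith))
      have := hc.tendsto 0
      rwa [norm_zero, Real.zero_rpow (by linarith)] at this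
    exact squeeze_zero_norm (fun z => norm_ff_mul hK hp (hwz z)) h1
  · exact (ff_contAt hz).mul hw.continuousAt

lemma gA_cont (hK : 1 ≤ K) (hp : 1 < p) : Continuous (gA p K) :=
  cont_ff_mul hK hp Complex.continuous_conj (fun z => (Complex.norm_conj z).le)

lemma gB_cont (hK : 1 ≤ K) (hp : 1 < p) : Continuous (gB p K) :=
  cont_ff_mul hK hp continuous_id (fun _ => le_rfl)

lemma gA_zero (hK : 1 ≤ K) : gA p K 0 = 0 := by unfold gA; rw [ff_zero hK, zero_mul]

lemma gB_zero (hK : 1 ≤ K) : gB p K 0 = 0 := by unfold gB; rw [ff_zero hK, zero_mul]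

lemma gA_neg (z : ℂ) : gA p K (-z) = -gA p K z := by unfold gA; rw [ff_neg, map_neg]; ring

lemma gB_neg (z : ℂ) : gB p K (-z) = -gB p K z := by unfold gB; rw [ff_neg]; ring

lemma Ph_neg (z : ℂ) : Ph p K (-z) = Ph p K z := by unfold Ph; rw [ff_neg, map_neg]; ring

lemma Ph_eqB (z : ℂ) : Ph p K z = gB p K z * (starRingEnd ℂ) z := by unfold Ph gB; ring

lemma Ph_eqA (z : ℂ) : Ph p K z = gA p K z * z := by unfold Ph gA; ring

lemma Ph_cont (hK : 1 ≤ K) (hp : 1 < p) : Continuous (Ph p K) := by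
  have h : Ph p K = fun z => gB p K z * (starRingEnd ℂ) z := by funext z; exact Ph_eqB z
  rw [h]
  exact (gB_cont hK hp).mul Complex.continuous_conj

lemma Ph_zero (hK : 1 ≤ K) : Ph p K 0 = 0 := by unfold Ph; rw [ff_zero hK, zero_mul]

lemma Ph_eq_of_ne {z : ℂ} (hz : z ≠ 0) :
    Ph p K z = ((‖z‖ ^ 2) ^ (p / 2 - K) : ℝ) * (starRingEnd ℂ) z ^ (2 * K) := by
  have h0 : 0 < ‖z‖ := norm_pos_iff.2 hz
  unfold Ph ff
  have h1 : z * (starRingEnd ℂ) z = ((‖z‖ ^ 2 : ℝ) : ℂ) := by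
    rw [Complex.mul_conj, Complex.normSq_eq_norm_sq]
  rw [h1]
  have h2 : (‖z‖ ^ 2) ^ (p / 2 - K) = ‖z‖ ^ (p - 2 - 2 * K) * ‖z‖ ^ 2 := by
    rw [← Real.rpow_natCast ‖z‖ 2, ← Real.rpow_mul h0.le, ← Real.rpow_add h0]
    congr 1
    push_cast
    ring
  rw [h2]
  push_cast
  ring

/-- the differential of `Φ` -/
theorem Ph_deriv (hK : 1 ≤ K) (hp : 1 < p) {z : ℝ → ℂ} {v : ℂ} {t : ℝ} (hz : HasDerivAt z v t) :
    HasDerivAt (fun s => Ph p K (z s))
      ((p / 2 - K) * gA p K (z t) * v + (p / 2 + K) * gB p K (z t) * (starRingEnd ℂ) v) t := by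
  by_cases h0 : z t = 0
  · rw [h0, gA_zero hK, gB_zero hK]
    simp only [mul_zero, zero_mul, add_zero]
    rw [hasDerivAt_iff_isLittleO]
    have h1 : (fun s => Ph p K (z s) - Ph p K (z t) - (s - t) • (0 : ℂ)) =
        fun s => gB p K (z s) * (starRingEnd ℂ) (z s - z t) := by
      funext s
      rw [h0, Ph_zero hK, smul_zero, sub_zero, sub_zero, sub_zero, Ph_eqB]
    rw [h1]
    have h2 : (fun s => (starRingEnd ℂ) (z s - z t)) =O[𝓝 t] fun s => s - t := by
      have := hz.isBigO_sub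
      refine IsBigO.trans ?_ this
      exact isBigO_of_le _ (fun s => by rw [Complex.norm_conj])
    have h3 : (fun s => gB p K (z s)) =o[𝓝 t] fun _ => (1 : ℝ) := by
      rw [isLittleO_one_iff]
      have hc : ContinuousAt (fun s => gB p K (z s)) t :=
        (gB_cont hK hp).continuousAt.comp hz.continuousAt
      have := hc.tendsto
      rwa [h0, gB_zero hK] at this
    have h4 := h3.mul_isBigO h2
    simpa using h4
  · have hn0 : 0 < ‖z t‖ := norm_pos_iff.2 h0
    have h1 : HasDerivAt (fun s => ‖z s‖ ^ 2) (2 * inner ℝ (z t) v) t := hz.norm_sq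
    have h2 : HasDerivAt (fun s => (‖z s‖ ^ 2) ^ (p / 2 - K))
        (2 * inner ℝ (z t) v * (p / 2 - K) * (‖z t‖ ^ 2) ^ (p / 2 - K - 1)) t :=
      h1.rpow_const (Or.inl (by positivity))
    have h3 : HasDerivAt (fun s => (((‖z s‖ ^ 2) ^ (p / 2 - K) : ℝ) : ℂ))
        ((2 * inner ℝ (z t) v * (p / 2 - K) * (‖z t‖ ^ 2) ^ (p / 2 - K - 1) : ℝ) : ℂ) t :=
      h2.ofReal_comp
    have h4 : HasDerivAt (fun s => (starRingEnd ℂ) (z s)) ((starRingEnd ℂ) v) t :=
      (Complex.conjCLE.toContinuousLinearMap.hasFDerivAt).comp_hasDerivAt t hz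
    have h5 : HasDerivAt (fun s => (starRingEnd ℂ) (z s) ^ (2 * K))
        (((2 * K : ℕ) : ℂ) * (starRingEnd ℂ) (z t) ^ (2 * K - 1) * (starRingEnd ℂ) v) t := h4.pow (2 * K)
    have h6 : HasDerivAt (fun s => (((‖z s‖ ^ 2) ^ (p / 2 - K) : ℝ) : ℂ) * (starRingEnd ℂ) (z s) ^ (2 * K))
        (((2 * inner ℝ (z t) v * (p / 2 - K) * (‖z t‖ ^ 2) ^ (p / 2 - K - 1) : ℝ) : ℂ) *
          (starRingEnd ℂ) (z t) ^ (2 * K) + (((‖z t‖ ^ 2) ^ (p / 2 - K) : ℝ) : ℂ) *
          (((2 * K : ℕ) : ℂ) * (starRingEnd ℂ) (z t) ^ (2 * K - 1) * (starRingEnd ℂ) v)) t := h3.mul h5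
    have h7 : (fun s => Ph p K (z s)) =ᶠ[𝓝 t]
        fun s => (((‖z s‖ ^ 2) ^ (p / 2 - K) : ℝ) : ℂ) * (starRingEnd ℂ) (z s) ^ (2 * K) := by
      have := hz.continuousAt.eventually_ne h0
      filter_upwards [this] with s hs
      exact Ph_eq_of_ne hs
    refine (h6.congr_of_eventuallyEq h7).congr_deriv ?_
    have e1 : ((inner ℝ (z t) v : ℝ) : ℂ) = ((starRingEnd ℂ) (z t) * v + z t * (starRingEnd ℂ) v) / 2 := by
      have h8 := Complex.add_conj ((starRingEnd ℂ) (z t) * v)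
      rw [map_mul, Complex.conj_conj] at h8
      have h10 : (inner ℝ (z t) v : ℝ) = ((starRingEnd ℂ) (z t) * v).re := by
        rw [Complex.inner]
        first
          | rfl
          | (rw [mul_comm])
      rw [h10, h8]
      push_cast
      ring
    have e2 : (‖z t‖ ^ 2) ^ (p / 2 - K - 1) = ‖z t‖ ^ (p - 2 - 2 * K) := by
      rw [← Real.rpow_natCast ‖z t‖ 2, ← Real.rpow_mul hn0.le]
      congr 1
      push_cast
      ring
    have e3 : (‖z t‖ ^ 2) ^ (p / 2 - K) = ‖z t‖ ^ (p - 2 - 2 * K) * ‖z t‖ ^ 2 := by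
      rw [← Real.rpow_natCast ‖z t‖ 2, ← Real.rpow_mul hn0.le, ← Real.rpow_add hn0]
      congr 1
      push_cast
      ring
    have e4 : ((‖z t‖ : ℂ)) ^ 2 = z t * (starRingEnd ℂ) (z t) := by
      rw [Complex.mul_conj, Complex.normSq_eq_norm_sq]
      push_cast
      rfl
    obtain ⟨k, hk⟩ : ∃ k, 2 * K = k + 1 := ⟨2 * K - 1, by omega⟩
    have hkC : (2 * (K : ℂ)) = (k : ℂ) + 1 := by exact_mod_cast hk
    rw [e2, e3]
    unfold gA gB ff
    simp only [Complex.ofReal_mul, Complex.ofReal_pow, Complex.ofReal_sub, Complex.ofReal_div,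
      Complex.ofReal_ofNat, Complex.ofReal_natCast]
    rw [e1, e4, hk]
    rw [show k + 1 - 1 = k by omega]
    push_cast
    rw [← hkC]
    rw [pow_succ]
    ring

/-- a closed `C^1` curve -/
structure Cv (A A' : ℝ → ℂ) : Prop where
  der : ∀ θ, HasDerivAt A (A' θ) θ
  cont : Continuous A'
  per : ∀ θ, A (θ + 2 * Real.pi) = A θ
  per' : ∀ θ, A' (θ + 2 * Real.pi) = A' θ

lemma Cv.contA {A A' : ℝ → ℂ} (h : Cv A A') : Continuous A :=
  continuous_iff_continuousAt.2 fun θ => (h.der θ).continuousAt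

lemma Cv.end {A A' : ℝ → ℂ} (h : Cv A A') : A (2 * Real.pi) = A 0 := by
  have := h.per 0
  rwa [zero_add] at this

lemma Cv.smul_add {A A' V V' : ℝ → ℂ} (h : Cv A A') (hV : Cv V V') (τ : ℝ) :
    Cv (fun θ => A θ + τ * V θ) (fun θ => A' θ + τ * V' θ) where
  der θ := (h.der θ).add ((hV.der θ).const_mul (τ : ℂ))
  cont := h.cont.add (continuous_const.mul hV.cont)
  per θ := by rw [h.per, hV.per]
  per' θ := by rw [h.per', hV.per']

/-- integral of the derivative of a periodic function -/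
lemma int_deriv_zero {F F' : ℝ → ℂ} (hF : ∀ θ, HasDerivAt F (F' θ) θ) (hc : Continuous F')
    (he : F (2 * Real.pi) = F 0) : ∫ b in (0 : ℝ)..2 * Real.pi, F' b = 0 := by
  rw [intervalIntegral.integral_eq_sub_of_hasDerivAt (fun θ _ => hF θ) (hc.intervalIntegrable _ _),
    he, sub_self]

section curve

variable {A A' : ℝ → ℂ} (c : ℂ)

lemma cv_sub (h : Cv A A') (θ : ℝ) : HasDerivAt (fun b => A b - c) (A' θ) θ :=
  (h.der θ).sub_const c

lemma cv_conj {z : ℝ → ℂ} {v : ℂ} {θ : ℝ} (h : HasDerivAt z v θ) :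
    HasDerivAt (fun b => (starRingEnd ℂ) (z b)) ((starRingEnd ℂ) v) θ :=
  (Complex.conjCLE.toContinuousLinearMap.hasFDerivAt).comp_hasDerivAt θ h

/-- (L1) -/
theorem intL1 (hK : 1 ≤ K) (hp : 1 < p) (h : Cv A A') :
    (p / 2 - K) * (∫ b in (0 : ℝ)..2 * Real.pi, gA p K (A b - c) * A' b) +
      (p / 2 + K) * (∫ b in (0 : ℝ)..2 * Real.pi, gB p K (A b - c) * (starRingEnd ℂ) (A' b)) = 0 := by
  have cA : Continuous fun b => gA p K (A b - c) := (gA_cont hK hp).comp (h.contA.sub continuous_const)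
  have cB : Continuous fun b => gB p K (A b - c) := (gB_cont hK hp).comp (h.contA.sub continuous_const)
  have cc : Continuous fun b => (starRingEnd ℂ) (A' b) := Complex.continuous_conj.comp h.cont
  have hd : ∀ θ, HasDerivAt (fun b => Ph p K (A b - c))
      ((p / 2 - K) * gA p K (A θ - c) * A' θ + (p / 2 + K) * gB p K (A θ - c) * (starRingEnd ℂ) (A' θ)) θ :=
    fun θ => Ph_deriv hK hp (cv_sub c h θ)
  have hcont : Continuous fun θ =>
      (p / 2 - K) * gA p K (A θ - c) * A' θ + (p / 2 + K) * gB p K (A θ - c) * (starRingEnd ℂ) (A' θ) :=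
    ((continuous_const.mul cA).mul h.cont).add ((continuous_const.mul cB).mul cc)
  have h0 := int_deriv_zero hd hcont (by rw [h.end])
  rw [← h0, ← intervalIntegral.integral_const_mul, ← intervalIntegral.integral_const_mul,
    ← intervalIntegral.integral_add]
  · congr 1
    funext b
    ring
  · exact ((continuous_const.mul (cA.mul h.cont))).intervalIntegrable _ _
  · exact ((continuous_const.mul (cB.mul cc))).intervalIntegrable _ _

/-- (L2) -/
theorem intL2 (hK : 1 ≤ K) (hp : 1 < p) (h : Cv A A') :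
    (p / 2 - K + 1) * (∫ b in (0 : ℝ)..2 * Real.pi, Ph p K (A b - c) * A' b) +
      (p / 2 + K) * (∫ b in (0 : ℝ)..2 * Real.pi, gB p K (A b - c) * (A b - c) * (starRingEnd ℂ) (A' b)) = 0 := by
  have cZ : Continuous fun b => A b - c := h.contA.sub continuous_const
  have cP : Continuous fun b => Ph p K (A b - c) := (Ph_cont hK hp).comp cZ
  have cA : Continuous fun b => gA p K (A b - c) := (gA_cont hK hp).comp cZ
  have cB : Continuous fun b => gB p K (A b - c) := (gB_cont hK hp).comp cZ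
  have cc : Continuous fun b => (starRingEnd ℂ) (A' b) := Complex.continuous_conj.comp h.cont
  have hd : ∀ θ, HasDerivAt (fun b => Ph p K (A b - c) * (A b - c))
      (((p / 2 - K) * gA p K (A θ - c) * A' θ + (p / 2 + K) * gB p K (A θ - c) * (starRingEnd ℂ) (A' θ)) *
        (A θ - c) + Ph p K (A θ - c) * A' θ) θ :=
    fun θ => (Ph_deriv hK hp (cv_sub c h θ)).mul (cv_sub c h θ)
  have hcont : Continuous fun θ =>
      ((p / 2 - K) * gA p K (A θ - c) * A' θ + (p / 2 + K) * gB p K (A θ - c) * (starRingEnd ℂ) (A' θ)) *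
        (A θ - c) + Ph p K (A θ - c) * A' θ :=
    ((((continuous_const.mul cA).mul h.cont).add ((continuous_const.mul cB).mul cc)).mul cZ).add
      (cP.mul h.cont)
  have h0 := int_deriv_zero hd hcont (by rw [h.end])
  rw [← h0, ← intervalIntegral.integral_const_mul, ← intervalIntegral.integral_const_mul,
    ← intervalIntegral.integral_add]
  · congr 1
    funext b
    rw [Ph_eqA]
    ring
  · exact ((continuous_const.mul (cP.mul h.cont))).intervalIntegrable _ _
  · exact ((continuous_const.mul ((cB.mul cZ).mul cc))).intervalIntegrable _ _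

/-- (L3) -/
theorem intL3 (hK : 1 ≤ K) (hp : 1 < p) (h : Cv A A') :
    (p / 2 + K + 1) * (∫ b in (0 : ℝ)..2 * Real.pi, Ph p K (A b - c) * (starRingEnd ℂ) (A' b)) +
      (p / 2 - K) * (∫ b in (0 : ℝ)..2 * Real.pi, gA p K (A b - c) * (starRingEnd ℂ) (A b - c) * A' b) = 0 := by
  have cZ : Continuous fun b => A b - c := h.contA.sub continuous_const
  have cZ' : Continuous fun b => (starRingEnd ℂ) (A b - c) := Complex.continuous_conj.comp cZ
  have cP : Continuous fun b => Ph p K (A b - c) := (Ph_cont hK hp).comp cZ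
  have cA : Continuous fun b => gA p K (A b - c) := (gA_cont hK hp).comp cZ
  have cB : Continuous fun b => gB p K (A b - c) := (gB_cont hK hp).comp cZ
  have cc : Continuous fun b => (starRingEnd ℂ) (A' b) := Complex.continuous_conj.comp h.cont
  have hd : ∀ θ, HasDerivAt (fun b => Ph p K (A b - c) * (starRingEnd ℂ) (A b - c))
      (((p / 2 - K) * gA p K (A θ - c) * A' θ + (p / 2 + K) * gB p K (A θ - c) * (starRingEnd ℂ) (A' θ)) *
        (starRingEnd ℂ) (A θ - c) + Ph p K (A θ - c) * (starRingEnd ℂ) (A' θ)) θ :=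
    fun θ => (Ph_deriv hK hp (cv_sub c h θ)).mul (cv_conj (cv_sub c h θ))
  have hcont : Continuous fun θ =>
      ((p / 2 - K) * gA p K (A θ - c) * A' θ + (p / 2 + K) * gB p K (A θ - c) * (starRingEnd ℂ) (A' θ)) *
        (starRingEnd ℂ) (A θ - c) + Ph p K (A θ - c) * (starRingEnd ℂ) (A' θ) :=
    ((((continuous_const.mul cA).mul h.cont).add ((continuous_const.mul cB).mul cc)).mul cZ').add
      (cP.mul cc)
  have h0 := int_deriv_zero hd hcont (by rw [h.end])
  rw [← h0, ← intervalIntegral.integral_const_mul, ← intervalIntegral.integral_const_mul,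
    ← intervalIntegral.integral_add]
  · congr 1
    funext b
    rw [Ph_eqB]
    ring
  · exact ((continuous_const.mul (cP.mul cc))).intervalIntegrable _ _
  · exact ((continuous_const.mul ((cA.mul cZ').mul h.cont))).intervalIntegrable _ _

end curve

end

end Pool.Agent.H65.RM
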