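import Pool.Agent.H65.RM.Tor2

/-!
# RM module Pol: polar form of the torus integrals (paper, (3d), (4a)-(4c))
-/

open Filter Topology MeasureTheory intervalIntegral Finset

namespace Pool.Agent.H65.RM

/-- `γ'` -/
noncomputable def ga' (N : ℕ) (r : ℕ → ℝ) (θ : ℝ) : ℂ := ro N r θ * ex θ

/-- (3d): the Fourier coefficient `F_K` of `φ ↦ F(h,φ)` in polar form -/
noncomputable def FK (p : ℝ) (N : ℕ) (r : ℕ → ℝ) (K : ℕ) : ℂ :=
  (1 / (2 * Real.pi * (p + 1)) : ℝ) * ∫ α in (0 : ℝ)..2 * Real.pi, ∫ t in (0 : ℝ)..Real.pi,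
    ex (-(2 * K * (α + t))) * ((el N r α t ^ (p + 1) * ro N r α * Real.sin t : ℝ) : ℂ)

section

variable {N : ℕ} {r : ℕ → ℝ} {R : ℝ} {p : ℝ} {K : ℕ}

lemma ro_periodic (θ : ℝ) : ro N r (θ + 2 * Real.pi) = ro N r θ := by
  unfold ro
  congr 2
  apply Finset.sum_congr rfl
  intro i _
  congr 1
  have : 2 * (i : ℝ) * (θ + 2 * Real.pi) = 2 * i * θ + ((2 * i : ℕ) : ℝ) * (2 * Real.pi) := by
    push_cast; ring
  rw [this, Real.cos_add_nat_mul_two_pi]

lemma ex_periodic (θ : ℝ) : ex (θ + 2 * Real.pi) = ex θ := by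
  rw [ex_add, ex_two_pi, mul_one]

lemma cv_ga : Cv (ga N r) (ga' N r) where
  der θ := hasDerivAt_ga θ
  cont := (Complex.continuous_ofReal.comp continuous_ro).mul continuous_ex
  per := ga_periodic
  per' θ := by
    unfold ga'
    rw [ro_periodic, ex_periodic]

lemma Sm.el_nonneg (h : Sm N r R) (α : ℝ) {t : ℝ} (h0 : 0 ≤ t) (h1 : t ≤ Real.pi) :
    0 ≤ el N r α t := by
  unfold el
  have h2 := (h.mr_bounds α t).1
  have h3 := Real.sin_nonneg_of_nonneg_of_le_pi h0 h1
  positivity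

/-- change of variables `b = b(α, t)` -/
lemma Sm.chg (h : Sm N r R) (hR : 1 < R) (α : ℝ) {w : ℝ → ℂ}
    (hc : Continuous fun b => w b * (((starRingEnd ℂ) (ga N r b - ga N r α) * ga' N r b).im : ℂ))
    (hper : ∀ b, w (b + 2 * Real.pi) = w b) :
    ∫ b in (0 : ℝ)..2 * Real.pi, w b * (((starRingEnd ℂ) (ga N r b - ga N r α) * ga' N r b).im : ℂ) =
      ∫ t in (0 : ℝ)..Real.pi, w (bb N r α t) * ((el N r α t ^ 2 : ℝ) : ℂ) := by
  obtain ⟨b', hb'c, hbd, hb'⟩ := h.bb_deriv hR α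
  set g : ℝ → ℂ := fun b => w b * (((starRingEnd ℂ) (ga N r b - ga N r α) * ga' N r b).im : ℂ) with hg
  have hgp : Function.Periodic g (2 * Real.pi) := by
    intro b
    rw [hg]
    simp only
    rw [hper, cv_ga.per, cv_ga.per']
  have h1 := intervalIntegral.integral_deriv_smul_comp (a := 0) (b := Real.pi) (g := g)
    (fun t _ => hbd t) hb'c.continuousOn hc
  rw [h.bb_zero, h.bb_pi] at h1
  have h2 := hgp.intervalIntegral_add_eq α 0
  rw [zero_add] at h2
  rw [← h2, ← h1]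
  congr 1
  funext t
  rw [Function.comp, hg, Complex.real_smul]
  simp only
  have h3 := hb' t
  rw [show ((starRingEnd ℂ) (ga N r (bb N r α t) - ga N r α) * ga' N r (bb N r α t)).im =
    ((starRingEnd ℂ) (ga N r (bb N r α t) - ga N r α) * (ro N r (bb N r α t) * ex (bb N r α t))).im from rfl]
  rw [← h3]
  push_cast
  ring

/-- (4a), inner integral -/
theorem Sm.inner_a (h : Sm N r R) (hR : 1 < R) (hK : 1 ≤ K) (hp : 1 < p) (α : ℝ) :
    ∫ b in (0 : ℝ)..2 * Real.pi, ff p K (ga N r b - ga N r α) *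
      (((starRingEnd ℂ) (ga' N r α) * (ga N r b - ga N r α)).im : ℂ) *
      (((starRingEnd ℂ) (ga N r b - ga N r α) * ga' N r b).im : ℂ) =
    ∫ t in (0 : ℝ)..Real.pi,
      ex (-(2 * K * (α + t))) * ((el N r α t ^ (p + 1) * ro N r α * Real.sin t : ℝ) : ℂ) := by
  have cZ : Continuous fun b => ga N r b - ga N r α := cv_ga.contA.sub continuous_const
  have cZ' : Continuous fun b => (starRingEnd ℂ) (ga N r b - ga N r α) := Complex.continuous_conj.comp cZ
  have cP : Continuous fun b => Ph p K (ga N r b - ga N r α) := (Ph_cont hK hp).comp cZ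
  have cA : Continuous fun b => gA p K (ga N r b - ga N r α) := (gA_cont hK hp).comp cZ
  have cB : Continuous fun b => gB p K (ga N r b - ga N r α) := (gB_cont hK hp).comp cZ
  have c' : Continuous (ga' N r) := cv_ga.cont
  have cc : Continuous fun b => (starRingEnd ℂ) (ga' N r b) := Complex.continuous_conj.comp c'
  rw [h.chg hR α (w := fun b => ff p K (ga N r b - ga N r α) *
      (((starRingEnd ℂ) (ga' N r α) * (ga N r b - ga N r α)).im : ℂ))]
  · apply intervalIntegral.integral_congr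
    intro t ht
    rw [Set.uIcc_of_le Real.pi_pos.le] at ht
    simp only
    rw [h.chord α t]
    have hl := h.el_nonneg α ht.1 ht.2
    rcases hl.eq_or_lt with hl | hl
    · rw [← hl]
      simp only [Complex.ofReal_zero, zero_mul, mul_zero]
      rw [Real.zero_rpow (by linarith)]
      simp
    · rw [ff_ray hl]
      have e1 : ((starRingEnd ℂ) (ga' N r α) * ((el N r α t : ℂ) * ex (α + t))).im =
          ro N r α * el N r α t * Real.sin t := by
        unfold ga'
        rw [map_mul, Complex.conj_ofReal, ex_conj, ← ex_neg]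
        have : (ro N r α : ℂ) * ex (-α) * ((el N r α t : ℂ) * ex (α + t)) =
            ((ro N r α * el N r α t : ℝ) : ℂ) * ex t := by
          have e2 : ex t = ex (-α) * ex (α + t) := by rw [← ex_add]; congr 1; ring
          rw [e2]
          push_cast
          ring
        rw [this, Complex.im_ofReal_mul]
        congr 1
        unfold ex
        rw [mul_comm, Complex.exp_ofReal_mul_I_im]
      rw [e1]
      have e3 : el N r α t ^ (p + 1) = el N r α t ^ (p - 2) * el N r α t * el N r α t ^ 2 := by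
        rw [← Real.rpow_natCast (el N r α t) 2]
        nth_rewrite 3 [← Real.rpow_one (el N r α t)]
        rw [← Real.rpow_add hl, ← Real.rpow_add hl]
        congr 1
        push_cast
        ring
      rw [e3]
      push_cast
      ring
  · have : (fun b => ff p K (ga N r b - ga N r α) *
        (((starRingEnd ℂ) (ga' N r α) * (ga N r b - ga N r α)).im : ℂ) *
        (((starRingEnd ℂ) (ga N r b - ga N r α) * ga' N r b).im : ℂ)) = fun b =>
        -(1 / 4) * ((starRingEnd ℂ) (ga' N r α) * (Ph p K (ga N r b - ga N r α) * ga' N r b) -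
          (starRingEnd ℂ) (ga' N r α) * (gB p K (ga N r b - ga N r α) * (ga N r b - ga N r α) * (starRingEnd ℂ) (ga' N r b)) -
        ga' N r α * (gA p K (ga N r b - ga N r α) * (starRingEnd ℂ) (ga N r b - ga N r α) * ga' N r b) +
          ga' N r α * (Ph p K (ga N r b - ga N r α) * (starRingEnd ℂ) (ga' N r b))) := by
      funext b
      exact FF_integrand _ _ _
    rw [this]
    fun_prop
  · intro b
    rw [cv_ga.per]

/-- (4c), inner integral -/
theorem Sm.inner_c (h : Sm N r R) (hR : 1 < R) (hK : 1 ≤ K) (hp : 1 < p) (α : ℝ) :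
    ∫ b in (0 : ℝ)..2 * Real.pi, ff p K (ga N r b - ga N r α) *
      (((starRingEnd ℂ) (ga N r b - ga N r α) * ga' N r b).im : ℂ) =
    ∫ t in (0 : ℝ)..Real.pi, ex (-(2 * K * (α + t))) * ((el N r α t ^ p : ℝ) : ℂ) := by
  have cZ : Continuous fun b => ga N r b - ga N r α := cv_ga.contA.sub continuous_const
  have cA : Continuous fun b => gA p K (ga N r b - ga N r α) := (gA_cont hK hp).comp cZ
  have cB : Continuous fun b => gB p K (ga N r b - ga N r α) := (gB_cont hK hp).comp cZ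
  have c' : Continuous (ga' N r) := cv_ga.cont
  have cc : Continuous fun b => (starRingEnd ℂ) (ga' N r b) := Complex.continuous_conj.comp c'
  rw [h.chg hR α (w := fun b => ff p K (ga N r b - ga N r α))]
  · apply intervalIntegral.integral_congr
    intro t ht
    rw [Set.uIcc_of_le Real.pi_pos.le] at ht
    simp only
    rw [h.chord α t]
    have hl := h.el_nonneg α ht.1 ht.2
    rcases hl.eq_or_lt with hl | hl
    · rw [← hl]
      simp only [Complex.ofReal_zero, zero_mul, mul_zero]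
      rw [Real.zero_rpow (by linarith)]
      simp
    · rw [ff_ray hl]
      have e3 : el N r α t ^ p = el N r α t ^ (p - 2) * el N r α t ^ 2 := by
        rw [← Real.rpow_natCast (el N r α t) 2, ← Real.rpow_add hl]
        congr 1
        push_cast
        ring
      rw [e3]
      push_cast
      ring
  · have : (fun b => ff p K (ga N r b - ga N r α) *
        (((starRingEnd ℂ) (ga N r b - ga N r α) * ga' N r b).im : ℂ)) = fun b =>
        (gA p K (ga N r b - ga N r α) * ga' N r b - gB p K (ga N r b - ga N r α) * (starRingEnd ℂ) (ga' N r b)) /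
          (2 * Complex.I) := by
      funext b
      rw [im_mul_conj]
      unfold gA gB
      ring
    rw [this]
    fun_prop
  · intro b
    rw [cv_ga.per]

/-- (4a) + (4b) -/
theorem Sm.FK_eq (h : Sm N r R) (hR : 1 < R) (hK : 1 ≤ K) (hp : 1 < p) (hpK : p / 2 ≠ K) :
    FK p N r K = ((p / (8 * Real.pi * (K ^ 2 - (p / 2) ^ 2)) : ℝ) : ℂ) *
      JJ p K (ga N r) (ga' N r) := by
  have h1 : FK p N r K = (1 / (2 * Real.pi * (p + 1)) : ℝ) * FF p K (ga N r) (ga' N r) := by
    unfold FK FF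
    congr 2
    funext α
    exact (h.inner_a hR hK hp α).symm
  rw [h1, FF_eq hK hp hpK cv_ga]
  have hpi := Real.pi_ne_zero
  have hp1 : p + 1 ≠ 0 := by linarith
  have hk : (K : ℝ) ^ 2 - (p / 2) ^ 2 ≠ 0 := by
    have e : (K : ℝ) ^ 2 - (p / 2) ^ 2 = (K - p / 2) * (K + p / 2) := by ring
    rw [e]
    have h3 : (K : ℝ) - p / 2 ≠ 0 := sub_ne_zero.2 (Ne.symm hpK)
    have h4 : (0 : ℝ) < K + p / 2 := by positivity
    exact mul_ne_zero h3 h4.ne'
  have h5 : p / 2 + K ≠ 0 := by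
    have : (0 : ℝ) < p / 2 + K := by positivity
    exact this.ne'
  have h6 : p / 2 - K ≠ 0 := sub_ne_zero.2 hpK
  rw [← mul_assoc]
  congr 1
  have h7 : ((1 / (2 * Real.pi * (p + 1)) : ℝ) : ℂ) *
      (-((p + 1) / 4) * (1 / (p / 2 + K) + 1 / (p / 2 - K))) =
      ((1 / (2 * Real.pi * (p + 1)) * (-((p + 1) / 4) * (1 / (p / 2 + K) + 1 / (p / 2 - K))) : ℝ) : ℂ) := by
    push_cast
    ring
  rw [h7]
  congr 1
  have h8 : (K : ℝ) ^ 2 - (p / 2) ^ 2 = -((p / 2 + K) * (p / 2 - K)) := by ring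
  rw [h8]
  have h9 : 1 / (p / 2 + K) + 1 / (p / 2 - K) = p / ((p / 2 + K) * (p / 2 - K)) := by
    rw [div_add_div _ _ h5 h6]
    congr 1
    ring
  rw [h9]
  field_simp
  ring

/-! ## the line `r + τ s` -/

/-- the vector field `V` -/
noncomputable def Vs (N : ℕ) (s : ℕ → ℝ) (θ : ℝ) : ℂ := ∑ i ∈ Icc 1 N, (s i : ℂ) *
  (-Complex.I / (2 * i + 1) * Complex.exp (Complex.I * ((2 * i + 1) * θ)) +
    Complex.I / (2 * i - 1) * Complex.exp (-(Complex.I * ((2 * i - 1) * θ))))

noncomputable def Vs' (N : ℕ) (s : ℕ → ℝ) (θ : ℝ) : ℂ :=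
  ((2 * ∑ i ∈ Icc 1 N, s i * Real.cos (2 * i * θ) : ℝ) : ℂ) * ex θ

/-- the support function of the direction -/
noncomputable def et (N : ℕ) (s : ℕ → ℝ) (θ : ℝ) : ℝ :=
  ∑ i ∈ Icc 1 N, -2 * s i / (4 * i ^ 2 - 1) * Real.cos (2 * i * θ)

lemma ga_line (r s : ℕ → ℝ) (τ θ : ℝ) :
    ga N (fun i => r i + τ * s i) θ = ga N r θ + τ * Vs N s θ := by
  unfold ga Vs
  rw [Finset.mul_sum, add_assoc, ← Finset.sum_add_distrib]
  congr 1
  apply Finset.sum_congr rfl
  intro i _
  push_cast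
  ring

lemma ga'_line (r s : ℕ → ℝ) (τ θ : ℝ) :
    ga' N (fun i => r i + τ * s i) θ = ga' N r θ + τ * Vs' N s θ := by
  unfold ga' Vs' ro
  have : (1 + 2 * ∑ i ∈ Icc 1 N, (r i + τ * s i) * Real.cos (2 * i * θ) : ℝ) =
      (1 + 2 * ∑ i ∈ Icc 1 N, r i * Real.cos (2 * i * θ)) +
      τ * (2 * ∑ i ∈ Icc 1 N, s i * Real.cos (2 * i * θ)) := by
    simp only [add_mul, Finset.sum_add_distrib]
    rw [mul_add, ← add_assoc]
    congr 1
    rw [Finset.mul_sum, Finset.mul_sum, Finset.mul_sum]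
    apply Finset.sum_congr rfl
    intro i _
    ring
  rw [this]
  push_cast
  ring

lemma cv_Vs (s : ℕ → ℝ) : Cv (Vs N s) (Vs' N s) := by
  have h1 : Vs N s = fun θ => ga N s θ - ga N (fun _ => 0) θ := by
    funext θ
    unfold Vs ga
    simp
  have h2 : Vs' N s = fun θ => ga' N s θ - ga' N (fun _ => 0) θ := by
    funext θ
    unfold Vs' ga' ro
    simp
    ring
  rw [h1, h2]
  exact {
    der := fun θ => (cv_ga.der θ).sub (cv_ga.der θ)
    cont := cv_ga.cont.sub cv_ga.cont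
    per := fun θ => by rw [cv_ga.per, cv_ga.per]
    per' := fun θ => by rw [cv_ga.per', cv_ga.per'] }

lemma im_et (s : ℕ → ℝ) (θ : ℝ) : (ex θ * (starRingEnd ℂ) (Vs N s θ)).im = et N s θ := by
  unfold Vs et
  rw [map_sum, Finset.mul_sum, Complex.im_sum]
  apply Finset.sum_congr rfl
  intro i hi
  have hi1 := (Finset.mem_Icc.1 hi).1
  have hi' : (1 : ℝ) ≤ i := by exact_mod_cast hi1
  have e1 : Complex.exp (Complex.I * ((2 * i + 1) * θ)) = ex ((2 * i + 1) * θ) := by
    unfold ex; push_cast; rfl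
  have e2 : Complex.exp (-(Complex.I * ((2 * i - 1) * θ))) = ex (-((2 * i - 1) * θ)) := by
    unfold ex; push_cast; congr 1; ring
  rw [e1, e2]
  have e3 : ex θ * (starRingEnd ℂ) ((s i : ℂ) * (-Complex.I / (2 * i + 1) * ex ((2 * i + 1) * θ) +
      Complex.I / (2 * i - 1) * ex (-((2 * i - 1) * θ)))) =
      Complex.I * (((s i / (2 * i + 1) : ℝ) : ℂ) * ex (-(2 * i * θ)) -
        ((s i / (2 * i - 1) : ℝ) : ℂ) * ex (2 * i * θ)) := by
    simp only [map_mul, map_add, map_div₀, map_neg, Complex.conj_I, Complex.conj_ofReal, ex_conj,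
      map_sub, map_one, map_ofNat, Complex.conj_natCast, neg_neg]
    rw [← ex_neg, ← ex_neg, neg_neg]
    have f1 : ex (-(2 * i * θ)) = ex θ * ex (-((2 * i + 1) * θ)) := by
      rw [← ex_add]; congr 1; ring
    have f2 : ex (2 * i * θ) = ex θ * ex ((2 * i - 1) * θ) := by
      rw [← ex_add]; congr 1; ring
    rw [f1, f2]
    push_cast
    ring
  rw [e3]
  have re_ex : ∀ x : ℝ, (ex x).re = Real.cos x := by
    intro x
    unfold ex
    rw [mul_comm, Complex.exp_ofReal_mul_I_re]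
  rw [Complex.I_mul_im, Complex.sub_re, Complex.re_ofReal_mul, Complex.re_ofReal_mul, re_ex, re_ex,
    Real.cos_neg]
  have h1 : (2 * (i : ℝ) + 1) ≠ 0 := by positivity
  have h2 : (2 * (i : ℝ) - 1) ≠ 0 := by
    have : (0 : ℝ) < 2 * i - 1 := by linarith
    exact this.ne'
  have h3 : (4 * (i : ℝ) ^ 2 - 1) = (2 * i + 1) * (2 * i - 1) := by ring
  rw [h3]
  field_simp
  ring

/-- `F_K` as a function on all directions: the multiple of `J` -/
noncomputable def FJ (p : ℝ) (N : ℕ) (r : ℕ → ℝ) (K : ℕ) : ℂ :=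
  ((p / (8 * Real.pi * (K ^ 2 - (p / 2) ^ 2)) : ℝ) : ℂ) * JJ p K (ga N r) (ga' N r)

/-- (4c) -/
theorem FJ_deriv (r s : ℕ → ℝ) (τ : ℝ) (h : Sm N (fun i => r i + τ * s i) R) (hR : 1 < R)
    (hK : 1 ≤ K) (hp : 1 < p) (hpK : p / 2 ≠ K) :
    HasDerivAt (fun τ : ℝ => FJ p N (fun i => r i + τ * s i) K)
      ((1 / Real.pi : ℝ) * ∫ α in (0 : ℝ)..2 * Real.pi,
        ((ro N (fun i => r i + τ * s i) α * et N s α : ℝ) : ℂ) *
        ∫ t in (0 : ℝ)..Real.pi, ex (-(2 * K * (α + t))) *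
          ((el N (fun i => r i + τ * s i) α t ^ p : ℝ) : ℂ)) τ := by
  have h1 := (JJ_deriv' hK hp (cv_ga (N := N) (r := r)) (cv_Vs (N := N) s) τ).const_mul
    ((p / (8 * Real.pi * (K ^ 2 - (p / 2) ^ 2)) : ℝ) : ℂ)
  have hf : (fun τ : ℝ => FJ p N (fun i => r i + τ * s i) K) = fun τ : ℝ =>
      ((p / (8 * Real.pi * (K ^ 2 - (p / 2) ^ 2)) : ℝ) : ℂ) *
      JJ p K (fun θ => ga N r θ + τ * Vs N s θ) (fun θ => ga' N r θ + τ * Vs' N s θ) := by
    funext τ
    unfold FJ
    have e1 : ga N (fun i => r i + τ * s i) = fun θ => ga N r θ + τ * Vs N s θ :=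
      funext fun θ => ga_line r s τ θ
    have e2 : ga' N (fun i => r i + τ * s i) = fun θ => ga' N r θ + τ * Vs' N s θ :=
      funext fun θ => ga'_line r s τ θ
    rw [e1, e2]
  rw [hf]
  refine h1.congr_deriv ?_
  have e1 : (fun θ => ga N r θ + τ * Vs N s θ) = ga N (fun i => r i + τ * s i) :=
    funext fun θ => (ga_line r s τ θ).symm
  have e2 : (fun θ => ga' N r θ + τ * Vs' N s θ) = ga' N (fun i => r i + τ * s i) :=
    funext fun θ => (ga'_line r s τ θ).symm
  have e3 : (fun a => ((ga' N r a + τ * Vs' N s a) * (starRingEnd ℂ) (Vs N s a)).im) =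
      fun a => ro N (fun i => r i + τ * s i) a * et N s a := by
    funext a
    rw [← ga'_line]
    unfold ga'
    rw [mul_assoc, Complex.im_ofReal_mul, im_et]
  rw [e1, e2, e3]
  have e4 : LL p K (ga N (fun i => r i + τ * s i)) (ga' N (fun i => r i + τ * s i))
      (fun a => ro N (fun i => r i + τ * s i) a * et N s a) =
      ∫ α in (0 : ℝ)..2 * Real.pi,
        ((ro N (fun i => r i + τ * s i) α * et N s α : ℝ) : ℂ) *
        ∫ t in (0 : ℝ)..Real.pi, ex (-(2 * K * (α + t))) *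
          ((el N (fun i => r i + τ * s i) α t ^ p : ℝ) : ℂ) := by
    unfold LL
    congr 1
    funext α
    rw [h.inner_c hR hK hp α]
  rw [e4, ← mul_assoc]
  congr 1
  have hpi := Real.pi_ne_zero
  have hp0 : p ≠ 0 := by linarith
  have hk : (K : ℝ) ^ 2 - (p / 2) ^ 2 ≠ 0 := by
    have e : (K : ℝ) ^ 2 - (p / 2) ^ 2 = (K - p / 2) * (K + p / 2) := by ring
    rw [e]
    have h3 : (K : ℝ) - p / 2 ≠ 0 := sub_ne_zero.2 (Ne.symm hpK)
    have h4 : (0 : ℝ) < K + p / 2 := by positivity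
    exact mul_ne_zero h3 h4.ne'
  have h7 : ((p / (8 * Real.pi * (K ^ 2 - (p / 2) ^ 2)) : ℝ) : ℂ) *
      (4 * (K ^ 2 - (p / 2) ^ 2) / (p / 2)) =
      ((p / (8 * Real.pi * (K ^ 2 - (p / 2) ^ 2)) * (4 * (K ^ 2 - (p / 2) ^ 2) / (p / 2)) : ℝ) : ℂ) := by
    push_cast
    ring
  rw [h7]
  congr 1
  have e5 : 8 * Real.pi * ((K : ℝ) ^ 2 - (p / 2) ^ 2) ≠ 0 :=
    mul_ne_zero (mul_ne_zero (by norm_num) hpi) hk
  have e6 : p / 2 ≠ 0 := div_ne_zero hp0 (by norm_num)
  rw [div_mul_div_comm, div_eq_div_iff (mul_ne_zero e5 e6) hpi]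
  ring

end

end Pool.Agent.H65.RM
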