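import Pool.Agent.H65.RM.Jet
import Pool.Agent.H65.RM.Four

/-!
# RM module Base: the kernel at the base body `h = 1 + ε cos 4θ` (paper, (6a))
-/

open Finset Filter Topology

namespace Pool.Agent.H65.RM

/-- the base body: only the mode 2 (that is `cos 4θ`) -/
def rb (x : ℝ) : ℕ → ℝ := fun i => if i = 2 then x else 0

/-- radius of the annulus -/
noncomputable def R0 : ℝ := Real.exp (1 / 10)

lemma R0_one : 1 < R0 := Real.one_lt_exp_iff.2 (by norm_num)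

lemma R0_le : R0 ≤ 5 / 4 := by
  have h2 : R0 ^ 10 ≤ (5 / 4) ^ 10 := by
    unfold R0
    rw [← Real.exp_nat_mul]
    norm_num
    linarith [Real.exp_one_lt_d9]
  exact le_of_pow_le_pow_left₀ (by norm_num) (by norm_num) h2

lemma R0_pow : R0 ^ 10 ≤ 2.7182818286 := by
  unfold R0
  rw [← Real.exp_nat_mul]
  norm_num
  linarith [Real.exp_one_lt_d9]

section

variable {N : ℕ} {x : ℝ} {U X w : ℂ}

lemma wt_rb (hN : 2 ≤ N) (R : ℝ) : wt N (rb x) R = 2 * |x| * R ^ 10 := by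
  unfold wt rb
  rw [Finset.sum_eq_single 2]
  · simp
  · intro i _ hi
    simp [hi]
  · intro h
    exact absurd (Finset.mem_Icc.2 ⟨by norm_num, hN⟩) h

lemma Sm_rb (hN : 2 ≤ N) (hx : |x| ≤ 1 / 2000) : Sm N (rb x) R0 := by
  refine ⟨R0_one.le, R0_le, ?_⟩
  rw [wt_rb hN]
  have h1 := R0_pow
  have h2 : (0 : ℝ) ≤ R0 ^ 10 := by have := R0_one; positivity
  have h3 := abs_nonneg x
  nlinarith

lemma q_rb (hN : 2 ≤ N) (U X : ℂ) : q N (rb x) U X = 1 + x * jA U U⁻¹ X X⁻¹ := by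
  unfold q rb
  rw [Finset.sum_eq_single 2]
  · unfold PP PM jA
    simp [Finset.sum_range_succ]
    left
    norm_num
    ring
  · intro i _ hi
    simp [hi]
  · intro h
    exact absurd (Finset.mem_Icc.2 ⟨by norm_num, hN⟩) h

lemma qs_rb (hN : 2 ≤ N) (U X : ℂ) : qs N (rb x) U X = 1 + x * jA U⁻¹ U X⁻¹ X := by
  unfold qs
  rw [q_rb hN, inv_inv, inv_inv]

lemma chi_rb (hN : 2 ≤ N) (U X : ℂ) (hX : X ≠ 0) : chi N (rb x) U X = x * jB U U⁻¹ X X⁻¹ := by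
  unfold chi rb
  rw [Finset.sum_eq_single 2]
  · unfold HH TT jB
    simp [Finset.sum_range_succ]
    field_simp
    ring
  · intro i _ hi
    simp [hi]
  · intro h
    exact absurd (Finset.mem_Icc.2 ⟨by norm_num, hN⟩) h

lemma rh_rb (hN : 2 ≤ N) (U : ℂ) : rh N (rb x) U = 1 + x * (U ^ 2 + U⁻¹ ^ 2) := by
  unfold rh rb
  rw [Finset.sum_eq_single 2]
  · simp
  · intro i _ hi
    simp [hi]
  · intro h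
    exact absurd (Finset.mem_Icc.2 ⟨by norm_num, hN⟩) h

/-- index set of the uniform estimates -/
def IB : Type := {z : ℕ × ℝ × ℂ × ℂ // 2 ≤ z.1 ∧ |z.2.1| ≤ 1 / 2000 ∧ z.2.2.1 ∈ An R0 ∧ z.2.2.2 ∈ An R0}

/-- (6a) at `p = 2` -/
theorem base_jet : ∃ C : ℝ, 0 ≤ C ∧ ∀ N : ℕ, 2 ≤ N → ∀ x : ℝ, |x| ≤ 1 / 2000 → ∀ U ∈ An R0,
    ∀ w ∈ An R0, ‖mm N (rb x) U w ^ 2 * rh N (rb x) U - 1 - x * N1 U U⁻¹ w w⁻¹ -
      x ^ 2 * N2 U U⁻¹ w w⁻¹‖ ≤ C * |x| ^ 3 := by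
  have hbd : ∀ {f : IB → ℂ}, (∀ i, ‖f i‖ ≤ 2) → Ox (fun i : IB => (i.1.2.1 : ℂ)) 0 f := by
    intro f hf
    exact ⟨2, by norm_num, fun i => by rw [pow_zero, mul_one]; exact hf i⟩
  have hR2 : R0 ≤ 2 := by linarith [R0_le]
  have hS : ∀ i : IB, Sm i.1.1 (rb i.1.2.1) R0 := fun i => Sm_rb i.2.1 i.2.2.1
  have hEm : ∀ i : IB, EE i.1.1 (rb i.1.2.1) i.1.2.2.1 i.1.2.2.2 ∈ An R0 := fun i =>
    ((hS i).EE_mem i.2.2.2.1 i.2.2.2.2).2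
  have hX : ∀ i : IB, i.1.2.2.2 * EE i.1.1 (rb i.1.2.1) i.1.2.2.1 i.1.2.2.2 ≠ 0 := fun i =>
    mul_ne_zero (An_ne i.2.2.2.2) (An_ne (hEm i))
  have hXi : ∀ i : IB, (i.1.2.2.2 * EE i.1.1 (rb i.1.2.1) i.1.2.2.1 i.1.2.2.2)⁻¹ =
      (i.1.2.2.2)⁻¹ * (EE i.1.1 (rb i.1.2.1) i.1.2.2.1 i.1.2.2.2)⁻¹ := fun i => mul_inv _ _
  have hden : ∀ i : IB, den i.1.1 (rb i.1.2.1) i.1.2.2.1 i.1.2.2.2 = 2 + (i.1.2.1 : ℂ) *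
      (jA i.1.2.2.1 (i.1.2.2.1)⁻¹ (i.1.2.2.2 * EE i.1.1 (rb i.1.2.1) i.1.2.2.1 i.1.2.2.2)
        ((i.1.2.2.2)⁻¹ * (EE i.1.1 (rb i.1.2.1) i.1.2.2.1 i.1.2.2.2)⁻¹) +
      jA (i.1.2.2.1)⁻¹ i.1.2.2.1 ((i.1.2.2.2)⁻¹ * (EE i.1.1 (rb i.1.2.1) i.1.2.2.1 i.1.2.2.2)⁻¹)
        (i.1.2.2.2 * EE i.1.1 (rb i.1.2.1) i.1.2.2.1 i.1.2.2.2) +
      jB i.1.2.2.1 (i.1.2.2.1)⁻¹ (i.1.2.2.2 * EE i.1.1 (rb i.1.2.1) i.1.2.2.1 i.1.2.2.2)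
        ((i.1.2.2.2)⁻¹ * (EE i.1.1 (rb i.1.2.1) i.1.2.2.1 i.1.2.2.2)⁻¹)) := by
    intro i
    unfold den
    rw [q_rb i.2.1, qs_rb i.2.1, chi_rb i.2.1 _ _ (hX i), hXi i]
    ring
  have key : Ox (fun i : IB => (i.1.2.1 : ℂ)) 3 (fun i : IB =>
      mm i.1.1 (rb i.1.2.1) i.1.2.2.1 i.1.2.2.2 ^ 2 *
        (1 + (i.1.2.1 : ℂ) * (i.1.2.2.1 ^ 2 + (i.1.2.2.1)⁻¹ ^ 2)) - 1 -
      (i.1.2.1 : ℂ) * N1 i.1.2.2.1 (i.1.2.2.1)⁻¹ i.1.2.2.2 (i.1.2.2.2)⁻¹ -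
      (i.1.2.1 : ℂ) ^ 2 * N2 i.1.2.2.1 (i.1.2.2.1)⁻¹ i.1.2.2.2 (i.1.2.2.2)⁻¹) := by
    refine jets (ι := IB) (x := fun i => (i.1.2.1 : ℂ)) (U := fun i => i.1.2.2.1)
      (V := fun i => (i.1.2.2.1)⁻¹) (w := fun i => i.1.2.2.2) (v := fun i => (i.1.2.2.2)⁻¹)
      (E := fun i => EE i.1.1 (rb i.1.2.1) i.1.2.2.1 i.1.2.2.2)
      (F := fun i => (EE i.1.1 (rb i.1.2.1) i.1.2.2.1 i.1.2.2.2)⁻¹)
      (D := fun i => (den i.1.1 (rb i.1.2.1) i.1.2.2.1 i.1.2.2.2)⁻¹)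
      (m := fun i => mm i.1.1 (rb i.1.2.1) i.1.2.2.1 i.1.2.2.2)
      ?_ ?_ ?_ ?_ ?_ ?_ ?_ ?_ ?_ ?_ ?_ ?_ ?_ ?_
    · intro i
      rw [Complex.norm_real, Real.norm_eq_abs]
      exact i.2.2.1.trans (by norm_num)
    · exact hbd fun i => i.2.2.2.1.1.trans hR2
    · exact hbd fun i => (An_norm_inv R0_one.le i.2.2.2.1).trans hR2
    · exact hbd fun i => i.2.2.2.2.1.trans hR2
    · exact hbd fun i => (An_norm_inv R0_one.le i.2.2.2.2).trans hR2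
    · exact hbd fun i => (hEm i).1.trans hR2
    · exact hbd fun i => (An_norm_inv R0_one.le (hEm i)).trans hR2
    · exact fun i => mul_inv_cancel₀ (An_ne (hEm i))
    · exact fun i => mul_inv_cancel₀ (An_ne i.2.2.2.1)
    · exact fun i => mul_inv_cancel₀ (An_ne i.2.2.2.2)
    · intro i
      have := (hS i).fix' i.2.2.2.1 i.2.2.2.2
      rw [q_rb i.2.1, qs_rb i.2.1, hXi i] at this
      exact this
    · refine hbd fun i => ?_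
      have h1 := (hS i).den_norm i.2.2.2.1 i.2.2.2.2
      rw [norm_inv, inv_le_comm₀ (by linarith) (by norm_num)]
      linarith
    · intro i
      show (den i.1.1 (rb i.1.2.1) i.1.2.2.1 i.1.2.2.2)⁻¹ * (2 + (i.1.2.1 : ℂ) *
        (jA i.1.2.2.1 (i.1.2.2.1)⁻¹ (i.1.2.2.2 * EE i.1.1 (rb i.1.2.1) i.1.2.2.1 i.1.2.2.2)
          ((i.1.2.2.2)⁻¹ * (EE i.1.1 (rb i.1.2.1) i.1.2.2.1 i.1.2.2.2)⁻¹) +
        jA (i.1.2.2.1)⁻¹ i.1.2.2.1 ((i.1.2.2.2)⁻¹ * (EE i.1.1 (rb i.1.2.1) i.1.2.2.1 i.1.2.2.2)⁻¹)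
          (i.1.2.2.2 * EE i.1.1 (rb i.1.2.1) i.1.2.2.1 i.1.2.2.2) +
        jB i.1.2.2.1 (i.1.2.2.1)⁻¹ (i.1.2.2.2 * EE i.1.1 (rb i.1.2.1) i.1.2.2.1 i.1.2.2.2)
          ((i.1.2.2.2)⁻¹ * (EE i.1.1 (rb i.1.2.1) i.1.2.2.1 i.1.2.2.2)⁻¹))) = 1
      rw [← hden i]
      exact inv_mul_cancel₀ ((hS i).den_ne i.2.2.2.1 i.2.2.2.2)
    · intro i
      show mm i.1.1 (rb i.1.2.1) i.1.2.2.1 i.1.2.2.2 = 2 * ((1 + (i.1.2.1 : ℂ) *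
        jA i.1.2.2.1 (i.1.2.2.1)⁻¹ (i.1.2.2.2 * EE i.1.1 (rb i.1.2.1) i.1.2.2.1 i.1.2.2.2)
          ((i.1.2.2.2)⁻¹ * (EE i.1.1 (rb i.1.2.1) i.1.2.2.1 i.1.2.2.2)⁻¹)) *
        (1 + (i.1.2.1 : ℂ) *
        jA (i.1.2.2.1)⁻¹ i.1.2.2.1 ((i.1.2.2.2)⁻¹ * (EE i.1.1 (rb i.1.2.1) i.1.2.2.1 i.1.2.2.2)⁻¹)
          (i.1.2.2.2 * EE i.1.1 (rb i.1.2.1) i.1.2.2.1 i.1.2.2.2))) *
        (den i.1.1 (rb i.1.2.1) i.1.2.2.1 i.1.2.2.2)⁻¹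
      unfold mm
      rw [q_rb i.2.1, qs_rb i.2.1, hXi i]
      rw [div_eq_mul_inv]
  obtain ⟨C, hC, hC'⟩ := key
  refine ⟨C, hC, fun N hN x hx U hU w hw => ?_⟩
  have := hC' ⟨(N, x, U, w), hN, hx, hU, hw⟩
  simp only at this
  rw [Complex.norm_real, Real.norm_eq_abs] at this
  rw [rh_rb hN]
  exact this

end

end Pool.Agent.H65.RM
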