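import Pool.Agent.H65.RM.Base3

/-!
# RM module Base4: the matrix `D_{K,n}` at the base body (paper, (6b))
-/

open Finset Filter Topology

namespace Pool.Agent.H65.RM

/-- `B_{K,n} = D_{K,n}(base) - C(K) [K = n]` -/
noncomputable def BB (p : ℝ) (N : ℕ) (x : ℝ) (K n : ℤ) : ℂ :=
  DD p N (rb x) K n - if K = n then (Cn p K : ℂ) else 0

/-- coefficients of `M - 1` in the combination -/
noncomputable def gg1 (p : ℝ) (N : ℕ) (x : ℝ) (K n j : ℤ) : ℂ :=
  (fc (MM p N (rb x)) (K - n) j - kr (K - n) j) + (fc (MM p N (rb x)) (K + n) j - kr (K + n) j)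

section

variable {p x : ℝ} {N : ℕ} {K n : ℤ}

lemma abs_sub_le_add (hK : 1 ≤ K) (hn : 1 ≤ n) : |((K - n : ℤ) : ℝ)| ≤ |((K + n : ℤ) : ℝ)| := by
  have : |K - n| ≤ |K + n| := by
    rw [abs_of_pos (show 0 < K + n by omega), abs_le]
    constructor <;> omega
  exact_mod_cast this

lemma gg1_le (hp1 : 1.9 < p) (hp2 : p < 2) (hN : 2 ≤ N) (hx : |x| ≤ 1 / 2000) (hK : 1 ≤ K)
    (hn : 1 ≤ n) (j : ℤ) :
    ‖gg1 p N x K n j‖ ≤ 400 * |x| * Real.exp (-(|((K - n : ℤ) : ℝ)| + |(j : ℝ)|) / 40) := by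
  have h1 := base_fc1 (N := N) hp1 hp2 hN hx (K - n) j
  have h2 := base_fc1 (N := N) hp1 hp2 hN hx (K + n) j
  have h3 : Real.exp (-(|((K + n : ℤ) : ℝ)| + |(j : ℝ)|) / 40) ≤
      Real.exp (-(|((K - n : ℤ) : ℝ)| + |(j : ℝ)|) / 40) := by
    apply Real.exp_le_exp.2
    have := abs_sub_le_add hK hn
    linarith
  have h4 : 200 * |x| * Real.exp (-(|((K + n : ℤ) : ℝ)| + |(j : ℝ)|) / 40) ≤
      200 * |x| * Real.exp (-(|((K - n : ℤ) : ℝ)| + |(j : ℝ)|) / 40) :=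
    mul_le_mul_of_nonneg_left h3 (by positivity)
  unfold gg1
  refine (norm_add_le _ _).trans ?_
  linarith

lemma exp_split (a b : ℝ) : Real.exp (-(a + b) / 40) = Real.exp (-a / 40) * Real.exp (-(1 / 40) * b) := by
  rw [← Real.exp_add]
  congr 1
  ring

/-- bound for weighted sums of `gg1` -/
lemma gg1_sum (hp1 : 1.9 < p) (hp2 : p < 2) (hN : 2 ≤ N) (hx : |x| ≤ 1 / 2000) (hK : 1 ≤ K)
    (hn : 1 ≤ n) {f : ℤ → ℂ} {B : ℝ} (hB : 0 ≤ B) (hf : ∀ j : ℤ, ‖f j‖ ≤ B * (1 + |(j : ℝ)|) ^ 3) :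
    Summable (fun j => gg1 p N x K n j * f j) ∧ ‖∑' j, gg1 p N x K n j * f j‖ ≤
      400 * |x| * B * Real.exp (-|((K - n : ℤ) : ℝ)| / 40) * (576 * 40 ^ 4) := by
  have hb : ∀ j : ℤ, ‖gg1 p N x K n j * f j‖ ≤ 400 * |x| * B * Real.exp (-|((K - n : ℤ) : ℝ)| / 40) *
      ((1 + |(j : ℝ)|) ^ 3 * Real.exp (-(1 / 40) * |(j : ℝ)|)) := by
    intro j
    rw [norm_mul]
    have h1 := gg1_le (N := N) hp1 hp2 hN hx hK hn j
    rw [exp_split] at h1
    calc ‖gg1 p N x K n j‖ * ‖f j‖ ≤ (400 * |x| * (Real.exp (-|((K - n : ℤ) : ℝ)| / 40) *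
          Real.exp (-(1 / 40) * |(j : ℝ)|))) * (B * (1 + |(j : ℝ)|) ^ 3) :=
          mul_le_mul h1 (hf j) (norm_nonneg _) (by positivity)
      _ = _ := by ring
  have hs := (summable_cube (y := 1 / 40) (by norm_num) (by norm_num)).mul_left
    (400 * |x| * B * Real.exp (-|((K - n : ℤ) : ℝ)| / 40))
  refine ⟨Summable.of_norm_bounded hs hb, ?_⟩
  have h2 : ‖∑' j, gg1 p N x K n j * f j‖ ≤ ∑' j : ℤ, 400 * |x| * B *
      Real.exp (-|((K - n : ℤ) : ℝ)| / 40) *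
      ((1 + |(j : ℝ)|) ^ 3 * Real.exp (-(1 / 40) * |(j : ℝ)|)) :=
    tsum_of_norm_bounded hs.hasSum hb
  refine h2.trans ?_
  rw [tsum_mul_left]
  apply mul_le_mul_of_nonneg_left _ (by positivity)
  refine (tsum_cube_le (y := 1 / 40) (by norm_num) (by norm_num)).trans (le_of_eq ?_)
  norm_num

lemma one_le_cube (j : ℤ) : (1 : ℝ) ≤ (1 + |(j : ℝ)|) ^ 3 :=
  one_le_pow₀ (by linarith [abs_nonneg (j : ℝ)])

lemma BB_eq (hp1 : 1.9 < p) (hp2 : p < 2) (hN : 2 ≤ N) (hx : |x| ≤ 1 / 2000) (hK : 1 ≤ K)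
    (hn : 1 ≤ n) : BB p N x K n = ∑' j, gg1 p N x K n j * (Cn p (K - j) : ℂ) := by
  have hC : ∀ j : ℤ, ‖(Cn p (K - j) : ℂ)‖ ≤ 10 * (1 + |(j : ℝ)|) ^ 3 := by
    intro j
    rw [Complex.norm_real, Real.norm_eq_abs]
    have h1 := Cn_abs_le hp1 hp2 (K - j)
    have h2 := one_le_cube j
    linarith
  have hs := (gg1_sum (N := N) hp1 hp2 hN hx hK hn (by norm_num : (0 : ℝ) ≤ 10) hC).1
  have hkr : ∀ j : ℤ, kr (K + n) j = 0 := by
    intro j
    unfold kr
    rw [if_neg]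
    rintro ⟨h, -⟩
    omega
  have e : ∀ j : ℤ, (fc (MM p N (rb x)) (K - n) j + fc (MM p N (rb x)) (K + n) j) *
      (Cn p (K - j) : ℂ) = gg1 p N x K n j * (Cn p (K - j) : ℂ) + kr (K - n) j * (Cn p (K - j) : ℂ) := by
    intro j
    unfold gg1
    rw [hkr]
    ring
  have h0 : ∀ j : ℤ, j ≠ 0 → kr (K - n) j * (Cn p (K - j) : ℂ) = 0 := by
    intro j hj
    unfold kr
    rw [if_neg (fun h => hj h.2), zero_mul]
  have hs2 : HasSum (fun j => kr (K - n) j * (Cn p (K - j) : ℂ)) (kr (K - n) 0 * (Cn p (K - 0) : ℂ)) :=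
    hasSum_single 0 h0
  unfold BB DD
  simp only [e]
  rw [(hs.hasSum.add hs2).tsum_eq, sub_zero]
  have hk0 : kr (K - n) 0 * (Cn p K : ℂ) = if K = n then (Cn p K : ℂ) else 0 := by
    unfold kr
    by_cases h : K = n
    · simp [h]
    · have : ¬ (K - n = 0) := fun h' => h (sub_eq_zero.1 h')
      simp [h, this]
  rw [hk0]
  ring

/-- (i) -/
theorem BB_one (hp1 : 1.9 < p) (hp2 : p < 2) (hN : 2 ≤ N) (hx : |x| ≤ 1 / 2000) (hK : 1 ≤ K)
    (hn : 1 ≤ n) : ‖BB p N x K n‖ ≤ (4000 * (576 * 40 ^ 4)) * |x| *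
      Real.exp (-|((K - n : ℤ) : ℝ)| / 40) := by
  have hC : ∀ j : ℤ, ‖(Cn p (K - j) : ℂ)‖ ≤ 10 * (1 + |(j : ℝ)|) ^ 3 := by
    intro j
    rw [Complex.norm_real, Real.norm_eq_abs]
    have h1 := Cn_abs_le hp1 hp2 (K - j)
    have h2 := one_le_cube j
    linarith
  rw [BB_eq hp1 hp2 hN hx hK hn]
  refine (gg1_sum (N := N) hp1 hp2 hN hx hK hn (by norm_num : (0 : ℝ) ≤ 10) hC).2.trans
    (le_of_eq ?_)
  ring

lemma C0_one : C0 1 = -Real.pi := by simp [C0]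
lemma C0_neg_one : C0 (-1) = -Real.pi := by simp [C0]
lemma C0_zero : C0 0 = 2 * Real.pi := by simp [C0]

lemma C0_far {k : ℤ} (h : k ≠ 0) (h1 : k ≠ 1) (h2 : k ≠ -1) : C0 k = 0 := by
  unfold C0
  rw [if_neg h, if_neg (by tauto)]

/-- the sum against `C0` is finite -/
lemma sum_C0 (g : ℤ → ℂ) (K : ℤ) : ∑' j, g j * (C0 (K - j) : ℂ) =
    Real.pi * (2 * g K - g (K - 1) - g (K + 1)) := by
  rw [tsum_eq_sum (s := {K - 1, K, K + 1})]
  · rw [Finset.sum_insert, Finset.sum_insert, Finset.sum_singleton]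
    · rw [show K - (K - 1) = 1 by ring, show K - K = 0 by ring, show K - (K + 1) = -1 by ring,
        C0_one, C0_zero, C0_neg_one]
      push_cast
      ring
    · simp
    · simp only [Finset.mem_insert, Finset.mem_singleton, not_or]
      constructor <;> omega
  · intro j hj
    simp only [Finset.mem_insert, Finset.mem_singleton, not_or] at hj
    rw [C0_far (by omega) (by omega) (by omega)]
    simp

/-- the remainder of second order -/
noncomputable def rem2 (p : ℝ) (N : ℕ) (x : ℝ) (m j : ℤ) : ℂ :=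
  fc (MM p N (rb x)) m j - kr m j - ((x / 15 : ℝ) : ℂ) * lcoef L1 m j -
      ((x ^ 2 / 225 : ℝ) : ℂ) * lcoef L2 m j

/-- main estimate for `K >= 3` -/
theorem BB_main : ∃ C : ℝ, 0 ≤ C ∧ ∀ p : ℝ, 1.9 < p → p < 2 → ∀ N : ℕ, 2 ≤ N → ∀ x : ℝ,
    |x| ≤ 1 / 2000 → ∀ K n : ℤ, 3 ≤ K → 1 ≤ n → K % 2 = 1 → n % 2 = 1 →
    ‖BB p N x K n - ((Real.pi * x ^ 2 / 225 * zs L2 K n : ℝ) : ℂ)‖ ≤
      C * (|x| * |Cn p K| + (|x| ^ 3 + (2 - p) * |x|) * Real.exp (-(K : ℝ) / 40)) *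
        Real.exp (-|((K - n : ℤ) : ℝ)| / 40) := by
  obtain ⟨C, hC, hb⟩ := base_fc
  refine ⟨2000 * (576 * 40 ^ 4) + 80 * C, by positivity, ?_⟩
  intro p hp1 hp2 N hN x hx K n hK hn oK on
  have hK1 : 1 ≤ K := by omega
  have hd : ∀ j : ℤ, ‖((Cn p (K - j) - C0 (K - j) : ℝ) : ℂ)‖ ≤ 5 * |Cn p K| * (1 + |(j : ℝ)|) ^ 3 := by
    intro j
    rw [Complex.norm_real, Real.norm_eq_abs]
    have := Cn_5c hp1 hp2 (n := K - j) (K := K) (by omega)
    refine this.trans (le_of_eq ?_)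
    congr 3
    push_cast
    rw [show (K : ℝ) - (K - j) = j by ring]
  have h0' : ∀ j : ℤ, ‖((C0 (K - j) : ℝ) : ℂ)‖ ≤ 7 * (1 + |(j : ℝ)|) ^ 3 := by
    intro j
    rw [Complex.norm_real, Real.norm_eq_abs]
    have h1 := C0_abs_le (K - j)
    have h2 := one_le_cube j
    have := Real.pi_lt_d2
    linarith
  have s1 := gg1_sum (N := N) hp1 hp2 hN hx hK1 hn (by positivity : (0 : ℝ) ≤ 5 * |Cn p K|) hd
  have s2 := gg1_sum (N := N) hp1 hp2 hN hx hK1 hn (by norm_num : (0 : ℝ) ≤ 7) h0'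
  have hsplit : BB p N x K n = (∑' j, gg1 p N x K n j * ((Cn p (K - j) - C0 (K - j) : ℝ) : ℂ)) +
      ∑' j, gg1 p N x K n j * (C0 (K - j) : ℂ) := by
    rw [BB_eq hp1 hp2 hN hx hK1 hn, ← s1.1.tsum_add s2.1]
    apply tsum_congr
    intro j
    push_cast
    ring
  rw [sum_C0] at hsplit
  -- expansion of gg1
  have hg : ∀ j : ℤ, gg1 p N x K n j = ((x / 15 : ℝ) : ℂ) * (lcoef L1 (K - n) j + lcoef L1 (K + n) j) +
      ((x ^ 2 / 225 : ℝ) : ℂ) * (lcoef L2 (K - n) j + lcoef L2 (K + n) j) +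
      (rem2 p N x (K - n) j + rem2 p N x (K + n) j) := by
    intro j
    unfold gg1 rem2
    ring
  have hz1 : ((zs L1 K n : ℤ) : ℂ) = 0 := by rw [zs1 hK hn oK on]; simp
  have hmain : 2 * gg1 p N x K n K - gg1 p N x K n (K - 1) - gg1 p N x K n (K + 1) =
      ((x ^ 2 / 225 : ℝ) : ℂ) * (zs L2 K n : ℤ) +
      (2 * (rem2 p N x (K - n) K + rem2 p N x (K + n) K) -
        (rem2 p N x (K - n) (K - 1) + rem2 p N x (K + n) (K - 1)) -
        (rem2 p N x (K - n) (K + 1) + rem2 p N x (K + n) (K + 1))) := by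
    have h1 : ((zs L1 K n : ℤ) : ℂ) = 2 * (lcoef L1 (K - n) K + lcoef L1 (K + n) K) -
      (lcoef L1 (K - n) (K - 1) + lcoef L1 (K + n) (K - 1)) -
      (lcoef L1 (K - n) (K + 1) + lcoef L1 (K + n) (K + 1)) := by
      unfold zs; push_cast; ring
    have h2 : ((zs L2 K n : ℤ) : ℂ) = 2 * (lcoef L2 (K - n) K + lcoef L2 (K + n) K) -
      (lcoef L2 (K - n) (K - 1) + lcoef L2 (K + n) (K - 1)) -
      (lcoef L2 (K - n) (K + 1) + lcoef L2 (K + n) (K + 1)) := by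
      unfold zs; push_cast; ring
    rw [hg, hg, hg, h2]
    rw [hz1] at h1
    linear_combination (-((x / 15 : ℝ) : ℂ)) * h1
  -- bound of the remainder
  set E := C * (|x| ^ 3 + (2 - p) * |x|) with hE
  have hE0 : 0 ≤ E := by
    have : 0 ≤ 2 - p := by linarith
    positivity
  set T := Real.exp (-|((K - n : ℤ) : ℝ)| / 40) with hT
  set Q := Real.exp (-(K : ℝ) / 40) with hQ
  have hQ0 : 0 < Q := Real.exp_pos _
  have hT0 : 0 < T := Real.exp_pos _
  have hr : ∀ j : ℤ, K - 1 ≤ j → ‖rem2 p N x (K - n) j + rem2 p N x (K + n) j‖ ≤ 2 * E * (T * (2 * Q)) := by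
    intro j hj
    have h1 := hb p hp1 hp2 N hN x hx (K - n) j
    have h2 := hb p hp1 hp2 N hN x hx (K + n) j
    have h3 : ∀ m : ℤ, |((K - n : ℤ) : ℝ)| ≤ |(m : ℝ)| →
        Real.exp (-(|(m : ℝ)| + |(j : ℝ)|) / 40) ≤ T * (2 * Q) := by
      intro m hm
      have h4 : Real.exp (-(|(m : ℝ)| + |(j : ℝ)|) / 40) ≤
          Real.exp (-|((K - n : ℤ) : ℝ)| / 40 + (-(K : ℝ) / 40 + 1 / 40)) := by
        apply Real.exp_le_exp.2
        have h5 : (K : ℝ) - 1 ≤ |(j : ℝ)| := by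
          have h6 : ((K - 1 : ℤ) : ℝ) ≤ (j : ℝ) := by exact_mod_cast hj
          push_cast at h6
          exact h6.trans (le_abs_self _)
        linarith
      refine h4.trans ?_
      rw [Real.exp_add, Real.exp_add]
      apply mul_le_mul_of_nonneg_left _ (Real.exp_pos _).le
      rw [mul_comm]
      apply mul_le_mul_of_nonneg_right _ (Real.exp_pos _).le
      have h7 : Real.exp (1 / 40) ≤ Real.exp (1 / 2) := Real.exp_le_exp.2 (by norm_num)
      have h8 : Real.exp (1 / 2) ^ 2 ≤ 2 ^ 2 := by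
        rw [← Real.exp_nat_mul]
        norm_num
        linarith [Real.exp_one_lt_d9]
      exact h7.trans (le_of_pow_le_pow_left₀ (by norm_num) (by norm_num) h8)
    have h9 := mul_le_mul_of_nonneg_left (h3 (K - n) le_rfl) hE0
    have h10 := mul_le_mul_of_nonneg_left (h3 (K + n) (abs_sub_le_add hK1 hn)) hE0
    refine (norm_add_le _ _).trans ?_
    unfold rem2
    linarith
  have hrr : ‖2 * (rem2 p N x (K - n) K + rem2 p N x (K + n) K) -
        (rem2 p N x (K - n) (K - 1) + rem2 p N x (K + n) (K - 1)) -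
        (rem2 p N x (K - n) (K + 1) + rem2 p N x (K + n) (K + 1))‖ ≤ 8 * E * (T * (2 * Q)) := by
    have h1 := hr K (by omega)
    have h2 := hr (K - 1) (by omega)
    have h3 := hr (K + 1) (by omega)
    refine (norm_sub_le _ _).trans ?_
    have h4 := norm_sub_le (2 * (rem2 p N x (K - n) K + rem2 p N x (K + n) K))
      (rem2 p N x (K - n) (K - 1) + rem2 p N x (K + n) (K - 1))
    rw [norm_mul] at h4
    have h5 : ‖(2 : ℂ)‖ = 2 := by simp
    rw [h5] at h4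
    linarith
  rw [hmain] at hsplit
  have e : BB p N x K n - ((Real.pi * x ^ 2 / 225 * zs L2 K n : ℝ) : ℂ) =
      (∑' j, gg1 p N x K n j * ((Cn p (K - j) - C0 (K - j) : ℝ) : ℂ)) +
      Real.pi * (2 * (rem2 p N x (K - n) K + rem2 p N x (K + n) K) -
        (rem2 p N x (K - n) (K - 1) + rem2 p N x (K + n) (K - 1)) -
        (rem2 p N x (K - n) (K + 1) + rem2 p N x (K + n) (K + 1))) := by
    rw [hsplit]
    push_cast
    ring
  rw [e]
  refine (norm_add_le _ _).trans ?_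
  have h1 := s1.2
  have h2 : ‖(Real.pi : ℂ) * (2 * (rem2 p N x (K - n) K + rem2 p N x (K + n) K) -
        (rem2 p N x (K - n) (K - 1) + rem2 p N x (K + n) (K - 1)) -
        (rem2 p N x (K - n) (K + 1) + rem2 p N x (K + n) (K + 1)))‖ ≤
      3.15 * (8 * E * (T * (2 * Q))) := by
    rw [norm_mul, Complex.norm_real, Real.norm_eq_abs, abs_of_pos Real.pi_pos]
    exact mul_le_mul Real.pi_lt_d2.le hrr (norm_nonneg _) (by norm_num)
  have h3 : 400 * |x| * (5 * |Cn p K|) * T * (576 * 40 ^ 4) =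
      (2000 * (576 * 40 ^ 4)) * (|x| * |Cn p K|) * T := by ring
  rw [h3] at h1
  have hxC : 0 ≤ |x| * |Cn p K| * T := by positivity
  have hET : 0 ≤ E * Q * T := by positivity
  have h4 : 3.15 * (8 * E * (T * (2 * Q))) ≤ 80 * (E * Q * T) := by nlinarith
  have h5 : 0 ≤ (|x| ^ 3 + (2 - p) * |x|) * Q * T := by
    have : 0 ≤ 2 - p := by linarith
    positivity
  have h6 : E * Q * T = C * ((|x| ^ 3 + (2 - p) * |x|) * Q * T) := by rw [hE]; ring
  have h7 : (2000 * (576 * 40 ^ 4) + 80 * C) * (|x| * |Cn p K| + (|x| ^ 3 + (2 - p) * |x|) * Q) * T =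
      (2000 * (576 * 40 ^ 4)) * (|x| * |Cn p K|) * T + 80 * (E * Q * T) +
      (2000 * (576 * 40 ^ 4)) * ((|x| ^ 3 + (2 - p) * |x|) * Q * T) +
      80 * (C * (|x| * |Cn p K| * T)) := by
    rw [h6]
    ring
  rw [h7]
  have h8 : 0 ≤ (2000 * (576 * 40 ^ 4)) * ((|x| ^ 3 + (2 - p) * |x|) * Q * T) := by positivity
  have h9 : 0 ≤ 80 * (C * (|x| * |Cn p K| * T)) := by positivity
  linarith

/-- (6b) in the parametrisation `p = 2 - d ε²`, `x = -15 ε / 2` -/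
theorem B_est : ∃ C : ℝ, 1 ≤ C ∧ ∀ ε d : ℝ, 0 < ε → ε ≤ 1 / 15000 → 143 ≤ d → d ≤ 145 →
    ∀ N : ℕ, 2 ≤ N → ∀ K n : ℤ, 1 ≤ K → 1 ≤ n → K % 2 = 1 → n % 2 = 1 →
    (‖BB (2 - d * ε ^ 2) N (-15 / 2 * ε) K n‖ ≤ C * ε * Real.exp (-|((K - n : ℤ) : ℝ)| / 40)) ∧
    (3 ≤ K → 5 ≤ n → ‖BB (2 - d * ε ^ 2) N (-15 / 2 * ε) K n‖ ≤
      C * ε * |Cn (2 - d * ε ^ 2) K| * Real.exp (-|((K - n : ℤ) : ℝ)| / 80)) ∧
    (3 ≤ K → n < 5 → ‖BB (2 - d * ε ^ 2) N (-15 / 2 * ε) K n‖ ≤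
      C * |Cn (2 - d * ε ^ 2) K| * Real.exp (-(K : ℝ) / 80)) ∧
    (K = 3 → n = 3 → ‖BB (2 - d * ε ^ 2) N (-15 / 2 * ε) K n - ((6 * Real.pi * ε ^ 2 : ℝ) : ℂ)‖ ≤
      C * ε ^ 3) := by
  obtain ⟨C, hC, hb⟩ := BB_main
  set C1 : ℝ := (4000 * (576 * 40 ^ 4)) * 8 with hC1
  set S : ℝ := 96 / (1 / 40) ^ 3 with hS
  have hS0 : 0 < S := by rw [hS]; positivity
  set C2 : ℝ := C * (8 + 1600 * S) with hC2
  have hC10 : 0 ≤ C1 := by rw [hC1]; positivity
  have hC20 : 0 ≤ C2 := by rw [hC2]; positivity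
  refine ⟨1 + C1 + 21 * C2 + 10000, by linarith, ?_⟩
  intro ε d hε hε1 hd1 hd2 N hN K n hK hn oK on
  set p : ℝ := 2 - d * ε ^ 2 with hp
  have hεε : ε ^ 2 ≤ 1 / 225000000 := by
    have : ε ^ 2 ≤ (1 / 15000) ^ 2 := pow_le_pow_left₀ hε.le hε1 2
    norm_num at this ⊢
    linarith
  have hε2 : 0 < ε ^ 2 := by positivity
  have hδ : 2 - p = d * ε ^ 2 := by rw [hp]; ring
  have hδ1 : d * ε ^ 2 ≤ 145 * ε ^ 2 := by nlinarith
  have hδ2 : 143 * ε ^ 2 ≤ d * ε ^ 2 := by nlinarith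
  have hp1 : 1.9 < p := by rw [hp]; linarith
  have hp2 : p < 2 := by rw [hp]; linarith
  set x : ℝ := -15 / 2 * ε with hx
  have hxa : |x| = 15 / 2 * ε := by
    rw [hx, abs_of_neg (by linarith)]
    ring
  have hx1 : |x| ≤ 1 / 2000 := by rw [hxa]; linarith
  set c := |Cn p K| with hc
  have hc0 : 0 ≤ c := abs_nonneg _
  have hK' : (1 : ℝ) ≤ K := by exact_mod_cast hK
  have hlow : 286 * ε ^ 2 ≤ c * (K : ℝ) ^ 3 := by
    have := Cn_low hp1 hp2 hK
    rw [hδ] at this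
    linarith
  set Q := Real.exp (-(K : ℝ) / 40) with hQ
  set T := Real.exp (-|((K - n : ℤ) : ℝ)| / 40) with hT
  have hQ0 : 0 < Q := Real.exp_pos _
  have hT0 : 0 < T := Real.exp_pos _
  have hKQ : (K : ℝ) ^ 3 * Q ≤ S * Real.exp (-(K : ℝ) / 80) := by
    have h1 := cube_exp_le (y := 1 / 40) (t := K) (by norm_num) (by norm_num) (by linarith)
    have h2 : (K : ℝ) ^ 3 ≤ (1 + (K : ℝ)) ^ 3 := pow_le_pow_left₀ (by linarith) (by linarith) 3
    have h3 : Real.exp (-(1 / 40) * (K : ℝ)) = Q := by rw [hQ]; congr 1; ring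
    have h4 : Real.exp (-(1 / 40 / 2) * (K : ℝ)) = Real.exp (-(K : ℝ) / 80) := by congr 1; ring
    rw [h3, h4] at h1
    exact (mul_le_mul_of_nonneg_right h2 hQ0.le).trans h1
  have hE80 : Real.exp (-(K : ℝ) / 80) ≤ 1 := Real.exp_le_one_iff.2 (by linarith)
  have hmainb : 3 ≤ K → ‖BB p N x K n - ((Real.pi * x ^ 2 / 225 * zs L2 K n : ℝ) : ℂ)‖ ≤
      C2 * ε * c * T := by
    intro hK3
    refine (hb p hp1 hp2 N hN x hx1 K n hK3 hn oK on).trans ?_
    rw [hδ, hxa, ← hc]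
    have h1 : (15 / 2 * ε) ^ 3 + d * ε ^ 2 * (15 / 2 * ε) ≤ 1600 * ε ^ 3 := by
      have : d * ε ^ 2 * (15 / 2 * ε) ≤ 145 * ε ^ 2 * (15 / 2 * ε) :=
        mul_le_mul_of_nonneg_right hδ1 (by positivity)
      have h0 : 0 ≤ ε ^ 3 := by positivity
      nlinarith
    have h2 : ε ^ 3 * Q ≤ ε * c * S := by
      have h3 : ε ^ 2 * Q ≤ c * S := by
        have h4 : ε ^ 2 ≤ c * (K : ℝ) ^ 3 := by nlinarith
        have h5 : ε ^ 2 * Q ≤ c * ((K : ℝ) ^ 3 * Q) := by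
          calc ε ^ 2 * Q ≤ c * (K : ℝ) ^ 3 * Q := mul_le_mul_of_nonneg_right h4 hQ0.le
            _ = _ := by ring
        refine h5.trans (mul_le_mul_of_nonneg_left ?_ hc0)
        exact hKQ.trans (by nlinarith)
      calc ε ^ 3 * Q = ε * (ε ^ 2 * Q) := by ring
        _ ≤ ε * (c * S) := mul_le_mul_of_nonneg_left h3 hε.le
        _ = _ := by ring
    apply mul_le_mul_of_nonneg_right _ hT0.le
    have h6 : ((15 / 2 * ε) ^ 3 + d * ε ^ 2 * (15 / 2 * ε)) * Q ≤ 1600 * (ε * c * S) := by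
      calc _ ≤ 1600 * ε ^ 3 * Q := mul_le_mul_of_nonneg_right h1 hQ0.le
        _ = 1600 * (ε ^ 3 * Q) := by ring
        _ ≤ _ := mul_le_mul_of_nonneg_left h2 (by norm_num)
    have h7 : 15 / 2 * ε * c ≤ 8 * (ε * c) := by
      have : 0 ≤ ε * c := by positivity
      nlinarith
    calc C * (15 / 2 * ε * c + ((15 / 2 * ε) ^ 3 + d * ε ^ 2 * (15 / 2 * ε)) * Q) ≤
          C * (8 * (ε * c) + 1600 * (ε * c * S)) := mul_le_mul_of_nonneg_left (add_le_add h7 h6) hC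
      _ = C2 * ε * c := by rw [hC2]; ring
  have hbig : ∀ y : ℝ, 0 ≤ y → C1 * y ≤ (1 + C1 + 21 * C2 + 10000) * y := by
    intro y hy
    have : 0 ≤ (1 + 21 * C2 + 10000) * y := by positivity
    linarith
  refine ⟨?_, ?_, ?_, ?_⟩
  · have h1 := BB_one (N := N) hp1 hp2 hN hx1 hK hn
    rw [hxa] at h1
    have h2 : 4000 * (576 * 40 ^ 4) * (15 / 2 * ε) * T ≤ C1 * (ε * T) := by
      rw [hC1]
      have : 0 ≤ ε * T := by positivity
      nlinarith
    refine h1.trans (h2.trans ?_)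
    have := hbig (ε * T) (by positivity)
    calc C1 * (ε * T) ≤ _ := this
      _ = _ := by ring
  · intro hK3 hn5
    have h1 := hmainb hK3
    rw [zs2 hK3 hn oK on (Or.inr hn5)] at h1
    simp only [Int.cast_zero, mul_zero, Complex.ofReal_zero, sub_zero] at h1
    have hT2 : T ≤ Real.exp (-|((K - n : ℤ) : ℝ)| / 80) := by
      apply Real.exp_le_exp.2
      have := abs_nonneg ((K - n : ℤ) : ℝ)
      linarith
    refine h1.trans ?_
    have h3 : C2 * ε * c * T ≤ C2 * ε * c * Real.exp (-|((K - n : ℤ) : ℝ)| / 80) :=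
      mul_le_mul_of_nonneg_left hT2 (by positivity)
    refine h3.trans ?_
    have h4 : 0 ≤ (1 + C1 + 20 * C2 + 10000) * (ε * c * Real.exp (-|((K - n : ℤ) : ℝ)| / 80)) := by
      positivity
    linarith
  · intro hK3 hn5
    have h1 := hmainb hK3
    have hn4 : n ≤ 4 := by omega
    have hTK : T ≤ 2 * Real.exp (-(K : ℝ) / 80) := by
      have h2 : T ≤ Real.exp (-(K : ℝ) / 80 + 1 / 2) := by
        apply Real.exp_le_exp.2
        have h3 : (K : ℝ) - 4 ≤ |((K - n : ℤ) : ℝ)| := by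
          have h4 : ((K - 4 : ℤ) : ℝ) ≤ ((K - n : ℤ) : ℝ) := by exact_mod_cast (by omega)
          push_cast at h4 ⊢
          exact h4.trans (le_abs_self _)
        linarith
      refine h2.trans ?_
      rw [Real.exp_add, mul_comm]
      apply mul_le_mul_of_nonneg_right _ (Real.exp_pos _).le
      have h8 : Real.exp (1 / 2) ^ 2 ≤ 2 ^ 2 := by
        rw [← Real.exp_nat_mul]
        norm_num
        linarith [Real.exp_one_lt_d9]
      exact le_of_pow_le_pow_left₀ (by norm_num) (by norm_num) h8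
    set P := Real.exp (-(K : ℝ) / 80) with hP
    have hP0 : 0 < P := Real.exp_pos _
    have h3 : C2 * ε * c * T ≤ 2 * C2 * (c * P) := by
      have h4 : C2 * ε * c * T ≤ C2 * 1 * c * (2 * P) := by
        apply mul_le_mul _ hTK hT0.le (by positivity)
        apply mul_le_mul_of_nonneg_right _ hc0
        exact mul_le_mul_of_nonneg_left (by linarith) hC20
      linarith
    have hz : ‖((Real.pi * x ^ 2 / 225 * zs L2 K n : ℝ) : ℂ)‖ ≤ 7000 * (c * P) := by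
      by_cases h9 : 9 ≤ K
      · rw [zs2 hK3 hn oK on (Or.inl h9)]
        simp only [Int.cast_zero, mul_zero, Complex.ofReal_zero, norm_zero]
        positivity
      · have hz1 : |((zs L2 K n : ℤ) : ℝ)| ≤ 2000 := by
          exact_mod_cast zs2_le hK3 (by omega) hn hn5
        rw [Complex.norm_real, Real.norm_eq_abs, abs_mul,
          abs_of_nonneg (by have := Real.pi_pos; positivity : 0 ≤ Real.pi * x ^ 2 / 225)]
        have hx2 : x ^ 2 = 225 / 4 * ε ^ 2 := by rw [hx]; ring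
        have h10 : Real.pi * x ^ 2 / 225 ≤ 3.15 / 4 * ε ^ 2 := by
          rw [hx2]
          have := Real.pi_lt_d2
          nlinarith
        have h11 : Real.pi * x ^ 2 / 225 * |((zs L2 K n : ℤ) : ℝ)| ≤ 3.15 / 4 * ε ^ 2 * 2000 :=
          mul_le_mul h10 hz1 (abs_nonneg _) (by positivity)
        have hK8 : (K : ℝ) ≤ 8 := by
          have : K ≤ 8 := by omega
          exact_mod_cast this
        have hK83 : (K : ℝ) ^ 3 ≤ 512 := by
          have := pow_le_pow_left₀ (by linarith) hK8 3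
          norm_num at this
          linarith
        have h12 : ε ^ 2 ≤ 2 * c := by nlinarith
        have h13 : 1 / 2 ≤ P := by
          have h14 : (1 : ℝ) / 2 ≤ Real.exp (-(1 / 2)) := by
            rw [Real.exp_neg]
            have h8 : Real.exp (1 / 2) ^ 2 ≤ 2 ^ 2 := by
              rw [← Real.exp_nat_mul]
              norm_num
              linarith [Real.exp_one_lt_d9]
            have h15 := le_of_pow_le_pow_left₀ (by norm_num) (by norm_num) h8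
            have h17 := inv_anti₀ (Real.exp_pos (1 / 2)) h15
            have h18 : (2 : ℝ)⁻¹ = 1 / 2 := by norm_num
            rw [h18] at h17
            exact h17
          refine h14.trans (Real.exp_le_exp.2 ?_)
          linarith
        have h16 : c * (1 / 2) ≤ c * P := mul_le_mul_of_nonneg_left h13 hc0
        linarith
    have e : BB p N x K n = (BB p N x K n - ((Real.pi * x ^ 2 / 225 * zs L2 K n : ℝ) : ℂ)) +
        ((Real.pi * x ^ 2 / 225 * zs L2 K n : ℝ) : ℂ) := by ring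
    rw [e]
    refine (norm_add_le _ _).trans ?_
    have h4 : 0 ≤ (1 + C1 + 19 * C2 + 3000) * (c * P) := by positivity
    linarith
  · intro hK3 hn3
    have h1 := hmainb (by omega)
    have hT1 : T = 1 := by
      rw [hT, hK3, hn3]
      simp
    have hzs : zs L2 K n = 24 := by rw [hK3, hn3]; exact zs2_33
    rw [hzs, hT1] at h1
    have e : Real.pi * x ^ 2 / 225 * ((24 : ℤ) : ℝ) = 6 * Real.pi * ε ^ 2 := by
      rw [hx]
      push_cast
      ring
    rw [e] at h1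
    have hc3 : c ≤ 21 * ε ^ 2 := by
      have h2 := Cn_5d hp1 hp2
      rw [hδ] at h2
      have h3 : c ≤ Real.pi * (d * ε ^ 2) / 24 + (d * ε ^ 2) ^ 2 := by
        rw [hc, hK3]
        have h4 : |Cn p 3| ≤ |Cn p 3 + Real.pi * (d * ε ^ 2) / 24| + |Real.pi * (d * ε ^ 2) / 24| := by
          have := norm_sub_le (Cn p 3 + Real.pi * (d * ε ^ 2) / 24) (Real.pi * (d * ε ^ 2) / 24)
          rwa [add_sub_cancel_right] at this
        rw [abs_of_nonneg (by have := Real.pi_pos; positivity : 0 ≤ Real.pi * (d * ε ^ 2) / 24)] at h4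
        linarith
      have h5 : Real.pi * (d * ε ^ 2) / 24 ≤ 3.15 * (145 * ε ^ 2) / 24 := by
        have h6 : Real.pi * (d * ε ^ 2) ≤ 3.15 * (145 * ε ^ 2) :=
          mul_le_mul Real.pi_lt_d2.le hδ1 (by positivity) (by norm_num)
        linarith
      have h7 : (d * ε ^ 2) ^ 2 ≤ 145 * ε ^ 2 * (145 * (1 / 225000000)) := by
        rw [sq]
        exact mul_le_mul hδ1 (by linarith) (by positivity) (by positivity)
      linarith
    refine h1.trans ?_
    have h4 : C2 * ε * c * 1 ≤ 21 * C2 * ε ^ 3 := by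
      have : C2 * ε * c ≤ C2 * ε * (21 * ε ^ 2) := mul_le_mul_of_nonneg_left hc3 (by positivity)
      linarith
    have h5 : 0 ≤ (1 + C1 + 10000) * ε ^ 3 := by positivity
    linarith

end

end Pool.Agent.H65.RM
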