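import Mathlib

/-!
# RM module Chord1: the functions `q`, `q*`, `chi` (paper section 2, Lemma 2.1)

`R` stands for `e^kap`, `An R = {1/R ≤ |z| ≤ R}`, `wt N r R = sum i |r_i| R^(5 i)`.
-/

open Finset

namespace Pool.Agent.H65.RM

/-- annulus -/
def An (R : ℝ) : Set ℂ := {z | ‖z‖ ≤ R ∧ 1 ≤ R * ‖z‖}

noncomputable def PP (i : ℕ) (X : ℂ) : ℂ := (∑ j ∈ range (2 * i + 1), X ^ j) / (2 * i + 1)

noncomputable def PM (i : ℕ) (Y : ℂ) : ℂ := (∑ j ∈ range (2 * i - 1), Y ^ (j + 1)) / (2 * i - 1)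

/-- coefficients of `HH` -/
noncomputable def TT (i j : ℕ) : ℝ := -1 / (2 * i + 1) + 2 * j / ((2 * i + 1) * (2 * i - 1))

noncomputable def HH (i : ℕ) (X : ℂ) : ℂ := ∑ j ∈ range (2 * i), (TT i j : ℂ) * X ^ j

noncomputable def q (N : ℕ) (r : ℕ → ℝ) (U X : ℂ) : ℂ :=
  1 + ∑ i ∈ Icc 1 N, (r i : ℂ) * (U ^ i * PP i X + U⁻¹ ^ i * PM i X⁻¹)

noncomputable def qs (N : ℕ) (r : ℕ → ℝ) (U X : ℂ) : ℂ := q N r U⁻¹ X⁻¹

noncomputable def chi (N : ℕ) (r : ℕ → ℝ) (U X : ℂ) : ℂ :=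
  (X + 1) * ∑ i ∈ Icc 1 N, (r i : ℂ) * (U ^ i * HH i X + U⁻¹ ^ i * (X⁻¹ * HH i X⁻¹))

/-- weight -/
noncomputable def wt (N : ℕ) (r : ℕ → ℝ) (R : ℝ) : ℝ := ∑ i ∈ Icc 1 N, (i : ℝ) * |r i| * R ^ (5 * i)

/-! ## the annulus -/

lemma An_ne {R : ℝ} {z : ℂ} (h : z ∈ An R) : z ≠ 0 := by
  rintro rfl
  have := h.2
  simp at this
  linarith

lemma An_inv {R : ℝ} {z : ℂ} (hR : 1 ≤ R) (h : z ∈ An R) : z⁻¹ ∈ An R := by
  have hz : 0 < ‖z‖ := norm_pos_iff.2 (An_ne h)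
  refine ⟨?_, ?_⟩
  · rw [norm_inv, inv_le_iff_one_le_mul₀ hz]
    exact h.2
  · rw [norm_inv, ← div_eq_mul_inv, one_le_div hz]
    exact h.1

lemma An_norm_inv {R : ℝ} {z : ℂ} (hR : 1 ≤ R) (h : z ∈ An R) : ‖z⁻¹‖ ≤ R := (An_inv hR h).1

lemma An_mul {R S : ℝ} {z w : ℂ} (hR : 1 ≤ R) (hS : 1 ≤ S) (hz : z ∈ An R) (hw : w ∈ An S) :
    z * w ∈ An (R * S) := by
  refine ⟨?_, ?_⟩
  · rw [norm_mul]
    exact mul_le_mul hz.1 hw.1 (norm_nonneg _) (by linarith)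
  · rw [norm_mul]
    calc (1 : ℝ) = 1 * 1 := by ring
      _ ≤ (R * ‖z‖) * (S * ‖w‖) := mul_le_mul hz.2 hw.2 zero_le_one (by linarith [hz.2])
      _ = _ := by ring

lemma An_mono {R S : ℝ} (h : R ≤ S) : An R ⊆ An S := by
  rintro z ⟨h1, h2⟩
  refine ⟨h1.trans h, ?_⟩
  have := norm_nonneg z
  nlinarith

lemma An_conj {R : ℝ} {z : ℂ} (h : z ∈ An R) : (starRingEnd ℂ) z ∈ An R := by
  unfold An at *
  simpa using h

lemma one_mem_An {R : ℝ} (hR : 1 ≤ R) : (1 : ℂ) ∈ An R := by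
  refine ⟨?_, ?_⟩ <;> simpa using hR

lemma mem_An_one {R : ℝ} (hR : 1 ≤ R) {z : ℂ} (h : ‖z‖ = 1) : z ∈ An R := by
  refine ⟨?_, ?_⟩ <;> rw [h] <;> linarith

/-! ## elementary power estimates -/

lemma pow_sub_pow_le {R : ℝ} {a b : ℂ} (ha : ‖a‖ ≤ R) (hb : ‖b‖ ≤ R) (n : ℕ) :
    ‖a ^ n - b ^ n‖ ≤ n * R ^ (n - 1) * ‖a - b‖ := by
  have hR : 0 ≤ R := (norm_nonneg _).trans ha
  have h : a ^ n - b ^ n = (∑ i ∈ range n, a ^ i * b ^ (n - 1 - i)) * (a - b) :=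
    (Commute.all a b).geom_sum₂_mul n |>.symm
  rw [h, norm_mul]
  apply mul_le_mul_of_nonneg_right _ (norm_nonneg _)
  refine (norm_sum_le _ _).trans ?_
  calc ∑ i ∈ range n, ‖a ^ i * b ^ (n - 1 - i)‖ ≤ ∑ i ∈ range n, R ^ (n - 1) := by
        apply Finset.sum_le_sum
        intro i hi
        rw [norm_mul, norm_pow, norm_pow]
        calc ‖a‖ ^ i * ‖b‖ ^ (n - 1 - i) ≤ R ^ i * R ^ (n - 1 - i) :=
              mul_le_mul (pow_le_pow_left₀ (norm_nonneg _) ha _)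
                (pow_le_pow_left₀ (norm_nonneg _) hb _) (by positivity) (by positivity)
          _ = R ^ (n - 1) := by
              rw [← pow_add]
              congr 1
              have := Finset.mem_range.1 hi
              omega
    _ = n * R ^ (n - 1) := by simp

lemma inv_sub_inv_le {R : ℝ} (hR : 1 ≤ R) {a b : ℂ} (ha : a ∈ An R) (hb : b ∈ An R) :
    ‖a⁻¹ - b⁻¹‖ ≤ R ^ 2 * ‖a - b‖ := by
  have h : a⁻¹ - b⁻¹ = a⁻¹ * b⁻¹ * (b - a) := by
    field_simp [An_ne ha, An_ne hb]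
  rw [h, norm_mul, norm_mul, norm_sub_rev b a]
  apply mul_le_mul_of_nonneg_right _ (norm_nonneg _)
  rw [sq]
  exact mul_le_mul (An_norm_inv hR ha) (An_norm_inv hR hb) (norm_nonneg _) (by linarith)

/-! ## bounds for the polynomials -/

section poly

variable {R : ℝ} {i : ℕ}

lemma two_i_pos (hi : 1 ≤ i) : (0 : ℝ) < 2 * i - 1 := by
  have : (1 : ℝ) ≤ i := by exact_mod_cast hi
  linarith

lemma norm_two_add (i : ℕ) : ‖(2 * (i : ℂ) + 1)‖ = 2 * i + 1 := by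
  have : (2 * (i : ℂ) + 1) = ((2 * i + 1 : ℝ) : ℂ) := by push_cast; ring
  rw [this, Complex.norm_real, Real.norm_eq_abs, abs_of_pos (by positivity)]

lemma norm_two_sub (hi : 1 ≤ i) : ‖(2 * (i : ℂ) - 1)‖ = 2 * i - 1 := by
  have : (2 * (i : ℂ) - 1) = ((2 * i - 1 : ℝ) : ℂ) := by push_cast; ring
  rw [this, Complex.norm_real, Real.norm_eq_abs, abs_of_pos (two_i_pos hi)]

lemma card_sub (hi : 1 ≤ i) : ((2 * i - 1 : ℕ) : ℝ) = 2 * i - 1 := by
  rw [Nat.cast_sub (by omega)]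
  push_cast
  ring

lemma PP_le (hR : 1 ≤ R) {X : ℂ} (hX : ‖X‖ ≤ R ^ 2) : ‖PP i X‖ ≤ R ^ (4 * i) := by
  unfold PP
  rw [norm_div, norm_two_add, div_le_iff₀ (by positivity)]
  refine (norm_sum_le _ _).trans ?_
  calc ∑ j ∈ range (2 * i + 1), ‖X ^ j‖ ≤ ∑ j ∈ range (2 * i + 1), R ^ (4 * i) := by
        apply Finset.sum_le_sum
        intro j hj
        rw [norm_pow]
        refine (pow_le_pow_left₀ (norm_nonneg _) hX j).trans ?_
        rw [← pow_mul]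
        apply pow_le_pow_right₀ hR
        have := Finset.mem_range.1 hj
        omega
    _ = _ := by simp; ring

lemma PM_le (hi : 1 ≤ i) (hR : 1 ≤ R) {Y : ℂ} (hY : ‖Y‖ ≤ R ^ 2) : ‖PM i Y‖ ≤ R ^ (4 * i - 2) := by
  unfold PM
  rw [norm_div, norm_two_sub hi, div_le_iff₀ (two_i_pos hi)]
  refine (norm_sum_le _ _).trans ?_
  calc ∑ j ∈ range (2 * i - 1), ‖Y ^ (j + 1)‖ ≤ ∑ j ∈ range (2 * i - 1), R ^ (4 * i - 2) := by
        apply Finset.sum_le_sum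
        intro j hj
        rw [norm_pow]
        refine (pow_le_pow_left₀ (norm_nonneg _) hY _).trans ?_
        rw [← pow_mul]
        apply pow_le_pow_right₀ hR
        have := Finset.mem_range.1 hj
        omega
    _ = _ := by rw [Finset.sum_const, card_range, nsmul_eq_mul, card_sub hi]; ring

lemma sum_range_cast (n : ℕ) : ∑ j ∈ range n, (j : ℝ) = n * (n - 1) / 2 := by
  induction n with
  | zero => simp
  | succ n ih => rw [Finset.sum_range_succ, ih]; push_cast; ring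

lemma PP_lip (hR : 1 ≤ R) {X X' : ℂ} (hX : ‖X‖ ≤ R ^ 2) (hX' : ‖X'‖ ≤ R ^ 2) :
    ‖PP i X - PP i X'‖ ≤ i * R ^ (4 * i) * ‖X - X'‖ := by
  unfold PP
  rw [← sub_div, ← Finset.sum_sub_distrib, norm_div, norm_two_add, div_le_iff₀ (by positivity)]
  refine (norm_sum_le _ _).trans ?_
  calc ∑ j ∈ range (2 * i + 1), ‖X ^ j - X' ^ j‖
      ≤ ∑ j ∈ range (2 * i + 1), (j : ℝ) * (R ^ (4 * i) * ‖X - X'‖) := by
        apply Finset.sum_le_sum
        intro j hj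
        refine (pow_sub_pow_le hX hX' j).trans ?_
        rw [mul_assoc]
        apply mul_le_mul_of_nonneg_left _ (Nat.cast_nonneg _)
        apply mul_le_mul_of_nonneg_right _ (norm_nonneg _)
        rw [← pow_mul]
        apply pow_le_pow_right₀ hR
        have := Finset.mem_range.1 hj
        omega
    _ = _ := by
        rw [← Finset.sum_mul, sum_range_cast]
        push_cast
        ring

lemma PM_lip (hi : 1 ≤ i) (hR : 1 ≤ R) {Y Y' : ℂ} (hY : ‖Y‖ ≤ R ^ 2) (hY' : ‖Y'‖ ≤ R ^ 2) :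
    ‖PM i Y - PM i Y'‖ ≤ i * R ^ (4 * i - 4) * ‖Y - Y'‖ := by
  unfold PM
  rw [← sub_div, ← Finset.sum_sub_distrib, norm_div, norm_two_sub hi, div_le_iff₀ (two_i_pos hi)]
  refine (norm_sum_le _ _).trans ?_
  calc ∑ j ∈ range (2 * i - 1), ‖Y ^ (j + 1) - Y' ^ (j + 1)‖
      ≤ ∑ j ∈ range (2 * i - 1), ((j : ℝ) + 1) * (R ^ (4 * i - 4) * ‖Y - Y'‖) := by
        apply Finset.sum_le_sum
        intro j hj
        refine (pow_sub_pow_le hY hY' (j + 1)).trans ?_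
        rw [mul_assoc]
        push_cast
        apply mul_le_mul_of_nonneg_left _ (by positivity)
        apply mul_le_mul_of_nonneg_right _ (norm_nonneg _)
        rw [← pow_mul]
        apply pow_le_pow_right₀ hR
        have := Finset.mem_range.1 hj
        omega
    _ = _ := by
        rw [← Finset.sum_mul, Finset.sum_add_distrib, sum_range_cast, Finset.sum_const, card_range,
          nsmul_eq_mul, card_sub hi]
        ring

lemma TT_abs (hi : 1 ≤ i) {j : ℕ} (hj : j < 2 * i) : |TT i j| ≤ 1 / (2 * i + 1) := by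
  have hi' : (1 : ℝ) ≤ i := by exact_mod_cast hi
  have hj' : (j : ℝ) ≤ 2 * i - 1 := by
    have : (j : ℝ) + 1 ≤ 2 * i := by exact_mod_cast hj
    linarith
  have h0 : (0 : ℝ) ≤ j := j.cast_nonneg
  have hp : (0 : ℝ) < 2 * i - 1 := by linarith
  have hp' : (0 : ℝ) < 2 * i + 1 := by linarith
  have e : TT i j = (-1 + 2 * (j / (2 * i - 1))) * (1 / (2 * i + 1)) := by
    unfold TT
    field_simp
  rw [e, abs_mul, abs_of_pos (show (0 : ℝ) < 1 / (2 * i + 1) by positivity)]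
  have h1 : 0 ≤ (j : ℝ) / (2 * i - 1) := by positivity
  have h2 : (j : ℝ) / (2 * i - 1) ≤ 1 := by rw [div_le_one hp]; exact hj'
  have h3 : |(-1 + 2 * ((j : ℝ) / (2 * i - 1)))| ≤ 1 := by
    rw [abs_le]
    constructor <;> linarith
  calc _ ≤ 1 * (1 / (2 * (i : ℝ) + 1)) := mul_le_mul_of_nonneg_right h3 (by positivity)
    _ = _ := one_mul _

lemma HH_le (hi : 1 ≤ i) (hR : 1 ≤ R) {X : ℂ} (hX : ‖X‖ ≤ R ^ 2) : ‖HH i X‖ ≤ R ^ (4 * i - 2) := by
  unfold HH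
  refine (norm_sum_le _ _).trans ?_
  calc ∑ j ∈ range (2 * i), ‖(TT i j : ℂ) * X ^ j‖
      ≤ ∑ j ∈ range (2 * i), (1 / (2 * (i : ℝ) + 1)) * R ^ (4 * i - 2) := by
        apply Finset.sum_le_sum
        intro j hj
        have hj' := Finset.mem_range.1 hj
        rw [norm_mul, Complex.norm_real, Real.norm_eq_abs]
        apply mul_le_mul (TT_abs hi hj') _ (norm_nonneg _) (by positivity)
        rw [norm_pow]
        refine (pow_le_pow_left₀ (norm_nonneg _) hX j).trans ?_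
        rw [← pow_mul]
        apply pow_le_pow_right₀ hR
        omega
    _ = (2 * i / (2 * (i : ℝ) + 1)) * R ^ (4 * i - 2) := by
        rw [Finset.sum_const, card_range, nsmul_eq_mul]
        push_cast
        ring
    _ ≤ 1 * R ^ (4 * i - 2) := by
        apply mul_le_mul_of_nonneg_right _ (by positivity)
        rw [div_le_one (by positivity)]
        linarith
    _ = _ := one_mul _

lemma HH_lip (hi : 1 ≤ i) (hR : 1 ≤ R) {X X' : ℂ} (hX : ‖X‖ ≤ R ^ 2) (hX' : ‖X'‖ ≤ R ^ 2) :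
    ‖HH i X - HH i X'‖ ≤ i * R ^ (4 * i - 4) * ‖X - X'‖ := by
  unfold HH
  rw [← Finset.sum_sub_distrib]
  refine (norm_sum_le _ _).trans ?_
  calc ∑ j ∈ range (2 * i), ‖(TT i j : ℂ) * X ^ j - (TT i j : ℂ) * X' ^ j‖
      ≤ ∑ j ∈ range (2 * i), (j : ℝ) * ((1 / (2 * (i : ℝ) + 1)) * (R ^ (4 * i - 4) * ‖X - X'‖)) := by
        apply Finset.sum_le_sum
        intro j hj
        have hj' := Finset.mem_range.1 hj
        rw [← mul_sub, norm_mul, Complex.norm_real, Real.norm_eq_abs]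
        have h1 := pow_sub_pow_le hX hX' j
        have h2 : (j : ℝ) * (R ^ 2) ^ (j - 1) * ‖X - X'‖ ≤ j * (R ^ (4 * i - 4) * ‖X - X'‖) := by
          rw [mul_assoc]
          apply mul_le_mul_of_nonneg_left _ (Nat.cast_nonneg _)
          apply mul_le_mul_of_nonneg_right _ (norm_nonneg _)
          rw [← pow_mul]
          apply pow_le_pow_right₀ hR
          omega
        calc |TT i j| * ‖X ^ j - X' ^ j‖ ≤ (1 / (2 * (i : ℝ) + 1)) *
              (j * (R ^ (4 * i - 4) * ‖X - X'‖)) :=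
              mul_le_mul (TT_abs hi hj') (h1.trans h2) (norm_nonneg _) (by positivity)
          _ = _ := by ring
    _ = (i * (2 * i - 1) / (2 * (i : ℝ) + 1)) * (R ^ (4 * i - 4) * ‖X - X'‖) := by
        rw [← Finset.sum_mul, sum_range_cast]
        push_cast
        ring
    _ ≤ i * (R ^ (4 * i - 4) * ‖X - X'‖) := by
        apply mul_le_mul_of_nonneg_right _ (by positivity)
        rw [div_le_iff₀ (by positivity)]
        have : (1 : ℝ) ≤ i := by exact_mod_cast hi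
        nlinarith
    _ = _ := by ring

/-- `(X - 1) H_i(X) = P_i(X) - P_i^-(X)` -/
lemma HH_eq (hi : 1 ≤ i) (X : ℂ) : (X - 1) * HH i X = PP i X - PM i X := by
  have hi' : (1 : ℝ) ≤ i := by exact_mod_cast hi
  have key : ∀ (a b : ℂ) (n : ℕ), (X - 1) * ∑ j ∈ range n, (a + b * j) * X ^ j =
      (a + b * n) * X ^ n - a - b * ∑ j ∈ range n, X ^ (j + 1) := by
    intro a b n
    induction n with
    | zero => simp
    | succ n ih =>
      rw [Finset.sum_range_succ, mul_add, ih, Finset.sum_range_succ]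
      push_cast
      ring
  have hne1 : (2 * (i : ℂ) + 1) ≠ 0 := by
    have : (2 * (i : ℂ) + 1) = ((2 * i + 1 : ℝ) : ℂ) := by push_cast; ring
    rw [this]
    exact_mod_cast (by positivity : (2 * (i : ℝ) + 1) ≠ 0)
  have hne2 : (2 * (i : ℂ) - 1) ≠ 0 := by
    have : (2 * (i : ℂ) - 1) = ((2 * i - 1 : ℝ) : ℂ) := by push_cast; ring
    rw [this]
    exact_mod_cast (two_i_pos hi).ne'
  have h1 : HH i X = ∑ j ∈ range (2 * i),
      ((-1 / (2 * (i : ℂ) + 1)) + (2 / ((2 * (i : ℂ) + 1) * (2 * i - 1))) * j) * X ^ j := by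
    unfold HH
    apply Finset.sum_congr rfl
    intro j _
    unfold TT
    push_cast
    ring
  rw [h1, key]
  unfold PP PM
  obtain ⟨n, hn⟩ : ∃ n, 2 * i = n + 1 := ⟨2 * i - 1, by omega⟩
  have hn2 : 2 * i - 1 = n := by omega
  rw [hn2, hn, Finset.sum_range_succ' (fun j => X ^ j) (n + 1), pow_zero]
  have hn' : (((n + 1 : ℕ) : ℂ)) = 2 * i := by rw [← hn]; push_cast; ring
  rw [hn', Finset.sum_range_succ (fun j => X ^ (j + 1)) n]
  set A := ∑ j ∈ range n, X ^ (j + 1) with hA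
  field_simp
  ring

end poly

/-! ## Lemma 2.1 -/

section main

variable {N : ℕ} {r r' : ℕ → ℝ} {R : ℝ}

lemma wt_nonneg (hR : 0 ≤ R) : 0 ≤ wt N r R := by
  unfold wt
  positivity

lemma wt_term_nonneg (hR : 0 ≤ R) (i : ℕ) : 0 ≤ (i : ℝ) * |r i| * R ^ (5 * i) := by positivity

/-- general summation step -/
lemma sum_le_wt {F : ℕ → ℂ} {c : ℝ} (hF : ∀ i ∈ Icc 1 N, ‖F i‖ ≤ i * R ^ (5 * i) * c) :
    ‖∑ i ∈ Icc 1 N, (r i : ℂ) * F i‖ ≤ c * wt N r R := by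
  refine (norm_sum_le _ _).trans ?_
  unfold wt
  rw [Finset.mul_sum]
  apply Finset.sum_le_sum
  intro i hi
  rw [norm_mul, Complex.norm_real, Real.norm_eq_abs]
  calc |r i| * ‖F i‖ ≤ |r i| * (i * R ^ (5 * i) * c) :=
        mul_le_mul_of_nonneg_left (hF i hi) (abs_nonneg _)
    _ = _ := by ring

lemma term_le (hR : 1 ≤ R) {U X : ℂ} (hU : U ∈ An R) (hX : X ∈ An (R ^ 2)) {i : ℕ} (hi : 1 ≤ i) :
    ‖U ^ i * PP i X + U⁻¹ ^ i * PM i X⁻¹‖ ≤ i * R ^ (5 * i) * 2 := by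
  have hR2 : (1 : ℝ) ≤ R ^ 2 := one_le_pow₀ hR
  have hi' : (1 : ℝ) ≤ i := by exact_mod_cast hi
  have h1 : ‖U ^ i * PP i X‖ ≤ R ^ (5 * i) := by
    rw [norm_mul, norm_pow]
    calc ‖U‖ ^ i * ‖PP i X‖ ≤ R ^ i * R ^ (4 * i) :=
          mul_le_mul (pow_le_pow_left₀ (norm_nonneg _) hU.1 _) (PP_le hR hX.1) (norm_nonneg _)
            (by positivity)
      _ = _ := by rw [← pow_add]; congr 1; ring
  have h2 : ‖U⁻¹ ^ i * PM i X⁻¹‖ ≤ R ^ (5 * i) := by
    rw [norm_mul, norm_pow]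
    calc ‖U⁻¹‖ ^ i * ‖PM i X⁻¹‖ ≤ R ^ i * R ^ (4 * i - 2) :=
          mul_le_mul (pow_le_pow_left₀ (norm_nonneg _) (An_norm_inv hR hU) _)
            (PM_le hi hR (An_norm_inv hR2 hX)) (norm_nonneg _) (by positivity)
      _ = R ^ (i + (4 * i - 2)) := by rw [← pow_add]
      _ ≤ _ := pow_le_pow_right₀ hR (by omega)
  have h3 : (0 : ℝ) ≤ R ^ (5 * i) := by positivity
  refine (norm_add_le _ _).trans ?_
  nlinarith

lemma q_sub_one (hR : 1 ≤ R) {U X : ℂ} (hU : U ∈ An R) (hX : X ∈ An (R ^ 2)) :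
    ‖q N r U X - 1‖ ≤ 2 * wt N r R := by
  unfold q
  rw [add_sub_cancel_left]
  exact sum_le_wt fun i hi => term_le hR hU hX (Finset.mem_Icc.1 hi).1

lemma qs_sub_one (hR : 1 ≤ R) {U X : ℂ} (hU : U ∈ An R) (hX : X ∈ An (R ^ 2)) :
    ‖qs N r U X - 1‖ ≤ 2 * wt N r R :=
  q_sub_one hR (An_inv hR hU) (An_inv (one_le_pow₀ hR) hX)

lemma wt_sub_le (hR : 1 ≤ R) {U X : ℂ} (hU : U ∈ An R) (hX : X ∈ An (R ^ 2)) :
    ‖q N r U X - q N r' U X‖ ≤ 2 * wt N (fun i => r i - r' i) R := by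
  have h : q N r U X - q N r' U X = q N (fun i => r i - r' i) U X - 1 := by
    unfold q
    rw [add_sub_add_left_eq_sub, add_sub_cancel_left, ← Finset.sum_sub_distrib]
    apply Finset.sum_congr rfl
    intro i _
    push_cast
    ring
  rw [h]
  exact q_sub_one hR hU hX

lemma qs_sub_le (hR : 1 ≤ R) {U X : ℂ} (hU : U ∈ An R) (hX : X ∈ An (R ^ 2)) :
    ‖qs N r U X - qs N r' U X‖ ≤ 2 * wt N (fun i => r i - r' i) R :=
  wt_sub_le hR (An_inv hR hU) (An_inv (one_le_pow₀ hR) hX)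

lemma q_lip (hR : 1 ≤ R) {U U' X X' : ℂ} (hU : U ∈ An R) (hU' : U' ∈ An R)
    (hX : X ∈ An (R ^ 2)) (hX' : X' ∈ An (R ^ 2)) :
    ‖q N r U X - q N r U' X'‖ ≤ 2 * wt N r R * (‖U - U'‖ + ‖X - X'‖) := by
  have hR2 : (1 : ℝ) ≤ R ^ 2 := one_le_pow₀ hR
  have h : q N r U X - q N r U' X' = ∑ i ∈ Icc 1 N, (r i : ℂ) *
      ((U ^ i * PP i X - U' ^ i * PP i X') + (U⁻¹ ^ i * PM i X⁻¹ - U'⁻¹ ^ i * PM i X'⁻¹)) := by
    unfold q
    rw [add_sub_add_left_eq_sub, ← Finset.sum_sub_distrib]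
    apply Finset.sum_congr rfl
    intro i _
    ring
  rw [h]
  have hsum := sum_le_wt (N := N) (r := r) (R := R) (c := 2 * (‖U - U'‖ + ‖X - X'‖))
    (F := fun i => (U ^ i * PP i X - U' ^ i * PP i X') +
      (U⁻¹ ^ i * PM i X⁻¹ - U'⁻¹ ^ i * PM i X'⁻¹)) (by
    intro i hi
    have hi1 := (Finset.mem_Icc.1 hi).1
    have hi' : (1 : ℝ) ≤ i := by exact_mod_cast hi1
    set a := ‖U - U'‖ with ha
    set b := ‖X - X'‖ with hb
    have ha0 : 0 ≤ a := norm_nonneg _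
    have hb0 : 0 ≤ b := norm_nonneg _
    have p5 : R ^ (5 * i) = R ^ i * R ^ (4 * i) := by rw [← pow_add]; congr 1; ring
    have h1 : ‖U ^ i * PP i X - U' ^ i * PP i X'‖ ≤ i * R ^ (5 * i) * (a + b) := by
      have e : U ^ i * PP i X - U' ^ i * PP i X' =
          (U ^ i - U' ^ i) * PP i X + U' ^ i * (PP i X - PP i X') := by ring
      rw [e]
      refine (norm_add_le _ _).trans ?_
      rw [norm_mul, norm_mul, norm_pow]
      have t1 : ‖U ^ i - U' ^ i‖ * ‖PP i X‖ ≤ (i * R ^ i * a) * R ^ (4 * i) := by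
        apply mul_le_mul _ (PP_le hR hX.1) (norm_nonneg _) (by positivity)
        refine (pow_sub_pow_le hU.1 hU'.1 i).trans ?_
        apply mul_le_mul_of_nonneg_right _ ha0
        apply mul_le_mul_of_nonneg_left _ (by positivity)
        exact pow_le_pow_right₀ hR (by omega)
      have t2 : ‖U'‖ ^ i * ‖PP i X - PP i X'‖ ≤ R ^ i * (i * R ^ (4 * i) * b) :=
        mul_le_mul (pow_le_pow_left₀ (norm_nonneg _) hU'.1 _) (PP_lip hR hX.1 hX'.1)
          (norm_nonneg _) (by positivity)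
      calc _ ≤ (i * R ^ i * a) * R ^ (4 * i) + R ^ i * (i * R ^ (4 * i) * b) := add_le_add t1 t2
        _ = _ := by rw [p5]; ring
    have h2 : ‖U⁻¹ ^ i * PM i X⁻¹ - U'⁻¹ ^ i * PM i X'⁻¹‖ ≤ i * R ^ (5 * i) * (a + b) := by
      have e : U⁻¹ ^ i * PM i X⁻¹ - U'⁻¹ ^ i * PM i X'⁻¹ =
          (U⁻¹ ^ i - U'⁻¹ ^ i) * PM i X⁻¹ + U'⁻¹ ^ i * (PM i X⁻¹ - PM i X'⁻¹) := by ring
      rw [e]
      refine (norm_add_le _ _).trans ?_
      rw [norm_mul, norm_mul, norm_pow]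
      have t1 : ‖U⁻¹ ^ i - U'⁻¹ ^ i‖ * ‖PM i X⁻¹‖ ≤
          (i * R ^ (i - 1) * (R ^ 2 * a)) * R ^ (4 * i - 2) := by
        apply mul_le_mul _ (PM_le hi1 hR (An_norm_inv hR2 hX)) (norm_nonneg _) (by positivity)
        refine (pow_sub_pow_le (An_norm_inv hR hU) (An_norm_inv hR hU') i).trans ?_
        apply mul_le_mul_of_nonneg_left (inv_sub_inv_le hR hU hU') (by positivity)
      have t2 : ‖U'⁻¹‖ ^ i * ‖PM i X⁻¹ - PM i X'⁻¹‖ ≤
          R ^ i * (i * R ^ (4 * i - 4) * (R ^ 4 * b)) := by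
        apply mul_le_mul (pow_le_pow_left₀ (norm_nonneg _) (An_norm_inv hR hU') _) _
          (norm_nonneg _) (by positivity)
        refine (PM_lip hi1 hR (An_norm_inv hR2 hX) (An_norm_inv hR2 hX')).trans ?_
        apply mul_le_mul_of_nonneg_left _ (by positivity)
        have := inv_sub_inv_le hR2 hX hX'
        rwa [← pow_mul] at this
      have e1 : R ^ (i - 1) * R ^ 2 * R ^ (4 * i - 2) ≤ R ^ (5 * i) := by
        rw [← pow_add, ← pow_add]
        exact pow_le_pow_right₀ hR (by omega)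
      have e2 : R ^ i * R ^ (4 * i - 4) * R ^ 4 ≤ R ^ (5 * i) := by
        rw [← pow_add, ← pow_add]
        exact pow_le_pow_right₀ hR (by omega)
      calc _ ≤ (i * R ^ (i - 1) * (R ^ 2 * a)) * R ^ (4 * i - 2) +
            R ^ i * (i * R ^ (4 * i - 4) * (R ^ 4 * b)) := add_le_add t1 t2
        _ = i * (R ^ (i - 1) * R ^ 2 * R ^ (4 * i - 2)) * a +
            i * (R ^ i * R ^ (4 * i - 4) * R ^ 4) * b := by ring
        _ ≤ i * R ^ (5 * i) * a + i * R ^ (5 * i) * b := by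
            apply add_le_add
            · apply mul_le_mul_of_nonneg_right _ ha0
              exact mul_le_mul_of_nonneg_left e1 (by positivity)
            · apply mul_le_mul_of_nonneg_right _ hb0
              exact mul_le_mul_of_nonneg_left e2 (by positivity)
        _ = _ := by ring
    refine (norm_add_le _ _).trans ?_
    calc _ ≤ i * R ^ (5 * i) * (a + b) + i * R ^ (5 * i) * (a + b) := add_le_add h1 h2
      _ = _ := by ring)
  refine hsum.trans (le_of_eq ?_)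
  ring

lemma qs_lip (hR : 1 ≤ R) {U U' X X' : ℂ} (hU : U ∈ An R) (hU' : U' ∈ An R)
    (hX : X ∈ An (R ^ 2)) (hX' : X' ∈ An (R ^ 2)) :
    ‖qs N r U X - qs N r U' X'‖ ≤ 2 * wt N r R * R ^ 4 * (‖U - U'‖ + ‖X - X'‖) := by
  have hR2 : (1 : ℝ) ≤ R ^ 2 := one_le_pow₀ hR
  have h := q_lip (N := N) (r := r) hR (An_inv hR hU) (An_inv hR hU') (An_inv hR2 hX)
    (An_inv hR2 hX')
  unfold qs
  refine h.trans ?_
  have h1 : ‖U⁻¹ - U'⁻¹‖ ≤ R ^ 4 * ‖U - U'‖ := by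
    refine (inv_sub_inv_le hR hU hU').trans ?_
    exact mul_le_mul_of_nonneg_right (pow_le_pow_right₀ hR (by norm_num)) (norm_nonneg _)
  have h2 : ‖X⁻¹ - X'⁻¹‖ ≤ R ^ 4 * ‖X - X'‖ := by
    have := inv_sub_inv_le hR2 hX hX'
    rwa [← pow_mul] at this
  have hw : 0 ≤ wt N r R := wt_nonneg (by linarith)
  calc 2 * wt N r R * (‖U⁻¹ - U'⁻¹‖ + ‖X⁻¹ - X'⁻¹‖) ≤
        2 * wt N r R * (R ^ 4 * ‖U - U'‖ + R ^ 4 * ‖X - X'‖) :=
        mul_le_mul_of_nonneg_left (add_le_add h1 h2) (by positivity)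
    _ = _ := by ring

/-- the sum in `chi` -/
noncomputable def chi0 (N : ℕ) (r : ℕ → ℝ) (U X : ℂ) : ℂ :=
  ∑ i ∈ Icc 1 N, (r i : ℂ) * (U ^ i * HH i X + U⁻¹ ^ i * (X⁻¹ * HH i X⁻¹))

lemma chi_eq (U X : ℂ) : chi N r U X = (X + 1) * chi0 N r U X := rfl

lemma chi0_le (hR : 1 ≤ R) {U X : ℂ} (hU : U ∈ An R) (hX : X ∈ An (R ^ 2)) :
    ‖chi0 N r U X‖ ≤ 2 * wt N r R := by
  have hR2 : (1 : ℝ) ≤ R ^ 2 := one_le_pow₀ hR
  apply sum_le_wt
  intro i hi
  have hi1 := (Finset.mem_Icc.1 hi).1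
  have hi' : (1 : ℝ) ≤ i := by exact_mod_cast hi1
  have h1 : ‖U ^ i * HH i X‖ ≤ R ^ (5 * i) := by
    rw [norm_mul, norm_pow]
    calc ‖U‖ ^ i * ‖HH i X‖ ≤ R ^ i * R ^ (4 * i - 2) :=
          mul_le_mul (pow_le_pow_left₀ (norm_nonneg _) hU.1 _) (HH_le hi1 hR hX.1) (norm_nonneg _)
            (by positivity)
      _ = R ^ (i + (4 * i - 2)) := by rw [← pow_add]
      _ ≤ _ := pow_le_pow_right₀ hR (by omega)
  have h2 : ‖U⁻¹ ^ i * (X⁻¹ * HH i X⁻¹)‖ ≤ R ^ (5 * i) := by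
    rw [norm_mul, norm_pow, norm_mul]
    calc ‖U⁻¹‖ ^ i * (‖X⁻¹‖ * ‖HH i X⁻¹‖) ≤ R ^ i * (R ^ 2 * R ^ (4 * i - 2)) := by
          apply mul_le_mul (pow_le_pow_left₀ (norm_nonneg _) (An_norm_inv hR hU) _) _
            (by positivity) (by positivity)
          exact mul_le_mul (An_norm_inv hR2 hX) (HH_le hi1 hR (An_norm_inv hR2 hX))
            (norm_nonneg _) (by positivity)
      _ = R ^ (i + (2 + (4 * i - 2))) := by rw [← pow_add, ← pow_add]
      _ ≤ _ := pow_le_pow_right₀ hR (by omega)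
  have h3 : (0 : ℝ) ≤ R ^ (5 * i) := by positivity
  refine (norm_add_le _ _).trans ?_
  nlinarith

lemma chi0_lip (hR : 1 ≤ R) {U X X' : ℂ} (hU : U ∈ An R)
    (hX : X ∈ An (R ^ 2)) (hX' : X' ∈ An (R ^ 2)) :
    ‖chi0 N r U X - chi0 N r U X'‖ ≤ 3 * R ^ 2 * wt N r R * ‖X - X'‖ := by
  have hR2 : (1 : ℝ) ≤ R ^ 2 := one_le_pow₀ hR
  have h : chi0 N r U X - chi0 N r U X' = ∑ i ∈ Icc 1 N, (r i : ℂ) *
      (U ^ i * (HH i X - HH i X') + U⁻¹ ^ i * (X⁻¹ * HH i X⁻¹ - X'⁻¹ * HH i X'⁻¹)) := by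
    unfold chi0
    rw [← Finset.sum_sub_distrib]
    apply Finset.sum_congr rfl
    intro i _
    ring
  rw [h]
  have hsum := sum_le_wt (N := N) (r := r) (R := R) (c := 3 * R ^ 2 * ‖X - X'‖)
    (F := fun i => U ^ i * (HH i X - HH i X') + U⁻¹ ^ i * (X⁻¹ * HH i X⁻¹ - X'⁻¹ * HH i X'⁻¹)) (by
    intro i hi
    have hi1 := (Finset.mem_Icc.1 hi).1
    have hi' : (1 : ℝ) ≤ i := by exact_mod_cast hi1
    set b := ‖X - X'‖ with hb
    have hb0 : 0 ≤ b := norm_nonneg _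
    have hinv : ‖X⁻¹ - X'⁻¹‖ ≤ R ^ 4 * b := by
      have := inv_sub_inv_le hR2 hX hX'
      rwa [← pow_mul] at this
    have h1 : ‖U ^ i * (HH i X - HH i X')‖ ≤ i * R ^ (5 * i) * b := by
      rw [norm_mul, norm_pow]
      calc ‖U‖ ^ i * ‖HH i X - HH i X'‖ ≤ R ^ i * (i * R ^ (4 * i - 4) * b) :=
            mul_le_mul (pow_le_pow_left₀ (norm_nonneg _) hU.1 _) (HH_lip hi1 hR hX.1 hX'.1)
              (norm_nonneg _) (by positivity)
        _ = i * (R ^ i * R ^ (4 * i - 4)) * b := by ring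
        _ ≤ _ := by
            apply mul_le_mul_of_nonneg_right _ hb0
            apply mul_le_mul_of_nonneg_left _ (by positivity)
            rw [← pow_add]
            exact pow_le_pow_right₀ hR (by omega)
    have h2 : ‖X⁻¹ * HH i X⁻¹ - X'⁻¹ * HH i X'⁻¹‖ ≤ 2 * i * R ^ (4 * i + 2) * b := by
      have e : X⁻¹ * HH i X⁻¹ - X'⁻¹ * HH i X'⁻¹ =
          (X⁻¹ - X'⁻¹) * HH i X⁻¹ + X'⁻¹ * (HH i X⁻¹ - HH i X'⁻¹) := by ring
      rw [e]
      refine (norm_add_le _ _).trans ?_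
      rw [norm_mul, norm_mul]
      have t1 : ‖X⁻¹ - X'⁻¹‖ * ‖HH i X⁻¹‖ ≤ (R ^ 4 * b) * R ^ (4 * i - 2) :=
        mul_le_mul hinv (HH_le hi1 hR (An_norm_inv hR2 hX)) (norm_nonneg _) (by positivity)
      have t2 : ‖X'⁻¹‖ * ‖HH i X⁻¹ - HH i X'⁻¹‖ ≤ R ^ 2 * (i * R ^ (4 * i - 4) * (R ^ 4 * b)) := by
        apply mul_le_mul (An_norm_inv hR2 hX') _ (norm_nonneg _) (by positivity)
        refine (HH_lip hi1 hR (An_norm_inv hR2 hX) (An_norm_inv hR2 hX')).trans ?_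
        exact mul_le_mul_of_nonneg_left hinv (by positivity)
      have e1 : R ^ 4 * R ^ (4 * i - 2) ≤ R ^ (4 * i + 2) := by
        rw [← pow_add]
        exact pow_le_pow_right₀ hR (by omega)
      have e2 : R ^ 2 * R ^ (4 * i - 4) * R ^ 4 ≤ R ^ (4 * i + 2) := by
        rw [← pow_add, ← pow_add]
        exact pow_le_pow_right₀ hR (by omega)
      calc _ ≤ (R ^ 4 * b) * R ^ (4 * i - 2) + R ^ 2 * (i * R ^ (4 * i - 4) * (R ^ 4 * b)) :=
            add_le_add t1 t2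
        _ = (R ^ 4 * R ^ (4 * i - 2)) * b + i * (R ^ 2 * R ^ (4 * i - 4) * R ^ 4) * b := by ring
        _ ≤ R ^ (4 * i + 2) * b + i * R ^ (4 * i + 2) * b := by
            apply add_le_add
            · exact mul_le_mul_of_nonneg_right e1 hb0
            · apply mul_le_mul_of_nonneg_right _ hb0
              exact mul_le_mul_of_nonneg_left e2 (by positivity)
        _ ≤ i * R ^ (4 * i + 2) * b + i * R ^ (4 * i + 2) * b := by
            apply add_le_add _ le_rfl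
            have : (0 : ℝ) ≤ R ^ (4 * i + 2) * b := by positivity
            nlinarith
        _ = _ := by ring
    have h3 : ‖U⁻¹ ^ i * (X⁻¹ * HH i X⁻¹ - X'⁻¹ * HH i X'⁻¹)‖ ≤ 2 * i * (R ^ (5 * i) * R ^ 2) * b := by
      rw [norm_mul, norm_pow]
      calc ‖U⁻¹‖ ^ i * ‖X⁻¹ * HH i X⁻¹ - X'⁻¹ * HH i X'⁻¹‖ ≤ R ^ i * (2 * i * R ^ (4 * i + 2) * b) :=
            mul_le_mul (pow_le_pow_left₀ (norm_nonneg _) (An_norm_inv hR hU) _) h2
              (norm_nonneg _) (by positivity)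
        _ = 2 * i * (R ^ i * R ^ (4 * i + 2)) * b := by ring
        _ = _ := by rw [← pow_add, ← pow_add]; congr 3; ring
    refine (norm_add_le _ _).trans ?_
    have h4 : (i : ℝ) * R ^ (5 * i) * b ≤ i * (R ^ (5 * i) * R ^ 2) * b := by
      apply mul_le_mul_of_nonneg_right _ hb0
      apply mul_le_mul_of_nonneg_left _ (by positivity)
      have : (0 : ℝ) ≤ R ^ (5 * i) := by positivity
      nlinarith
    calc _ ≤ i * R ^ (5 * i) * b + 2 * i * (R ^ (5 * i) * R ^ 2) * b := add_le_add h1 h3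
      _ ≤ i * (R ^ (5 * i) * R ^ 2) * b + 2 * i * (R ^ (5 * i) * R ^ 2) * b :=
          add_le_add h4 le_rfl
      _ = _ := by ring)
  refine hsum.trans (le_of_eq ?_)
  ring

lemma chi0_sub_le (hR : 1 ≤ R) {U X : ℂ} (hU : U ∈ An R) (hX : X ∈ An (R ^ 2)) :
    ‖chi0 N r U X - chi0 N r' U X‖ ≤ 2 * wt N (fun i => r i - r' i) R := by
  have h : chi0 N r U X - chi0 N r' U X = chi0 N (fun i => r i - r' i) U X := by
    unfold chi0
    rw [← Finset.sum_sub_distrib]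
    apply Finset.sum_congr rfl
    intro i _
    push_cast
    ring
  rw [h]
  exact chi0_le hR hU hX

/-- `(X - 1) chi = (X + 1)(q - q*)` -/
lemma chi_identity {U X : ℂ} (hX : X ≠ 0) :
    (X - 1) * chi N r U X = (X + 1) * (q N r U X - qs N r U X) := by
  unfold chi qs q
  rw [add_sub_add_left_eq_sub, ← Finset.sum_sub_distrib, ← mul_assoc, mul_comm (X - 1) (X + 1),
    mul_assoc, Finset.mul_sum]
  congr 1
  apply Finset.sum_congr rfl
  intro i hi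
  have hi1 := (Finset.mem_Icc.1 hi).1
  have h1 := HH_eq hi1 X
  have h2 := HH_eq hi1 X⁻¹
  have h3 : (X - 1) * (X⁻¹ * HH i X⁻¹) = -((X⁻¹ - 1) * HH i X⁻¹) := by
    field_simp
    ring
  rw [inv_inv, inv_inv]
  calc (X - 1) * ((r i : ℂ) * (U ^ i * HH i X + U⁻¹ ^ i * (X⁻¹ * HH i X⁻¹)))
      = (r i : ℂ) * (U ^ i * ((X - 1) * HH i X) + U⁻¹ ^ i * ((X - 1) * (X⁻¹ * HH i X⁻¹))) := by ring
    _ = _ := by
        rw [h3, h1, h2]
        ring

/-- conjugation symmetry (the `r_i` are real) -/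
lemma q_conj (U X : ℂ) : (starRingEnd ℂ) (q N r U X) =
    q N r ((starRingEnd ℂ) U) ((starRingEnd ℂ) X) := by
  have h2 : (starRingEnd ℂ) 2 = 2 := map_ofNat _ 2
  unfold q PP PM
  simp [map_sum, map_mul, map_add, map_div₀, map_pow, map_inv₀, h2]

lemma chi0_conj (U X : ℂ) : (starRingEnd ℂ) (chi0 N r U X) =
    chi0 N r ((starRingEnd ℂ) U) ((starRingEnd ℂ) X) := by
  unfold chi0 HH
  simp [map_sum, map_mul, map_add, map_pow, map_inv₀]

end main

end Pool.Agent.H65.RM
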