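import Pool.Agent.H65.RM.Chord1

/-!
# RM module Chord2: the fixed point `E(U, w)` (paper, Lemma 2.2)
-/

open Finset Filter Topology

namespace Pool.Agent.H65.RM

/-- smallness hypothesis -/
structure Sm (N : ℕ) (r : ℕ → ℝ) (R : ℝ) : Prop where
  one_le : 1 ≤ R
  le : R ≤ 5 / 4
  wt_le : wt N r R ≤ 3 / 1000

/-- domain of the iteration -/
def SS (R : ℝ) : Set ℂ := {E | ‖E - 1‖ ≤ 1 / 4 ∧ E ∈ An R}

noncomputable def gg (N : ℕ) (r : ℕ → ℝ) (U w E : ℂ) : ℂ := qs N r U (w * E) / q N r U (w * E)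

noncomputable def it (N : ℕ) (r : ℕ → ℝ) (U w : ℂ) : ℕ → ℂ
  | 0 => 1
  | n + 1 => gg N r U w (it N r U w n)

/-- the fixed point -/
noncomputable def EE (N : ℕ) (r : ℕ → ℝ) (U w : ℂ) : ℂ := limUnder atTop (it N r U w)

section

variable {N : ℕ} {r r' : ℕ → ℝ} {R : ℝ}

lemma Sm.R2 (h : Sm N r R) : R ^ 2 ≤ 25 / 16 := by
  have h1 := h.one_le
  have h2 := h.le
  nlinarith

lemma Sm.R4 (h : Sm N r R) : R ^ 4 ≤ 5 / 2 := by
  have h1 := h.R2
  have h2 : (0 : ℝ) ≤ R ^ 2 := by positivity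
  have h3 : R ^ 4 = R ^ 2 * R ^ 2 := by ring
  rw [h3]
  nlinarith

lemma Sm.wt0 (h : Sm N r R) : 0 ≤ wt N r R := wt_nonneg (by linarith [h.one_le])

lemma Sm.q1 (h : Sm N r R) {U X : ℂ} (hU : U ∈ An R) (hX : X ∈ An (R ^ 2)) :
    ‖q N r U X - 1‖ ≤ 6 / 1000 :=
  (q_sub_one h.one_le hU hX).trans (by linarith [h.wt_le])

lemma Sm.qs1 (h : Sm N r R) {U X : ℂ} (hU : U ∈ An R) (hX : X ∈ An (R ^ 2)) :
    ‖qs N r U X - 1‖ ≤ 6 / 1000 :=
  (qs_sub_one h.one_le hU hX).trans (by linarith [h.wt_le])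

lemma norm_bounds {z : ℂ} {c : ℝ} (h : ‖z - 1‖ ≤ c) : 1 - c ≤ ‖z‖ ∧ ‖z‖ ≤ 1 + c := by
  constructor
  · have h1 : ‖(1 : ℂ)‖ ≤ ‖z‖ + ‖z - 1‖ := by
      calc ‖(1 : ℂ)‖ = ‖z - (z - 1)‖ := by congr 1; ring
        _ ≤ _ := norm_sub_le _ _
    rw [norm_one] at h1
    linarith
  · have h1 : ‖z‖ ≤ ‖z - 1‖ + ‖(1 : ℂ)‖ := by
      calc ‖z‖ = ‖(z - 1) + 1‖ := by congr 1; ring
        _ ≤ _ := norm_add_le _ _
    rw [norm_one] at h1
    linarith

lemma quot_sub_le {a b a' b' : ℂ} (hb : 99 / 100 ≤ ‖b‖) (hb' : 99 / 100 ≤ ‖b'‖)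
    (ha' : ‖a'‖ ≤ 101 / 100) : ‖a / b - a' / b'‖ ≤ 26 / 25 * (‖a - a'‖ + ‖b - b'‖) := by
  have hb0 : b ≠ 0 := norm_pos_iff.1 (by linarith)
  have hb0' : b' ≠ 0 := norm_pos_iff.1 (by linarith)
  have e : a / b - a' / b' = (a - a') / b - a' * (b - b') / (b * b') := by
    field_simp
    ring
  rw [e]
  refine (norm_sub_le _ _).trans ?_
  rw [norm_div, norm_div, norm_mul, norm_mul]
  have h1 : ‖a - a'‖ / ‖b‖ ≤ 26 / 25 * ‖a - a'‖ := by
    rw [div_le_iff₀ (by linarith)]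
    nlinarith [norm_nonneg (a - a')]
  have h2 : ‖a'‖ * ‖b - b'‖ / (‖b‖ * ‖b'‖) ≤ 26 / 25 * ‖b - b'‖ := by
    have hbb : 98 / 100 ≤ ‖b‖ * ‖b'‖ := by nlinarith
    rw [div_le_iff₀ (by linarith)]
    have h0 := norm_nonneg (b - b')
    nlinarith [mul_le_mul_of_nonneg_right ha' h0, mul_le_mul_of_nonneg_right hbb h0]
  linarith

lemma mem_X {w E : ℂ} (h : Sm N r R) (hw : w ∈ An R) (hE : E ∈ An R) : w * E ∈ An (R ^ 2) := by
  have := An_mul h.one_le h.one_le hw hE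
  rwa [← sq] at this

/-- Lipschitz bound of the quotient -/
lemma Sm.quot_lip (h : Sm N r R) {U U' X X' : ℂ} (hU : U ∈ An R) (hU' : U' ∈ An R)
    (hX : X ∈ An (R ^ 2)) (hX' : X' ∈ An (R ^ 2)) :
    ‖qs N r U X / q N r U X - qs N r U' X' / q N r U' X'‖ ≤ 1 / 40 * (‖U - U'‖ + ‖X - X'‖) := by
  have h1 := (norm_bounds (h.q1 hU hX)).1
  have h2 := (norm_bounds (h.q1 hU' hX')).1
  have h3 := (norm_bounds (h.qs1 hU' hX')).2
  refine (quot_sub_le (by linarith) (by linarith) (by linarith)).trans ?_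
  have h4 := qs_lip (N := N) (r := r) h.one_le hU hU' hX hX'
  have h5 := q_lip (N := N) (r := r) h.one_le hU hU' hX hX'
  set D := ‖U - U'‖ + ‖X - X'‖ with hD
  have hD0 : 0 ≤ D := by positivity
  have hw := h.wt_le
  have hw0 := h.wt0
  have hR4 := h.R4
  have hR0 : 0 ≤ R ^ 4 := by positivity
  have h6 : 2 * wt N r R * R ^ 4 * D ≤ 15 / 1000 * D := by
    apply mul_le_mul_of_nonneg_right _ hD0
    nlinarith
  have h7 : 2 * wt N r R * D ≤ 6 / 1000 * D := by
    apply mul_le_mul_of_nonneg_right _ hD0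
    linarith
  linarith

lemma Sm.gg_lip (h : Sm N r R) {U w E E' : ℂ} (hU : U ∈ An R) (hw : w ∈ An R) (hE : E ∈ An R)
    (hE' : E' ∈ An R) : ‖gg N r U w E - gg N r U w E'‖ ≤ 1 / 2 * ‖E - E'‖ := by
  unfold gg
  refine (h.quot_lip hU hU (mem_X h hw hE) (mem_X h hw hE')).trans ?_
  rw [sub_self, norm_zero, zero_add, ← mul_sub, norm_mul]
  have h1 := hw.1
  have h2 := h.le
  have h3 := norm_nonneg (E - E')
  have h4 : ‖w‖ * ‖E - E'‖ ≤ 5 / 4 * ‖E - E'‖ := mul_le_mul_of_nonneg_right (by linarith) h3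
  linarith

/-- modulus of the quotient -/
lemma norm_qs_sub (h : Sm N r R) {U X : ℂ} (hU : U ∈ An R) (hX : X ∈ An (R ^ 2)) :
    |‖qs N r U X‖ - ‖q N r U X‖| ≤ 2 / 100 * (R - R⁻¹) := by
  have hR := h.one_le
  have hR0 : 0 < R := by linarith
  have hR2 : (1 : ℝ) ≤ R ^ 2 := one_le_pow₀ hR
  have h1 : ‖qs N r U X‖ = ‖q N r ((starRingEnd ℂ) U⁻¹) ((starRingEnd ℂ) X⁻¹)‖ := by
    rw [← q_conj, Complex.norm_conj]
    rfl
  rw [h1]
  refine (abs_norm_sub_norm_le _ _).trans ?_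
  refine (q_lip hR (An_conj (An_inv hR hU)) hU (An_conj (An_inv hR2 hX)) hX).trans ?_
  have key : ∀ (z : ℂ) (S : ℝ), 1 ≤ S → z ∈ An S → ‖(starRingEnd ℂ) z⁻¹ - z‖ ≤ S - S⁻¹ := by
    intro z S hS hz
    have hz0 := An_ne hz
    have hn : 0 < ‖z‖ := norm_pos_iff.2 hz0
    have e : (starRingEnd ℂ) z⁻¹ - z = (((‖z‖⁻¹ ^ 2 - 1 : ℝ)) : ℂ) * z := by
      have h2 : (starRingEnd ℂ) z * z = ((‖z‖ ^ 2 : ℝ) : ℂ) := by
        rw [mul_comm, Complex.mul_conj, Complex.normSq_eq_norm_sq]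
      have h3 : (starRingEnd ℂ) z ≠ 0 := (map_ne_zero _).2 hz0
      rw [map_inv₀]
      have h4 : ((starRingEnd ℂ) z)⁻¹ = (((‖z‖ ^ 2 : ℝ)) : ℂ)⁻¹ * z := by
        rw [← h2]
        field_simp
      rw [h4]
      push_cast
      ring
    rw [e, norm_mul, Complex.norm_real, Real.norm_eq_abs]
    have e2 : |‖z‖⁻¹ ^ 2 - 1| * ‖z‖ = |‖z‖⁻¹ - ‖z‖| := by
      rw [← abs_of_pos hn, ← abs_mul, abs_of_pos hn]
      congr 1
      field_simp
    rw [e2, abs_le]
    have h5 := hz.1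
    have h6 : S⁻¹ ≤ ‖z‖ := by
      rw [inv_le_iff_one_le_mul₀ (by linarith)]
      have := hz.2
      linarith
    have h7 : ‖z‖⁻¹ ≤ S := by
      have := An_norm_inv hS hz
      rwa [norm_inv] at this
    have h8 : S⁻¹ ≤ ‖z‖⁻¹ := by
      apply inv_anti₀ hn h5
    constructor <;> linarith
  have k1 := key U R hR hU
  have k2 := key X (R ^ 2) hR2 hX
  have hRi : R⁻¹ ≤ 1 := inv_le_one_of_one_le₀ hR
  have hRi0 : 0 < R⁻¹ := inv_pos.2 hR0
  have hd : 0 ≤ R - R⁻¹ := by linarith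
  have k3 : R ^ 2 - (R ^ 2)⁻¹ ≤ 9 / 4 * (R - R⁻¹) := by
    have e3 : R ^ 2 - (R ^ 2)⁻¹ = (R + R⁻¹) * (R - R⁻¹) := by
      field_simp
      ring
    rw [e3]
    apply mul_le_mul_of_nonneg_right _ hd
    linarith [h.le]
  have hw := h.wt_le
  have hw0 := h.wt0
  calc 2 * wt N r R * (‖(starRingEnd ℂ) U⁻¹ - U‖ + ‖(starRingEnd ℂ) X⁻¹ - X‖)
      ≤ 2 * wt N r R * ((R - R⁻¹) + 9 / 4 * (R - R⁻¹)) :=
        mul_le_mul_of_nonneg_left (add_le_add k1 (k2.trans k3)) (by linarith)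
    _ ≤ _ := by nlinarith

lemma Sm.gg_mem (h : Sm N r R) {U w E : ℂ} (hU : U ∈ An R) (hw : w ∈ An R) (hE : E ∈ An R) :
    gg N r U w E ∈ SS R := by
  have hR := h.one_le
  have hR0 : 0 < R := by linarith
  have hX := mem_X h hw hE
  have h1 := h.q1 hU hX
  have h2 := h.qs1 hU hX
  have h3 := (norm_bounds h1).1
  have hq0 : q N r U (w * E) ≠ 0 := norm_pos_iff.1 (by linarith)
  have hq : 0 < ‖q N r U (w * E)‖ := norm_pos_iff.2 hq0
  have h4 := norm_qs_sub h hU hX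
  have hRi : R⁻¹ ≤ 1 := inv_le_one_of_one_le₀ hR
  have hRi0 : 0 < R⁻¹ := inv_pos.2 hR0
  have hd : 0 ≤ R - R⁻¹ := by linarith
  refine ⟨?_, ?_, ?_⟩
  · unfold gg
    have e : qs N r U (w * E) / q N r U (w * E) - 1 =
        ((qs N r U (w * E) - 1) - (q N r U (w * E) - 1)) / q N r U (w * E) := by
      field_simp
      ring
    rw [e, norm_div, div_le_iff₀ hq]
    have := norm_sub_le (qs N r U (w * E) - 1) (q N r U (w * E) - 1)
    linarith
  · unfold gg
    rw [norm_div, div_le_iff₀ hq]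
    have h5 := (abs_le.1 h4).2
    have h6 : R - R⁻¹ ≤ 2 * (R - 1) := by
      have : R⁻¹ ≥ 2 - R := by
        rw [ge_iff_le, ← sub_nonneg]
        have e : R⁻¹ - (2 - R) = (R - 1) ^ 2 / R := by
          field_simp
          ring
        rw [e]
        positivity
      linarith
    have h7 : 99 / 100 * (R - 1) ≤ (R - 1) * ‖q N r U (w * E)‖ := by
      have := mul_le_mul_of_nonneg_left h3 (show 0 ≤ R - 1 by linarith)
      nlinarith
    nlinarith
  · unfold gg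
    rw [norm_div, ← mul_div_assoc, one_le_div hq]
    have h5 := (abs_le.1 h4).1
    have h6 : R * (R - R⁻¹) ≤ 9 / 4 * (R - 1) := by
      have e : R * (R - R⁻¹) = (R + 1) * (R - 1) := by
        field_simp
        ring
      rw [e]
      exact mul_le_mul_of_nonneg_right (by linarith [h.le]) (by linarith)
    have h7 : 99 / 100 * (R - 1) ≤ (R - 1) * ‖q N r U (w * E)‖ := by
      have := mul_le_mul_of_nonneg_left h3 (show 0 ≤ R - 1 by linarith)
      nlinarith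
    nlinarith

lemma one_mem_SS (hR : 1 ≤ R) : (1 : ℂ) ∈ SS R := ⟨by simp, one_mem_An hR⟩

lemma Sm.it_mem (h : Sm N r R) {U w : ℂ} (hU : U ∈ An R) (hw : w ∈ An R) (n : ℕ) :
    it N r U w n ∈ SS R := by
  induction n with
  | zero => exact one_mem_SS h.one_le
  | succ n ih => exact h.gg_mem hU hw ih.2

lemma Sm.it_step (h : Sm N r R) {U w : ℂ} (hU : U ∈ An R) (hw : w ∈ An R) (n : ℕ) :
    ‖it N r U w n - it N r U w (n + 1)‖ ≤ 1 / 4 * (1 / 2) ^ n := by
  induction n with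
  | zero =>
    have := (h.it_mem hU hw 1).1
    rw [norm_sub_rev]
    simpa [it] using this
  | succ n ih =>
    have := h.gg_lip hU hw (h.it_mem hU hw n).2 (h.it_mem hU hw (n + 1)).2
    calc _ ≤ 1 / 2 * ‖it N r U w n - it N r U w (n + 1)‖ := this
      _ ≤ 1 / 2 * (1 / 4 * (1 / 2) ^ n) := by linarith
      _ = _ := by ring

lemma Sm.tendsto (h : Sm N r R) {U w : ℂ} (hU : U ∈ An R) (hw : w ∈ An R) :
    Tendsto (it N r U w) atTop (𝓝 (EE N r U w)) := by
  have hc : CauchySeq (it N r U w) := by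
    apply cauchySeq_of_le_geometric (1 / 2) (1 / 4) (by norm_num)
    intro n
    rw [dist_eq_norm]
    exact h.it_step hU hw n
  exact hc.tendsto_limUnder

lemma Sm.rate (h : Sm N r R) {U w : ℂ} (hU : U ∈ An R) (hw : w ∈ An R) (n : ℕ) :
    ‖it N r U w n - EE N r U w‖ ≤ 1 / 2 * (1 / 2) ^ n := by
  have := dist_le_of_le_geometric_of_tendsto (1 / 2) (1 / 4) (by norm_num) (f := it N r U w)
    (fun n => by rw [dist_eq_norm]; exact h.it_step hU hw n) (h.tendsto hU hw) n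
  rw [dist_eq_norm] at this
  refine this.trans (le_of_eq ?_)
  ring

lemma isClosed_SS : IsClosed (SS R) := by
  have h1 : IsClosed {E : ℂ | ‖E - 1‖ ≤ 1 / 4} := isClosed_le (by fun_prop) continuous_const
  have h2 : IsClosed {E : ℂ | ‖E‖ ≤ R} := isClosed_le (by fun_prop) continuous_const
  have h3 : IsClosed {E : ℂ | 1 ≤ R * ‖E‖} := isClosed_le continuous_const (by fun_prop)
  exact h1.inter (h2.inter h3)

lemma Sm.EE_mem (h : Sm N r R) {U w : ℂ} (hU : U ∈ An R) (hw : w ∈ An R) : EE N r U w ∈ SS R :=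
  isClosed_SS.mem_of_tendsto (h.tendsto hU hw) (Eventually.of_forall (h.it_mem hU hw))

lemma Sm.fix (h : Sm N r R) {U w : ℂ} (hU : U ∈ An R) (hw : w ∈ An R) :
    gg N r U w (EE N r U w) = EE N r U w := by
  have h1 : Tendsto (fun n => gg N r U w (it N r U w n)) atTop (𝓝 (gg N r U w (EE N r U w))) := by
    rw [tendsto_iff_norm_sub_tendsto_zero]
    have h2 : Tendsto (fun n => 1 / 2 * ‖it N r U w n - EE N r U w‖) atTop (𝓝 0) := by
      have := (tendsto_iff_norm_sub_tendsto_zero.1 (h.tendsto hU hw)).const_mul (1 / 2)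
      simpa using this
    exact squeeze_zero (fun n => norm_nonneg _)
      (fun n => h.gg_lip hU hw (h.it_mem hU hw n).2 (h.EE_mem hU hw).2) h2
  have h3 : Tendsto (fun n => it N r U w (n + 1)) atTop (𝓝 (EE N r U w)) :=
    (h.tendsto hU hw).comp (tendsto_add_atTop_nat 1)
  exact tendsto_nhds_unique h1 h3

/-- `X q = w q*` -/
lemma Sm.fix' (h : Sm N r R) {U w : ℂ} (hU : U ∈ An R) (hw : w ∈ An R) :
    EE N r U w * q N r U (w * EE N r U w) = qs N r U (w * EE N r U w) := by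
  have hX := mem_X h hw (h.EE_mem hU hw).2
  have h3 := (norm_bounds (h.q1 hU hX)).1
  have hq0 : q N r U (w * EE N r U w) ≠ 0 := norm_pos_iff.1 (by linarith)
  have := h.fix hU hw
  unfold gg at this
  rw [div_eq_iff hq0] at this
  exact this.symm

lemma Sm.unique (h : Sm N r R) {U w E : ℂ} (hU : U ∈ An R) (hw : w ∈ An R) (hE : E ∈ An R)
    (hf : gg N r U w E = E) : E = EE N r U w := by
  have h1 := h.gg_lip hU hw hE (h.EE_mem hU hw).2
  rw [hf, h.fix hU hw] at h1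
  have h2 : ‖E - EE N r U w‖ ≤ 0 := by linarith
  exact sub_eq_zero.1 (norm_le_zero_iff.1 h2)

lemma Sm.EE_one (h : Sm N r R) {U : ℂ} (hU : U ∈ An R) : EE N r U 1 = 1 := by
  symm
  apply h.unique hU (one_mem_An h.one_le) (one_mem_An h.one_le)
  unfold gg
  rw [mul_one]
  have h1 : qs N r U 1 = q N r U 1 := by
    unfold qs q
    congr 1
    apply Finset.sum_congr rfl
    intro i hi
    have hi1 := (Finset.mem_Icc.1 hi).1
    have hP : PP i 1 = 1 := by
      unfold PP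
      simp only [one_pow, Finset.sum_const, card_range, nsmul_eq_mul, mul_one]
      push_cast
      apply div_self
      have := norm_two_add i
      intro h0
      rw [h0, norm_zero] at this
      have : (0 : ℝ) < 2 * i + 1 := by positivity
      linarith
    have hM : PM i 1 = 1 := by
      unfold PM
      simp only [one_pow, Finset.sum_const, card_range, nsmul_eq_mul, mul_one]
      rw [Nat.cast_sub (by omega)]
      push_cast
      apply div_self
      have := norm_two_sub hi1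
      intro h0
      rw [h0, norm_zero] at this
      have := two_i_pos hi1
      linarith
    simp only [inv_one, inv_inv, hP, hM]
    ring
  have h3 := (norm_bounds (h.q1 hU (one_mem_An (one_le_pow₀ h.one_le)))).1
  have hq0 : q N r U 1 ≠ 0 := norm_pos_iff.1 (by linarith)
  rw [h1, div_self hq0]

/-- `E` is Lipschitz in `(U, w)` -/
lemma Sm.EE_lip (h : Sm N r R) {U w U' w' : ℂ} (hU : U ∈ An R) (hw : w ∈ An R) (hU' : U' ∈ An R)
    (hw' : w' ∈ An R) : ‖EE N r U w - EE N r U' w'‖ ≤ ‖U - U'‖ + ‖w - w'‖ := by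
  have hE := h.EE_mem hU hw
  have hE' := h.EE_mem hU' hw'
  have h1 := h.quot_lip hU hU' (mem_X h hw hE.2) (mem_X h hw' hE'.2)
  have h2 : EE N r U w - EE N r U' w' = gg N r U w (EE N r U w) - gg N r U' w' (EE N r U' w') := by
    rw [h.fix hU hw, h.fix hU' hw']
  have h3 : ‖w * EE N r U w - w' * EE N r U' w'‖ ≤
      5 / 4 * ‖EE N r U w - EE N r U' w'‖ + 5 / 4 * ‖w - w'‖ := by
    have e : w * EE N r U w - w' * EE N r U' w' =
        w * (EE N r U w - EE N r U' w') + (w - w') * EE N r U' w' := by ring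
    rw [e]
    refine (norm_add_le _ _).trans ?_
    rw [norm_mul, norm_mul]
    apply add_le_add
    · exact mul_le_mul_of_nonneg_right (hw.1.trans h.le) (norm_nonneg _)
    · rw [mul_comm]
      exact mul_le_mul_of_nonneg_right (hE'.2.1.trans h.le) (norm_nonneg _)
  rw [h2]
  unfold gg
  rw [h2] at h3
  unfold gg at h3
  have h4 := norm_nonneg (U - U')
  have h5 := norm_nonneg (w - w')
  linarith

/-- dependence on `r` -/
lemma Sm.EE_sub (h : Sm N r R) (h' : Sm N r' R) {U w : ℂ} (hU : U ∈ An R) (hw : w ∈ An R) :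
    ‖EE N r U w - EE N r' U w‖ ≤ 9 / 2 * wt N (fun i => r i - r' i) R := by
  have hE := h.EE_mem hU hw
  have hE' := h'.EE_mem hU hw
  have hX' := mem_X h hw hE'.2
  have h1 := h.gg_lip hU hw hE.2 hE'.2
  have h0 := h.quot_lip hU hU (mem_X h hw hE.2) hX'
  have h2 : ‖gg N r U w (EE N r' U w) - gg N r' U w (EE N r' U w)‖ ≤
      26 / 25 * (4 * wt N (fun i => r i - r' i) R) := by
    unfold gg
    have b1 := (norm_bounds (h.q1 hU hX')).1
    have b2 := (norm_bounds (h'.q1 hU hX')).1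
    have b3 := (norm_bounds (h'.qs1 hU hX')).2
    refine (quot_sub_le (by linarith) (by linarith) (by linarith)).trans ?_
    have c1 := wt_sub_le (N := N) (r := r) (r' := r') h.one_le hU hX'
    have c2 := qs_sub_le (N := N) (r := r) (r' := r') h.one_le hU hX'
    linarith
  have h3 : EE N r U w - EE N r' U w = (gg N r U w (EE N r U w) - gg N r U w (EE N r' U w)) +
      (gg N r U w (EE N r' U w) - gg N r' U w (EE N r' U w)) := by
    rw [h.fix hU hw, h'.fix hU hw]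
    ring
  have h4 : ‖gg N r U w (EE N r U w) - gg N r U w (EE N r' U w)‖ ≤
      1 / 20 * ‖EE N r U w - EE N r' U w‖ := by
    unfold gg
    refine h0.trans ?_
    rw [sub_self, norm_zero, zero_add, ← mul_sub, norm_mul]
    have := mul_le_mul_of_nonneg_right (hw.1.trans h.le) (norm_nonneg (EE N r U w - EE N r' U w))
    linarith [norm_nonneg (EE N r U w - EE N r' U w)]
  have h5 := norm_add_le (gg N r U w (EE N r U w) - gg N r U w (EE N r' U w))
    (gg N r U w (EE N r' U w) - gg N r' U w (EE N r' U w))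
  rw [← h3] at h5
  have hw0 : 0 ≤ wt N (fun i => r i - r' i) R := wt_nonneg (by linarith [h.one_le])
  linarith

end

end Pool.Agent.H65.RM
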