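import Pool.Agent.H65.RM.Chord2

/-!
# RM module Chord3: the kernel `M` (paper, Lemma 2.3): bounds, dependence on `r`, holomorphy
-/

open Finset Filter Topology

namespace Pool.Agent.H65.RM

/-- the denominator `q + q* + chi` at `(U, wE)` -/
noncomputable def den (N : ℕ) (r : ℕ → ℝ) (U w : ℂ) : ℂ :=
  q N r U (w * EE N r U w) + qs N r U (w * EE N r U w) + chi N r U (w * EE N r U w)

/-- `m = 2 q q* / (q + q* + chi)` at `(U, wE)` -/
noncomputable def mm (N : ℕ) (r : ℕ → ℝ) (U w : ℂ) : ℂ :=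
  2 * (q N r U (w * EE N r U w) * qs N r U (w * EE N r U w)) / den N r U w

/-- `rho(U)` -/
noncomputable def rh (N : ℕ) (r : ℕ → ℝ) (U : ℂ) : ℂ :=
  1 + ∑ i ∈ Icc 1 N, (r i : ℂ) * (U ^ i + U⁻¹ ^ i)

/-- the kernel `M = m^p rho` -/
noncomputable def MM (p : ℝ) (N : ℕ) (r : ℕ → ℝ) (U w : ℂ) : ℂ :=
  mm N r U w ^ (p : ℂ) * rh N r U

section

variable {N : ℕ} {r r' : ℕ → ℝ} {R : ℝ} {p : ℝ}

lemma Sm.XE (h : Sm N r R) {U w : ℂ} (hU : U ∈ An R) (hw : w ∈ An R) :
    w * EE N r U w ∈ An (R ^ 2) := mem_X h hw (h.EE_mem hU hw).2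

lemma Sm.chi_le (h : Sm N r R) {U X : ℂ} (hU : U ∈ An R) (hX : X ∈ An (R ^ 2)) :
    ‖chi N r U X‖ ≤ 21 / 4 * wt N r R := by
  rw [chi_eq, norm_mul]
  have h1 := chi0_le (N := N) (r := r) h.one_le hU hX
  have h2 : ‖X + 1‖ ≤ 41 / 16 := by
    refine (norm_add_le _ _).trans ?_
    rw [norm_one]
    linarith [hX.1, h.R2]
  have hw0 := h.wt0
  calc ‖X + 1‖ * ‖chi0 N r U X‖ ≤ 41 / 16 * (2 * wt N r R) :=
        mul_le_mul h2 h1 (norm_nonneg _) (by norm_num)
    _ ≤ _ := by linarith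

lemma Sm.den_sub (h : Sm N r R) {U w : ℂ} (hU : U ∈ An R) (hw : w ∈ An R) :
    ‖den N r U w - 2‖ ≤ 37 / 4 * wt N r R := by
  have hX := h.XE hU hw
  have h1 := q_sub_one (N := N) (r := r) h.one_le hU hX
  have h2 := qs_sub_one (N := N) (r := r) h.one_le hU hX
  have h3 := h.chi_le hU hX
  unfold den
  set a := q N r U (w * EE N r U w)
  set b := qs N r U (w * EE N r U w)
  set c := chi N r U (w * EE N r U w)
  have e : a + b + c - 2 = (a - 1) + (b - 1) + c := by ring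
  rw [e]
  refine (norm_add_le _ _).trans ?_
  have := norm_add_le (a - 1) (b - 1)
  linarith

lemma Sm.den_norm (h : Sm N r R) {U w : ℂ} (hU : U ∈ An R) (hw : w ∈ An R) :
    197 / 100 ≤ ‖den N r U w‖ := by
  have h1 := h.den_sub hU hw
  have h2 : ‖(2 : ℂ)‖ ≤ ‖den N r U w‖ + ‖den N r U w - 2‖ := by
    calc ‖(2 : ℂ)‖ = ‖den N r U w - (den N r U w - 2)‖ := by congr 1; ring
      _ ≤ _ := norm_sub_le _ _
  have h3 : ‖(2 : ℂ)‖ = 2 := by simp
  linarith [h.wt_le]

lemma Sm.den_ne (h : Sm N r R) {U w : ℂ} (hU : U ∈ An R) (hw : w ∈ An R) : den N r U w ≠ 0 :=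
  norm_pos_iff.1 (by linarith [h.den_norm hU hw])

lemma Sm.mm_sub_one (h : Sm N r R) {U w : ℂ} (hU : U ∈ An R) (hw : w ∈ An R) :
    ‖mm N r U w - 1‖ ≤ 9 * wt N r R := by
  have hX := h.XE hU hw
  have h1 := q_sub_one (N := N) (r := r) h.one_le hU hX
  have h2 := qs_sub_one (N := N) (r := r) h.one_le hU hX
  have h3 := h.den_sub hU hw
  have h4 := h.den_norm hU hw
  have h5 := (norm_bounds (h.qs1 hU hX)).2
  have hd := h.den_ne hU hw
  unfold mm
  set a := q N r U (w * EE N r U w)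
  set b := qs N r U (w * EE N r U w)
  set D := den N r U w
  have e : 2 * (a * b) / D - 1 = (2 * ((a - 1) * b + (b - 1)) - (D - 2)) / D := by
    field_simp
    ring
  rw [e, norm_div, div_le_iff₀ (by linarith)]
  have hw0 := h.wt0
  have e1 : ‖2 * ((a - 1) * b + (b - 1)) - (D - 2)‖ ≤
      2 * (2 * wt N r R * (1 + 6 / 1000) + 2 * wt N r R) + 37 / 4 * wt N r R := by
    refine (norm_sub_le _ _).trans (add_le_add ?_ h3)
    rw [norm_mul]
    have h2' : ‖(2 : ℂ)‖ = 2 := by simp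
    rw [h2']
    apply mul_le_mul_of_nonneg_left _ (by norm_num)
    refine (norm_add_le _ _).trans (add_le_add ?_ h2)
    rw [norm_mul]
    exact mul_le_mul h1 h5 (norm_nonneg _) (by linarith)
  refine e1.trans ?_
  have := mul_le_mul_of_nonneg_left h4 (show 0 ≤ 9 * wt N r R by linarith)
  nlinarith

lemma Sm.mm_ball (h : Sm N r R) {U w : ℂ} (hU : U ∈ An R) (hw : w ∈ An R) :
    ‖mm N r U w - 1‖ ≤ 27 / 1000 := (h.mm_sub_one hU hw).trans (by linarith [h.wt_le])

/-- `(w - 1) m = q (X - 1)` -/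
lemma Sm.mm_identity (h : Sm N r R) {U w : ℂ} (hU : U ∈ An R) (hw : w ∈ An R) :
    (w - 1) * mm N r U w = q N r U (w * EE N r U w) * (w * EE N r U w - 1) := by
  have hX := h.XE hU hw
  have hX0 := An_ne hX
  have h1 := chi_identity (N := N) (r := r) (U := U) hX0
  have h2 := h.fix' hU hw
  have hd := h.den_ne hU hw
  have h3 : w * EE N r U w * q N r U (w * EE N r U w) = w * qs N r U (w * EE N r U w) := by
    rw [← h2]; ring
  unfold mm
  rw [← mul_div_assoc, div_eq_iff hd]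
  unfold den
  set X := w * EE N r U w with hXd
  set a := q N r U X
  set b := qs N r U X
  set c := chi N r U X
  have h4 : (X - 1) * (a + b + c) = 2 * b * (w - 1) := by
    have : (X - 1) * (a + b + c) = (X - 1) * (a + b) + (X - 1) * c := by ring
    rw [this, h1]
    have e : (X - 1) * (a + b) + (X + 1) * (a - b) = 2 * (X * a) - 2 * b := by ring
    rw [e, h3]
    ring
  calc (w - 1) * (2 * (a * b)) = a * (2 * b * (w - 1)) := by ring
    _ = a * (X - 1) * (a + b + c) := by rw [← h4]; ring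

lemma rh_sub_one (hR : 1 ≤ R) {U : ℂ} (hU : U ∈ An R) : ‖rh N r U - 1‖ ≤ 2 * wt N r R := by
  unfold rh
  rw [add_sub_cancel_left]
  apply sum_le_wt
  intro i hi
  have hi1 := (Finset.mem_Icc.1 hi).1
  have hi' : (1 : ℝ) ≤ i := by exact_mod_cast hi1
  have h1 : ‖U ^ i‖ ≤ R ^ (5 * i) := by
    rw [norm_pow]
    exact (pow_le_pow_left₀ (norm_nonneg _) hU.1 i).trans (pow_le_pow_right₀ hR (by omega))
  have h2 : ‖U⁻¹ ^ i‖ ≤ R ^ (5 * i) := by
    rw [norm_pow]
    exact (pow_le_pow_left₀ (norm_nonneg _) (An_norm_inv hR hU) i).trans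
      (pow_le_pow_right₀ hR (by omega))
  have h3 : (0 : ℝ) ≤ R ^ (5 * i) := by positivity
  refine (norm_add_le _ _).trans ?_
  nlinarith

lemma rh_sub_le (hR : 1 ≤ R) {U : ℂ} (hU : U ∈ An R) :
    ‖rh N r U - rh N r' U‖ ≤ 2 * wt N (fun i => r i - r' i) R := by
  have h : rh N r U - rh N r' U = rh N (fun i => r i - r' i) U - 1 := by
    unfold rh
    rw [add_sub_add_left_eq_sub, add_sub_cancel_left, ← Finset.sum_sub_distrib]
    apply Finset.sum_congr rfl
    intro i _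
    push_cast
    ring
  rw [h]
  exact rh_sub_one hR hU

/-- powers near one -/
lemma cpow_lip (hp1 : 1.9 < p) (hp2 : p < 2) {a b : ℂ} (ha : ‖a - 1‖ ≤ 1 / 10)
    (hb : ‖b - 1‖ ≤ 1 / 10) : ‖a ^ (p : ℂ) - b ^ (p : ℂ)‖ ≤ 3 * ‖a - b‖ := by
  have hs : ∀ z ∈ Metric.closedBall (1 : ℂ) (1 / 10), z ∈ Complex.slitPlane := by
    intro z hz
    rw [mem_closedBall_iff_norm] at hz
    left
    have h1 := Complex.abs_re_le_norm (z - 1)
    have h2 : (z - 1).re = z.re - 1 := by simp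
    rw [h2] at h1
    have := (abs_le.1 (h1.trans hz)).1
    linarith
  have hd : ∀ z ∈ Metric.closedBall (1 : ℂ) (1 / 10), HasDerivWithinAt (fun z : ℂ => z ^ (p : ℂ))
      ((p : ℂ) * z ^ ((p : ℂ) - 1)) (Metric.closedBall (1 : ℂ) (1 / 10)) z := by
    intro z hz
    have := (hasDerivAt_id z).cpow_const (c := (p : ℂ)) (hs z hz)
    simpa using this.hasDerivWithinAt
  have hbound : ∀ z ∈ Metric.closedBall (1 : ℂ) (1 / 10), ‖(p : ℂ) * z ^ ((p : ℂ) - 1)‖ ≤ 3 := by
    intro z hz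
    have hz0 : z ≠ 0 := Complex.slitPlane_ne_zero (hs z hz)
    rw [mem_closedBall_iff_norm] at hz
    have hz1 := norm_bounds hz
    have e : (p : ℂ) - 1 = ((p - 1 : ℝ) : ℂ) := by push_cast; ring
    rw [norm_mul, e, Complex.norm_cpow_real, Complex.norm_real, Real.norm_eq_abs,
      abs_of_pos (by linarith)]
    have h1 : ‖z‖ ^ (p - 1) ≤ (11 / 10 : ℝ) ^ (p - 1) :=
      Real.rpow_le_rpow (norm_nonneg _) (by linarith [hz1.2]) (by linarith)
    have h2 : (11 / 10 : ℝ) ^ (p - 1) ≤ (11 / 10 : ℝ) ^ (1 : ℝ) :=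
      Real.rpow_le_rpow_of_exponent_le (by norm_num) (by linarith)
    rw [Real.rpow_one] at h2
    have h3 : 0 ≤ ‖z‖ ^ (p - 1) := Real.rpow_nonneg (norm_nonneg _) _
    nlinarith
  exact (convex_closedBall (1 : ℂ) (1 / 10)).norm_image_sub_le_of_norm_hasDerivWithin_le hd hbound
    (by rw [mem_closedBall_iff_norm]; exact hb) (by rw [mem_closedBall_iff_norm]; exact ha)

/-- dependence of `m` on `r` -/
lemma Sm.mm_sub (h : Sm N r R) (h' : Sm N r' R) {U w : ℂ} (hU : U ∈ An R) (hw : w ∈ An R) :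
    ‖mm N r U w - mm N r' U w‖ ≤ 20 * wt N (fun i => r i - r' i) R := by
  set Dl := wt N (fun i => r i - r' i) R with hDl
  have hDl0 : 0 ≤ Dl := wt_nonneg (by linarith [h.one_le])
  have hX := h.XE hU hw
  have hX' := h'.XE hU hw
  have hEd := h.EE_sub h' hU hw
  have hXd : ‖w * EE N r U w - w * EE N r' U w‖ ≤ 6 * Dl := by
    rw [← mul_sub, norm_mul]
    have := mul_le_mul (hw.1.trans h.le) hEd (norm_nonneg _) (by norm_num)
    linarith
  set X := w * EE N r U w with hXdef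
  set X' := w * EE N r' U w with hXdef'
  have hw0 := h.wt0
  have hw1 := h.wt_le
  -- q
  have dq : ‖q N r U X - q N r' U X'‖ ≤ 3 * Dl := by
    have e : q N r U X - q N r' U X' = (q N r U X - q N r U X') + (q N r U X' - q N r' U X') := by
      ring
    rw [e]
    refine (norm_add_le _ _).trans ?_
    have h1 := q_lip (N := N) (r := r) h.one_le hU hU hX hX'
    have h2 := wt_sub_le (N := N) (r := r) (r' := r') h.one_le hU hX'
    rw [sub_self, norm_zero, zero_add] at h1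
    have h3 : 2 * wt N r R * ‖X - X'‖ ≤ 6 / 1000 * (6 * Dl) :=
      mul_le_mul (by linarith) hXd (norm_nonneg _) (by norm_num)
    linarith
  have dqs : ‖qs N r U X - qs N r' U X'‖ ≤ 3 * Dl := by
    have e : qs N r U X - qs N r' U X' =
        (qs N r U X - qs N r U X') + (qs N r U X' - qs N r' U X') := by ring
    rw [e]
    refine (norm_add_le _ _).trans ?_
    have h1 := qs_lip (N := N) (r := r) h.one_le hU hU hX hX'
    have h2 := qs_sub_le (N := N) (r := r) (r' := r') h.one_le hU hX'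
    rw [sub_self, norm_zero, zero_add] at h1
    have hR4 := h.R4
    have hR40 : 0 ≤ R ^ 4 := by positivity
    have h4 : 2 * wt N r R * R ^ 4 ≤ 15 / 1000 := by nlinarith
    have h3 : 2 * wt N r R * R ^ 4 * ‖X - X'‖ ≤ 15 / 1000 * (6 * Dl) :=
      mul_le_mul h4 hXd (norm_nonneg _) (by norm_num)
    linarith
  have dchi : ‖chi N r U X - chi N r' U X'‖ ≤ 6 * Dl := by
    rw [chi_eq, chi_eq]
    have e : (X + 1) * chi0 N r U X - (X' + 1) * chi0 N r' U X' =
        (X - X') * chi0 N r U X + (X' + 1) * ((chi0 N r U X - chi0 N r U X') +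
          (chi0 N r U X' - chi0 N r' U X')) := by ring
    rw [e]
    refine (norm_add_le _ _).trans ?_
    rw [norm_mul, norm_mul]
    have h1 := chi0_le (N := N) (r := r) h.one_le hU hX
    have h2 := chi0_lip (N := N) (r := r) h.one_le hU hX hX'
    have h3 := chi0_sub_le (N := N) (r := r) (r' := r') h.one_le hU hX'
    have h4 : ‖X' + 1‖ ≤ 41 / 16 := by
      refine (norm_add_le _ _).trans ?_
      rw [norm_one]
      linarith [hX'.1, h.R2]
    have hR2 := h.R2
    have hR20 : 0 ≤ R ^ 2 := by positivity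
    have h5 : 3 * R ^ 2 * wt N r R ≤ 15 / 1000 := by nlinarith
    have h6 : 3 * R ^ 2 * wt N r R * ‖X - X'‖ ≤ 15 / 1000 * (6 * Dl) :=
      mul_le_mul h5 hXd (norm_nonneg _) (by norm_num)
    have h7 : ‖(chi0 N r U X - chi0 N r U X') + (chi0 N r U X' - chi0 N r' U X')‖ ≤ 21 / 10 * Dl := by
      refine (norm_add_le _ _).trans ?_
      linarith
    have h8 : ‖X - X'‖ * ‖chi0 N r U X‖ ≤ (6 * Dl) * (6 / 1000) :=
      mul_le_mul hXd (by linarith) (norm_nonneg _) (by linarith)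
    have h9 := mul_le_mul h4 h7 (norm_nonneg _) (by norm_num)
    linarith
  have dden : ‖den N r U w - den N r' U w‖ ≤ 12 * Dl := by
    unfold den
    rw [← hXdef, ← hXdef']
    have e : q N r U X + qs N r U X + chi N r U X - (q N r' U X' + qs N r' U X' + chi N r' U X') =
        (q N r U X - q N r' U X') + (qs N r U X - qs N r' U X') +
          (chi N r U X - chi N r' U X') := by ring
    rw [e]
    refine (norm_add_le _ _).trans ?_
    have := norm_add_le (q N r U X - q N r' U X') (qs N r U X - qs N r' U X')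
    linarith
  have b1 := (norm_bounds (h.qs1 hU hX)).2
  have b2 := (norm_bounds (h'.q1 hU hX')).2
  have b3 := (norm_bounds (h'.qs1 hU hX')).2
  have hd := h.den_norm hU hw
  have hd' := h'.den_norm hU hw
  have hd0 := h.den_ne hU hw
  have hd0' := h'.den_ne hU hw
  unfold mm
  rw [← hXdef, ← hXdef']
  set a := q N r U X
  set b := qs N r U X
  set a' := q N r' U X'
  set b' := qs N r' U X'
  set D := den N r U w
  set D' := den N r' U w
  have e : 2 * (a * b) / D - 2 * (a' * b') / D' =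
      2 * ((a - a') * b + a' * (b - b')) / D - 2 * (a' * b') * (D - D') / (D * D') := by
    field_simp
    ring
  rw [e]
  refine (norm_sub_le _ _).trans ?_
  have n2 : ‖(2 : ℂ)‖ = 2 := by simp
  have t1 : ‖2 * ((a - a') * b + a' * (b - b')) / D‖ ≤ 7 * Dl := by
    rw [norm_div, norm_mul, n2, div_le_iff₀ (by linarith)]
    have s1 : ‖(a - a') * b + a' * (b - b')‖ ≤ 3 * Dl * (101 / 100) + 101 / 100 * (3 * Dl) := by
      refine (norm_add_le _ _).trans (add_le_add ?_ ?_)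
      · rw [norm_mul]
        exact mul_le_mul dq (by linarith) (norm_nonneg _) (by linarith)
      · rw [norm_mul]
        exact mul_le_mul (by linarith) dqs (norm_nonneg _) (by norm_num)
    have := mul_le_mul_of_nonneg_left hd (show 0 ≤ 7 * Dl by linarith)
    linarith
  have t2 : ‖2 * (a' * b') * (D - D') / (D * D')‖ ≤ 13 / 2 * Dl := by
    rw [norm_div, norm_mul, norm_mul, norm_mul, norm_mul, n2,
      div_le_iff₀ (mul_pos (by linarith) (by linarith))]
    have s1 : ‖a'‖ * ‖b'‖ ≤ 1 + 13 / 1000 := by nlinarith [norm_nonneg a', norm_nonneg b']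
    have s2 : 2 * (‖a'‖ * ‖b'‖) * ‖D - D'‖ ≤ 2 * (1 + 13 / 1000) * (12 * Dl) :=
      mul_le_mul (by linarith) dden (norm_nonneg _) (by norm_num)
    have s3 : (197 / 100 : ℝ) * (197 / 100) ≤ ‖D‖ * ‖D'‖ := by nlinarith
    have := mul_le_mul_of_nonneg_left s3 (show 0 ≤ 13 / 2 * Dl by linarith)
    nlinarith
  linarith

lemma Sm.pow_bound (hp1 : 1.9 < p) (hp2 : p < 2) (h : Sm N r R) {U w : ℂ} (hU : U ∈ An R)
    (hw : w ∈ An R) : ‖mm N r U w ^ (p : ℂ) - 1‖ ≤ 27 * wt N r R := by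
  have h1 := h.mm_sub_one hU hw
  have h2 := h.mm_ball hU hw
  have h3 := cpow_lip hp1 hp2 (a := mm N r U w) (b := 1) (by linarith) (by simp)
  rw [Complex.one_cpow] at h3
  linarith

theorem Sm.MM_sub_one (hp1 : 1.9 < p) (hp2 : p < 2) (h : Sm N r R) {U w : ℂ} (hU : U ∈ An R)
    (hw : w ∈ An R) : ‖MM p N r U w - 1‖ ≤ 30 * wt N r R := by
  have h1 := h.pow_bound hp1 hp2 hU hw
  have h2 := rh_sub_one (N := N) (r := r) h.one_le hU
  have hw0 := h.wt0
  have hw1 := h.wt_le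
  unfold MM
  set a := mm N r U w ^ (p : ℂ)
  set b := rh N r U
  have e : a * b - 1 = (a - 1) * b + (b - 1) := by ring
  rw [e]
  have h3 := (norm_bounds h2).2
  have h4 : ‖(a - 1) * b‖ ≤ 27 * wt N r R * (1 + 6 / 1000) := by
    rw [norm_mul]
    exact mul_le_mul h1 (by linarith) (norm_nonneg _) (by linarith)
  refine (norm_add_le _ _).trans ?_
  linarith

/-- dependence of the kernel on `r` -/
theorem Sm.MM_sub (hp1 : 1.9 < p) (hp2 : p < 2) (h : Sm N r R) (h' : Sm N r' R) {U w : ℂ}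
    (hU : U ∈ An R) (hw : w ∈ An R) :
    ‖MM p N r U w - MM p N r' U w‖ ≤ 70 * wt N (fun i => r i - r' i) R := by
  set Dl := wt N (fun i => r i - r' i) R with hDl
  have hDl0 : 0 ≤ Dl := wt_nonneg (by linarith [h.one_le])
  have h1 := h.mm_sub h' hU hw
  have h2 := h.mm_ball hU hw
  have h2' := h'.mm_ball hU hw
  have h3 := cpow_lip hp1 hp2 (a := mm N r U w) (b := mm N r' U w) (by linarith) (by linarith)
  have h4 := rh_sub_le (N := N) (r := r) (r' := r') h.one_le hU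
  have h5 := (norm_bounds (rh_sub_one (N := N) (r := r) h.one_le hU)).2
  have h6 := (norm_bounds (h'.pow_bound hp1 hp2 hU hw)).2
  have hw1 := h.wt_le
  have hw1' := h'.wt_le
  unfold MM
  set a := mm N r U w ^ (p : ℂ)
  set a' := mm N r' U w ^ (p : ℂ)
  set b := rh N r U
  set b' := rh N r' U
  have e : a * b - a' * b' = (a - a') * b + a' * (b - b') := by ring
  rw [e]
  refine (norm_add_le _ _).trans ?_
  rw [norm_mul, norm_mul]
  have t1 : ‖a - a'‖ * ‖b‖ ≤ (60 * Dl) * (1 + 6 / 1000) :=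
    mul_le_mul (by linarith) (by linarith) (norm_nonneg _) (by linarith)
  have t2 : ‖a'‖ * ‖b - b'‖ ≤ (1 + 81 / 1000) * (2 * Dl) :=
    mul_le_mul (by linarith) h4 (norm_nonneg _) (by norm_num)
  linarith

/-! ## holomorphy -/

lemma q_diff {Ω : Set ℂ} {U X : ℂ → ℂ} (hU : DifferentiableOn ℂ U Ω)
    (hX : DifferentiableOn ℂ X Ω) (hU0 : ∀ z ∈ Ω, U z ≠ 0) (hX0 : ∀ z ∈ Ω, X z ≠ 0) :
    DifferentiableOn ℂ (fun z => q N r (U z) (X z)) Ω := by
  unfold q PP PM
  have hUi : DifferentiableOn ℂ (fun z => (U z)⁻¹) Ω := hU.inv hU0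
  have hXi : DifferentiableOn ℂ (fun z => (X z)⁻¹) Ω := hX.inv hX0
  fun_prop

lemma qs_diff {Ω : Set ℂ} {U X : ℂ → ℂ} (hU : DifferentiableOn ℂ U Ω)
    (hX : DifferentiableOn ℂ X Ω) (hU0 : ∀ z ∈ Ω, U z ≠ 0) (hX0 : ∀ z ∈ Ω, X z ≠ 0) :
    DifferentiableOn ℂ (fun z => qs N r (U z) (X z)) Ω :=
  q_diff (hU.inv hU0) (hX.inv hX0) (fun z hz => inv_ne_zero (hU0 z hz))
    (fun z hz => inv_ne_zero (hX0 z hz))

lemma chi_diff {Ω : Set ℂ} {U X : ℂ → ℂ} (hU : DifferentiableOn ℂ U Ω)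
    (hX : DifferentiableOn ℂ X Ω) (hU0 : ∀ z ∈ Ω, U z ≠ 0) (hX0 : ∀ z ∈ Ω, X z ≠ 0) :
    DifferentiableOn ℂ (fun z => chi N r (U z) (X z)) Ω := by
  unfold chi HH
  have hUi : DifferentiableOn ℂ (fun z => (U z)⁻¹) Ω := hU.inv hU0
  have hXi : DifferentiableOn ℂ (fun z => (X z)⁻¹) Ω := hX.inv hX0
  fun_prop

theorem Sm.EE_diff (h : Sm N r R) {Ω : Set ℂ} (hΩ : IsOpen Ω) {U w : ℂ → ℂ}
    (hU : DifferentiableOn ℂ U Ω) (hw : DifferentiableOn ℂ w Ω) (hUm : ∀ z ∈ Ω, U z ∈ An R)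
    (hwm : ∀ z ∈ Ω, w z ∈ An R) : DifferentiableOn ℂ (fun z => EE N r (U z) (w z)) Ω := by
  have hit : ∀ n, DifferentiableOn ℂ (fun z => it N r (U z) (w z) n) Ω := by
    intro n
    induction n with
    | zero => exact differentiableOn_const _
    | succ n ih =>
      have hX : DifferentiableOn ℂ (fun z => w z * it N r (U z) (w z) n) Ω := hw.mul ih
      have hXm : ∀ z ∈ Ω, w z * it N r (U z) (w z) n ∈ An (R ^ 2) := fun z hz =>
        mem_X h (hwm z hz) (h.it_mem (hUm z hz) (hwm z hz) n).2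
      have hU0 : ∀ z ∈ Ω, U z ≠ 0 := fun z hz => An_ne (hUm z hz)
      have hX0 : ∀ z ∈ Ω, w z * it N r (U z) (w z) n ≠ 0 := fun z hz => An_ne (hXm z hz)
      have h1 := q_diff (N := N) (r := r) hU hX hU0 hX0
      have h2 := qs_diff (N := N) (r := r) hU hX hU0 hX0
      have h3 : ∀ z ∈ Ω, q N r (U z) (w z * it N r (U z) (w z) n) ≠ 0 := by
        intro z hz
        have := (norm_bounds (h.q1 (hUm z hz) (hXm z hz))).1
        exact norm_pos_iff.1 (by linarith)
      exact h2.div h1 h3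
  have hunif : TendstoUniformlyOn (fun n z => it N r (U z) (w z) n)
      (fun z => EE N r (U z) (w z)) atTop Ω := by
    rw [Metric.tendstoUniformlyOn_iff]
    intro ε hε
    have h1 : Tendsto (fun n : ℕ => (1 / 2 : ℝ) * (1 / 2) ^ n) atTop (𝓝 0) := by
      have := (tendsto_pow_atTop_nhds_zero_of_lt_one (show (0 : ℝ) ≤ 1 / 2 by norm_num)
        (by norm_num)).const_mul (1 / 2 : ℝ)
      simpa using this
    filter_upwards [h1.eventually_lt_const hε] with n hn z hz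
    rw [dist_comm, dist_eq_norm]
    exact (h.rate (hUm z hz) (hwm z hz) n).trans_lt hn
  exact hunif.tendstoLocallyUniformlyOn.differentiableOn (Eventually.of_forall hit) hΩ

theorem Sm.MM_diff (h : Sm N r R) {Ω : Set ℂ} (hΩ : IsOpen Ω) {U w : ℂ → ℂ}
    (hU : DifferentiableOn ℂ U Ω) (hw : DifferentiableOn ℂ w Ω) (hUm : ∀ z ∈ Ω, U z ∈ An R)
    (hwm : ∀ z ∈ Ω, w z ∈ An R) : DifferentiableOn ℂ (fun z => MM p N r (U z) (w z)) Ω := by
  have hE := h.EE_diff hΩ hU hw hUm hwm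
  have hX : DifferentiableOn ℂ (fun z => w z * EE N r (U z) (w z)) Ω := hw.mul hE
  have hXm : ∀ z ∈ Ω, w z * EE N r (U z) (w z) ∈ An (R ^ 2) := fun z hz =>
    h.XE (hUm z hz) (hwm z hz)
  have hU0 : ∀ z ∈ Ω, U z ≠ 0 := fun z hz => An_ne (hUm z hz)
  have hX0 : ∀ z ∈ Ω, w z * EE N r (U z) (w z) ≠ 0 := fun z hz => An_ne (hXm z hz)
  have h1 := q_diff (N := N) (r := r) hU hX hU0 hX0
  have h2 := qs_diff (N := N) (r := r) hU hX hU0 hX0
  have h3 := chi_diff (N := N) (r := r) hU hX hU0 hX0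
  have hm : DifferentiableOn ℂ (fun z => mm N r (U z) (w z)) Ω := by
    unfold mm
    apply DifferentiableOn.div
    · exact (h1.mul h2).const_mul 2
    · exact (h1.add h2).add h3
    · exact fun z hz => h.den_ne (hUm z hz) (hwm z hz)
  have hrh : DifferentiableOn ℂ (fun z => rh N r (U z)) Ω := by
    unfold rh
    have hUi : DifferentiableOn ℂ (fun z => (U z)⁻¹) Ω := hU.inv hU0
    fun_prop
  unfold MM
  refine DifferentiableOn.mul ?_ hrh
  intro z hz
  have hs : mm N r (U z) (w z) ∈ Complex.slitPlane := by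
    have hz1 := h.mm_ball (hUm z hz) (hwm z hz)
    left
    have h4 := Complex.abs_re_le_norm (mm N r (U z) (w z) - 1)
    have h5 : (mm N r (U z) (w z) - 1).re = (mm N r (U z) (w z)).re - 1 := by simp
    rw [h5] at h4
    have := (abs_le.1 (h4.trans hz1)).1
    linarith
  exact (hm z hz).cpow_const hs

end

end Pool.Agent.H65.RM
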