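import Pool.Agent.H65.RM.Chord3

/-!
# RM module Chord4: the torus `|U| = |w| = 1`, the curve and the chord formula
-/

open Finset Filter Topology Complex

namespace Pool.Agent.H65.RM

/-- the boundary curve: `γ(θ) = (h' - i h) e^{iθ}`, `γ' = ρ e^{iθ}` -/
noncomputable def ga (N : ℕ) (r : ℕ → ℝ) (θ : ℝ) : ℂ :=
  -I * exp (I * θ) + ∑ i ∈ Icc 1 N, (r i : ℂ) *
    (-I / (2 * i + 1) * exp (I * ((2 * i + 1) * θ)) + I / (2 * i - 1) * exp (-(I * ((2 * i - 1) * θ))))

/-- curvature radius -/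
noncomputable def ro (N : ℕ) (r : ℕ → ℝ) (θ : ℝ) : ℝ :=
  1 + 2 * ∑ i ∈ Icc 1 N, r i * Real.cos (2 * i * θ)

/-- `e^{i θ}` -/
noncomputable def ex (θ : ℝ) : ℂ := exp (I * θ)

/-- `m` as a real number -/
noncomputable def mr (N : ℕ) (r : ℕ → ℝ) (α t : ℝ) : ℝ := (mm N r (ex (2 * α)) (ex (2 * t))).re

/-- end of the chord with direction `e^{i(α+t)}` starting at `γ(α)` -/
noncomputable def bb (N : ℕ) (r : ℕ → ℝ) (α t : ℝ) : ℝ :=
  α + 2 * t + arg (EE N r (ex (2 * α)) (ex (2 * t)))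

/-- length of the chord -/
noncomputable def el (N : ℕ) (r : ℕ → ℝ) (α t : ℝ) : ℝ := 2 * mr N r α t * Real.sin t

section

variable {N : ℕ} {r : ℕ → ℝ} {R : ℝ}

lemma ex_norm (θ : ℝ) : ‖ex θ‖ = 1 := by
  unfold ex
  rw [mul_comm, Complex.norm_exp_ofReal_mul_I]

lemma ex_add (a b : ℝ) : ex (a + b) = ex a * ex b := by
  unfold ex
  rw [← exp_add]
  congr 1
  push_cast
  ring

lemma ex_neg (a : ℝ) : ex (-a) = (ex a)⁻¹ := by
  unfold ex
  rw [← exp_neg]
  congr 1
  push_cast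
  ring

lemma ex_ne (a : ℝ) : ex a ≠ 0 := exp_ne_zero _

lemma ex_zero : ex 0 = 1 := by simp [ex]

lemma ex_pow (a : ℝ) (n : ℕ) : ex a ^ n = ex (n * a) := by
  unfold ex
  rw [← exp_nat_mul]
  congr 1
  push_cast
  ring

lemma ex_two_pi : ex (2 * Real.pi) = 1 := by
  unfold ex
  push_cast
  rw [mul_comm, Complex.exp_two_pi_mul_I]

lemma ex_conj (a : ℝ) : (starRingEnd ℂ) (ex a) = (ex a)⁻¹ := by
  rw [← ex_neg]
  unfold ex
  rw [← exp_conj]
  congr 1
  simp

lemma ex_mem (hR : 1 ≤ R) (a : ℝ) : ex a ∈ An R := mem_An_one hR (ex_norm a)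

lemma continuous_ex : Continuous ex := by
  unfold ex
  fun_prop

lemma hasDerivAt_ex (a : ℝ) : HasDerivAt ex (I * ex a) a := by
  have h1 : HasDerivAt (fun a : ℝ => I * (a : ℂ)) (I * 1) a :=
    (Complex.ofRealCLM.hasDerivAt (x := a)).const_mul I |>.congr_deriv (by simp)
  have h2 := h1.cexp
  unfold ex
  refine h2.congr_deriv ?_
  ring

/-! ## the torus -/

lemma conj_of_norm {z : ℂ} (h : ‖z‖ = 1) : (starRingEnd ℂ) z = z⁻¹ := by
  rw [Complex.inv_def, Complex.normSq_eq_norm_sq, h]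
  simp

lemma qs_torus {U X : ℂ} (hU : ‖U‖ = 1) (hX : ‖X‖ = 1) :
    qs N r U X = (starRingEnd ℂ) (q N r U X) := by
  rw [q_conj, conj_of_norm hU, conj_of_norm hX]
  rfl

lemma it_norm {U w : ℂ} (hU : ‖U‖ = 1) (hw : ‖w‖ = 1) (h : Sm N r R) (n : ℕ) :
    ‖it N r U w n‖ = 1 := by
  induction n with
  | zero => simp [it]
  | succ n ih =>
    show ‖gg N r U w (it N r U w n)‖ = 1
    unfold gg
    have hX : ‖w * it N r U w n‖ = 1 := by rw [norm_mul, hw, ih, one_mul]
    rw [qs_torus hU hX, norm_div, Complex.norm_conj, div_self]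
    have h1 := (norm_bounds (h.q1 (mem_An_one h.one_le hU)
      (mem_An_one (one_le_pow₀ h.one_le) hX))).1
    linarith

lemma Sm.EE_norm (h : Sm N r R) {U w : ℂ} (hU : ‖U‖ = 1) (hw : ‖w‖ = 1) : ‖EE N r U w‖ = 1 := by
  have h1 := (h.tendsto (mem_An_one h.one_le hU) (mem_An_one h.one_le hw)).norm
  have h2 : Tendsto (fun n => ‖it N r U w n‖) atTop (𝓝 1) := by
    simp only [it_norm hU hw h]
    exact tendsto_const_nhds
  exact tendsto_nhds_unique h1 h2

lemma chi_torus {U X : ℂ} (hU : ‖U‖ = 1) (hX : ‖X‖ = 1) :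
    (starRingEnd ℂ) (chi N r U X) = chi N r U X := by
  have hX0 : X ≠ 0 := norm_pos_iff.1 (by rw [hX]; norm_num)
  rw [chi_eq, map_mul, map_add, map_one, chi0_conj, conj_of_norm hU, conj_of_norm hX]
  have h1 : chi0 N r U⁻¹ X⁻¹ = X * chi0 N r U X := by
    unfold chi0
    rw [Finset.mul_sum]
    apply Finset.sum_congr rfl
    intro i _
    rw [inv_inv, inv_inv]
    field_simp
    ring
  rw [h1]
  field_simp
  ring

lemma Sm.mm_real (h : Sm N r R) {U w : ℂ} (hU : ‖U‖ = 1) (hw : ‖w‖ = 1) :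
    mm N r U w = ((mm N r U w).re : ℂ) := by
  have hE := h.EE_norm hU hw
  have hX : ‖w * EE N r U w‖ = 1 := by rw [norm_mul, hw, hE, one_mul]
  have h1 : (starRingEnd ℂ) (mm N r U w) = mm N r U w := by
    unfold mm den
    rw [qs_torus hU hX]
    have h2 := chi_torus (N := N) (r := r) hU hX
    rw [map_div₀, map_mul, map_mul, map_add, map_add, Complex.conj_conj, h2, map_ofNat]
    congr 1 <;> ring
  exact (Complex.conj_eq_iff_re.1 h1).symm

lemma Sm.mr_eq (h : Sm N r R) (α t : ℝ) :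
    mm N r (ex (2 * α)) (ex (2 * t)) = (mr N r α t : ℂ) :=
  h.mm_real (ex_norm _) (ex_norm _)

lemma Sm.mr_bounds (h : Sm N r R) (α t : ℝ) : 97 / 100 ≤ mr N r α t ∧ mr N r α t ≤ 103 / 100 := by
  have h1 := h.mm_ball (ex_mem h.one_le (2 * α)) (ex_mem h.one_le (2 * t))
  rw [h.mr_eq] at h1
  have h2 : ((mr N r α t : ℂ)) - 1 = ((mr N r α t - 1 : ℝ) : ℂ) := by push_cast; ring
  rw [h2, Complex.norm_real, Real.norm_eq_abs, abs_le] at h1
  constructor <;> linarith [h1.1, h1.2]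

lemma Sm.ex_bb (h : Sm N r R) (α t : ℝ) :
    ex (bb N r α t) = ex α * (ex (2 * t) * EE N r (ex (2 * α)) (ex (2 * t))) := by
  unfold bb
  rw [ex_add, ex_add, mul_assoc]
  congr 2
  have h1 := h.EE_norm (ex_norm (2 * α)) (ex_norm (2 * t))
  have h2 := Complex.norm_mul_exp_arg_mul_I (EE N r (ex (2 * α)) (ex (2 * t)))
  rw [h1] at h2
  unfold ex at h2 ⊢
  rw [mul_comm I]
  simpa using h2

/-- closed formula for the chords -/
lemma ga_sub (α b : ℝ) : ga N r b - ga N r α =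
    -I * ex α * (ex (b - α) - 1) * q N r (ex (2 * α)) (ex (b - α)) := by
  have hgeo : ∀ (i : ℕ), 1 ≤ i → ∀ u x : ℂ, u ≠ 0 → x ≠ 0 →
      (-I / (2 * i + 1) * ((u * x) ^ (2 * i + 1)) + I / (2 * i - 1) * ((u * x)⁻¹ ^ (2 * i - 1))) -
      (-I / (2 * i + 1) * (u ^ (2 * i + 1)) + I / (2 * i - 1) * (u⁻¹ ^ (2 * i - 1))) =
      -I * u * (x - 1) * ((u ^ 2) ^ i * PP i x + ((u ^ 2)⁻¹) ^ i * PM i x⁻¹) := by
    intro i hi u x hu hx
    have g1 : (x - 1) * ∑ j ∈ range (2 * i + 1), x ^ j = x ^ (2 * i + 1) - 1 := by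
      rw [mul_comm]; exact geom_sum_mul x (2 * i + 1)
    have g2 : (x - 1) * ∑ j ∈ range (2 * i - 1), x⁻¹ ^ (j + 1) = 1 - x⁻¹ ^ (2 * i - 1) := by
      have g3 := geom_sum_mul x⁻¹ (2 * i - 1)
      have g4 : ∑ j ∈ range (2 * i - 1), x⁻¹ ^ (j + 1) =
          (∑ j ∈ range (2 * i - 1), x⁻¹ ^ j) * x⁻¹ := by
        rw [Finset.sum_mul]
        apply Finset.sum_congr rfl
        intro j _
        rw [pow_succ]
      rw [g4]
      have g5 : (x - 1) * ((∑ j ∈ range (2 * i - 1), x⁻¹ ^ j) * x⁻¹) =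
          -((∑ j ∈ range (2 * i - 1), x⁻¹ ^ j) * (x⁻¹ - 1)) := by
        field_simp
        ring
      rw [g5, g3]
      ring
    have hne1 : (2 * (i : ℂ) + 1) ≠ 0 := by
      intro h0
      have := norm_two_add i
      rw [h0, norm_zero] at this
      have : (0 : ℝ) < 2 * i + 1 := by positivity
      linarith
    have hne2 : (2 * (i : ℂ) - 1) ≠ 0 := by
      intro h0
      have := norm_two_sub hi
      rw [h0, norm_zero] at this
      have := two_i_pos hi
      linarith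
    have e1 : -I * u * (x - 1) * ((u ^ 2) ^ i * PP i x + ((u ^ 2)⁻¹) ^ i * PM i x⁻¹) =
        -I * (u * (u ^ 2) ^ i) / (2 * i + 1) * ((x - 1) * ∑ j ∈ range (2 * i + 1), x ^ j) +
        -I * (u * ((u ^ 2)⁻¹) ^ i) / (2 * i - 1) *
          ((x - 1) * ∑ j ∈ range (2 * i - 1), x⁻¹ ^ (j + 1)) := by
      unfold PP PM
      ring
    rw [e1, g1, g2]
    have e2 : u * (u ^ 2) ^ i = u ^ (2 * i + 1) := by rw [← pow_mul, pow_succ]; ring
    have e3 : u * ((u ^ 2)⁻¹) ^ i = u⁻¹ ^ (2 * i - 1) := by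
      obtain ⟨n, hn⟩ : ∃ n, 2 * i = n + 1 := ⟨2 * i - 1, by omega⟩
      have e4 : ((u ^ 2)⁻¹) ^ i = u⁻¹ ^ (2 * i) := by rw [← inv_pow, ← pow_mul]
      rw [e4, hn, Nat.add_sub_cancel, pow_succ]
      field_simp
    rw [e2, e3, mul_pow, mul_inv, mul_pow]
    ring
  have hx : ex b = ex α * ex (b - α) := by rw [← ex_add]; congr 1; ring
  have hga : ∀ θ : ℝ, ga N r θ = -I * ex θ + ∑ i ∈ Icc 1 N, (r i : ℂ) *
      (-I / (2 * i + 1) * (ex θ ^ (2 * i + 1)) + I / (2 * i - 1) * ((ex θ)⁻¹ ^ (2 * i - 1))) := by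
    intro θ
    unfold ga
    congr 1
    apply Finset.sum_congr rfl
    intro i hi
    have hi1 := (Finset.mem_Icc.1 hi).1
    have e1 : ex θ ^ (2 * i + 1) = exp (I * ((2 * i + 1) * θ)) := by
      rw [ex_pow]
      unfold ex
      push_cast
      rfl
    have e2 : (ex θ)⁻¹ ^ (2 * i - 1) = exp (-(I * ((2 * i - 1) * θ))) := by
      rw [← ex_neg, ex_pow, Nat.cast_sub (by omega)]
      unfold ex
      push_cast
      congr 1
      ring
    rw [e1, e2]
  rw [hga, hga, hx]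
  unfold q
  have hUU : ex (2 * α) = ex α ^ 2 := by rw [ex_pow]; norm_num
  rw [hUU]
  have hsum : ∑ i ∈ Icc 1 N, (r i : ℂ) * (-I / (2 * i + 1) * ((ex α * ex (b - α)) ^ (2 * i + 1)) +
        I / (2 * i - 1) * ((ex α * ex (b - α))⁻¹ ^ (2 * i - 1))) -
      ∑ i ∈ Icc 1 N, (r i : ℂ) * (-I / (2 * i + 1) * (ex α ^ (2 * i + 1)) +
        I / (2 * i - 1) * ((ex α)⁻¹ ^ (2 * i - 1))) =
      -I * ex α * (ex (b - α) - 1) * ∑ i ∈ Icc 1 N, (r i : ℂ) *
        ((ex α ^ 2) ^ i * PP i (ex (b - α)) + ((ex α ^ 2)⁻¹) ^ i * PM i (ex (b - α))⁻¹) := by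
    rw [← Finset.sum_sub_distrib, Finset.mul_sum]
    apply Finset.sum_congr rfl
    intro i hi
    rw [← mul_sub, hgeo i (Finset.mem_Icc.1 hi).1 _ _ (ex_ne _) (ex_ne _)]
    ring
  calc _ = (-I * (ex α * ex (b - α)) + I * ex α) + (∑ i ∈ Icc 1 N, (r i : ℂ) *
        (-I / (2 * i + 1) * ((ex α * ex (b - α)) ^ (2 * i + 1)) +
        I / (2 * i - 1) * ((ex α * ex (b - α))⁻¹ ^ (2 * i - 1))) -
      ∑ i ∈ Icc 1 N, (r i : ℂ) * (-I / (2 * i + 1) * (ex α ^ (2 * i + 1)) +
        I / (2 * i - 1) * ((ex α)⁻¹ ^ (2 * i - 1)))) := by ring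
    _ = _ := by rw [hsum]; ring

/-- CHORD FORMULA -/
theorem Sm.chord (h : Sm N r R) (α t : ℝ) :
    ga N r (bb N r α t) - ga N r α = (el N r α t : ℂ) * ex (α + t) := by
  have h1 : ex (bb N r α t - α) = ex (2 * t) * EE N r (ex (2 * α)) (ex (2 * t)) := by
    have := h.ex_bb α t
    have e : ex (bb N r α t) = ex α * ex (bb N r α t - α) := by rw [← ex_add]; congr 1; ring
    rw [e] at this
    exact mul_left_cancel₀ (ex_ne α) this
  rw [ga_sub, h1]
  have h2 := h.mm_identity (ex_mem h.one_le (2 * α)) (ex_mem h.one_le (2 * t))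
  rw [h.mr_eq] at h2
  set X := ex (2 * t) * EE N r (ex (2 * α)) (ex (2 * t))
  have h3 : -I * ex α * (X - 1) * q N r (ex (2 * α)) X =
      -I * ex α * ((ex (2 * t) - 1) * (mr N r α t : ℂ)) := by rw [h2]; ring
  rw [h3]
  unfold el
  have h4 : ex (2 * t) - 1 = ex t * (2 * I * Real.sin t) := by
    have e1 : ex (2 * t) = ex t * ex t := by rw [← ex_add]; congr 1; ring
    have e2 : ex t * ex (-t) = 1 := by rw [← ex_add]; simp [ex_zero]
    have e3 : (2 * I * (Real.sin t : ℂ)) = ex t - ex (-t) := by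
      unfold ex
      rw [Complex.ofReal_sin, Complex.sin]
      push_cast
      have : (I : ℂ) * I = -1 := Complex.I_mul_I
      rw [show (-(t : ℂ) * I) = I * -(t : ℂ) by ring, show ((t : ℂ) * I) = I * (t : ℂ) by ring]
      ring_nf
      rw [show (I : ℂ) ^ 2 = -1 from Complex.I_sq]
      ring
    rw [e3, e1, mul_sub, e2]
  rw [h4, ex_add]
  push_cast
  have hI : (I : ℂ) * I = -1 := Complex.I_mul_I
  calc _ = -(I * I) * (2 * (mr N r α t : ℂ) * (Complex.sin t)) * (ex α * ex t) := by ring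
    _ = _ := by rw [hI]; ring

lemma Sm.bb_zero (h : Sm N r R) (α : ℝ) : bb N r α 0 = α := by
  unfold bb
  rw [mul_zero, ex_zero, h.EE_one (ex_mem h.one_le _), arg_one]
  ring

lemma Sm.bb_pi (h : Sm N r R) (α : ℝ) : bb N r α Real.pi = α + 2 * Real.pi := by
  unfold bb
  rw [ex_two_pi, h.EE_one (ex_mem h.one_le _), arg_one]
  ring

/-! ## derivatives -/

lemma hasDerivAt_ga (θ : ℝ) : HasDerivAt (ga N r) (ro N r θ * ex θ) θ := by
  have hexp : ∀ c : ℂ, HasDerivAt (fun θ : ℝ => exp (c * θ)) (c * exp (c * θ)) θ := by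
    intro c
    have h1 : HasDerivAt (fun a : ℝ => c * (a : ℂ)) (c * 1) θ :=
      (Complex.ofRealCLM.hasDerivAt (x := θ)).const_mul c |>.congr_deriv (by simp)
    refine h1.cexp.congr_deriv ?_
    ring
  have hterm : ∀ i ∈ Icc 1 N, HasDerivAt (fun θ : ℝ => (r i : ℂ) *
      (-I / (2 * i + 1) * exp (I * ((2 * i + 1) * θ)) + I / (2 * i - 1) * exp (-(I * ((2 * i - 1) * θ)))))
      ((r i : ℂ) * (exp (I * ((2 * i + 1) * θ)) + exp (-(I * ((2 * i - 1) * θ))))) θ := by
    intro i hi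
    have hi1 := (Finset.mem_Icc.1 hi).1
    have hne1 : (2 * (i : ℂ) + 1) ≠ 0 := by
      intro h0
      have := norm_two_add i
      rw [h0, norm_zero] at this
      have : (0 : ℝ) < 2 * i + 1 := by positivity
      linarith
    have hne2 : (2 * (i : ℂ) - 1) ≠ 0 := by
      intro h0
      have := norm_two_sub hi1
      rw [h0, norm_zero] at this
      have := two_i_pos hi1
      linarith
    have h1 := (hexp (I * (2 * i + 1))).const_mul (-I / (2 * (i : ℂ) + 1))
    have h2 := (hexp (-(I * (2 * i - 1)))).const_mul (I / (2 * (i : ℂ) - 1))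
    have h3 := (h1.add h2).const_mul (r i : ℂ)
    have e1 : ∀ θ : ℝ, exp (I * (2 * i + 1) * θ) = exp (I * ((2 * i + 1) * θ)) := by
      intro θ; congr 1; ring
    have e2 : ∀ θ : ℝ, exp (-(I * (2 * i - 1)) * θ) = exp (-(I * ((2 * i - 1) * θ))) := by
      intro θ; congr 1; ring
    simp only [e1, e2] at h3
    refine h3.congr_deriv ?_
    have hI : (I : ℂ) * I = -1 := Complex.I_mul_I
    field_simp
    rw [show (I : ℂ) ^ 2 = -1 from Complex.I_sq]
    ring
  have hsum := HasDerivAt.fun_sum hterm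
  have h0 := (hexp I).const_mul (-I)
  have h1 := h0.add hsum
  refine h1.congr_deriv ?_
  unfold ro ex
  have hI : (I : ℂ) * I = -1 := Complex.I_mul_I
  have e0 : -I * (I * exp (I * θ)) = exp (I * θ) := by
    calc _ = -(I * I) * exp (I * θ) := by ring
      _ = _ := by rw [hI]; ring
  rw [e0]
  push_cast
  rw [add_mul, one_mul, mul_assoc, Finset.sum_mul, Finset.mul_sum]
  congr 1
  apply Finset.sum_congr rfl
  intro i _
  rw [Complex.cos]
  have a1 : exp (I * ((2 * i + 1) * (θ : ℂ))) = exp (2 * i * θ * I) * exp (I * θ) := by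
    rw [← exp_add]; congr 1; ring
  have a2 : exp (-(I * ((2 * i - 1) * (θ : ℂ)))) = exp (-(2 * i * θ) * I) * exp (I * θ) := by
    rw [← exp_add]; congr 1; ring
  rw [a1, a2]
  ring

lemma continuous_ga : Continuous (ga N r) :=
  continuous_iff_continuousAt.2 fun θ => (hasDerivAt_ga θ).continuousAt

lemma continuous_ro : Continuous (ro N r) := by
  unfold ro
  fun_prop

lemma ga_periodic (θ : ℝ) : ga N r (θ + 2 * Real.pi) = ga N r θ := by
  have h := ga_sub (N := N) (r := r) θ (θ + 2 * Real.pi)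
  have e : ex (θ + 2 * Real.pi - θ) = 1 := by
    rw [show θ + 2 * Real.pi - θ = 2 * Real.pi by ring]; exact ex_two_pi
  rw [e, sub_self, mul_zero, zero_mul] at h
  exact sub_eq_zero.1 h

/-- the half turn -/
lemma ga_half (θ : ℝ) : ga N r (θ + Real.pi) = -ga N r θ := by
  unfold ga
  have hpi : exp (I * ((θ + Real.pi : ℝ) : ℂ)) = -exp (I * θ) := by
    have : (I * ((θ + Real.pi : ℝ) : ℂ)) = I * θ + Real.pi * I := by push_cast; ring
    rw [this, exp_add, exp_pi_mul_I]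
    ring
  rw [hpi, neg_add, ← Finset.sum_neg_distrib]
  congr 1
  · ring
  apply Finset.sum_congr rfl
  intro i _
  have e1 : exp (I * ((2 * i + 1) * ((θ + Real.pi : ℝ) : ℂ))) = -exp (I * ((2 * i + 1) * θ)) := by
    have : (I * ((2 * i + 1) * ((θ + Real.pi : ℝ) : ℂ))) =
        I * ((2 * i + 1) * θ) + (Real.pi * I + (i : ℂ) * (2 * Real.pi * I)) := by push_cast; ring
    rw [this, exp_add, exp_add, exp_pi_mul_I, Complex.exp_nat_mul_two_pi_mul_I]
    ring
  have e2 : exp (-(I * ((2 * i - 1) * ((θ + Real.pi : ℝ) : ℂ)))) =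
      -exp (-(I * ((2 * i - 1) * θ))) := by
    have : (-(I * ((2 * i - 1) * ((θ + Real.pi : ℝ) : ℂ)))) =
        -(I * ((2 * i - 1) * θ)) + (Real.pi * I - (i : ℂ) * (2 * Real.pi * I)) := by push_cast; ring
    rw [this, exp_add, exp_sub, exp_pi_mul_I, Complex.exp_nat_mul_two_pi_mul_I]
    ring
  rw [e1, e2]
  ring

/-- `b` is continuously differentiable in `t` and `b_t Im(conj Z γ'(b)) = ℓ²` -/
theorem Sm.bb_deriv (h : Sm N r R) (hR : 1 < R) (α : ℝ) : ∃ b' : ℝ → ℝ, Continuous b' ∧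
    (∀ t, HasDerivAt (bb N r α) (b' t) t) ∧
    ∀ t, b' t * ((starRingEnd ℂ) (ga N r (bb N r α t) - ga N r α) *
      (ro N r (bb N r α t) * ex (bb N r α t))).im = el N r α t ^ 2 := by
  -- holomorphic function on the open annulus
  set Ω : Set ℂ := {z | ‖z‖ < R ∧ 1 < R * ‖z‖} with hΩ
  have hΩo : IsOpen Ω := by
    have h1 : IsOpen {z : ℂ | ‖z‖ < R} := isOpen_lt (by fun_prop) continuous_const
    have h2 : IsOpen {z : ℂ | 1 < R * ‖z‖} := isOpen_lt continuous_const (by fun_prop)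
    exact h1.inter h2
  have hΩA : ∀ z ∈ Ω, z ∈ An R := fun z hz => ⟨hz.1.le, hz.2.le⟩
  have hex : ∀ t : ℝ, ex t ∈ Ω := by
    intro t
    refine ⟨?_, ?_⟩ <;> rw [ex_norm] <;> linarith
  set F : ℂ → ℂ := fun z => EE N r (ex (2 * α)) z with hF
  have hFd : DifferentiableOn ℂ F Ω :=
    h.EE_diff hΩo (differentiableOn_const _) differentiableOn_id
      (fun z _ => ex_mem h.one_le _) hΩA
  have hFs : ∀ z ∈ Ω, F z ∈ slitPlane := by
    intro z hz
    have h1 := (h.EE_mem (ex_mem h.one_le (2 * α)) (hΩA z hz)).1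
    left
    have h4 := Complex.abs_re_le_norm (F z - 1)
    have h5 : (F z - 1).re = (F z).re - 1 := by simp
    rw [h5] at h4
    have := (abs_le.1 (h4.trans h1)).1
    linarith
  set G : ℂ → ℂ := fun z => log (F z) with hG
  have hGd : DifferentiableOn ℂ G Ω := fun z hz =>
    ((hFd z hz).clog (hFs z hz))
  have hGa : ∀ z ∈ Ω, HasDerivAt G (deriv G z) z := fun z hz =>
    ((hGd z hz).differentiableAt (hΩo.mem_nhds hz)).hasDerivAt
  have hG' : ContinuousOn (deriv G) Ω := (hGd.deriv hΩo).continuousOn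
  have hex2 : ∀ t : ℝ, HasDerivAt (fun t : ℝ => ex (2 * t)) (2 * I * ex (2 * t)) t := by
    intro t
    have h1 := (hasDerivAt_ex (2 * t)).scomp t ((hasDerivAt_id t).const_mul (2 : ℝ))
    refine h1.congr_deriv ?_
    simp only [mul_one, Complex.real_smul]
    push_cast
    ring
  set b' : ℝ → ℝ := fun t => 2 + (deriv G (ex (2 * t)) * (2 * I * ex (2 * t))).im with hb'
  have hb'c : Continuous b' := by
    have h1 : Continuous fun t : ℝ => ex (2 * t) := continuous_ex.comp (by fun_prop)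
    have h2 : Continuous fun t : ℝ => deriv G (ex (2 * t)) :=
      hG'.comp_continuous h1 (fun t => hex _)
    rw [hb']
    fun_prop
  have hbd : ∀ t, HasDerivAt (bb N r α) (b' t) t := by
    intro t
    have h1 : HasDerivAt (fun t : ℝ => G (ex (2 * t))) (deriv G (ex (2 * t)) *
        (2 * I * ex (2 * t))) t := by
      have := (hGa _ (hex (2 * t))).scomp_of_eq t (hex2 t) rfl
      refine this.congr_deriv ?_
      rw [smul_eq_mul]
      ring
    have h2 : HasDerivAt (fun t : ℝ => (G (ex (2 * t))).im)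
        ((deriv G (ex (2 * t)) * (2 * I * ex (2 * t))).im) t :=
      Complex.imCLM.hasFDerivAt.comp_hasDerivAt t h1
    have h3 : HasDerivAt (fun t : ℝ => α + 2 * t) 2 t := by
      have := ((hasDerivAt_id t).const_mul (2 : ℝ)).const_add α
      simpa using this
    have h4 := h3.add h2
    have e : (bb N r α) = fun t => (α + 2 * t) + (G (ex (2 * t))).im := by
      funext t
      unfold bb
      simp only [hG, hF, Complex.log_im]
    rw [e]
    exact h4
  refine ⟨b', hb'c, hbd, ?_⟩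
  intro t
  -- differentiate the chord formula
  set Z : ℂ := ga N r (bb N r α t) - ga N r α with hZ
  have hZe : Z = (el N r α t : ℂ) * ex (α + t) := h.chord α t
  have hd1 : HasDerivAt (fun t => ga N r (bb N r α t) - ga N r α)
      ((b' t : ℂ) * (ro N r (bb N r α t) * ex (bb N r α t))) t := by
    have h1 := (hasDerivAt_ga (N := N) (r := r) (bb N r α t)).scomp t (hbd t)
    have h2 := h1.sub_const (ga N r α)
    refine h2.congr_deriv ?_
    rw [Complex.real_smul]
  -- the quotient by ex (α + t) is real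
  have hq : ∀ s : ℝ, (ga N r (bb N r α s) - ga N r α) * ex (-(α + s)) = (el N r α s : ℂ) := by
    intro s
    rw [h.chord α s, mul_assoc, ← ex_add]
    simp [ex_zero]
  have hd2 : HasDerivAt (fun s : ℝ => ex (-(α + s))) (-(I * ex (-(α + t)))) t := by
    have h1 : HasDerivAt (fun s : ℝ => -(α + s)) (-1) t := by
      exact ((hasDerivAt_id t).const_add α).neg
    have h2 := (hasDerivAt_ex (-(α + t))).scomp t h1
    refine h2.congr_deriv ?_
    rw [Complex.real_smul]
    push_cast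
    ring
  have hd3 := hd1.mul hd2
  have hd4 : HasDerivAt (fun s : ℝ => (((ga N r (bb N r α s) - ga N r α) * ex (-(α + s)))).im)
      ((((b' t : ℂ) * (ro N r (bb N r α t) * ex (bb N r α t))) * ex (-(α + t)) +
        (ga N r (bb N r α t) - ga N r α) * (-(I * ex (-(α + t))))).im) t :=
    Complex.imCLM.hasFDerivAt.comp_hasDerivAt t hd3
  have hconst : (fun s : ℝ => (((ga N r (bb N r α s) - ga N r α) * ex (-(α + s)))).im) =
      fun _ => (0 : ℝ) := by
    funext s
    rw [hq s, Complex.ofReal_im]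
  rw [hconst] at hd4
  have hzero := hd4.unique (hasDerivAt_const t (0 : ℝ))
  rw [← hZ, hZe] at hzero
  have e1 : ((el N r α t : ℂ) * ex (α + t)) * (-(I * ex (-(α + t)))) = -(el N r α t : ℂ) * I := by
    have : ex (α + t) * ex (-(α + t)) = 1 := by rw [← ex_add]; simp [ex_zero]
    calc _ = -(el N r α t : ℂ) * I * (ex (α + t) * ex (-(α + t))) := by ring
      _ = _ := by rw [this]; ring
  rw [e1, Complex.add_im] at hzero
  have e2 : (-(el N r α t : ℂ) * I).im = -el N r α t := by simp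
  rw [e2] at hzero
  have e3 : (((b' t : ℂ) * (ro N r (bb N r α t) * ex (bb N r α t))) * ex (-(α + t))).im =
      b' t * ((ro N r (bb N r α t) * ex (bb N r α t)) * ex (-(α + t))).im := by
    rw [mul_assoc, Complex.im_ofReal_mul]
  rw [e3] at hzero
  have e4 : (starRingEnd ℂ) Z * (ro N r (bb N r α t) * ex (bb N r α t)) =
      (el N r α t : ℂ) * ((ro N r (bb N r α t) * ex (bb N r α t)) * ex (-(α + t))) := by
    rw [hZe, map_mul, Complex.conj_ofReal, ex_conj, ← ex_neg]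
    ring
  rw [e4]
  have e5 : ((el N r α t : ℂ) * ((ro N r (bb N r α t) * ex (bb N r α t)) * ex (-(α + t)))).im =
      el N r α t * ((ro N r (bb N r α t) * ex (bb N r α t)) * ex (-(α + t))).im := by
    rw [Complex.im_ofReal_mul]
  rw [e5]
  have : b' t * ((ro N r (bb N r α t) * ex (bb N r α t)) * ex (-(α + t))).im = el N r α t := by
    linarith
  calc _ = el N r α t * (b' t * ((ro N r (bb N r α t) * ex (bb N r α t)) * ex (-(α + t))).im) := by
        ring
    _ = _ := by rw [this]; ring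

end

end Pool.Agent.H65.RM
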