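import Pool.Agent.H65.RM.Base4

/-!
# RM module Eq1: dependence of `D_{K,n}` on the body (paper, (7a), (7b))
-/

open Finset Filter Topology

namespace Pool.Agent.H65.RM

/-- truncation: the modes `2` and `1, ..., k` -/
def tr (r : ℕ → ℝ) (k : ℕ) : ℕ → ℝ := fun i => if i = 2 ∨ (1 ≤ i ∧ i ≤ k) then r i else 0

/-- the kernel of the error terms -/
noncomputable def WW (J : ℕ) (K n : ℤ) : ℝ :=
  ∑ i ∈ Icc 1 J, 1 / (i : ℝ) ^ 5 * Real.exp (-|((K - n : ℤ) : ℝ)| / (40 * i))

section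

variable {p : ℝ} {N J : ℕ} {r : ℕ → ℝ} {B : ℝ}

lemma tr_zero (r : ℕ → ℝ) : tr r 0 = rb (r 2) := by
  funext i
  unfold tr rb
  by_cases h : i = 2
  · subst h
    simp
  · rw [if_neg (by omega), if_neg h]

lemma wt_tr_le (r : ℕ → ℝ) (k : ℕ) : wt N (tr r k) 1 ≤ wt N r 1 := by
  unfold wt tr
  apply Finset.sum_le_sum
  intro i _
  rw [one_pow, mul_one, mul_one]
  split_ifs
  · exact le_rfl
  · simp only [abs_zero, mul_zero]
    positivity

lemma tr_succ_sub (r : ℕ → ℝ) (k : ℕ) : (fun i => tr r (k + 1) i - tr r k i) =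
    fun i => if i = k + 1 ∧ i ≠ 2 then r i else 0 := by
  funext i
  unfold tr
  by_cases h2 : i = 2
  · rw [if_pos (Or.inl h2), if_pos (Or.inl h2), if_neg (fun h => h.2 h2), sub_self]
  · by_cases h1 : i = k + 1
    · rw [if_pos (Or.inr ⟨by omega, by omega⟩), if_neg (by omega), if_pos ⟨h1, h2⟩, sub_zero]
    · by_cases h3 : 1 ≤ i ∧ i ≤ k
      · rw [if_pos (Or.inr ⟨h3.1, by omega⟩), if_pos (Or.inr h3), if_neg (fun h => h1 h.1), sub_self]
      · rw [if_neg (by omega), if_neg (by omega), if_neg (fun h => h1 h.1), sub_self]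

lemma wt_step (hB : 0 ≤ B) (hA : ∀ i : ℕ, 1 ≤ i → i ≠ 2 → |r i| ≤ B / (i : ℝ) ^ 10) (k : ℕ) :
    wt N (fun i => tr r (k + 1) i - tr r k i) 1 ≤ B / ((k : ℝ) + 1) ^ 9 := by
  rw [tr_succ_sub]
  have hk : (0 : ℝ) < (k : ℝ) + 1 := by positivity
  unfold wt
  have h1 : ∀ i ∈ Icc 1 N, (i : ℝ) * |if i = k + 1 ∧ i ≠ 2 then r i else 0| * 1 ^ (5 * i) ≤
      if i = k + 1 then B / ((k : ℝ) + 1) ^ 9 else 0 := by
    intro i hi
    have hi1 := (Finset.mem_Icc.1 hi).1
    rw [one_pow, mul_one]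
    by_cases h : i = k + 1
    · rw [if_pos h]
      by_cases h2 : i = 2
      · rw [if_neg (fun h' => h'.2 h2)]
        simp only [abs_zero, mul_zero]
        positivity
      · rw [if_pos ⟨h, h2⟩]
        have h3 := hA i hi1 h2
        have hi0 : (i : ℝ) = (k : ℝ) + 1 := by rw [h]; push_cast; ring
        rw [hi0] at h3 ⊢
        calc ((k : ℝ) + 1) * |r i| ≤ ((k : ℝ) + 1) * (B / ((k : ℝ) + 1) ^ 10) :=
              mul_le_mul_of_nonneg_left h3 hk.le
          _ = _ := by field_simp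
    · rw [if_neg (fun h' => h h'.1), if_neg h]
      simp
  refine (Finset.sum_le_sum h1).trans ?_
  rw [Finset.sum_ite_eq']
  split_ifs
  · exact le_rfl
  · positivity

/-- one step -/
lemma KT_step (hp1 : 1.9 < p) (hp2 : p < 2) (hs : wt N r 1 ≤ 1 / 1000) (hB : 0 ≤ B)
    (hA : ∀ i : ℕ, 1 ≤ i → i ≠ 2 → |r i| ≤ B / (i : ℝ) ^ 10) (k : ℕ) (m j : ℤ) :
    ‖fc (MM p N (tr r (k + 1))) m j - fc (MM p N (tr r k)) m j‖ ≤
      210 * (B / ((k : ℝ) + 1) ^ 9) * Real.exp (-(|(m : ℝ)| + |(j : ℝ)|) / (40 * ((k : ℝ) + 1))) := by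
  have h1 := KT (p := p) (N := N) (J := max (k + 1) 2) (r := tr r (k + 1)) (r' := tr r k) hp1 hp2
    (by omega) (fun i hi => by
      unfold tr
      rw [if_neg]
      have := le_max_left (k + 1) 2
      have := le_max_right (k + 1) 2
      omega) (fun i hi => by
      unfold tr
      rw [if_neg]
      have := le_max_left (k + 1) 2
      have := le_max_right (k + 1) 2
      omega) ((wt_tr_le r _).trans hs) ((wt_tr_le r _).trans hs) m j
  refine h1.trans ?_
  have h2 := wt_step (N := N) hB hA k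
  have hk : (0 : ℝ) < (k : ℝ) + 1 := by positivity
  have h3 : Real.exp (-(|(m : ℝ)| + |(j : ℝ)|) / (20 * ((max (k + 1) 2 : ℕ) : ℝ))) ≤
      Real.exp (-(|(m : ℝ)| + |(j : ℝ)|) / (40 * ((k : ℝ) + 1))) := by
    apply Real.exp_le_exp.2
    rw [neg_div, neg_div, neg_le_neg_iff]
    apply div_le_div_of_nonneg_left (by positivity)
    · have : 0 < max (k + 1) 2 := by omega
      positivity
    · have h4 : ((max (k + 1) 2 : ℕ) : ℝ) ≤ 2 * ((k : ℝ) + 1) := by
        have : max (k + 1) 2 ≤ 2 * (k + 1) := by omega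
        exact_mod_cast this
      linarith
  apply mul_le_mul _ h3 (Real.exp_pos _).le (by positivity)
  exact mul_le_mul_of_nonneg_left h2 (by norm_num)

/-- (7a) -/
theorem fc_tel (hp1 : 1.9 < p) (hp2 : p < 2) (hs : wt N r 1 ≤ 1 / 1000) (hB : 0 ≤ B)
    (hA : ∀ i : ℕ, 1 ≤ i → i ≠ 2 → |r i| ≤ B / (i : ℝ) ^ 10) (k : ℕ) (m j : ℤ) :
    ‖fc (MM p N (tr r k)) m j - fc (MM p N (rb (r 2))) m j‖ ≤
      ∑ i ∈ Icc 1 k, 210 * (B / (i : ℝ) ^ 9) * Real.exp (-(|(m : ℝ)| + |(j : ℝ)|) / (40 * i)) := by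
  induction k with
  | zero =>
    rw [tr_zero]
    simp
  | succ k ih =>
    rw [Finset.sum_Icc_succ_top (by omega)]
    have h1 := KT_step (N := N) hp1 hp2 hs hB hA k m j
    have e : fc (MM p N (tr r (k + 1))) m j - fc (MM p N (rb (r 2))) m j =
        (fc (MM p N (tr r k)) m j - fc (MM p N (rb (r 2))) m j) +
        (fc (MM p N (tr r (k + 1))) m j - fc (MM p N (tr r k)) m j) := by ring
    rw [e]
    refine (norm_add_le _ _).trans (add_le_add ih ?_)
    refine h1.trans (le_of_eq ?_)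
    push_cast
    ring

lemma fc_congr_r {r r' : ℕ → ℝ} (h : ∀ i ∈ Icc 1 N, r i = r' i) (p : ℝ) :
    MM p N r = MM p N r' := by
  have hq : ∀ U X, q N r U X = q N r' U X := by
    intro U X
    unfold q
    congr 1
    exact Finset.sum_congr rfl fun i hi => by rw [h i hi]
  have hqs : ∀ U X, qs N r U X = qs N r' U X := fun U X => hq _ _
  have hchi : ∀ U X, chi N r U X = chi N r' U X := by
    intro U X
    unfold chi
    congr 1
    exact Finset.sum_congr rfl fun i hi => by rw [h i hi]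
  have hit : ∀ U w n, it N r U w n = it N r' U w n := by
    intro U w n
    induction n with
    | zero => rfl
    | succ n ih =>
      show gg N r U w (it N r U w n) = gg N r' U w (it N r' U w n)
      unfold gg
      rw [ih, hq, hqs]
  have hE : ∀ U w, EE N r U w = EE N r' U w := by
    intro U w
    unfold EE
    congr 1
    funext n
    exact hit U w n
  funext U w
  unfold MM mm den rh
  simp only [hq, hqs, hchi, hE]
  congr 2
  exact Finset.sum_congr rfl fun i hi => by rw [h i hi]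

/-- summability of the series defining `D` -/
lemma DD_summable {R : ℝ} (h : Sm N r R) (hR : 1 < R) (hp1 : 1.9 < p) (hp2 : p < 2) (K n : ℤ) :
    Summable fun j : ℤ => (fc (MM p N r) (K - n) j + fc (MM p N r) (K + n) j) * (Cn p (K - j) : ℂ) := by
  set κ : ℝ := Real.log R / 2 with hκ
  have hlog : 0 < Real.log R := Real.log_pos hR
  have hκ0 : 0 < κ := by positivity
  have hκR : Real.exp κ < R := by
    calc Real.exp κ < Real.exp (Real.log R) := Real.exp_lt_exp.2 (by rw [hκ]; linarith)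
      _ = R := Real.exp_log (by linarith)
  have hdec : ∀ m j : ℤ, ‖fc (MM p N r) m j‖ ≤ 2 * Real.exp (-(κ / 2) * |(j : ℝ)|) := by
    intro m j
    refine (h.fcMM_le hκ0.le hκR hp1 hp2 m j).trans ?_
    apply mul_le_mul_of_nonneg_left _ (by norm_num)
    apply Real.exp_le_exp.2
    have : 0 ≤ |(m : ℝ)| := abs_nonneg _
    nlinarith
  apply Summable.of_norm_bounded (((summable_exp_abs (c := κ / 2) (by linarith)).mul_left 4).mul_right 10)
  intro j
  rw [norm_mul]
  have h1 : ‖fc (MM p N r) (K - n) j + fc (MM p N r) (K + n) j‖ ≤ 4 * Real.exp (-(κ / 2) * |(j : ℝ)|) := by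
    refine (norm_add_le _ _).trans ?_
    have := hdec (K - n) j
    have := hdec (K + n) j
    linarith
  have h2 : ‖(Cn p (K - j) : ℂ)‖ ≤ 10 := by
    rw [Complex.norm_real, Real.norm_eq_abs]
    exact Cn_abs_le hp1 hp2 _
  exact mul_le_mul h1 h2 (norm_nonneg _) (by positivity)

/-- (7b) -/
theorem DD_sub (hp1 : 1.9 < p) (hp2 : p < 2) (hJ : 1 ≤ J) (hs : wt N r 1 ≤ 1 / 1000) (hB : 0 ≤ B)
    (hA : ∀ i : ℕ, 1 ≤ i → i ≠ 2 → |r i| ≤ B / (i : ℝ) ^ 10)
    (hsupp : ∀ i, J < i → i ≠ 2 → r i = 0) {K n : ℤ} (hK : 1 ≤ K) (hn : 1 ≤ n) :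
    ‖DD p N r K n - DD p N (rb (r 2)) K n‖ ≤
      2100 * (576 * 40 ^ 4) * (B / (2 - p)) * |Cn p K| * WW J K n := by
  have hM : MM p N r = MM p N (tr r J) := by
    apply fc_congr_r
    intro i hi
    have hi1 := (Finset.mem_Icc.1 hi).1
    unfold tr
    by_cases h : i = 2 ∨ (1 ≤ i ∧ i ≤ J)
    · rw [if_pos h]
    · rw [if_neg h]
      apply hsupp i
      · omega
      · omega
  have hMb : MM p N (rb (r 2)) = MM p N (tr r 0) := by rw [tr_zero]
  have hS : Sm N (tr r J) (Real.exp (1 / (5 * ((max J 2 : ℕ) : ℝ)))) := by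
    apply Sm_of_small
    · omega
    · intro i hi
      unfold tr
      rw [if_neg]
      have := le_max_left J 2
      have := le_max_right J 2
      omega
    · exact (wt_tr_le r _).trans hs
  have hS0 : Sm N (tr r 0) (Real.exp (1 / (5 * ((2 : ℕ) : ℝ)))) := by
    apply Sm_of_small
    · omega
    · intro i hi
      unfold tr
      rw [if_neg]
      omega
    · exact (wt_tr_le r _).trans hs
  have hR1 : 1 < Real.exp (1 / (5 * ((max J 2 : ℕ) : ℝ))) := by
    apply Real.one_lt_exp_iff.2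
    have : 0 < max J 2 := by omega
    positivity
  have hR2 : 1 < Real.exp (1 / (5 * ((2 : ℕ) : ℝ))) := Real.one_lt_exp_iff.2 (by norm_num)
  have sum1 := DD_summable hS hR1 hp1 hp2 K n
  have sum2 := DD_summable hS0 hR2 hp1 hp2 K n
  have h2p : 0 < 2 - p := by linarith
  -- termwise bound
  have htel : ∀ m j : ℤ, ‖fc (MM p N (tr r J)) m j - fc (MM p N (tr r 0)) m j‖ ≤
      ∑ i ∈ Icc 1 J, 210 * (B / (i : ℝ) ^ 9) * Real.exp (-(|(m : ℝ)| + |(j : ℝ)|) / (40 * i)) := by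
    intro m j
    have := fc_tel (N := N) hp1 hp2 hs hB hA J m j
    rwa [tr_zero]
  have hterm : ∀ j : ℤ, ‖(fc (MM p N (tr r J)) (K - n) j + fc (MM p N (tr r J)) (K + n) j) *
      (Cn p (K - j) : ℂ) - (fc (MM p N (tr r 0)) (K - n) j + fc (MM p N (tr r 0)) (K + n) j) *
      (Cn p (K - j) : ℂ)‖ ≤ ∑ i ∈ Icc 1 J, (2100 * (B / (i : ℝ) ^ 9) / (2 - p) * |Cn p K| *
        Real.exp (-|((K - n : ℤ) : ℝ)| / (40 * i))) *
        ((1 + |(j : ℝ)|) ^ 3 * Real.exp (-(1 / (40 * i)) * |(j : ℝ)|)) := by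
    intro j
    rw [← sub_mul, norm_mul]
    have e : fc (MM p N (tr r J)) (K - n) j + fc (MM p N (tr r J)) (K + n) j -
        (fc (MM p N (tr r 0)) (K - n) j + fc (MM p N (tr r 0)) (K + n) j) =
        (fc (MM p N (tr r J)) (K - n) j - fc (MM p N (tr r 0)) (K - n) j) +
        (fc (MM p N (tr r J)) (K + n) j - fc (MM p N (tr r 0)) (K + n) j) := by ring
    rw [e]
    have h1 := htel (K - n) j
    have h2 := htel (K + n) j
    have h3 : ∑ i ∈ Icc 1 J, 210 * (B / (i : ℝ) ^ 9) *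
        Real.exp (-(|((K + n : ℤ) : ℝ)| + |(j : ℝ)|) / (40 * i)) ≤
        ∑ i ∈ Icc 1 J, 210 * (B / (i : ℝ) ^ 9) *
        Real.exp (-(|((K - n : ℤ) : ℝ)| + |(j : ℝ)|) / (40 * i)) := by
      apply Finset.sum_le_sum
      intro i hi
      apply mul_le_mul_of_nonneg_left _ (by positivity)
      apply Real.exp_le_exp.2
      have hi1 : (1 : ℝ) ≤ i := by exact_mod_cast (Finset.mem_Icc.1 hi).1
      apply div_le_div_of_nonneg_right _ (by positivity)
      have := abs_sub_le_add hK hn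
      linarith
    have h4 : ‖(fc (MM p N (tr r J)) (K - n) j - fc (MM p N (tr r 0)) (K - n) j) +
        (fc (MM p N (tr r J)) (K + n) j - fc (MM p N (tr r 0)) (K + n) j)‖ ≤
        2 * ∑ i ∈ Icc 1 J, 210 * (B / (i : ℝ) ^ 9) *
        Real.exp (-(|((K - n : ℤ) : ℝ)| + |(j : ℝ)|) / (40 * i)) := by
      refine (norm_add_le _ _).trans ?_
      linarith
    have h5 : ‖(Cn p (K - j) : ℂ)‖ ≤ 5 / (2 - p) * |Cn p K| * (1 + |(j : ℝ)|) ^ 3 := by
      rw [Complex.norm_real, Real.norm_eq_abs]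
      have := Cn_5b hp1 hp2 (n := K - j) (K := K) hK
      refine this.trans (le_of_eq ?_)
      congr 3
      push_cast
      rw [show (K : ℝ) - (K - j) = j by ring]
    refine (mul_le_mul h4 h5 (norm_nonneg _) (by positivity)).trans (le_of_eq ?_)
    rw [Finset.mul_sum, Finset.sum_mul]
    apply Finset.sum_congr rfl
    intro i hi
    have hi1 : (1 : ℝ) ≤ i := by exact_mod_cast (Finset.mem_Icc.1 hi).1
    have e2 : Real.exp (-(|((K - n : ℤ) : ℝ)| + |(j : ℝ)|) / (40 * i)) =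
        Real.exp (-|((K - n : ℤ) : ℝ)| / (40 * i)) * Real.exp (-(1 / (40 * i)) * |(j : ℝ)|) := by
      rw [← Real.exp_add]
      congr 1
      field_simp
      ring
    rw [e2]
    ring
  have hsumi : ∀ i ∈ Icc 1 J, Summable fun j : ℤ => (2100 * (B / (i : ℝ) ^ 9) / (2 - p) * |Cn p K| *
        Real.exp (-|((K - n : ℤ) : ℝ)| / (40 * i))) *
        ((1 + |(j : ℝ)|) ^ 3 * Real.exp (-(1 / (40 * i)) * |(j : ℝ)|)) := by
    intro i hi
    have hi1 : (1 : ℝ) ≤ i := by exact_mod_cast (Finset.mem_Icc.1 hi).1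
    apply Summable.mul_left
    apply summable_cube (by positivity)
    rw [div_le_one (by positivity)]
    linarith
  have hDD : DD p N r K n - DD p N (rb (r 2)) K n = ∑' j : ℤ,
      ((fc (MM p N (tr r J)) (K - n) j + fc (MM p N (tr r J)) (K + n) j) *
      (Cn p (K - j) : ℂ) - (fc (MM p N (tr r 0)) (K - n) j + fc (MM p N (tr r 0)) (K + n) j) *
      (Cn p (K - j) : ℂ)) := by
    unfold DD
    rw [hM, hMb]
    exact (sum1.tsum_sub sum2).symm
  rw [hDD]
  have hss := summable_sum hsumi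
  have h1 := tsum_of_norm_bounded hss.hasSum hterm
  refine h1.trans ?_
  rw [Summable.tsum_finsetSum hsumi]
  unfold WW
  rw [Finset.mul_sum]
  apply Finset.sum_le_sum
  intro i hi
  have hi1 : (1 : ℝ) ≤ i := by exact_mod_cast (Finset.mem_Icc.1 hi).1
  have hi0 : (0 : ℝ) < i := by linarith
  rw [tsum_mul_left]
  have h2 := tsum_cube_le (y := 1 / (40 * (i : ℝ))) (by positivity) (by
    rw [div_le_one (by positivity)]
    linarith)
  have h3 : 0 ≤ 2100 * (B / (i : ℝ) ^ 9) / (2 - p) * |Cn p K| *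
        Real.exp (-|((K - n : ℤ) : ℝ)| / (40 * i)) := by positivity
  refine (mul_le_mul_of_nonneg_left h2 h3).trans (le_of_eq ?_)
  field_simp

end

end Pool.Agent.H65.RM
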