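import Pool.Agent.H65.RM.Eq1

/-!
# RM module Eq2: differences of `F_K` (paper, (7c), (7d))
-/

open Finset Filter Topology MeasureTheory intervalIntegral

namespace Pool.Agent.H65.RM

section

variable {p : ℝ} {N J : ℕ} {B : ℝ}

lemma wt_line {r r' : ℕ → ℝ} {τ c : ℝ} (h0 : 0 ≤ τ) (h1 : τ ≤ 1) (h : wt N r 1 ≤ c)
    (h' : wt N r' 1 ≤ c) : wt N (fun i => r' i + τ * (r i - r' i)) 1 ≤ c := by
  have : wt N (fun i => r' i + τ * (r i - r' i)) 1 ≤ (1 - τ) * wt N r' 1 + τ * wt N r 1 := by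
    unfold wt
    rw [Finset.mul_sum, Finset.mul_sum, ← Finset.sum_add_distrib]
    apply Finset.sum_le_sum
    intro i _
    simp only [one_pow, mul_one]
    have h2 : |r' i + τ * (r i - r' i)| ≤ (1 - τ) * |r' i| + τ * |r i| := by
      have e : r' i + τ * (r i - r' i) = (1 - τ) * r' i + τ * r i := by ring
      rw [e]
      refine (abs_add_le _ _).trans ?_
      rw [abs_mul, abs_mul, abs_of_nonneg (by linarith : 0 ≤ 1 - τ), abs_of_nonneg h0]
    calc (i : ℝ) * |r' i + τ * (r i - r' i)| ≤ (i : ℝ) * ((1 - τ) * |r' i| + τ * |r i|) :=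
          mul_le_mul_of_nonneg_left h2 (by positivity)
      _ = _ := by ring
  nlinarith

lemma box_line {r r' : ℕ → ℝ} {τ : ℝ} (h0 : 0 ≤ τ) (h1 : τ ≤ 1)
    (hA : ∀ i : ℕ, 1 ≤ i → i ≠ 2 → |r i| ≤ B / (i : ℝ) ^ 10)
    (hA' : ∀ i : ℕ, 1 ≤ i → i ≠ 2 → |r' i| ≤ B / (i : ℝ) ^ 10) :
    ∀ i : ℕ, 1 ≤ i → i ≠ 2 → |r' i + τ * (r i - r' i)| ≤ B / (i : ℝ) ^ 10 := by
  intro i hi hi2
  have e : r' i + τ * (r i - r' i) = (1 - τ) * r' i + τ * r i := by ring
  rw [e]
  refine (abs_add_le _ _).trans ?_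
  rw [abs_mul, abs_mul, abs_of_nonneg (by linarith : 0 ≤ 1 - τ), abs_of_nonneg h0]
  have := hA i hi hi2
  have := hA' i hi hi2
  nlinarith

/-- mean value estimate for `F_K` -/
theorem FJ_sub (hp1 : 1.9 < p) (hp2 : p < 2) (hJ : 1 ≤ J) {r r' : ℕ → ℝ}
    (hs : wt N r 1 ≤ 1 / 1000) (hs' : wt N r' 1 ≤ 1 / 1000) (hB : 0 ≤ B)
    (hA : ∀ i : ℕ, 1 ≤ i → i ≠ 2 → |r i| ≤ B / (i : ℝ) ^ 10)
    (hA' : ∀ i : ℕ, 1 ≤ i → i ≠ 2 → |r' i| ≤ B / (i : ℝ) ^ 10)
    (hsupp : ∀ i, J < i → i ≠ 2 → r i = 0) (hsupp' : ∀ i, J < i → i ≠ 2 → r' i = 0)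
    (h2 : r 2 = r' 2) {K : ℕ} (hK : 1 ≤ K) :
    ‖FJ p N r K - FJ p N r' K - ∑ n ∈ Icc 1 N, ((-2 * (r n - r' n) / (4 * n ^ 2 - 1) : ℝ) : ℂ) *
      DD p N (rb (r' 2)) K n‖ ≤ ∑ n ∈ Icc 1 N, |-2 * (r n - r' n) / (4 * (n : ℝ) ^ 2 - 1)| *
      (2100 * (576 * 40 ^ 4) * (B / (2 - p)) * |Cn p K| * WW J K n) := by
  set s : ℕ → ℝ := fun i => r i - r' i with hsdef
  set L : ℂ := ∑ n ∈ Icc 1 N, ((-2 * (r n - r' n) / (4 * n ^ 2 - 1) : ℝ) : ℂ) *
      DD p N (rb (r' 2)) K n with hL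
  have hSm : ∀ τ ∈ Set.Icc (0 : ℝ) 1, Sm N (fun i => r' i + τ * s i)
      (Real.exp (1 / (5 * ((max J 2 : ℕ) : ℝ)))) := by
    intro τ hτ
    apply Sm_of_small
    · omega
    · intro i hi
      have := le_max_left J 2
      have := le_max_right J 2
      rw [hsdef]
      simp only
      rw [hsupp i (by omega) (by omega), hsupp' i (by omega) (by omega)]
      ring
    · exact wt_line hτ.1 hτ.2 hs hs'
  have hR1 : 1 < Real.exp (1 / (5 * ((max J 2 : ℕ) : ℝ))) := by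
    apply Real.one_lt_exp_iff.2
    have : 0 < max J 2 := by omega
    positivity
  set f : ℝ → ℂ := fun τ => FJ p N (fun i => r' i + τ * s i) K - (τ : ℂ) * L with hf
  set f' : ℝ → ℂ := fun τ => (∑ n ∈ Icc 1 N, ((-2 * s n / (4 * n ^ 2 - 1) : ℝ) : ℂ) *
        DD p N (fun i => r' i + τ * s i) K n) - L with hf'
  have hder : ∀ τ ∈ Set.Icc (0 : ℝ) 1, HasDerivWithinAt f (f' τ) (Set.Icc 0 1) τ := by
    intro τ hτ
    have h1 := FJ_deriv_DD (p := p) r' s τ K (hSm τ hτ) hR1 hK hp1 hp2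
    have h3 : HasDerivAt (fun τ : ℝ => (τ : ℂ) * L) (1 * L) τ :=
      (Complex.ofRealCLM.hasDerivAt (x := τ)).mul_const L |>.congr_deriv (by simp)
    rw [one_mul] at h3
    exact (h1.sub h3).hasDerivWithinAt
  have hbd : ∀ τ ∈ Set.Ico (0 : ℝ) 1, ‖f' τ‖ ≤ ∑ n ∈ Icc 1 N,
      |-2 * (r n - r' n) / (4 * (n : ℝ) ^ 2 - 1)| *
      (2100 * (576 * 40 ^ 4) * (B / (2 - p)) * |Cn p K| * WW J K n) := by
    intro τ hτ
    have hτ' : τ ∈ Set.Icc (0 : ℝ) 1 := ⟨hτ.1, hτ.2.le⟩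
    have e : f' τ = ∑ n ∈ Icc 1 N, ((-2 * (r n - r' n) / (4 * n ^ 2 - 1) : ℝ) : ℂ) *
        (DD p N (fun i => r' i + τ * s i) K n - DD p N (rb (r' 2)) K n) := by
      rw [hf', hL]
      simp only
      rw [← Finset.sum_sub_distrib]
      apply Finset.sum_congr rfl
      intro n _
      rw [hsdef]
      ring
    rw [e]
    refine (norm_sum_le _ _).trans (Finset.sum_le_sum ?_)
    intro n hn
    have hn1 := (Finset.mem_Icc.1 hn).1
    rw [norm_mul, Complex.norm_real, Real.norm_eq_abs]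
    apply mul_le_mul_of_nonneg_left _ (abs_nonneg _)
    have h5 : r' 2 + τ * s 2 = r' 2 := by
      simp only [hsdef]
      rw [h2]
      ring
    have h4 := DD_sub (N := N) (J := J) (r := fun i => r' i + τ * s i) (B := B) hp1 hp2 hJ
      (wt_line hτ'.1 hτ'.2 hs hs') hB (box_line hτ'.1 hτ'.2 hA hA') (fun i hi hi2 => by
        simp only [hsdef]
        rw [hsupp i hi hi2, hsupp' i hi hi2]
        ring) (K := (K : ℤ)) (n := (n : ℤ)) (by exact_mod_cast hK) (by exact_mod_cast hn1)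
    rw [h5] at h4
    exact h4
  have hmain := norm_image_sub_le_of_norm_deriv_le_segment_01' hder hbd
  have e1 : f 1 - f 0 = FJ p N r K - FJ p N r' K - L := by
    simp only [hf, hsdef]
    have e2 : (fun i => r' i + 1 * (r i - r' i)) = r := by funext i; ring
    have e3 : (fun i => r' i + 0 * (r i - r' i)) = r' := by funext i; ring
    rw [e2, e3]
    push_cast
    ring
  rw [e1] at hmain
  exact hmain

/-! ## symmetries -/

lemma Ph_I {K : ℕ} (z : ℂ) : Ph p K (Complex.I * z) = (-1) ^ K * Ph p K z := by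
  unfold Ph ff
  rw [norm_mul, Complex.norm_I, one_mul, map_mul, Complex.conj_I]
  have h1 : (-Complex.I * (starRingEnd ℂ) z) ^ (2 * K) = (-1) ^ K * (starRingEnd ℂ) z ^ (2 * K) := by
    rw [mul_pow, pow_mul, neg_sq, Complex.I_sq]
  rw [h1]
  have h2 : Complex.I * z * (-Complex.I * (starRingEnd ℂ) z) = z * (starRingEnd ℂ) z := by
    have : Complex.I * z * (-Complex.I * (starRingEnd ℂ) z) = -(Complex.I * Complex.I) * (z * (starRingEnd ℂ) z) := by ring
    rw [this, Complex.I_mul_I]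
    ring
  rw [h2]
  ring

lemma Ph_conj {K : ℕ} (z : ℂ) : Ph p K ((starRingEnd ℂ) z) = (starRingEnd ℂ) (Ph p K z) := by
  unfold Ph ff
  rw [map_mul, map_mul, map_mul, map_pow, Complex.conj_ofReal, Complex.norm_conj,
    mul_comm ((starRingEnd ℂ) z) ((starRingEnd ℂ) ((starRingEnd ℂ) z))]

/-- shift of both variables -/
lemma JJ_shift {K : ℕ} {A A' : ℝ → ℂ} (h : Cv A A') (c : ℝ) :
    JJ p K A A' = JJ p K (fun θ => A (θ + c)) (fun θ => A' (θ + c)) := by
  unfold JJ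
  have hinner : ∀ a : ℝ, (∫ b in (0 : ℝ)..2 * Real.pi, Ph p K (A b - A a) * (starRingEnd ℂ) (A' a) * A' b) =
      ∫ b in (0 : ℝ)..2 * Real.pi, Ph p K (A (b + c) - A a) * (starRingEnd ℂ) (A' a) * A' (b + c) := by
    intro a
    have hper : Function.Periodic (fun b => Ph p K (A b - A a) * (starRingEnd ℂ) (A' a) * A' b) (2 * Real.pi) := by
      intro b
      simp only
      rw [h.per, h.per']
    have h1 := hper.intervalIntegral_add_eq 0 c
    rw [zero_add] at h1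
    rw [h1]
    have h2 := intervalIntegral.integral_comp_add_right (a := 0) (b := 2 * Real.pi)
      (fun b => Ph p K (A b - A a) * (starRingEnd ℂ) (A' a) * A' b) c
    rw [zero_add, add_comm (2 * Real.pi)] at h2
    rw [← h2]
  simp only [hinner]
  set G : ℝ → ℂ := fun a => ∫ b in (0 : ℝ)..2 * Real.pi,
    Ph p K (A (b + c) - A a) * (starRingEnd ℂ) (A' a) * A' (b + c) with hG
  have hper : Function.Periodic G (2 * Real.pi) := by
    intro a
    simp only [hG]
    rw [h.per, h.per']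
  have h1 := hper.intervalIntegral_add_eq 0 c
  rw [zero_add] at h1
  rw [h1]
  have h2 := intervalIntegral.integral_comp_add_right (a := 0) (b := 2 * Real.pi) G c
  rw [zero_add, add_comm (2 * Real.pi)] at h2
  rw [← h2]

lemma ro_rb (x θ : ℝ) : ro N (rb x) (θ + Real.pi / 2) = ro N (rb x) θ := by
  unfold ro rb
  congr 2
  apply Finset.sum_congr rfl
  intro i _
  by_cases h : i = 2
  · subst h
    congr 1
    have : 2 * ((2 : ℕ) : ℝ) * (θ + Real.pi / 2) = 2 * ((2 : ℕ) : ℝ) * θ + 2 * Real.pi := by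
      push_cast; ring
    rw [this, Real.cos_add_two_pi]
  · simp [h]

lemma ex_half_pi (θ : ℝ) : ex (θ + Real.pi / 2) = Complex.I * ex θ := by
  rw [ex_add, mul_comm]
  congr 1
  unfold ex
  push_cast
  rw [mul_comm, Complex.exp_pi_div_two_mul_I]

lemma ga'_rb (x θ : ℝ) : ga' N (rb x) (θ + Real.pi / 2) = Complex.I * ga' N (rb x) θ := by
  unfold ga'
  rw [ro_rb, ex_half_pi]
  ring

lemma ga_rb (x θ : ℝ) : ga N (rb x) (θ + Real.pi / 2) = Complex.I * ga N (rb x) θ := by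
  unfold ga rb
  rw [mul_add, Finset.mul_sum]
  congr 1
  · have : Complex.exp (Complex.I * ((θ + Real.pi / 2 : ℝ) : ℂ)) = Complex.I * Complex.exp (Complex.I * θ) :=
      ex_half_pi θ
    rw [this]
    ring
  · apply Finset.sum_congr rfl
    intro i _
    by_cases h : i = 2
    · subst h
      have e1 : Complex.exp (Complex.I * ((2 * ((2 : ℕ) : ℂ) + 1) * ((θ + Real.pi / 2 : ℝ) : ℂ))) =
          Complex.I * Complex.exp (Complex.I * ((2 * ((2 : ℕ) : ℂ) + 1) * θ)) := by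
        have h1 : Complex.I * ((2 * ((2 : ℕ) : ℂ) + 1) * ((θ + Real.pi / 2 : ℝ) : ℂ)) =
            Complex.I * ((2 * ((2 : ℕ) : ℂ) + 1) * θ) + (Real.pi / 2 * Complex.I + 2 * Real.pi * Complex.I) := by
          push_cast; ring
        rw [h1, Complex.exp_add, Complex.exp_add, Complex.exp_pi_div_two_mul_I,
          Complex.exp_two_pi_mul_I]
        ring
      have e2 : Complex.exp (-(Complex.I * ((2 * ((2 : ℕ) : ℂ) - 1) * ((θ + Real.pi / 2 : ℝ) : ℂ)))) =
          Complex.I * Complex.exp (-(Complex.I * ((2 * ((2 : ℕ) : ℂ) - 1) * θ))) := by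
        have h1 : -(Complex.I * ((2 * ((2 : ℕ) : ℂ) - 1) * ((θ + Real.pi / 2 : ℝ) : ℂ))) =
            -(Complex.I * ((2 * ((2 : ℕ) : ℂ) - 1) * θ)) + (Real.pi / 2 * Complex.I - 2 * Real.pi * Complex.I) := by
          push_cast; ring
        rw [h1, Complex.exp_add, Complex.exp_sub, Complex.exp_pi_div_two_mul_I,
          Complex.exp_two_pi_mul_I]
        ring
      rw [e1, e2]
      ring
    · simp [h]

/-- (7c): the base body has `F_K = 0` for odd `K` -/
theorem FJ_base {K : ℕ} (hK : Odd K) (x : ℝ) : FJ p N (rb x) K = 0 := by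
  have h1 := JJ_shift (p := p) (K := K) (cv_ga (N := N) (r := rb x)) (Real.pi / 2)
  have h2 : JJ p K (fun θ => ga N (rb x) (θ + Real.pi / 2)) (fun θ => ga' N (rb x) (θ + Real.pi / 2)) =
      -JJ p K (ga N (rb x)) (ga' N (rb x)) := by
    unfold JJ
    rw [← intervalIntegral.integral_neg]
    congr 1
    funext a
    rw [← intervalIntegral.integral_neg]
    congr 1
    funext b
    simp only
    rw [ga_rb, ga_rb, ga'_rb, ga'_rb, ← mul_sub, Ph_I, hK.neg_one_pow, map_mul, Complex.conj_I]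
    have hI := Complex.I_mul_I
    linear_combination (Ph p K (ga N (rb x) b - ga N (rb x) a) * (starRingEnd ℂ) (ga' N (rb x) a) * ga' N (rb x) b) * hI
  rw [h2] at h1
  have h3 : JJ p K (ga N (rb x)) (ga' N (rb x)) = 0 := by
    have : (2 : ℂ) * JJ p K (ga N (rb x)) (ga' N (rb x)) = 0 := by linear_combination h1
    rcases mul_eq_zero.1 this with h | h
    · norm_num at h
    · exact h
  unfold FJ
  rw [h3, mul_zero]

lemma ro_neg (r : ℕ → ℝ) (θ : ℝ) : ro N r (-θ) = ro N r θ := by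
  unfold ro
  congr 2
  apply Finset.sum_congr rfl
  intro i _
  rw [mul_neg, Real.cos_neg]

lemma ga'_neg (r : ℕ → ℝ) (θ : ℝ) : ga' N r (-θ) = (starRingEnd ℂ) (ga' N r θ) := by
  unfold ga'
  rw [ro_neg, map_mul, Complex.conj_ofReal, ex_conj, ex_neg]

lemma ga_neg (r : ℕ → ℝ) (θ : ℝ) : ga N r (-θ) = -(starRingEnd ℂ) (ga N r θ) := by
  unfold ga
  simp only [map_add, map_mul, map_neg, map_sum, Complex.conj_I, Complex.conj_ofReal, map_div₀,
    map_sub, map_one, map_ofNat, Complex.conj_natCast, neg_neg, ← Complex.exp_conj]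
  rw [neg_add, ← Finset.sum_neg_distrib]
  congr 1
  · push_cast
    rw [show Complex.I * -(θ : ℂ) = -Complex.I * θ by ring]
    ring
  · apply Finset.sum_congr rfl
    intro i _
    push_cast
    rw [show Complex.I * ((2 * (i : ℂ) + 1) * -(θ : ℂ)) = -Complex.I * ((2 * i + 1) * θ) by ring,
      show -(Complex.I * ((2 * (i : ℂ) - 1) * -(θ : ℂ))) = -(-Complex.I * ((2 * i - 1) * θ)) by ring]
    ring

/-- the numbers `F_K` are real -/
theorem FJ_real {K : ℕ} (r : ℕ → ℝ) : (starRingEnd ℂ) (FJ p N r K) = FJ p N r K := by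
  unfold FJ
  rw [map_mul, Complex.conj_ofReal]
  congr 1
  have h : Cv (ga N r) (ga' N r) := cv_ga
  unfold JJ
  have hconj : ∀ f : ℝ → ℂ, (starRingEnd ℂ) (∫ t in (0 : ℝ)..2 * Real.pi, f t) =
      ∫ t in (0 : ℝ)..2 * Real.pi, (starRingEnd ℂ) (f t) := by
    intro f
    rw [intervalIntegral.integral_of_le (by have := Real.pi_pos; linarith),
      intervalIntegral.integral_of_le (by have := Real.pi_pos; linarith)]
    exact integral_conj.symm
  have hneg : ∀ {f : ℝ → ℂ}, Function.Periodic f (2 * Real.pi) →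
      (∫ t in (0 : ℝ)..2 * Real.pi, f (-t)) = ∫ t in (0 : ℝ)..2 * Real.pi, f t := by
    intro f hf
    rw [intervalIntegral.integral_comp_neg]
    have h1 := hf.intervalIntegral_add_eq (-(2 * Real.pi)) 0
    rw [zero_add, neg_add_cancel] at h1
    rw [neg_zero]
    exact h1
  rw [hconj]
  have e1 : ∀ a : ℝ, (starRingEnd ℂ) (∫ b in (0 : ℝ)..2 * Real.pi, Ph p K (ga N r b - ga N r a) *
      (starRingEnd ℂ) (ga' N r a) * ga' N r b) =
      ∫ b in (0 : ℝ)..2 * Real.pi, Ph p K (ga N r b - ga N r (-a)) * (starRingEnd ℂ) (ga' N r (-a)) * ga' N r b := by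
    intro a
    rw [hconj]
    have hper : Function.Periodic (fun b => Ph p K (ga N r b - ga N r (-a)) * (starRingEnd ℂ) (ga' N r (-a)) *
        ga' N r b) (2 * Real.pi) := by
      intro b
      simp only
      rw [h.per, h.per']
    rw [← hneg hper]
    congr 1
    funext b
    rw [ga_neg, ga_neg, ga'_neg, ga'_neg, map_mul, map_mul, Complex.conj_conj,
      ← Ph_conj]
    have : -(starRingEnd ℂ) (ga N r b) - -(starRingEnd ℂ) (ga N r a) = -((starRingEnd ℂ) (ga N r b - ga N r a)) := by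
      rw [map_sub]; ring
    rw [this, Ph_neg]
  simp only [e1]
  have hper : Function.Periodic (fun a => ∫ b in (0 : ℝ)..2 * Real.pi,
      Ph p K (ga N r b - ga N r a) * (starRingEnd ℂ) (ga' N r a) * ga' N r b) (2 * Real.pi) := by
    intro a
    simp only
    rw [h.per, h.per']
  exact hneg hper

end

end Pool.Agent.H65.RM
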