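import Pool.Agent.H65.RM.Chord4

/-!
# RM module Fou: Fourier coefficients on the torus (paper, Lemma 2.4 and Theorem KT)
-/

open Finset Filter Topology MeasureTheory intervalIntegral

namespace Pool.Agent.H65.RM

/-- Fourier coefficients on the torus -/
noncomputable def fc (G : ℂ → ℂ → ℂ) (m j : ℤ) : ℂ :=
  (1 / (2 * Real.pi) ^ 2 : ℝ) * ∫ a in (0 : ℝ)..2 * Real.pi, ∫ b in (0 : ℝ)..2 * Real.pi,
    G (ex a) (ex b) * ex (-(m * a)) * ex (-(j * b))

lemma ex_zpow (a : ℝ) (n : ℤ) : ex a ^ n = ex (n * a) := by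
  unfold ex
  rw [← Complex.exp_int_mul]
  congr 1
  push_cast
  ring

lemma continuous_ex_comp {X : Type*} [TopologicalSpace X] {f : X → ℝ} (hf : Continuous f) :
    Continuous fun x => ex (f x) := continuous_ex.comp hf

/-- one variable shift of the contour -/
lemma shift_le {f : ℂ → ℂ} {Ω : Set ℂ} {R B : ℝ} (hR : 1 ≤ R) (hΩ : IsOpen Ω) (hA : An R ⊆ Ω)
    (hf : DifferentiableOn ℂ f Ω) (hB : ∀ z ∈ An R, ‖f z‖ ≤ B) (m : ℤ) :
    ‖∫ a in (0 : ℝ)..2 * Real.pi, f (ex a) * ex (-(m * a))‖ ≤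
      2 * Real.pi * B * (R⁻¹) ^ m.natAbs := by
  have hR0 : 0 < R := by linarith
  have hB0 : 0 ≤ B := (norm_nonneg _).trans (hB 1 (one_mem_An hR))
  set F : ℂ → ℂ := fun z => f z * z ^ (-m - 1) with hF
  have hFd : DifferentiableOn ℂ F (Ω ∩ {0}ᶜ) := by
    intro z hz
    have hz0 : z ≠ 0 := hz.2
    exact ((hf z hz.1).mono Set.inter_subset_left).mul
      (differentiableAt_zpow.2 (Or.inl hz0)).differentiableWithinAt
  have hΩ' : IsOpen (Ω ∩ {0}ᶜ) := hΩ.inter isOpen_compl_singleton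
  have hsub : ∀ z : ℂ, R⁻¹ ≤ ‖z‖ → ‖z‖ ≤ R → z ∈ Ω ∩ {0}ᶜ ∧ z ∈ An R := by
    intro z h1 h2
    have hz : z ∈ An R := ⟨h2, by
      have := mul_le_mul_of_nonneg_left h1 hR0.le
      rwa [mul_inv_cancel₀ hR0.ne'] at this⟩
    exact ⟨⟨hA hz, An_ne hz⟩, hz⟩
  have hRi : R⁻¹ ≤ 1 := inv_le_one_of_one_le₀ hR
  have hRi0 : 0 < R⁻¹ := inv_pos.2 hR0
  have hann : ∀ s t : ℝ, R⁻¹ ≤ s → s ≤ t → t ≤ R → (∮ z in C(0, t), F z) = ∮ z in C(0, s), F z := by
    intro s t hs hst ht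
    apply Complex.circleIntegral_eq_of_differentiable_on_annulus_off_countable (by linarith) hst
      (s := ∅) Set.countable_empty
    · intro z hz
      have h1 : s ≤ ‖z‖ := by
        have := hz.2
        rw [mem_ball_zero_iff, not_lt] at this
        exact this
      have h2 : ‖z‖ ≤ t := by
        have := hz.1
        rwa [mem_closedBall_zero_iff] at this
      exact ((hFd z (hsub z (hs.trans h1) (h2.trans ht)).1).differentiableAt
        (hΩ'.mem_nhds (hsub z (hs.trans h1) (h2.trans ht)).1)).continuousAt.continuousWithinAt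
    · intro z hz
      have h1 : s < ‖z‖ := by
        have := hz.1.2
        rw [mem_closedBall_zero_iff, not_le] at this
        exact this
      have h2 : ‖z‖ < t := by
        have := hz.1.1
        rwa [mem_ball_zero_iff] at this
      exact (hFd z (hsub z (hs.trans h1.le) (h2.le.trans ht)).1).differentiableAt
        (hΩ'.mem_nhds (hsub z (hs.trans h1.le) (h2.le.trans ht)).1)
  have hbound : ∀ s : ℝ, R⁻¹ ≤ s → s ≤ R → ‖∮ z in C(0, s), F z‖ ≤ 2 * Real.pi * B * s ^ (-m) := by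
    intro s hs1 hs2
    have hs0 : 0 < s := by linarith
    have h1 := circleIntegral.norm_integral_le_of_norm_le_const (f := F) (c := 0) (R := s)
      (C := B * s ^ (-m - 1)) hs0.le (by
        intro z hz
        have hz' : ‖z‖ = s := by rwa [mem_sphere_zero_iff_norm] at hz
        rw [hF]
        simp only
        rw [norm_mul, norm_zpow, hz']
        apply mul_le_mul_of_nonneg_right _ (by positivity)
        exact hB z (hsub z (by rw [hz']; exact hs1) (by rw [hz']; exact hs2)).2)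
    refine h1.trans (le_of_eq ?_)
    have : s ^ (-m) = s * s ^ (-m - 1) := by
      rw [← zpow_one_add₀ hs0.ne']
      congr 1
      ring
    rw [this]
    ring
  have hone : (∮ z in C(0, 1), F z) =
      Complex.I * ∫ a in (0 : ℝ)..2 * Real.pi, f (ex a) * ex (-(m * a)) := by
    unfold circleIntegral
    rw [← intervalIntegral.integral_const_mul]
    congr 1
    funext a
    have h1 : circleMap 0 1 a = ex a := by
      unfold circleMap ex
      rw [mul_comm Complex.I]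
      simp
    rw [deriv_circleMap, h1, smul_eq_mul, hF]
    simp only
    have h2 : ex (-(m * a)) = ex a ^ (-m) := by
      rw [ex_zpow]
      congr 1
      push_cast
      ring
    have h3 : ex a ^ (-m) = ex a * ex a ^ (-m - 1) := by
      rw [← zpow_one_add₀ (ex_ne a)]
      congr 1
      ring
    rw [h2, h3]
    ring
  have hnorm : ‖∫ a in (0 : ℝ)..2 * Real.pi, f (ex a) * ex (-(m * a))‖ = ‖∮ z in C(0, 1), F z‖ := by
    rw [hone, norm_mul, Complex.norm_I, one_mul]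
  rw [hnorm]
  rcases le_total 0 m with hm | hm
  · rw [← hann 1 R hRi hR le_rfl]
    refine (hbound R (hRi.trans hR) le_rfl).trans (le_of_eq ?_)
    congr 1
    obtain ⟨k, rfl⟩ := Int.eq_ofNat_of_zero_le hm
    simp
  · rw [hann R⁻¹ 1 le_rfl hRi hR]
    refine (hbound R⁻¹ le_rfl (hRi.trans hR)).trans (le_of_eq ?_)
    congr 1
    obtain ⟨k, hk⟩ := Int.eq_ofNat_of_zero_le (show 0 ≤ -m by omega)
    have hk' : m = -(k : ℤ) := by omega
    subst hk'
    simp

/-- Fubini for continuous functions -/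
lemma swap_cont {F : ℝ → ℝ → ℂ} (hF : Continuous F.uncurry) (a b c d : ℝ) :
    ∫ x in a..b, ∫ y in c..d, F x y = ∫ y in c..d, ∫ x in a..b, F x y := by
  apply intervalIntegral_intervalIntegral_swap
  have hK : IsCompact (Set.uIcc a b ×ˢ Set.uIcc c d) := isCompact_uIcc.prod isCompact_uIcc
  exact (hF.continuousOn.integrableOn_compact hK).mono_set
    (Set.prod_mono Set.uIoc_subset_uIcc Set.uIoc_subset_uIcc)

/-- Lemma 2.4 -/
theorem fc_le {G : ℂ → ℂ → ℂ} {R B : ℝ} (hR : 1 ≤ R)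
    (hG : Continuous fun x : ℝ × ℝ => G (ex x.1) (ex x.2))
    (h1 : ∀ b : ℝ, ∃ Ω : Set ℂ, IsOpen Ω ∧ An R ⊆ Ω ∧ DifferentiableOn ℂ (fun z => G z (ex b)) Ω ∧
      ∀ z ∈ An R, ‖G z (ex b)‖ ≤ B)
    (h2 : ∀ a : ℝ, ∃ Ω : Set ℂ, IsOpen Ω ∧ An R ⊆ Ω ∧ DifferentiableOn ℂ (fun z => G (ex a) z) Ω ∧
      ∀ z ∈ An R, ‖G (ex a) z‖ ≤ B) (m j : ℤ) :
    ‖fc G m j‖ ≤ B * (R⁻¹) ^ m.natAbs ∧ ‖fc G m j‖ ≤ B * (R⁻¹) ^ j.natAbs := by
  have hpi := Real.pi_pos
  have hcont : Continuous fun x : ℝ × ℝ => G (ex x.1) (ex x.2) * ex (-(m * x.1)) * ex (-(j * x.2)) :=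
    (hG.mul (continuous_ex_comp (by fun_prop))).mul (continuous_ex_comp (by fun_prop))
  have hc : ‖((1 / (2 * Real.pi) ^ 2 : ℝ) : ℂ)‖ = 1 / (2 * Real.pi) ^ 2 := by
    rw [Complex.norm_real, Real.norm_eq_abs, abs_of_pos (by positivity)]
  constructor
  · have hswap : (∫ a in (0 : ℝ)..2 * Real.pi, ∫ b in (0 : ℝ)..2 * Real.pi,
        G (ex a) (ex b) * ex (-(m * a)) * ex (-(j * b))) =
        ∫ b in (0 : ℝ)..2 * Real.pi, ∫ a in (0 : ℝ)..2 * Real.pi,
        G (ex a) (ex b) * ex (-(m * a)) * ex (-(j * b)) :=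
      swap_cont (F := fun a b => G (ex a) (ex b) * ex (-(m * a)) * ex (-(j * b))) hcont _ _ _ _
    unfold fc
    rw [hswap, norm_mul, hc]
    have h3 : ‖∫ b in (0 : ℝ)..2 * Real.pi, ∫ a in (0 : ℝ)..2 * Real.pi,
        G (ex a) (ex b) * ex (-(m * a)) * ex (-(j * b))‖ ≤
        (2 * Real.pi * B * (R⁻¹) ^ m.natAbs) * |2 * Real.pi - 0| := by
      apply intervalIntegral.norm_integral_le_of_norm_le_const
      intro b _
      obtain ⟨Ω, hΩ, hA, hd, hB⟩ := h1 b
      rw [intervalIntegral.integral_mul_const, norm_mul, ex_norm, mul_one]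
      exact shift_le hR hΩ hA hd hB m
    rw [sub_zero, abs_of_pos (by positivity)] at h3
    calc 1 / (2 * Real.pi) ^ 2 * _ ≤ 1 / (2 * Real.pi) ^ 2 *
          ((2 * Real.pi * B * (R⁻¹) ^ m.natAbs) * (2 * Real.pi)) :=
          mul_le_mul_of_nonneg_left h3 (by positivity)
      _ = _ := by field_simp
  · unfold fc
    rw [norm_mul, hc]
    have h3 : ‖∫ a in (0 : ℝ)..2 * Real.pi, ∫ b in (0 : ℝ)..2 * Real.pi,
        G (ex a) (ex b) * ex (-(m * a)) * ex (-(j * b))‖ ≤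
        (2 * Real.pi * B * (R⁻¹) ^ j.natAbs) * |2 * Real.pi - 0| := by
      apply intervalIntegral.norm_integral_le_of_norm_le_const
      intro a _
      obtain ⟨Ω, hΩ, hA, hd, hB⟩ := h2 a
      have e : (∫ b in (0 : ℝ)..2 * Real.pi, G (ex a) (ex b) * ex (-(m * a)) * ex (-(j * b))) =
          ex (-(m * a)) * ∫ b in (0 : ℝ)..2 * Real.pi, G (ex a) (ex b) * ex (-(j * b)) := by
        rw [← intervalIntegral.integral_const_mul]
        congr 1
        funext b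
        ring
      rw [e, norm_mul, ex_norm, one_mul]
      exact shift_le hR hΩ hA hd hB j
    rw [sub_zero, abs_of_pos (by positivity)] at h3
    calc 1 / (2 * Real.pi) ^ 2 * _ ≤ 1 / (2 * Real.pi) ^ 2 *
          ((2 * Real.pi * B * (R⁻¹) ^ j.natAbs) * (2 * Real.pi)) :=
          mul_le_mul_of_nonneg_left h3 (by positivity)
      _ = _ := by field_simp

/-- geometric mean -/
theorem fc_le' {G : ℂ → ℂ → ℂ} {κ B : ℝ} (hκ : 0 ≤ κ)
    (hG : Continuous fun x : ℝ × ℝ => G (ex x.1) (ex x.2))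
    (h1 : ∀ b : ℝ, ∃ Ω : Set ℂ, IsOpen Ω ∧ An (Real.exp κ) ⊆ Ω ∧
      DifferentiableOn ℂ (fun z => G z (ex b)) Ω ∧ ∀ z ∈ An (Real.exp κ), ‖G z (ex b)‖ ≤ B)
    (h2 : ∀ a : ℝ, ∃ Ω : Set ℂ, IsOpen Ω ∧ An (Real.exp κ) ⊆ Ω ∧
      DifferentiableOn ℂ (fun z => G (ex a) z) Ω ∧ ∀ z ∈ An (Real.exp κ), ‖G (ex a) z‖ ≤ B)
    (m j : ℤ) : ‖fc G m j‖ ≤ B * Real.exp (-(κ / 2) * (|(m : ℝ)| + |(j : ℝ)|)) := by
  have hR : 1 ≤ Real.exp κ := Real.one_le_exp hκ
  obtain ⟨hm, hj⟩ := fc_le hR hG h1 h2 m j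
  have hB0 : 0 ≤ B := by
    obtain ⟨Ω, -, -, -, hB⟩ := h1 0
    exact (norm_nonneg _).trans (hB 1 (one_mem_An hR))
  have hpow : ∀ n : ℤ, ((Real.exp κ)⁻¹) ^ n.natAbs = Real.exp (-κ * |(n : ℝ)|) := by
    intro n
    rw [← Real.exp_neg, ← Real.exp_nat_mul]
    congr 1
    rw [Nat.cast_natAbs, Int.cast_abs]
    ring
  rw [hpow] at hm hj
  rcases le_total |(m : ℝ)| |(j : ℝ)| with h | h
  · refine hj.trans (mul_le_mul_of_nonneg_left ?_ hB0)
    apply Real.exp_le_exp.2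
    nlinarith
  · refine hm.trans (mul_le_mul_of_nonneg_left ?_ hB0)
    apply Real.exp_le_exp.2
    nlinarith

section KT

variable {N J : ℕ} {r r' : ℕ → ℝ} {p : ℝ}

lemma wt_scale {R : ℝ} (hR : 1 ≤ R) (hRJ : R ^ (5 * J) ≤ 3) (hr : ∀ i, J < i → r i = 0) :
    wt N r R ≤ 3 * wt N r 1 := by
  unfold wt
  rw [Finset.mul_sum]
  apply Finset.sum_le_sum
  intro i _
  rw [one_pow, mul_one]
  by_cases hi : J < i
  · rw [hr i hi]
    simp
  · have h1 : R ^ (5 * i) ≤ 3 := (pow_le_pow_right₀ hR (by omega)).trans hRJ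
    have h2 : 0 ≤ (i : ℝ) * |r i| := by positivity
    nlinarith

lemma exp_pow_le (hJ : 1 ≤ J) : Real.exp (1 / (5 * J)) ^ (5 * J) ≤ 3 := by
  have hJ' : (0 : ℝ) < J := by exact_mod_cast hJ
  rw [← Real.exp_nat_mul]
  push_cast
  rw [show 5 * (J : ℝ) * (1 / (5 * J)) = 1 by field_simp]
  linarith [Real.exp_one_lt_d9]

lemma exp_le_five_four (hJ : 1 ≤ J) : Real.exp (1 / (5 * J)) ≤ 5 / 4 := by
  have hJ' : (1 : ℝ) ≤ J := by exact_mod_cast hJ
  have h1 : (1 : ℝ) / (5 * J) ≤ 1 / 5 := by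
    apply one_div_le_one_div_of_le (by norm_num)
    linarith
  refine (Real.exp_le_exp.2 h1).trans ?_
  have h2 : Real.exp (1 / 5) ^ 5 ≤ (5 / 4) ^ 5 := by
    rw [← Real.exp_nat_mul]
    norm_num
    linarith [Real.exp_one_lt_d9]
  exact le_of_pow_le_pow_left₀ (by norm_num) (by norm_num) h2

lemma Sm_of_small (hJ : 1 ≤ J) (hr : ∀ i, J < i → r i = 0) (hs : wt N r 1 ≤ 1 / 1000) :
    Sm N r (Real.exp (1 / (5 * J))) := by
  have h1 : 1 ≤ Real.exp (1 / (5 * (J : ℝ))) := Real.one_le_exp (by positivity)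
  refine ⟨h1, exp_le_five_four hJ, ?_⟩
  have := wt_scale (N := N) h1 (exp_pow_le hJ) hr
  linarith

lemma Sm.mono {N : ℕ} {r : ℕ → ℝ} {R R' : ℝ} (h : Sm N r R) (h1 : 1 ≤ R') (h2 : R' ≤ R) :
    Sm N r R' := by
  refine ⟨h1, h2.trans h.le, le_trans ?_ h.wt_le⟩
  unfold wt
  apply Finset.sum_le_sum
  intro i _
  apply mul_le_mul_of_nonneg_left _ (by positivity)
  exact pow_le_pow_left₀ (by linarith) h2 _

lemma Sm.EE_cont {N : ℕ} {r : ℕ → ℝ} {R : ℝ} (h : Sm N r R) :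
    Continuous fun x : ℝ × ℝ => EE N r (ex x.1) (ex x.2) := by
  rw [continuous_iff_continuousAt]
  intro x
  rw [ContinuousAt, tendsto_iff_norm_sub_tendsto_zero]
  have h1 : Tendsto (fun y : ℝ × ℝ => ‖ex y.1 - ex x.1‖ + ‖ex y.2 - ex x.2‖) (𝓝 x) (𝓝 0) := by
    have hc : Continuous fun y : ℝ × ℝ => ‖ex y.1 - ex x.1‖ + ‖ex y.2 - ex x.2‖ :=
      (((continuous_ex.comp continuous_fst).sub continuous_const).norm).add
        (((continuous_ex.comp continuous_snd).sub continuous_const).norm)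
    have := hc.tendsto x
    simpa using this
  exact squeeze_zero (fun y => norm_nonneg _) (fun y => h.EE_lip (ex_mem h.one_le _)
    (ex_mem h.one_le _) (ex_mem h.one_le _) (ex_mem h.one_le _)) h1

lemma q_contT {N : ℕ} {r : ℕ → ℝ} {T : Type*} [TopologicalSpace T] {U X : T → ℂ}
    (hU : Continuous U) (hX : Continuous X) (hU0 : ∀ z, U z ≠ 0) (hX0 : ∀ z, X z ≠ 0) :
    Continuous fun z => q N r (U z) (X z) := by
  unfold q PP PM
  have hUi : Continuous fun z => (U z)⁻¹ := hU.inv₀ hU0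
  have hXi : Continuous fun z => (X z)⁻¹ := hX.inv₀ hX0
  fun_prop

lemma chi_contT {N : ℕ} {r : ℕ → ℝ} {T : Type*} [TopologicalSpace T] {U X : T → ℂ}
    (hU : Continuous U) (hX : Continuous X) (hU0 : ∀ z, U z ≠ 0) (hX0 : ∀ z, X z ≠ 0) :
    Continuous fun z => chi N r (U z) (X z) := by
  unfold chi HH
  have hUi : Continuous fun z => (U z)⁻¹ := hU.inv₀ hU0
  have hXi : Continuous fun z => (X z)⁻¹ := hX.inv₀ hX0
  fun_prop

lemma Sm.mm_cont {N : ℕ} {r : ℕ → ℝ} {R : ℝ} (h : Sm N r R) :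
    Continuous fun x : ℝ × ℝ => mm N r (ex x.1) (ex x.2) := by
  have hU : Continuous fun x : ℝ × ℝ => ex x.1 := continuous_ex.comp continuous_fst
  have hw : Continuous fun x : ℝ × ℝ => ex x.2 := continuous_ex.comp continuous_snd
  have hE := h.EE_cont
  have hX := hw.mul hE
  have hU0 : ∀ x : ℝ × ℝ, ex x.1 ≠ 0 := fun x => ex_ne _
  have hX0 : ∀ x : ℝ × ℝ, ex x.2 * EE N r (ex x.1) (ex x.2) ≠ 0 := fun x =>
    An_ne (h.XE (ex_mem h.one_le _) (ex_mem h.one_le _))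
  have h1 := q_contT (N := N) (r := r) hU hX hU0 hX0
  have h2 : Continuous fun x : ℝ × ℝ => qs N r (ex x.1) (ex x.2 * EE N r (ex x.1) (ex x.2)) :=
    q_contT (N := N) (r := r) (hU.inv₀ hU0) (hX.inv₀ hX0) (fun x => inv_ne_zero (hU0 x))
      (fun x => inv_ne_zero (hX0 x))
  have h3 := chi_contT (N := N) (r := r) hU hX hU0 hX0
  unfold mm den
  exact (continuous_const.mul (h1.mul h2)).div ((h1.add h2).add h3)
    (fun x => h.den_ne (ex_mem h.one_le _) (ex_mem h.one_le _))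

lemma Sm.mm_slit {N : ℕ} {r : ℕ → ℝ} {R : ℝ} (h : Sm N r R) {U w : ℂ} (hU : U ∈ An R)
    (hw : w ∈ An R) : mm N r U w ∈ Complex.slitPlane := by
  have hz1 := h.mm_ball hU hw
  left
  have h4 := Complex.abs_re_le_norm (mm N r U w - 1)
  have h5 : (mm N r U w - 1).re = (mm N r U w).re - 1 := by simp
  rw [h5] at h4
  have := (abs_le.1 (h4.trans hz1)).1
  linarith

lemma Sm.MM_cont {N : ℕ} {r : ℕ → ℝ} {R : ℝ} (h : Sm N r R) (p : ℝ) :
    Continuous fun x : ℝ × ℝ => MM p N r (ex x.1) (ex x.2) := by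
  have hU : Continuous fun x : ℝ × ℝ => ex x.1 := continuous_ex.comp continuous_fst
  have hU0 : ∀ x : ℝ × ℝ, ex x.1 ≠ 0 := fun x => ex_ne _
  have hUi : Continuous fun x : ℝ × ℝ => (ex x.1)⁻¹ := hU.inv₀ hU0
  unfold MM rh
  have h1 : Continuous fun x : ℝ × ℝ => mm N r (ex x.1) (ex x.2) ^ (p : ℂ) :=
    h.mm_cont.cpow continuous_const (fun x => h.mm_slit (ex_mem h.one_le _) (ex_mem h.one_le _))
  fun_prop

/-- Theorem KT -/
theorem KT (hp1 : 1.9 < p) (hp2 : p < 2) (hJ : 1 ≤ J) (hr : ∀ i, J < i → r i = 0)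
    (hr' : ∀ i, J < i → r' i = 0) (hs : wt N r 1 ≤ 1 / 1000) (hs' : wt N r' 1 ≤ 1 / 1000)
    (m j : ℤ) :
    ‖fc (MM p N r) m j - fc (MM p N r') m j‖ ≤
      210 * wt N (fun i => r i - r' i) 1 * Real.exp (-(|(m : ℝ)| + |(j : ℝ)|) / (20 * J)) := by
  have hJ0 : (0 : ℝ) < J := by exact_mod_cast hJ
  set R' : ℝ := Real.exp (1 / (5 * J)) with hR'
  set κ : ℝ := 1 / (10 * J) with hκ
  have hκ0 : 0 ≤ κ := by positivity
  have hR1 : 1 ≤ R' := Real.one_le_exp (by positivity)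
  have hκR : Real.exp κ < R' := by
    apply Real.exp_lt_exp.2
    rw [hκ, div_lt_div_iff₀ (by positivity) (by positivity)]
    linarith
  have hS := Sm_of_small (N := N) hJ hr hs
  have hS' := Sm_of_small (N := N) hJ hr' hs'
  rw [← hR'] at hS hS'
  set Dl := wt N (fun i => r i - r' i) R' with hDl
  have hDl1 : Dl ≤ 3 * wt N (fun i => r i - r' i) 1 :=
    wt_scale hR1 (exp_pow_le hJ) (fun i hi => by rw [hr i hi, hr' i hi, sub_zero])
  set Ω : Set ℂ := {z | ‖z‖ < R' ∧ 1 < R' * ‖z‖} with hΩ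
  have hΩo : IsOpen Ω := by
    have h1 : IsOpen {z : ℂ | ‖z‖ < R'} := isOpen_lt (by fun_prop) continuous_const
    have h2 : IsOpen {z : ℂ | 1 < R' * ‖z‖} := isOpen_lt continuous_const (by fun_prop)
    exact h1.inter h2
  have hΩA : ∀ z ∈ Ω, z ∈ An R' := fun z hz => ⟨hz.1.le, hz.2.le⟩
  have hAΩ : An (Real.exp κ) ⊆ Ω := by
    rintro z ⟨h1, h2⟩
    have hz : 0 < ‖z‖ := norm_pos_iff.2 (An_ne ⟨h1, h2⟩)
    exact ⟨h1.trans_lt hκR, h2.trans_lt (mul_lt_mul_of_pos_right hκR hz)⟩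
  have hc := hS.MM_cont p
  have hc' := hS'.MM_cont p
  have hfc : fc (fun U w => MM p N r U w - MM p N r' U w) m j =
      fc (MM p N r) m j - fc (MM p N r') m j := by
    unfold fc
    rw [← mul_sub]
    congr 1
    have hcc : ∀ {G : ℂ → ℂ → ℂ} (hG : Continuous fun x : ℝ × ℝ => G (ex x.1) (ex x.2)),
        Continuous fun x : ℝ × ℝ => G (ex x.1) (ex x.2) * ex (-(m * x.1)) * ex (-(j * x.2)) :=
      fun hG => (hG.mul (continuous_ex_comp (by fun_prop))).mul (continuous_ex_comp (by fun_prop))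
    have c1 := hcc hc
    have c2 := hcc hc'
    rw [← intervalIntegral.integral_sub]
    · congr 1
      funext a
      rw [← intervalIntegral.integral_sub]
      · congr 1
        funext b
        ring
      · exact (c1.comp (Continuous.prodMk_right a)).intervalIntegrable _ _
      · exact (c2.comp (Continuous.prodMk_right a)).intervalIntegrable _ _
    · exact (intervalIntegral.continuous_parametric_intervalIntegral_of_continuous' c1 _ _
        ).intervalIntegrable _ _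
    · exact (intervalIntegral.continuous_parametric_intervalIntegral_of_continuous' c2 _ _
        ).intervalIntegrable _ _
  rw [← hfc]
  have h70 : (0 : ℝ) ≤ 70 * Dl := by
    have := wt_nonneg (N := N) (r := fun i => r i - r' i) (show 0 ≤ R' by linarith)
    linarith
  have hmain := fc_le' (G := fun U w => MM p N r U w - MM p N r' U w) (κ := κ) (B := 70 * Dl) hκ0
    (hc.sub hc') (fun b => ⟨Ω, hΩo, hAΩ, ?_, ?_⟩) (fun a => ⟨Ω, hΩo, hAΩ, ?_, ?_⟩) m j
  · refine hmain.trans ?_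
    have e : -(κ / 2) * (|(m : ℝ)| + |(j : ℝ)|) = -(|(m : ℝ)| + |(j : ℝ)|) / (20 * J) := by
      rw [hκ]
      field_simp
      ring
    rw [e]
    apply mul_le_mul_of_nonneg_right _ (Real.exp_pos _).le
    linarith
  · exact (hS.MM_diff hΩo differentiableOn_id (differentiableOn_const _) hΩA
      (fun z _ => ex_mem hR1 b)).sub (hS'.MM_diff hΩo differentiableOn_id (differentiableOn_const _)
      hΩA (fun z _ => ex_mem hR1 b))
  · intro z hz
    exact hS.MM_sub hp1 hp2 hS' (hΩA z (hAΩ hz)) (ex_mem hR1 b)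
  · exact (hS.MM_diff hΩo (differentiableOn_const _) differentiableOn_id
      (fun z _ => ex_mem hR1 a) hΩA).sub (hS'.MM_diff hΩo (differentiableOn_const _)
      differentiableOn_id (fun z _ => ex_mem hR1 a) hΩA)
  · intro z hz
    exact hS.MM_sub hp1 hp2 hS' (ex_mem hR1 a) (hΩA z (hAΩ hz))

end KT

end Pool.Agent.H65.RM
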