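import Mathlib

/-!
# RM module Jet: second order expansion of the kernel at the base body (paper, (6a)), algebraic part
-/

namespace Pool.Agent.H65.RM

section Ox

variable {ι : Type*} {x : ι → ℂ}

/-- `f = O(|x|^k)` uniformly -/
def Ox (x : ι → ℂ) (k : ℕ) (f : ι → ℂ) : Prop := ∃ C : ℝ, 0 ≤ C ∧ ∀ i, ‖f i‖ ≤ C * ‖x i‖ ^ k

lemma Ox.mul {a b : ℕ} {f g : ι → ℂ} (hf : Ox x a f) (hg : Ox x b g) :
    Ox x (a + b) (fun i => f i * g i) := by
  obtain ⟨C, hC, h1⟩ := hf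
  obtain ⟨D, hD, h2⟩ := hg
  refine ⟨C * D, by positivity, fun i => ?_⟩
  rw [norm_mul, pow_add]
  calc ‖f i‖ * ‖g i‖ ≤ (C * ‖x i‖ ^ a) * (D * ‖x i‖ ^ b) :=
        mul_le_mul (h1 i) (h2 i) (norm_nonneg _) (by positivity)
    _ = _ := by ring

lemma Ox.add {a : ℕ} {f g : ι → ℂ} (hf : Ox x a f) (hg : Ox x a g) :
    Ox x a (fun i => f i + g i) := by
  obtain ⟨C, hC, h1⟩ := hf
  obtain ⟨D, hD, h2⟩ := hg
  refine ⟨C + D, by positivity, fun i => ?_⟩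
  rw [add_mul]
  exact (norm_add_le _ _).trans (add_le_add (h1 i) (h2 i))

lemma Ox.neg {a : ℕ} {f : ι → ℂ} (hf : Ox x a f) : Ox x a (fun i => -f i) := by
  obtain ⟨C, hC, h1⟩ := hf
  exact ⟨C, hC, fun i => by rw [norm_neg]; exact h1 i⟩

lemma Ox.sub {a : ℕ} {f g : ι → ℂ} (hf : Ox x a f) (hg : Ox x a g) :
    Ox x a (fun i => f i - g i) := by
  have := hf.add hg.neg
  simpa only [sub_eq_add_neg] using this

lemma Ox.const (c : ℂ) : Ox x 0 (fun _ => c) := ⟨‖c‖, norm_nonneg _, fun _ => by simp⟩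

lemma Ox.self : Ox x 1 x := ⟨1, zero_le_one, fun i => by simp⟩

lemma Ox.mono (hx : ∀ i, ‖x i‖ ≤ 1) {a b : ℕ} (hab : b ≤ a) {f : ι → ℂ} (hf : Ox x a f) :
    Ox x b f := by
  obtain ⟨C, hC, h1⟩ := hf
  exact ⟨C, hC, fun i => (h1 i).trans
    (mul_le_mul_of_nonneg_left (pow_le_pow_of_le_one (norm_nonneg _) (hx i) hab) hC)⟩

lemma Ox.congr {a : ℕ} {f g : ι → ℂ} (hf : Ox x a f) (h : ∀ i, g i = f i) : Ox x a g := by
  have : g = f := funext h
  rwa [this]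

lemma Ox.smul {a : ℕ} {f : ι → ℂ} (c : ℂ) (hf : Ox x a f) : Ox x a (fun i => c * f i) := by
  have := (Ox.const (x := x) c).mul hf
  rwa [zero_add] at this

lemma Ox.mul0 {a : ℕ} {f g : ι → ℂ} (hf : Ox x 0 f) (hg : Ox x a g) :
    Ox x a (fun i => f i * g i) := by
  have := hf.mul hg
  rwa [zero_add] at this

lemma Ox.pow0 {f : ι → ℂ} (hf : Ox x 0 f) (n : ℕ) : Ox x 0 (fun i => f i ^ n) := by
  induction n with
  | zero => simpa using Ox.const (x := x) 1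
  | succ n ih => simpa only [pow_succ] using ih.mul0 hf

end Ox

section jets

/-- `(1 + X + X^2 + X^3 + X^4)/5` and so on, as functions of `U^2, V^2, X, Y` -/
noncomputable def jA (U V X Y : ℂ) : ℂ := U ^ 2 * (1 + X + X ^ 2 + X ^ 3 + X ^ 4) / 5 + V ^ 2 * (Y + Y ^ 2 + Y ^ 3) / 3

noncomputable def jB (U V X Y : ℂ) : ℂ :=
  (U ^ 2 * (-3 - 4 * X + 4 * X ^ 3 + 3 * X ^ 4) + V ^ 2 * (-3 - 4 * Y + 4 * Y ^ 3 + 3 * Y ^ 4)) / 15

/-- `X d/dX` of `jA` -/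
noncomputable def jA' (U V X Y : ℂ) : ℂ :=
  U ^ 2 * (X + 2 * X ^ 2 + 3 * X ^ 3 + 4 * X ^ 4) / 5 - V ^ 2 * (Y + 2 * Y ^ 2 + 3 * Y ^ 3) / 3

/-- `X d/dX` of `jB` -/
noncomputable def jB' (U V X Y : ℂ) : ℂ :=
  (U ^ 2 * (-4 * X + 12 * X ^ 3 + 12 * X ^ 4) - V ^ 2 * (-4 * Y + 12 * Y ^ 3 + 12 * Y ^ 4)) / 15

/-- first order kernel -/
noncomputable def N1 (U V w v : ℂ) : ℂ :=
  U ^ 2 * (7 / 5 + 4 / 5 * w + 8 / 15 * w ^ 2 + 4 / 15 * w ^ 3) +
    V ^ 2 * (7 / 5 + 4 / 5 * v + 8 / 15 * v ^ 2 + 4 / 15 * v ^ 3)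

/-- second order kernel -/
noncomputable def N2 (U V w v : ℂ) : ℂ :=
  U ^ 4 * (11 / 25 + 22 / 25 * w + 56 / 75 * w ^ 2 + 26 / 45 * w ^ 3 + 16 / 45 * w ^ 4 +
      26 / 225 * w ^ 5 - 8 / 225 * w ^ 6 - 2 / 25 * w ^ 7) +
    V ^ 4 * (11 / 25 + 22 / 25 * v + 56 / 75 * v ^ 2 + 26 / 45 * v ^ 3 + 16 / 45 * v ^ 4 +
      26 / 225 * v ^ 5 - 8 / 225 * v ^ 6 - 2 / 25 * v ^ 7) +
    12 / 25 * (w ^ 3 + v ^ 3) + 64 / 75 * (w ^ 2 + v ^ 2) + 52 / 45 * (w + v) + 46 / 45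

lemma N1_eq (U V w v : ℂ) :
    jA U V w v + jA V U v w - jB U V w v + (U ^ 2 + V ^ 2) = N1 U V w v := by
  unfold jA jB N1
  ring

lemma N2_eq {U V w v : ℂ} (hUV : U * V = 1) (hwv : w * v = 1) :
    ((jA U V w v + jA V U v w - jB U V w v) / 2) ^ 2 +
      2 * ((jA U V w v + jA V U v w - jB U V w v) / 2) * (U ^ 2 + V ^ 2) +
      (jA' U V w v - jA' V U v w - jB' U V w v) * (jA V U v w - jA U V w v) +
      2 * jA U V w v * jA V U v w -
      ((jA U V w v + jA V U v w) ^ 2 - jB U V w v ^ 2) / 2 = N2 U V w v := by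
  have hU : U ≠ 0 := by rintro rfl; simp at hUV
  have hw : w ≠ 0 := by rintro rfl; simp at hwv
  have hV : V = U⁻¹ := eq_inv_of_mul_eq_one_right hUV
  have hv : v = w⁻¹ := eq_inv_of_mul_eq_one_right hwv
  subst hV hv
  unfold jA jB jA' jB' N2
  field_simp
  ring

variable {ι : Type*} {x E F U V w v : ι → ℂ}

lemma Ox.jA (hU : Ox x 0 U) (hV : Ox x 0 V) {X Y : ι → ℂ} (hX : Ox x 0 X) (hY : Ox x 0 Y) :
    Ox x 0 (fun i => jA (U i) (V i) (X i) (Y i)) := by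
  have h1 : Ox x 0 (fun i => 1 + X i + X i ^ 2 + X i ^ 3 + X i ^ 4) :=
    ((((Ox.const 1).add hX).add (hX.pow0 2)).add (hX.pow0 3)).add (hX.pow0 4)
  have h2 : Ox x 0 (fun i => Y i + Y i ^ 2 + Y i ^ 3) := (hY.add (hY.pow0 2)).add (hY.pow0 3)
  have h3 := ((((hU.pow0 2).mul0 h1)).smul (1 / 5)).add ((((hV.pow0 2).mul0 h2)).smul (1 / 3))
  refine h3.congr fun i => ?_
  unfold RM.jA
  ring

lemma Ox.jB (hU : Ox x 0 U) (hV : Ox x 0 V) {X Y : ι → ℂ} (hX : Ox x 0 X) (hY : Ox x 0 Y) :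
    Ox x 0 (fun i => jB (U i) (V i) (X i) (Y i)) := by
  have h1 : ∀ {Z : ι → ℂ}, Ox x 0 Z → Ox x 0 (fun i => -3 - 4 * Z i + 4 * Z i ^ 3 + 3 * Z i ^ 4) :=
    fun hZ => (((Ox.const (-3)).sub (hZ.smul 4)).add ((hZ.pow0 3).smul 4)).add ((hZ.pow0 4).smul 3)
  have h3 := (((hU.pow0 2).mul0 (h1 hX)).add ((hV.pow0 2).mul0 (h1 hY))).smul (1 / 15)
  refine h3.congr fun i => ?_
  unfold RM.jB
  ring

lemma Ox.jA' (hU : Ox x 0 U) (hV : Ox x 0 V) {X Y : ι → ℂ} (hX : Ox x 0 X) (hY : Ox x 0 Y) :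
    Ox x 0 (fun i => jA' (U i) (V i) (X i) (Y i)) := by
  have h1 : Ox x 0 (fun i => X i + 2 * X i ^ 2 + 3 * X i ^ 3 + 4 * X i ^ 4) :=
    ((hX.add ((hX.pow0 2).smul 2)).add ((hX.pow0 3).smul 3)).add ((hX.pow0 4).smul 4)
  have h2 : Ox x 0 (fun i => Y i + 2 * Y i ^ 2 + 3 * Y i ^ 3) :=
    (hY.add ((hY.pow0 2).smul 2)).add ((hY.pow0 3).smul 3)
  have h3 := ((((hU.pow0 2).mul0 h1)).smul (1 / 5)).sub ((((hV.pow0 2).mul0 h2)).smul (1 / 3))
  refine h3.congr fun i => ?_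
  unfold RM.jA'
  ring

lemma Ox.jB' (hU : Ox x 0 U) (hV : Ox x 0 V) {X Y : ι → ℂ} (hX : Ox x 0 X) (hY : Ox x 0 Y) :
    Ox x 0 (fun i => jB' (U i) (V i) (X i) (Y i)) := by
  have h1 : ∀ {Z : ι → ℂ}, Ox x 0 Z → Ox x 0 (fun i => -4 * Z i + 12 * Z i ^ 3 + 12 * Z i ^ 4) :=
    fun hZ => ((hZ.smul (-4)).add ((hZ.pow0 3).smul 12)).add ((hZ.pow0 4).smul 12)
  have h3 := (((hU.pow0 2).mul0 (h1 hX)).sub ((hV.pow0 2).mul0 (h1 hY))).smul (1 / 15)
  refine h3.congr fun i => ?_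
  unfold RM.jB'
  ring

/-- Taylor formula for `jA` in the logarithmic variable -/
lemma jA_taylor (E F U V w v : ℂ) (hEF : E * F = 1) :
    jA U V (w * E) (v * F) - jA U V w v - jA' U V w v * (E - 1) =
      (E - 1) ^ 2 * (U ^ 2 * (w ^ 2 + w ^ 3 * (E + 2) + w ^ 4 * (E ^ 2 + 2 * E + 3)) / 5 +
        V ^ 2 * (v * F + v ^ 2 * (F ^ 2 + 2 * F) + v ^ 3 * (F ^ 3 + 2 * F ^ 2 + 3 * F)) / 3) := by
  have h1 : F - 1 + (E - 1) = (E - 1) ^ 2 * F := by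
    linear_combination (E - 2) * (-1 : ℂ) * hEF
  have h2 : F ^ 2 - 1 + 2 * (E - 1) = (E - 1) ^ 2 * (F ^ 2 + 2 * F) := by
    have e : E ^ 2 * F ^ 2 = 1 := by rw [← mul_pow, hEF, one_pow]
    have e2 : E * F ^ 2 = F := by rw [pow_two, ← mul_assoc, hEF, one_mul]
    have e3 : E ^ 2 * F = E := by rw [pow_two, mul_assoc, hEF, mul_one]
    linear_combination (-1 : ℂ) * e + 2 * e2 - 2 * e3 + 4 * hEF
  have h3 : F ^ 3 - 1 + 3 * (E - 1) = (E - 1) ^ 2 * (F ^ 3 + 2 * F ^ 2 + 3 * F) := by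
    have e1 : E * F ^ 3 = F ^ 2 := by
      calc E * F ^ 3 = (E * F) * F ^ 2 := by ring
        _ = _ := by rw [hEF, one_mul]
    have e2 : E ^ 2 * F ^ 3 = F := by
      calc E ^ 2 * F ^ 3 = (E * F) ^ 2 * F := by ring
        _ = _ := by rw [hEF, one_pow, one_mul]
    have e3 : E * F ^ 2 = F := by rw [pow_two, ← mul_assoc, hEF, one_mul]
    have e4 : E ^ 2 * F ^ 2 = 1 := by rw [← mul_pow, hEF, one_pow]
    have e5 : E ^ 2 * F = E := by rw [pow_two, mul_assoc, hEF, mul_one]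
    linear_combination 2 * e1 - e2 + 4 * e3 - 2 * e4 + 6 * hEF - 3 * e5
  unfold jA jA'
  linear_combination (V ^ 2 * v / 3) * h1 + (V ^ 2 * v ^ 2 / 3) * h2 + (V ^ 2 * v ^ 3 / 3) * h3

lemma jB_taylor (E F U V w v : ℂ) (hEF : E * F = 1) :
    jB U V (w * E) (v * F) - jB U V w v - jB' U V w v * (E - 1) =
      (E - 1) ^ 2 * (U ^ 2 * (4 * w ^ 3 * (E + 2) + 3 * w ^ 4 * (E ^ 2 + 2 * E + 3)) +
        V ^ 2 * (-4 * v * F + 4 * v ^ 3 * (F ^ 3 + 2 * F ^ 2 + 3 * F) +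
          3 * v ^ 4 * (F ^ 4 + 2 * F ^ 3 + 3 * F ^ 2 + 4 * F))) / 15 := by
  have h1 : F - 1 + (E - 1) = (E - 1) ^ 2 * F := by
    linear_combination (E - 2) * (-1 : ℂ) * hEF
  have e1 : E * F ^ 3 = F ^ 2 := by
    calc E * F ^ 3 = (E * F) * F ^ 2 := by ring
      _ = _ := by rw [hEF, one_mul]
  have e2 : E ^ 2 * F ^ 3 = F := by
    calc E ^ 2 * F ^ 3 = (E * F) ^ 2 * F := by ring
      _ = _ := by rw [hEF, one_pow, one_mul]
  have e3 : E * F ^ 2 = F := by rw [pow_two, ← mul_assoc, hEF, one_mul]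
  have e4 : E ^ 2 * F ^ 2 = 1 := by rw [← mul_pow, hEF, one_pow]
  have e5 : E ^ 2 * F = E := by rw [pow_two, mul_assoc, hEF, mul_one]
  have e6 : E * F ^ 4 = F ^ 3 := by
    calc E * F ^ 4 = (E * F) * F ^ 3 := by ring
      _ = _ := by rw [hEF, one_mul]
  have e7 : E ^ 2 * F ^ 4 = F ^ 2 := by
    calc E ^ 2 * F ^ 4 = (E * F) ^ 2 * F ^ 2 := by ring
      _ = _ := by rw [hEF, one_pow, one_mul]
  have h3 : F ^ 3 - 1 + 3 * (E - 1) = (E - 1) ^ 2 * (F ^ 3 + 2 * F ^ 2 + 3 * F) := by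
    linear_combination 2 * e1 - e2 + 4 * e3 - 2 * e4 + 6 * hEF - 3 * e5
  have h4 : F ^ 4 - 1 + 4 * (E - 1) = (E - 1) ^ 2 * (F ^ 4 + 2 * F ^ 3 + 3 * F ^ 2 + 4 * F) := by
    linear_combination 2 * e6 - e7 + 4 * e1 - 2 * e2 + 6 * e3 - 3 * e4 + 8 * hEF - 4 * e5
  unfold jB jB'
  linear_combination (-4 * V ^ 2 * v / 15) * h1 + (4 * V ^ 2 * v ^ 3 / 15) * h3 +
    (3 * V ^ 2 * v ^ 4 / 15) * h4

/-- (6a), algebraic form -/
theorem jets (hx1 : ∀ i, ‖x i‖ ≤ 1) (hU : Ox x 0 U) (hV : Ox x 0 V) (hw : Ox x 0 w)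
    (hv : Ox x 0 v) (hE : Ox x 0 E) (hF : Ox x 0 F) (hEF : ∀ i, E i * F i = 1)
    (hUV : ∀ i, U i * V i = 1) (hwv : ∀ i, w i * v i = 1)
    (fix : ∀ i, E i * (1 + x i * jA (U i) (V i) (w i * E i) (v i * F i)) =
      1 + x i * jA (V i) (U i) (v i * F i) (w i * E i))
    {D : ι → ℂ} (hD : Ox x 0 D)
    (hD' : ∀ i, D i * (2 + x i * (jA (U i) (V i) (w i * E i) (v i * F i) +
      jA (V i) (U i) (v i * F i) (w i * E i) + jB (U i) (V i) (w i * E i) (v i * F i))) = 1)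
    {m : ι → ℂ} (hm : ∀ i, m i = 2 * ((1 + x i * jA (U i) (V i) (w i * E i) (v i * F i)) *
      (1 + x i * jA (V i) (U i) (v i * F i) (w i * E i))) * D i) :
    Ox x 3 (fun i => m i ^ 2 * (1 + x i * (U i ^ 2 + V i ^ 2)) - 1 -
      x i * N1 (U i) (V i) (w i) (v i) - x i ^ 2 * N2 (U i) (V i) (w i) (v i)) := by
  set α : ι → ℂ := fun i => jA (U i) (V i) (w i * E i) (v i * F i) with hα
  set αs : ι → ℂ := fun i => jA (V i) (U i) (v i * F i) (w i * E i) with hαs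
  set β : ι → ℂ := fun i => jB (U i) (V i) (w i * E i) (v i * F i) with hβ
  set a : ι → ℂ := fun i => jA (U i) (V i) (w i) (v i) with ha
  set as : ι → ℂ := fun i => jA (V i) (U i) (v i) (w i) with has
  set b : ι → ℂ := fun i => jB (U i) (V i) (w i) (v i) with hb
  set a' : ι → ℂ := fun i => jA' (U i) (V i) (w i) (v i) with ha'
  set as' : ι → ℂ := fun i => jA' (V i) (U i) (v i) (w i) with has'
  set b' : ι → ℂ := fun i => jB' (U i) (V i) (w i) (v i) with hb'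
  have hwE := hw.mul0 hE
  have hvF := hv.mul0 hF
  have oα : Ox x 0 α := Ox.jA hU hV hwE hvF
  have oαs : Ox x 0 αs := Ox.jA hV hU hvF hwE
  have oβ : Ox x 0 β := Ox.jB hU hV hwE hvF
  have oa : Ox x 0 a := Ox.jA hU hV hw hv
  have oas : Ox x 0 as := Ox.jA hV hU hv hw
  have ob : Ox x 0 b := Ox.jB hU hV hw hv
  have oa' : Ox x 0 a' := Ox.jA' hU hV hw hv
  have oas' : Ox x 0 as' := Ox.jA' hV hU hv hw
  have ob' : Ox x 0 b' := Ox.jB' hU hV hw hv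
  have ox : Ox x 1 x := Ox.self
  -- E - 1 = O(x)
  have hδ : Ox x 1 (fun i => E i - 1) := by
    refine (ox.mul (oαs.sub (hE.mul0 oα))).congr fun i => ?_
    linear_combination fix i
  have hδδ : Ox x 2 (fun i => (E i - 1) ^ 2) := by
    refine (hδ.mul hδ).congr fun i => ?_
    ring
  -- remainder factors
  have r1 : Ox x 0 (fun i => U i ^ 2 * (w i ^ 2 + w i ^ 3 * (E i + 2) +
      w i ^ 4 * (E i ^ 2 + 2 * E i + 3)) / 5 + V i ^ 2 * (v i * F i + v i ^ 2 * (F i ^ 2 + 2 * F i) +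
      v i ^ 3 * (F i ^ 3 + 2 * F i ^ 2 + 3 * F i)) / 3) := by
    have g1 : Ox x 0 (fun i => w i ^ 2 + w i ^ 3 * (E i + 2) + w i ^ 4 * (E i ^ 2 + 2 * E i + 3)) :=
      ((hw.pow0 2).add ((hw.pow0 3).mul0 (hE.add (Ox.const 2)))).add
        ((hw.pow0 4).mul0 (((hE.pow0 2).add (hE.smul 2)).add (Ox.const 3)))
    have g2 : Ox x 0 (fun i => v i * F i + v i ^ 2 * (F i ^ 2 + 2 * F i) +
        v i ^ 3 * (F i ^ 3 + 2 * F i ^ 2 + 3 * F i)) :=
      (hvF.add ((hv.pow0 2).mul0 ((hF.pow0 2).add (hF.smul 2)))).add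
        ((hv.pow0 3).mul0 (((hF.pow0 3).add ((hF.pow0 2).smul 2)).add (hF.smul 3)))
    refine ((((hU.pow0 2).mul0 g1).smul (1 / 5)).add (((hV.pow0 2).mul0 g2).smul (1 / 3))).congr
      fun i => ?_
    ring
  have r2 : Ox x 0 (fun i => V i ^ 2 * (v i ^ 2 + v i ^ 3 * (F i + 2) +
      v i ^ 4 * (F i ^ 2 + 2 * F i + 3)) / 5 + U i ^ 2 * (w i * E i + w i ^ 2 * (E i ^ 2 + 2 * E i) +
      w i ^ 3 * (E i ^ 3 + 2 * E i ^ 2 + 3 * E i)) / 3) := by
    have g1 : Ox x 0 (fun i => v i ^ 2 + v i ^ 3 * (F i + 2) + v i ^ 4 * (F i ^ 2 + 2 * F i + 3)) :=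
      ((hv.pow0 2).add ((hv.pow0 3).mul0 (hF.add (Ox.const 2)))).add
        ((hv.pow0 4).mul0 (((hF.pow0 2).add (hF.smul 2)).add (Ox.const 3)))
    have g2 : Ox x 0 (fun i => w i * E i + w i ^ 2 * (E i ^ 2 + 2 * E i) +
        w i ^ 3 * (E i ^ 3 + 2 * E i ^ 2 + 3 * E i)) :=
      (hwE.add ((hw.pow0 2).mul0 ((hE.pow0 2).add (hE.smul 2)))).add
        ((hw.pow0 3).mul0 (((hE.pow0 3).add ((hE.pow0 2).smul 2)).add (hE.smul 3)))
    refine ((((hV.pow0 2).mul0 g1).smul (1 / 5)).add (((hU.pow0 2).mul0 g2).smul (1 / 3))).congr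
      fun i => ?_
    ring
  have r3 : Ox x 0 (fun i => (U i ^ 2 * (4 * w i ^ 3 * (E i + 2) +
      3 * w i ^ 4 * (E i ^ 2 + 2 * E i + 3)) +
        V i ^ 2 * (-4 * v i * F i + 4 * v i ^ 3 * (F i ^ 3 + 2 * F i ^ 2 + 3 * F i) +
          3 * v i ^ 4 * (F i ^ 4 + 2 * F i ^ 3 + 3 * F i ^ 2 + 4 * F i))) / 15) := by
    have g1 : Ox x 0 (fun i => 4 * (w i ^ 3 * (E i + 2)) + 3 * (w i ^ 4 * (E i ^ 2 + 2 * E i + 3))) :=
      (((hw.pow0 3).mul0 (hE.add (Ox.const 2))).smul 4).add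
        (((hw.pow0 4).mul0 (((hE.pow0 2).add (hE.smul 2)).add (Ox.const 3))).smul 3)
    have g2 : Ox x 0 (fun i => -4 * (v i * F i) + 4 * (v i ^ 3 * (F i ^ 3 + 2 * F i ^ 2 + 3 * F i)) +
          3 * (v i ^ 4 * (F i ^ 4 + 2 * F i ^ 3 + 3 * F i ^ 2 + 4 * F i))) :=
      ((hvF.smul (-4)).add (((hv.pow0 3).mul0
        (((hF.pow0 3).add ((hF.pow0 2).smul 2)).add (hF.smul 3))).smul 4)).add
        (((hv.pow0 4).mul0 ((((hF.pow0 4).add ((hF.pow0 3).smul 2)).add ((hF.pow0 2).smul 3)).add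
          (hF.smul 4))).smul 3)
    refine ((((hU.pow0 2).mul0 g1).add ((hV.pow0 2).mul0 g2)).smul (1 / 15)).congr fun i => ?_
    ring
  -- Taylor
  have t1 : Ox x 2 (fun i => α i - a i - a' i * (E i - 1)) := by
    refine (hδδ.mul r1).congr fun i => ?_
    have := jA_taylor (E i) (F i) (U i) (V i) (w i) (v i) (hEF i)
    simpa only [hα, ha, ha', add_zero] using this
  have hFδ : ∀ i, F i - 1 = -(E i - 1) + (E i - 1) ^ 2 * F i := fun i => by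
    linear_combination (2 - E i) * hEF i
  have hFδδ : ∀ i, (F i - 1) ^ 2 = (E i - 1) ^ 2 * F i ^ 2 := fun i => by
    have e4 : E i ^ 2 * F i ^ 2 = 1 := by rw [← mul_pow, hEF, one_pow]
    have e3 : E i * F i ^ 2 = F i := by rw [pow_two, ← mul_assoc, hEF, one_mul]
    linear_combination (-1 : ℂ) * e4 + 2 * e3
  have t2 : Ox x 2 (fun i => αs i - as i + as' i * (E i - 1)) := by
    have h1 := (hδδ.mul ((hF.pow0 2).mul0 r2)).add (hδδ.mul (hF.mul0 oas'))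
    refine h1.congr fun i => ?_
    have h2 := jA_taylor (F i) (E i) (V i) (U i) (v i) (w i) (by rw [mul_comm]; exact hEF i)
    rw [hFδδ i] at h2
    simp only [hαs, has, has']
    linear_combination h2 + jA' (V i) (U i) (v i) (w i) * hFδ i
  have t3 : Ox x 2 (fun i => β i - b i - b' i * (E i - 1)) := by
    refine (hδδ.mul r3).congr fun i => ?_
    have := jB_taylor (E i) (F i) (U i) (V i) (w i) (v i) (hEF i)
    simp only [hβ, hb, hb']
    rw [this]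
    ring
  -- first order
  have m1' := fun {f : ι → ℂ} (h : Ox x 2 f) => h.mono hx1 (show 1 ≤ 2 by norm_num)
  have u1 : Ox x 1 (fun i => α i - a i) := by
    refine ((m1' t1).add (oa'.mul0 hδ)).congr fun i => ?_
    ring
  have u2 : Ox x 1 (fun i => αs i - as i) := by
    refine ((m1' t2).sub (oas'.mul0 hδ)).congr fun i => ?_
    ring
  have u3 : Ox x 1 (fun i => β i - b i) := by
    refine ((m1' t3).add (ob'.mul0 hδ)).congr fun i => ?_
    ring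
  -- second order of E
  have hδ2 : Ox x 2 (fun i => E i - 1 - x i * (as i - a i)) := by
    have h1 := ox.mul ((u2.sub u1).sub (hδ.mul oα))
    refine h1.congr fun i => ?_
    have := fix i
    linear_combination fix i
  -- second order of α, αs, β
  have v1 : Ox x 2 (fun i => α i - a i - x i * (a' i * (as i - a i))) := by
    refine (t1.add (oa'.mul0 hδ2)).congr fun i => ?_
    ring
  have v2 : Ox x 2 (fun i => αs i - as i + x i * (as' i * (as i - a i))) := by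
    refine (t2.sub (oas'.mul0 hδ2)).congr fun i => ?_
    ring
  have v3 : Ox x 2 (fun i => β i - b i - x i * (b' i * (as i - a i))) := by
    refine (t3.add (ob'.mul0 hδ2)).congr fun i => ?_
    ring
  -- m
  set m1 : ι → ℂ := fun i => (a i + as i - b i) / 2 with hm1
  set s0 : ι → ℂ := fun i => (a i + as i + b i) / 2 with hs0
  set σ : ι → ℂ := fun i => (α i + αs i + β i) / 2 with hσ
  set m2 : ι → ℂ := fun i => (a' i - as' i - b' i) * (as i - a i) / 2 + a i * as i - m1 i * s0 i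
    with hm2
  have om1 : Ox x 0 m1 := by
    refine (((oa.add oas).sub ob).smul (1 / 2)).congr fun i => ?_
    rw [hm1]; ring
  have os0 : Ox x 0 s0 := by
    refine (((oa.add oas).add ob).smul (1 / 2)).congr fun i => ?_
    rw [hs0]; ring
  have oσ : Ox x 0 σ := by
    refine (((oα.add oαs).add oβ).smul (1 / 2)).congr fun i => ?_
    rw [hσ]; ring
  have om2 : Ox x 0 m2 := by
    refine ((((((oa'.sub oas').sub ob').mul0 (oas.sub oa)).smul (1 / 2)).add (oa.mul0 oas)).sub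
      (om1.mul0 os0)).congr fun i => ?_
    rw [hm2]; ring
  have hbr : Ox x 3 (fun i => (1 + x i * α i) * (1 + x i * αs i) -
      (1 + x i * m1 i + x i ^ 2 * m2 i) * (1 + x i * σ i)) := by
    have h1 : Ox x 3 (fun i => x i * (1 / 2 * ((α i - a i - x i * (a' i * (as i - a i))) +
        (αs i - as i + x i * (as' i * (as i - a i))) - (β i - b i - x i * (b' i * (as i - a i)))))) :=
      ox.mul (((v1.add v2).sub v3).smul (1 / 2))
    have h2 : Ox x 3 (fun i => (x i * x i) * (((α i - a i) * αs i + a i * (αs i - as i)) -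
        1 / 2 * (m1 i * (((α i - a i) + (αs i - as i)) + (β i - b i))))) :=
      (ox.mul ox).mul (((u1.mul oαs).add (oa.mul0 u2)).sub
        ((om1.mul0 ((u1.add u2).add u3)).smul (1 / 2)))
    have h3 : Ox x 3 (fun i => (x i * x i * x i) * (m2 i * σ i)) :=
      ((ox.mul ox).mul ox).mul (om2.mul0 oσ)
    refine ((h1.add h2).sub h3).congr fun i => ?_
    simp only [hm2, hσ, hs0]
    ring
  have he : Ox x 3 (fun i => m i - 1 - x i * m1 i - x i ^ 2 * m2 i) := by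
    have h1 := (hD.smul 2).mul0 hbr
    refine h1.congr fun i => ?_
    have h2 : D i * (2 + x i * (α i + αs i + β i)) = 1 := hD' i
    have h3 : 2 * D i * (1 + x i * σ i) = 1 := by
      rw [hσ]
      linear_combination h2
    have h4 : m i = 2 * ((1 + x i * α i) * (1 + x i * αs i)) * D i := hm i
    rw [h4]
    linear_combination (1 + x i * m1 i + x i ^ 2 * m2 i) * h3
  -- the square
  set S : ι → ℂ := fun i => U i ^ 2 + V i ^ 2 with hS
  have oS : Ox x 0 S := (hU.pow0 2).add (hV.pow0 2)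
  have om : Ox x 0 m := by
    have h1 : Ox x 0 (fun i => 1 + x i * α i) :=
      (Ox.const 1).add ((ox.mul oα).mono hx1 (Nat.zero_le _))
    have h2 : Ox x 0 (fun i => 1 + x i * αs i) :=
      (Ox.const 1).add ((ox.mul oαs).mono hx1 (Nat.zero_le _))
    exact (((h1.mul0 h2).smul 2).mul0 hD).congr hm
  have ox0 : Ox x 0 x := ox.mono hx1 (Nat.zero_le _)
  have hA1 : Ox x 3 (fun i => (m i - 1 - x i * m1 i - x i ^ 2 * m2 i) *
      ((m i + (1 + x i * m1 i + x i ^ 2 * m2 i)) * (1 + x i * S i))) :=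
    he.mul ((om.add (((Ox.const 1).add (ox0.mul0 om1)).add ((ox0.pow0 2).mul0 om2))).mul0
      ((Ox.const 1).add (ox0.mul0 oS)))
  have hA2 : Ox x 3 (fun i => (x i * x i * x i) * ((S i * (m1 i ^ 2 + 2 * m2 i) + 2 * (m1 i * m2 i)) +
      x i * (m2 i ^ 2 + 2 * (m1 i * m2 i) * S i) + x i ^ 2 * (m2 i ^ 2 * S i))) :=
    ((ox.mul ox).mul ox).mul ((((oS.mul0 ((om1.pow0 2).add (om2.smul 2))).add
      ((om1.mul0 om2).smul 2)).add (ox0.mul0 ((om2.pow0 2).add (((om1.mul0 om2).smul 2).mul0 oS)))).add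
      ((ox0.pow0 2).mul0 ((om2.pow0 2).mul0 oS)))
  refine (hA1.add hA2).congr fun i => ?_
  have e1 : N1 (U i) (V i) (w i) (v i) = 2 * m1 i + S i := by
    rw [← N1_eq]
    simp only [hm1, hS, ha, has, hb]
    ring
  have e2 : N2 (U i) (V i) (w i) (v i) = m1 i ^ 2 + 2 * m2 i + 2 * m1 i * S i := by
    rw [← N2_eq (hUV i) (hwv i)]
    simp only [hm1, hm2, hs0, hS, ha, has, hb, ha', has', hb']
    ring
  rw [e1, e2]
  simp only [hS]
  ring

end jets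

end Pool.Agent.H65.RM
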