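import Pool.Agent.H65.RM.Phi

/-!
# RM module Tor: torus integrals (paper, (4b) and (4c))
-/

open Filter Topology MeasureTheory intervalIntegral Asymptotics

namespace Pool.Agent.H65.RM

/-- `J` -/
noncomputable def JJ (p : ℝ) (K : ℕ) (A A' : ℝ → ℂ) : ℂ :=
  ∫ a in (0 : ℝ)..2 * Real.pi, ∫ b in (0 : ℝ)..2 * Real.pi, Ph p K (A b - A a) * (starRingEnd ℂ) (A' a) * A' b

/-- the double integral of `f Im(conj A'(a) Z) Im(conj Z A'(b))` -/
noncomputable def FF (p : ℝ) (K : ℕ) (A A' : ℝ → ℂ) : ℂ :=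
  ∫ a in (0 : ℝ)..2 * Real.pi, ∫ b in (0 : ℝ)..2 * Real.pi,
    ff p K (A b - A a) * (((starRingEnd ℂ) (A' a) * (A b - A a)).im : ℂ) * (((starRingEnd ℂ) (A b - A a) * A' b).im : ℂ)

section

variable {p : ℝ} {K : ℕ}

lemma im_mul_conj (z w : ℂ) : ((((starRingEnd ℂ) z * w).im : ℝ) : ℂ) = ((starRingEnd ℂ) z * w - z * (starRingEnd ℂ) w) / (2 * Complex.I) := by
  have h := Complex.sub_conj ((starRingEnd ℂ) z * w)
  rw [map_mul, Complex.conj_conj] at h
  rw [h]
  field_simp
  push_cast
  ring

lemma FF_integrand (Z a b : ℂ) :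
    ff p K Z * (((starRingEnd ℂ) a * Z).im : ℂ) * (((starRingEnd ℂ) Z * b).im : ℂ) =
      -(1 / 4) * ((starRingEnd ℂ) a * (Ph p K Z * b) - (starRingEnd ℂ) a * (gB p K Z * Z * (starRingEnd ℂ) b) -
        a * (gA p K Z * (starRingEnd ℂ) Z * b) + a * (Ph p K Z * (starRingEnd ℂ) b)) := by
  rw [im_mul_conj, im_mul_conj]
  unfold Ph gA gB
  have hI : (2 * Complex.I) * (2 * Complex.I) = -4 := by
    calc (2 * Complex.I) * (2 * Complex.I) = 4 * (Complex.I * Complex.I) := by ring
      _ = _ := by rw [Complex.I_mul_I]; ring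
  have h1 : ff p K Z * (((starRingEnd ℂ) a * Z - a * (starRingEnd ℂ) Z) / (2 * Complex.I)) *
      (((starRingEnd ℂ) Z * b - Z * (starRingEnd ℂ) b) / (2 * Complex.I)) =
      ff p K Z * ((starRingEnd ℂ) a * Z - a * (starRingEnd ℂ) Z) * ((starRingEnd ℂ) Z * b - Z * (starRingEnd ℂ) b) / ((2 * Complex.I) * (2 * Complex.I)) := by
    field_simp
  rw [h1, hI]
  ring

variable {A A' V V' : ℝ → ℂ}

/-- exchange of the two variables -/
lemma exch {F : ℝ → ℝ → ℂ} (hF : Continuous F.uncurry) :
    ∫ a in (0 : ℝ)..2 * Real.pi, ∫ b in (0 : ℝ)..2 * Real.pi, F a b =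
      ∫ a in (0 : ℝ)..2 * Real.pi, ∫ b in (0 : ℝ)..2 * Real.pi, F b a := by
  rw [swap_cont hF]

lemma cZ2 (h : Cv A A') : Continuous fun x : ℝ × ℝ => A x.2 - A x.1 :=
  (h.contA.comp continuous_snd).sub (h.contA.comp continuous_fst)

/-- (4b) -/
theorem FF_eq (hK : 1 ≤ K) (hp : 1 < p) (hpK : p / 2 ≠ K) (h : Cv A A') :
    FF p K A A' = -((p + 1) / 4) * (1 / (p / 2 + K) + 1 / (p / 2 - K)) * JJ p K A A' := by
  have hne1 : ((p : ℂ) / 2 + K) ≠ 0 := by
    have : (0 : ℝ) < p / 2 + K := by positivity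
    have h1 : ((p : ℂ) / 2 + K) = ((p / 2 + K : ℝ) : ℂ) := by push_cast; ring
    rw [h1]
    exact_mod_cast this.ne'
  have hne2 : ((p : ℂ) / 2 - K) ≠ 0 := by
    have h1 : ((p : ℂ) / 2 - K) = ((p / 2 - K : ℝ) : ℂ) := by push_cast; ring
    rw [h1]
    exact_mod_cast sub_ne_zero.2 hpK
  have cZ := cZ2 h
  have cP : Continuous fun x : ℝ × ℝ => Ph p K (A x.2 - A x.1) := (Ph_cont hK hp).comp cZ
  have cA'1 : Continuous fun x : ℝ × ℝ => A' x.1 := h.cont.comp continuous_fst
  have cA'2 : Continuous fun x : ℝ × ℝ => A' x.2 := h.cont.comp continuous_snd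
  have cA'1c : Continuous fun x : ℝ × ℝ => (starRingEnd ℂ) (A' x.1) := Complex.continuous_conj.comp cA'1
  have cA'2c : Continuous fun x : ℝ × ℝ => (starRingEnd ℂ) (A' x.2) := Complex.continuous_conj.comp cA'2
  -- inner integral
  have hin : ∀ a : ℝ, (∫ b in (0 : ℝ)..2 * Real.pi,
      ff p K (A b - A a) * (((starRingEnd ℂ) (A' a) * (A b - A a)).im : ℂ) * (((starRingEnd ℂ) (A b - A a) * A' b).im : ℂ)) =
      -((p + 1) / 4) * (1 / (p / 2 + K) * (∫ b in (0 : ℝ)..2 * Real.pi,
        Ph p K (A b - A a) * (starRingEnd ℂ) (A' a) * A' b) + 1 / (p / 2 - K) * (∫ b in (0 : ℝ)..2 * Real.pi,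
        Ph p K (A b - A a) * A' a * (starRingEnd ℂ) (A' b))) := by
    intro a
    have h2 := intL2 (A a) hK hp h
    have h3 := intL3 (A a) hK hp h
    set IP := ∫ b in (0 : ℝ)..2 * Real.pi, Ph p K (A b - A a) * A' b with hIP
    set IQ := ∫ b in (0 : ℝ)..2 * Real.pi, Ph p K (A b - A a) * (starRingEnd ℂ) (A' b) with hIQ
    set X := ∫ b in (0 : ℝ)..2 * Real.pi, gB p K (A b - A a) * (A b - A a) * (starRingEnd ℂ) (A' b) with hX
    set Y := ∫ b in (0 : ℝ)..2 * Real.pi, gA p K (A b - A a) * (starRingEnd ℂ) (A b - A a) * A' b with hY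
    have e1 : (∫ b in (0 : ℝ)..2 * Real.pi, Ph p K (A b - A a) * (starRingEnd ℂ) (A' a) * A' b) =
        (starRingEnd ℂ) (A' a) * IP := by
      rw [hIP, ← intervalIntegral.integral_const_mul]
      congr 1
      funext b
      ring
    have e2 : (∫ b in (0 : ℝ)..2 * Real.pi, Ph p K (A b - A a) * A' a * (starRingEnd ℂ) (A' b)) =
        A' a * IQ := by
      rw [hIQ, ← intervalIntegral.integral_const_mul]
      congr 1
      funext b
      ring
    have cZa : Continuous fun b => A b - A a := h.contA.sub continuous_const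
    have cZa' : Continuous fun b => (starRingEnd ℂ) (A b - A a) := Complex.continuous_conj.comp cZa
    have cPa : Continuous fun b => Ph p K (A b - A a) := (Ph_cont hK hp).comp cZa
    have cAa : Continuous fun b => gA p K (A b - A a) := (gA_cont hK hp).comp cZa
    have cBa : Continuous fun b => gB p K (A b - A a) := (gB_cont hK hp).comp cZa
    have cc : Continuous fun b => (starRingEnd ℂ) (A' b) := Complex.continuous_conj.comp h.cont
    have i1 : IntervalIntegrable (fun b => (starRingEnd ℂ) (A' a) * (Ph p K (A b - A a) * A' b)) volume 0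
        (2 * Real.pi) := (continuous_const.mul (cPa.mul h.cont)).intervalIntegrable _ _
    have i2 : IntervalIntegrable (fun b => (starRingEnd ℂ) (A' a) * (gB p K (A b - A a) * (A b - A a) * (starRingEnd ℂ) (A' b)))
        volume 0 (2 * Real.pi) :=
      (continuous_const.mul ((cBa.mul cZa).mul cc)).intervalIntegrable _ _
    have i3 : IntervalIntegrable (fun b => A' a * (gA p K (A b - A a) * (starRingEnd ℂ) (A b - A a) * A' b))
        volume 0 (2 * Real.pi) :=
      (continuous_const.mul ((cAa.mul cZa').mul h.cont)).intervalIntegrable _ _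
    have i4 : IntervalIntegrable (fun b => A' a * (Ph p K (A b - A a) * (starRingEnd ℂ) (A' b)))
        volume 0 (2 * Real.pi) := (continuous_const.mul (cPa.mul cc)).intervalIntegrable _ _
    rw [e1, e2]
    have e3 : (∫ b in (0 : ℝ)..2 * Real.pi,
        ff p K (A b - A a) * (((starRingEnd ℂ) (A' a) * (A b - A a)).im : ℂ) *
          (((starRingEnd ℂ) (A b - A a) * A' b).im : ℂ)) =
        -(1 / 4) * ((starRingEnd ℂ) (A' a) * IP - (starRingEnd ℂ) (A' a) * X - A' a * Y + A' a * IQ) := by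
      simp only [FF_integrand]
      rw [intervalIntegral.integral_const_mul, intervalIntegral.integral_add ((i1.sub i2).sub i3) i4,
        intervalIntegral.integral_sub (i1.sub i2) i3, intervalIntegral.integral_sub i1 i2,
        intervalIntegral.integral_const_mul, intervalIntegral.integral_const_mul,
        intervalIntegral.integral_const_mul, intervalIntegral.integral_const_mul]
    rw [e3]
    have hX' : X = -((p / 2 - K + 1) / (p / 2 + K)) * IP := by
      have h2' : (p / 2 + K : ℂ) * X = -((p / 2 - K + 1) * IP) := by linear_combination h2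
      have : X = (p / 2 + K : ℂ)⁻¹ * ((p / 2 + K : ℂ) * X) := by
        rw [← mul_assoc, inv_mul_cancel₀ hne1, one_mul]
      rw [this, h2']
      ring
    have hY' : Y = -((p / 2 + K + 1) / (p / 2 - K)) * IQ := by
      have h3' : (p / 2 - K : ℂ) * Y = -((p / 2 + K + 1) * IQ) := by linear_combination h3
      have : Y = (p / 2 - K : ℂ)⁻¹ * ((p / 2 - K : ℂ) * Y) := by
        rw [← mul_assoc, inv_mul_cancel₀ hne2, one_mul]
      rw [this, h3']
      ring
    rw [hX', hY']
    have e4 : (1 : ℂ) / (p / 2 + K) * (p / 2 + K) = 1 := one_div_mul_cancel hne1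
    have e5 : (1 : ℂ) / (p / 2 - K) * (p / 2 - K) = 1 := one_div_mul_cancel hne2
    have e6 : ((p : ℂ) / 2 - K + 1) / (p / 2 + K) = (p + 1) * (1 / (p / 2 + K)) - 1 := by
      linear_combination (-1 : ℂ) * e4
    have e7 : ((p : ℂ) / 2 + K + 1) / (p / 2 - K) = (p + 1) * (1 / (p / 2 - K)) - 1 := by
      linear_combination (-1 : ℂ) * e5
    rw [e6, e7]
    ring
  unfold FF
  simp only [hin]
  rw [intervalIntegral.integral_const_mul, intervalIntegral.integral_add,
    intervalIntegral.integral_const_mul, intervalIntegral.integral_const_mul]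
  · have e8 : (∫ a in (0 : ℝ)..2 * Real.pi, ∫ b in (0 : ℝ)..2 * Real.pi,
        Ph p K (A b - A a) * A' a * (starRingEnd ℂ) (A' b)) = JJ p K A A' := by
      unfold JJ
      rw [exch (F := fun a b => Ph p K (A b - A a) * A' a * (starRingEnd ℂ) (A' b)) ((cP.mul cA'1).mul cA'2c)]
      congr 1
      funext a
      congr 1
      funext b
      rw [← Ph_neg, neg_sub]
      ring
    rw [e8]
    unfold JJ
    ring
  · apply Continuous.intervalIntegrable
    apply continuous_const.mul
    exact intervalIntegral.continuous_parametric_intervalIntegral_of_continuous'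
      (f := fun a b => Ph p K (A b - A a) * (starRingEnd ℂ) (A' a) * A' b) ((cP.mul cA'1c).mul cA'2) _ _
  · apply Continuous.intervalIntegrable
    apply continuous_const.mul
    exact intervalIntegral.continuous_parametric_intervalIntegral_of_continuous'
      (f := fun a b => Ph p K (A b - A a) * A' a * (starRingEnd ℂ) (A' b)) ((cP.mul cA'1).mul cA'2c) _ _

/-! ## the variation -/

/-- `∫ w(a) ∫ f(Z) Im(conj Z A'(b)) db da` -/
noncomputable def LL (p : ℝ) (K : ℕ) (A A' : ℝ → ℂ) (w : ℝ → ℝ) : ℂ :=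
  ∫ a in (0 : ℝ)..2 * Real.pi, (w a : ℂ) * ∫ b in (0 : ℝ)..2 * Real.pi,
    ff p K (A b - A a) * (((starRingEnd ℂ) (A b - A a) * A' b).im : ℂ)

/-- the derivative of the integrand of `J` in the direction `V` -/
noncomputable def dG (p : ℝ) (K : ℕ) (A A' V V' : ℝ → ℂ) (a b : ℝ) : ℂ :=
  ((p / 2 - K) * gA p K (A b - A a) * (V b - V a) +
      (p / 2 + K) * gB p K (A b - A a) * (starRingEnd ℂ) (V b - V a)) * (starRingEnd ℂ) (A' a) * A' b +
    Ph p K (A b - A a) * (starRingEnd ℂ) (V' a) * A' b + Ph p K (A b - A a) * (starRingEnd ℂ) (A' a) * V' b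

/-- (4c), the double integral of the derivative -/
theorem dG_int (hK : 1 ≤ K) (hp : 1 < p) (h : Cv A A') (hV : Cv V V') :
    ∫ a in (0 : ℝ)..2 * Real.pi, ∫ b in (0 : ℝ)..2 * Real.pi, dG p K A A' V V' a b =
      4 * (K ^ 2 - (p / 2) ^ 2) / (p / 2) * LL p K A A' (fun a => (A' a * (starRingEnd ℂ) (V a)).im) := by
  have hne1 : ((p : ℂ) / 2 + K) ≠ 0 := by
    have : (0 : ℝ) < p / 2 + K := by positivity
    have h1 : ((p : ℂ) / 2 + K) = ((p / 2 + K : ℝ) : ℂ) := by push_cast; ring
    rw [h1]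
    exact_mod_cast this.ne'
  have hne3 : (p : ℂ) ≠ 0 := by
    have : p ≠ 0 := by linarith
    exact_mod_cast this
  have cZ := cZ2 h
  have cP : Continuous fun x : ℝ × ℝ => Ph p K (A x.2 - A x.1) := (Ph_cont hK hp).comp cZ
  have cA : Continuous fun x : ℝ × ℝ => gA p K (A x.2 - A x.1) := (gA_cont hK hp).comp cZ
  have cB : Continuous fun x : ℝ × ℝ => gB p K (A x.2 - A x.1) := (gB_cont hK hp).comp cZ
  have c1 : Continuous fun x : ℝ × ℝ => A' x.1 := h.cont.comp continuous_fst
  have c2 : Continuous fun x : ℝ × ℝ => A' x.2 := h.cont.comp continuous_snd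
  have c1c : Continuous fun x : ℝ × ℝ => (starRingEnd ℂ) (A' x.1) := Complex.continuous_conj.comp c1
  have c2c : Continuous fun x : ℝ × ℝ => (starRingEnd ℂ) (A' x.2) := Complex.continuous_conj.comp c2
  have v1 : Continuous fun x : ℝ × ℝ => V x.1 := hV.contA.comp continuous_fst
  have v2 : Continuous fun x : ℝ × ℝ => V x.2 := hV.contA.comp continuous_snd
  have v1c : Continuous fun x : ℝ × ℝ => (starRingEnd ℂ) (V x.1) := Complex.continuous_conj.comp v1
  have v2c : Continuous fun x : ℝ × ℝ => (starRingEnd ℂ) (V x.2) := Complex.continuous_conj.comp v2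
  have w1 : Continuous fun x : ℝ × ℝ => V' x.1 := hV.cont.comp continuous_fst
  have w2 : Continuous fun x : ℝ × ℝ => V' x.2 := hV.cont.comp continuous_snd
  have w1c : Continuous fun x : ℝ × ℝ => (starRingEnd ℂ) (V' x.1) := Complex.continuous_conj.comp w1
  -- (i)
  have hi : ∀ a : ℝ, (∫ b in (0 : ℝ)..2 * Real.pi, Ph p K (A b - A a) * (starRingEnd ℂ) (A' a) * V' b) =
      ∫ b in (0 : ℝ)..2 * Real.pi, -((((p / 2 - K) * gA p K (A b - A a) * A' b +
        (p / 2 + K) * gB p K (A b - A a) * (starRingEnd ℂ) (A' b))) * (starRingEnd ℂ) (A' a) * V b) := by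
    intro a
    have cZa : Continuous fun b => A b - A a := h.contA.sub continuous_const
    have cPa : Continuous fun b => Ph p K (A b - A a) := (Ph_cont hK hp).comp cZa
    have cAa : Continuous fun b => gA p K (A b - A a) := (gA_cont hK hp).comp cZa
    have cBa : Continuous fun b => gB p K (A b - A a) := (gB_cont hK hp).comp cZa
    have cc : Continuous fun b => (starRingEnd ℂ) (A' b) := Complex.continuous_conj.comp h.cont
    have hd : ∀ θ, HasDerivAt (fun b => Ph p K (A b - A a) * (starRingEnd ℂ) (A' a) * V b)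
        (((p / 2 - K) * gA p K (A θ - A a) * A' θ + (p / 2 + K) * gB p K (A θ - A a) * (starRingEnd ℂ) (A' θ)) *
          (starRingEnd ℂ) (A' a) * V θ + Ph p K (A θ - A a) * (starRingEnd ℂ) (A' a) * V' θ) θ :=
      fun θ => ((Ph_deriv hK hp (cv_sub (A a) h θ)).mul_const _).mul (hV.der θ)
    have k1 : Continuous fun θ => ((p / 2 - K) * gA p K (A θ - A a) * A' θ +
        (p / 2 + K) * gB p K (A θ - A a) * (starRingEnd ℂ) (A' θ)) * (starRingEnd ℂ) (A' a) * V θ :=
      ((((continuous_const.mul cAa).mul h.cont).add ((continuous_const.mul cBa).mul cc)).mul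
        continuous_const).mul hV.contA
    have k2 : Continuous fun θ => Ph p K (A θ - A a) * (starRingEnd ℂ) (A' a) * V' θ :=
      (cPa.mul continuous_const).mul hV.cont
    have h0 := int_deriv_zero hd (k1.add k2) (by simp only [h.end, hV.end])
    rw [intervalIntegral.integral_add (k1.intervalIntegrable _ _) (k2.intervalIntegrable _ _)] at h0
    rw [intervalIntegral.integral_neg]
    linear_combination h0
  -- (ii)
  have hii : ∀ b : ℝ, (∫ a in (0 : ℝ)..2 * Real.pi, Ph p K (A b - A a) * (starRingEnd ℂ) (V' a) * A' b) =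
      ∫ a in (0 : ℝ)..2 * Real.pi, (((p / 2 - K) * gA p K (A b - A a) * A' a +
        (p / 2 + K) * gB p K (A b - A a) * (starRingEnd ℂ) (A' a))) * (starRingEnd ℂ) (V a) * A' b := by
    intro b
    have cZa : Continuous fun a => A b - A a := continuous_const.sub h.contA
    have cPa : Continuous fun a => Ph p K (A b - A a) := (Ph_cont hK hp).comp cZa
    have cAa : Continuous fun a => gA p K (A b - A a) := (gA_cont hK hp).comp cZa
    have cBa : Continuous fun a => gB p K (A b - A a) := (gB_cont hK hp).comp cZa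
    have cc : Continuous fun b => (starRingEnd ℂ) (A' b) := Complex.continuous_conj.comp h.cont
    have cv : Continuous fun b => (starRingEnd ℂ) (V b) := Complex.continuous_conj.comp hV.contA
    have cv' : Continuous fun b => (starRingEnd ℂ) (V' b) := Complex.continuous_conj.comp hV.cont
    have hd : ∀ θ, HasDerivAt (fun a => Ph p K (A b - A a) * (starRingEnd ℂ) (V a) * A' b)
        ((((p / 2 - K) * gA p K (A b - A θ) * (-A' θ) +
          (p / 2 + K) * gB p K (A b - A θ) * (starRingEnd ℂ) (-A' θ)) * (starRingEnd ℂ) (V θ) +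
          Ph p K (A b - A θ) * (starRingEnd ℂ) (V' θ)) * A' b) θ :=
      fun θ => ((Ph_deriv hK hp ((h.der θ).const_sub (A b))).mul (cv_conj (hV.der θ))).mul_const _
    have k1 : Continuous fun θ => ((p / 2 - K) * gA p K (A b - A θ) * A' θ +
        (p / 2 + K) * gB p K (A b - A θ) * (starRingEnd ℂ) (A' θ)) * (starRingEnd ℂ) (V θ) * A' b :=
      ((((continuous_const.mul cAa).mul h.cont).add ((continuous_const.mul cBa).mul cc)).mul
        cv).mul continuous_const
    have k2 : Continuous fun θ => Ph p K (A b - A θ) * (starRingEnd ℂ) (V' θ) * A' b :=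
      (cPa.mul cv').mul continuous_const
    have e0 : (fun θ => (((p / 2 - K) * gA p K (A b - A θ) * (-A' θ) +
          (p / 2 + K) * gB p K (A b - A θ) * (starRingEnd ℂ) (-A' θ)) * (starRingEnd ℂ) (V θ) +
          Ph p K (A b - A θ) * (starRingEnd ℂ) (V' θ)) * A' b) =
        fun θ => Ph p K (A b - A θ) * (starRingEnd ℂ) (V' θ) * A' b - ((p / 2 - K) * gA p K (A b - A θ) * A' θ +
        (p / 2 + K) * gB p K (A b - A θ) * (starRingEnd ℂ) (A' θ)) * (starRingEnd ℂ) (V θ) * A' b := by
      funext θ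
      rw [map_neg]
      ring
    have h0 := int_deriv_zero hd (by rw [e0]; exact k2.sub k1) (by simp only [h.end, hV.end])
    rw [e0, intervalIntegral.integral_sub (k2.intervalIntegrable _ _) (k1.intervalIntegrable _ _)] at h0
    linear_combination h0
  -- notation for the pieces
  set T1 : ℝ → ℝ → ℂ := fun a b => ((p / 2 - K) * gA p K (A b - A a) * (V b - V a) +
      (p / 2 + K) * gB p K (A b - A a) * (starRingEnd ℂ) (V b - V a)) * (starRingEnd ℂ) (A' a) * A' b with hT1
  set T2 : ℝ → ℝ → ℂ := fun a b => Ph p K (A b - A a) * (starRingEnd ℂ) (V' a) * A' b with hT2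
  set T3 : ℝ → ℝ → ℂ := fun a b => Ph p K (A b - A a) * (starRingEnd ℂ) (A' a) * V' b with hT3
  set T2' : ℝ → ℝ → ℂ := fun a b => (((p / 2 - K) * gA p K (A b - A a) * A' a +
        (p / 2 + K) * gB p K (A b - A a) * (starRingEnd ℂ) (A' a))) * (starRingEnd ℂ) (V a) * A' b with hT2'
  set T3' : ℝ → ℝ → ℂ := fun a b => -((((p / 2 - K) * gA p K (A b - A a) * A' b +
        (p / 2 + K) * gB p K (A b - A a) * (starRingEnd ℂ) (A' b))) * (starRingEnd ℂ) (A' a) * V b) with hT3'
  set u : ℝ → ℂ := fun a => A' a * (starRingEnd ℂ) (V a) - V a * (starRingEnd ℂ) (A' a) with hu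
  set H1 : ℝ → ℝ → ℂ := fun a b => (p / 2 - K) * gA p K (A b - A a) * A' b * u a with hH1
  set H2 : ℝ → ℝ → ℂ := fun a b => (p / 2 + K) * gB p K (A b - A a) * (starRingEnd ℂ) (A' a) * u b with hH2
  have cT1 : Continuous T1.uncurry :=
    ((((continuous_const.mul cA).mul (v2.sub v1)).add ((continuous_const.mul cB).mul
      (Complex.continuous_conj.comp (v2.sub v1)))).mul c1c).mul c2
  have cT2 : Continuous T2.uncurry := (cP.mul w1c).mul c2
  have cT3 : Continuous T3.uncurry := (cP.mul c1c).mul w2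
  have cT2' : Continuous T2'.uncurry :=
    ((((continuous_const.mul cA).mul c1).add ((continuous_const.mul cB).mul c1c)).mul v1c).mul c2
  have cT3' : Continuous T3'.uncurry :=
    (((((continuous_const.mul cA).mul c2).add ((continuous_const.mul cB).mul c2c)).mul c1c).mul v2).neg
  have cu : Continuous u :=
    (h.cont.mul (Complex.continuous_conj.comp hV.contA)).sub
      (hV.contA.mul (Complex.continuous_conj.comp h.cont))
  have cu1 : Continuous fun x : ℝ × ℝ => u x.1 := cu.comp continuous_fst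
  have cu2 : Continuous fun x : ℝ × ℝ => u x.2 := cu.comp continuous_snd
  have cH1 : Continuous H1.uncurry := ((continuous_const.mul cA).mul c2).mul cu1
  have cH2 : Continuous H2.uncurry := ((continuous_const.mul cB).mul c1c).mul cu2
  have par : ∀ {F : ℝ → ℝ → ℂ}, Continuous F.uncurry →
      IntervalIntegrable (fun a => ∫ b in (0 : ℝ)..2 * Real.pi, F a b) volume 0 (2 * Real.pi) :=
    fun hF => (intervalIntegral.continuous_parametric_intervalIntegral_of_continuous' hF _ _
      ).intervalIntegrable _ _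
  have sl : ∀ {F : ℝ → ℝ → ℂ}, Continuous F.uncurry → ∀ a,
      IntervalIntegrable (fun b => F a b) volume 0 (2 * Real.pi) :=
    fun hF a => (hF.comp (Continuous.prodMk_right a)).intervalIntegrable _ _
  have add2 : ∀ {F G : ℝ → ℝ → ℂ}, Continuous F.uncurry → Continuous G.uncurry →
      (∫ a in (0 : ℝ)..2 * Real.pi, ∫ b in (0 : ℝ)..2 * Real.pi, (F a b + G a b)) =
      (∫ a in (0 : ℝ)..2 * Real.pi, ∫ b in (0 : ℝ)..2 * Real.pi, F a b) +
      ∫ a in (0 : ℝ)..2 * Real.pi, ∫ b in (0 : ℝ)..2 * Real.pi, G a b := by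
    intro F G hF hG
    rw [← intervalIntegral.integral_add (par hF) (par hG)]
    congr 1
    funext a
    rw [intervalIntegral.integral_add (sl hF a) (sl hG a)]
  have step1 : (∫ a in (0 : ℝ)..2 * Real.pi, ∫ b in (0 : ℝ)..2 * Real.pi, dG p K A A' V V' a b) =
      ∫ a in (0 : ℝ)..2 * Real.pi, ∫ b in (0 : ℝ)..2 * Real.pi, (H1 a b + H2 a b) := by
    have a1 : (∫ a in (0 : ℝ)..2 * Real.pi, ∫ b in (0 : ℝ)..2 * Real.pi, dG p K A A' V V' a b) =
        (∫ a in (0 : ℝ)..2 * Real.pi, ∫ b in (0 : ℝ)..2 * Real.pi, T1 a b) +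
        (∫ a in (0 : ℝ)..2 * Real.pi, ∫ b in (0 : ℝ)..2 * Real.pi, T2 a b) +
        ∫ a in (0 : ℝ)..2 * Real.pi, ∫ b in (0 : ℝ)..2 * Real.pi, T3 a b := by
      rw [← add2 cT1 cT2, ← add2 (F := fun a b => T1 a b + T2 a b) (cT1.add cT2) cT3]
      rfl
    have a2 : (∫ a in (0 : ℝ)..2 * Real.pi, ∫ b in (0 : ℝ)..2 * Real.pi, T3 a b) =
        ∫ a in (0 : ℝ)..2 * Real.pi, ∫ b in (0 : ℝ)..2 * Real.pi, T3' a b := by
      congr 1
      funext a
      exact hi a
    have a3 : (∫ a in (0 : ℝ)..2 * Real.pi, ∫ b in (0 : ℝ)..2 * Real.pi, T2 a b) =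
        ∫ a in (0 : ℝ)..2 * Real.pi, ∫ b in (0 : ℝ)..2 * Real.pi, T2' a b := by
      rw [swap_cont cT2, swap_cont cT2']
      congr 1
      funext b
      exact hii b
    rw [a1, a2, a3, ← add2 cT1 cT2', ← add2 (F := fun a b => T1 a b + T2' a b) (cT1.add cT2') cT3']
    congr 1
    funext a
    congr 1
    funext b
    rw [hT1, hT2', hT3', hH1, hH2, hu]
    simp only [map_sub]
    ring
  have step2 : (∫ a in (0 : ℝ)..2 * Real.pi, ∫ b in (0 : ℝ)..2 * Real.pi, H2 a b) =
      ∫ a in (0 : ℝ)..2 * Real.pi, ∫ b in (0 : ℝ)..2 * Real.pi,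
        -((p / 2 + K) * gB p K (A b - A a) * (starRingEnd ℂ) (A' b) * u a) := by
    rw [exch cH2]
    congr 1
    funext a
    congr 1
    funext b
    have : gB p K (A a - A b) = -gB p K (A b - A a) := by rw [← gB_neg, neg_sub]
    rw [hH2]
    simp only
    rw [this]
    ring
  rw [step1, add2 cH1 cH2, step2]
  have cH2' : Continuous (Function.uncurry fun a b : ℝ =>
      -((p / 2 + K) * gB p K (A b - A a) * (starRingEnd ℂ) (A' b) * u a)) :=
    (((continuous_const.mul cB).mul c2c).mul cu1).neg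
  rw [← add2 cH1 cH2']
  unfold LL
  rw [← intervalIntegral.integral_const_mul]
  congr 1
  funext a
  have hL := intL1 (A a) hK hp h
  set S := ∫ b in (0 : ℝ)..2 * Real.pi, gA p K (A b - A a) * A' b with hS
  set T := ∫ b in (0 : ℝ)..2 * Real.pi, gB p K (A b - A a) * (starRingEnd ℂ) (A' b) with hT
  have cZa : Continuous fun b => A b - A a := h.contA.sub continuous_const
  have cAa : Continuous fun b => gA p K (A b - A a) := (gA_cont hK hp).comp cZa
  have cBa : Continuous fun b => gB p K (A b - A a) := (gB_cont hK hp).comp cZa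
  have cc : Continuous fun b => (starRingEnd ℂ) (A' b) := Complex.continuous_conj.comp h.cont
  have e1 : (∫ b in (0 : ℝ)..2 * Real.pi, (H1 a b +
      -((p / 2 + K) * gB p K (A b - A a) * (starRingEnd ℂ) (A' b) * u a))) =
      u a * ((p / 2 - K) * S - (p / 2 + K) * T) := by
    rw [hS, hT, ← intervalIntegral.integral_const_mul, ← intervalIntegral.integral_const_mul,
      ← intervalIntegral.integral_sub, ← intervalIntegral.integral_const_mul]
    · congr 1
      funext b
      rw [hH1]
      ring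
    · exact (continuous_const.mul (cAa.mul h.cont)).intervalIntegrable _ _
    · exact (continuous_const.mul (cBa.mul cc)).intervalIntegrable _ _
  have e2 : (∫ b in (0 : ℝ)..2 * Real.pi,
      ff p K (A b - A a) * (((starRingEnd ℂ) (A b - A a) * A' b).im : ℂ)) = (S - T) / (2 * Complex.I) := by
    have j1 : IntervalIntegrable (fun b => gA p K (A b - A a) * A' b) volume 0 (2 * Real.pi) :=
      (cAa.mul h.cont).intervalIntegrable _ _
    have j2 : IntervalIntegrable (fun b => gB p K (A b - A a) * (starRingEnd ℂ) (A' b)) volume 0 (2 * Real.pi) :=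
      (cBa.mul cc).intervalIntegrable _ _
    rw [hS, hT, ← intervalIntegral.integral_sub j1 j2, ← intervalIntegral.integral_div]
    congr 1
    funext b
    rw [im_mul_conj]
    unfold gA gB
    ring
  have e3 : (((A' a * (starRingEnd ℂ) (V a)).im : ℝ) : ℂ) = u a / (2 * Complex.I) := by
    have := im_mul_conj (V a) (A' a)
    rw [mul_comm (A' a), this, hu]
    ring
  rw [e1, e2, e3]
  have hI : (2 * Complex.I) * (2 * Complex.I) = -4 := by
    calc (2 * Complex.I) * (2 * Complex.I) = 4 * (Complex.I * Complex.I) := by ring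
      _ = _ := by rw [Complex.I_mul_I]; ring
  have e4 : 4 * ((K : ℂ) ^ 2 - (p / 2) ^ 2) / (p / 2) * (u a / (2 * Complex.I) *
      ((S - T) / (2 * Complex.I))) =
      4 * ((K : ℂ) ^ 2 - (p / 2) ^ 2) / (p / 2) * (u a * (S - T) / ((2 * Complex.I) * (2 * Complex.I))) := by
    field_simp
  rw [e4, hI]
  have hT' : T = -((p / 2 - K) / (p / 2 + K)) * S := by
    have h3' : (p / 2 + K : ℂ) * T = -((p / 2 - K) * S) := by linear_combination hL
    have : T = (p / 2 + K : ℂ)⁻¹ * ((p / 2 + K : ℂ) * T) := by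
      rw [← mul_assoc, inv_mul_cancel₀ hne1, one_mul]
    rw [this, h3']
    ring
  rw [hT']
  have hne1' : (p : ℂ) + K * 2 ≠ 0 := by
    intro h0
    apply hne1
    linear_combination (1 / 2) * h0
  have hy := mul_inv_cancel₀ hne1'
  field_simp
  linear_combination (2 * u a * K * S * (p - 2 * K)) * hy

end

end Pool.Agent.H65.RM
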