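import Pool.Agent.H65.RM.Tor

/-!
# RM module Tor2: differentiation of `J` along a line (paper, (4c))
-/

open Filter Topology MeasureTheory intervalIntegral Asymptotics

namespace Pool.Agent.H65.RM

/-- differentiation of a double integral -/
lemma deriv_double {G F : ℝ → ℝ → ℝ → ℂ}
    (hG : ∀ τ a b, HasDerivAt (fun τ => G τ a b) (F τ a b) τ)
    (hF : Continuous fun x : ℝ × ℝ × ℝ => F x.1 x.2.1 x.2.2)
    (hG0 : Continuous (Function.uncurry (G 0))) (c d c' d' : ℝ) (τ : ℝ) :
    HasDerivAt (fun τ : ℝ => ∫ a in c..d, ∫ b in c'..d', G τ a b)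
      (∫ a in c..d, ∫ b in c'..d', F τ a b) τ := by
  have hφ2 : Continuous (Function.uncurry fun τ a : ℝ => ∫ b in c'..d', F τ a b) := by
    have hc : Continuous (Function.uncurry fun (x : ℝ × ℝ) b => F x.1 x.2 b) := by
      have e : (Function.uncurry fun (x : ℝ × ℝ) b => F x.1 x.2 b) =
          (fun x : ℝ × ℝ × ℝ => F x.1 x.2.1 x.2.2) ∘ fun y : (ℝ × ℝ) × ℝ => (y.1.1, y.1.2, y.2) := by
        funext ⟨x, b⟩
        rfl
      rw [e]
      exact hF.comp (by fun_prop)
    have h1 := intervalIntegral.continuous_parametric_intervalIntegral_of_continuous'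
      (μ := volume) hc c' d'
    have e2 : (Function.uncurry fun τ a : ℝ => ∫ b in c'..d', F τ a b) =
        fun x : ℝ × ℝ => ∫ b in c'..d', F x.1 x.2 b := by
      funext ⟨x, y⟩
      rfl
    rw [e2]
    exact h1
  have hφ : Continuous fun τ : ℝ => ∫ a in c..d, ∫ b in c'..d', F τ a b :=
    intervalIntegral.continuous_parametric_intervalIntegral_of_continuous' hφ2 _ _
  have hGi : ∀ τ a b : ℝ, G τ a b = G 0 a b + ∫ s in (0 : ℝ)..τ, F s a b := by
    intro τ a b
    rw [intervalIntegral.integral_eq_sub_of_hasDerivAt (fun s _ => hG s a b)]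
    · ring
    · exact (hF.comp (show Continuous fun s : ℝ => (s, a, b) by fun_prop)).intervalIntegrable _ _
  have hI : ∀ τ : ℝ, (∫ a in c..d, ∫ b in c'..d', G τ a b) =
      (∫ a in c..d, ∫ b in c'..d', G 0 a b) +
      ∫ s in (0 : ℝ)..τ, ∫ a in c..d, ∫ b in c'..d', F s a b := by
    intro τ
    have e2 : ∀ a : ℝ, (∫ b in c'..d', G τ a b) =
        (∫ b in c'..d', G 0 a b) + ∫ s in (0 : ℝ)..τ, ∫ b in c'..d', F s a b := by
      intro a
      have hs : Continuous (Function.uncurry fun b s : ℝ => F s a b) := by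
        have e : (Function.uncurry fun b s : ℝ => F s a b) =
            (fun x : ℝ × ℝ × ℝ => F x.1 x.2.1 x.2.2) ∘ fun y : ℝ × ℝ => (y.2, a, y.1) := by
          funext ⟨x, b⟩
          rfl
        rw [e]
        exact hF.comp (by fun_prop)
      have h2 : (∫ s in (0 : ℝ)..τ, ∫ b in c'..d', F s a b) =
          ∫ b in c'..d', ∫ s in (0 : ℝ)..τ, F s a b :=
        (swap_cont hs _ _ _ _).symm
      rw [h2, ← intervalIntegral.integral_add]
      · congr 1
        funext b
        exact hGi τ a b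
      · exact (hG0.comp (Continuous.prodMk_right a)).intervalIntegrable _ _
      · exact (intervalIntegral.continuous_parametric_intervalIntegral_of_continuous' hs _ _
          ).intervalIntegrable _ _
    simp only [e2]
    have hs2 : Continuous (Function.uncurry fun a s : ℝ => ∫ b in c'..d', F s a b) := by
      have e : (Function.uncurry fun a s : ℝ => ∫ b in c'..d', F s a b) =
          (Function.uncurry fun τ a : ℝ => ∫ b in c'..d', F τ a b) ∘ fun y : ℝ × ℝ => (y.2, y.1) := by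
        funext ⟨x, b⟩
        rfl
      rw [e]
      exact hφ2.comp (by fun_prop)
    rw [intervalIntegral.integral_add, swap_cont hs2]
    · exact (intervalIntegral.continuous_parametric_intervalIntegral_of_continuous'
        hG0 _ _).intervalIntegrable _ _
    · exact (intervalIntegral.continuous_parametric_intervalIntegral_of_continuous' hs2 _ _
        ).intervalIntegrable _ _
  have hfun : (fun τ : ℝ => ∫ a in c..d, ∫ b in c'..d', G τ a b) =
      fun τ => (∫ a in c..d, ∫ b in c'..d', G 0 a b) +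
      ∫ s in (0 : ℝ)..τ, ∫ a in c..d, ∫ b in c'..d', F s a b := funext hI
  rw [hfun]
  exact (intervalIntegral.integral_hasDerivAt_right (hφ.intervalIntegrable _ _)
    hφ.aestronglyMeasurable.stronglyMeasurableAtFilter hφ.continuousAt).const_add _

section

variable {p : ℝ} {K : ℕ} {A A' V V' : ℝ → ℂ}

/-- the integrand of `J` along the line -/
noncomputable def Gt (p : ℝ) (K : ℕ) (A A' V V' : ℝ → ℂ) (τ a b : ℝ) : ℂ :=
  Ph p K ((A b + τ * V b) - (A a + τ * V a)) * (starRingEnd ℂ) (A' a + τ * V' a) * (A' b + τ * V' b)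

/-- its derivative -/
noncomputable def dGt (p : ℝ) (K : ℕ) (A A' V V' : ℝ → ℂ) (τ a b : ℝ) : ℂ :=
  dG p K (fun θ => A θ + τ * V θ) (fun θ => A' θ + τ * V' θ) V V' a b

lemma Gt_deriv (hK : 1 ≤ K) (hp : 1 < p) (τ a b : ℝ) :
    HasDerivAt (fun τ : ℝ => Gt p K A A' V V' τ a b) (dGt p K A A' V V' τ a b) τ := by
  have lin : ∀ c d : ℂ, HasDerivAt (fun τ : ℝ => c + τ * d) d τ := by
    intro c d
    have h1 : HasDerivAt (fun τ : ℝ => (τ : ℂ) * d) (1 * d) τ :=
      (Complex.ofRealCLM.hasDerivAt (x := τ)).mul_const d |>.congr_deriv (by simp)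
    rw [one_mul] at h1
    exact h1.const_add c
  have hz : HasDerivAt (fun τ : ℝ => (A b + τ * V b) - (A a + τ * V a)) (V b - V a) τ :=
    (lin _ _).sub (lin _ _)
  have h1 := Ph_deriv hK hp hz
  have h2 : HasDerivAt (fun τ : ℝ => (starRingEnd ℂ) (A' a + τ * V' a)) ((starRingEnd ℂ) (V' a)) τ := cv_conj (lin _ _)
  have h3 := (h1.mul h2).mul (lin (A' b) (V' b))
  refine h3.congr_deriv ?_
  unfold dGt dG
  simp only [Pi.mul_apply]
  ring

lemma dGt_cont (hK : 1 ≤ K) (hp : 1 < p) (h : Cv A A') (hV : Cv V V') :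
    Continuous fun x : ℝ × ℝ × ℝ => dGt p K A A' V V' x.1 x.2.1 x.2.2 := by
  have hτ : Continuous fun x : ℝ × ℝ × ℝ => ((x.1 : ℝ) : ℂ) := by fun_prop
  have pa : Continuous fun x : ℝ × ℝ × ℝ => x.2.1 := by fun_prop
  have pb : Continuous fun x : ℝ × ℝ × ℝ => x.2.2 := by fun_prop
  have va : Continuous fun x : ℝ × ℝ × ℝ => V x.2.1 := hV.contA.comp pa
  have vb : Continuous fun x : ℝ × ℝ × ℝ => V x.2.2 := hV.contA.comp pb
  have va' : Continuous fun x : ℝ × ℝ × ℝ => V' x.2.1 := hV.cont.comp pa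
  have vb' : Continuous fun x : ℝ × ℝ × ℝ => V' x.2.2 := hV.cont.comp pb
  have aa : Continuous fun x : ℝ × ℝ × ℝ => A x.2.1 + x.1 * V x.2.1 :=
    (h.contA.comp pa).add (hτ.mul va)
  have ab : Continuous fun x : ℝ × ℝ × ℝ => A x.2.2 + x.1 * V x.2.2 :=
    (h.contA.comp pb).add (hτ.mul vb)
  have aa' : Continuous fun x : ℝ × ℝ × ℝ => A' x.2.1 + x.1 * V' x.2.1 :=
    (h.cont.comp pa).add (hτ.mul va')
  have ab' : Continuous fun x : ℝ × ℝ × ℝ => A' x.2.2 + x.1 * V' x.2.2 :=
    (h.cont.comp pb).add (hτ.mul vb')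
  have cZ := ab.sub aa
  have cP := (Ph_cont (p := p) hK hp).comp cZ
  have cA := (gA_cont (p := p) hK hp).comp cZ
  have cB := (gB_cont (p := p) hK hp).comp cZ
  have cc : Continuous fun z : ℂ => (starRingEnd ℂ) z := Complex.continuous_conj
  exact (((((continuous_const.mul cA).mul (vb.sub va)).add ((continuous_const.mul cB).mul
    (cc.comp (vb.sub va)))).mul (cc.comp aa')).mul ab').add
    ((cP.mul (cc.comp va')).mul ab') |>.add ((cP.mul (cc.comp aa')).mul vb')

lemma Gt_cont (hK : 1 ≤ K) (hp : 1 < p) (h : Cv A A') (hV : Cv V V') (τ : ℝ) :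
    Continuous (Function.uncurry fun a b : ℝ => Gt p K A A' V V' τ a b) := by
  have hc := h.smul_add hV τ
  have cZ := cZ2 hc
  exact (((Ph_cont (p := p) hK hp).comp cZ).mul
    (Complex.continuous_conj.comp (hc.cont.comp continuous_fst))).mul (hc.cont.comp continuous_snd)

theorem JJ_deriv (hK : 1 ≤ K) (hp : 1 < p) (h : Cv A A') (hV : Cv V V') (τ : ℝ) :
    HasDerivAt (fun τ : ℝ => JJ p K (fun θ => A θ + τ * V θ) (fun θ => A' θ + τ * V' θ))
      (∫ a in (0 : ℝ)..2 * Real.pi, ∫ b in (0 : ℝ)..2 * Real.pi, dGt p K A A' V V' τ a b) τ :=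
  deriv_double (G := Gt p K A A' V V') (F := dGt p K A A' V V') (Gt_deriv hK hp)
    (dGt_cont hK hp h hV) (Gt_cont hK hp h hV 0) 0 (2 * Real.pi) 0 (2 * Real.pi) τ

/-- (4c) -/
theorem JJ_deriv' (hK : 1 ≤ K) (hp : 1 < p) (h : Cv A A') (hV : Cv V V') (τ : ℝ) :
    HasDerivAt (fun τ : ℝ => JJ p K (fun θ => A θ + τ * V θ) (fun θ => A' θ + τ * V' θ))
      (4 * (K ^ 2 - (p / 2) ^ 2) / (p / 2) * LL p K (fun θ => A θ + τ * V θ)
        (fun θ => A' θ + τ * V' θ) (fun a => ((A' a + τ * V' a) * (starRingEnd ℂ) (V a)).im)) τ := by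
  have h1 := JJ_deriv hK hp h hV τ
  have h2 := dG_int (p := p) hK hp (h.smul_add hV τ) hV
  rw [← h2]
  exact h1

end

end Pool.Agent.H65.RM
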